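import Pool.Agent.H288.HS.Stm2

set_option autoImplicit false

open MeasureTheory Set Filter Topology

namespace Pool.Agent.H288.HS

namespace ANAN

theorem coeff_le {d : ℕ} {C : ℝ} {z : ℝ → ℕ → ℝ} (hz : Fam d C z) {L : ℝ} (hL : 0 < L) (k : ℕ) :
    z L k ≤ (L ^ d) ^ k / (k.factorial : ℝ) := by
  induction k with
  | zero => simp [hz.zero L hL]
  | succ k ih =>
    have h1 := hz.del L hL k
    have hLd : 0 ≤ L ^ d := by positivity
    have h2 : (0:ℝ) < (k:ℝ) + 1 := by positivity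
    have h3 : (0:ℝ) < (k.factorial : ℝ) := by exact_mod_cast k.factorial_pos
    rw [Nat.factorial_succ]
    push_cast
    rw [le_div_iff₀ (by positivity)]
    rw [le_div_iff₀ h3] at ih
    calc z L (k + 1) * (((k:ℝ) + 1) * (k.factorial : ℝ))
        = (((k:ℝ) + 1) * z L (k + 1)) * (k.factorial : ℝ) := by ring
      _ ≤ (L ^ d * z L k) * (k.factorial : ℝ) := mul_le_mul_of_nonneg_right h1 h3.le
      _ = L ^ d * (z L k * (k.factorial : ℝ)) := by ring
      _ ≤ L ^ d * (L ^ d) ^ k := mul_le_mul_of_nonneg_left ih hLd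
      _ = (L ^ d) ^ (k + 1) := by rw [pow_succ]; ring

theorem summable_coeff {d : ℕ} {C : ℝ} {z : ℝ → ℕ → ℝ} (hz : Fam d C z) {L : ℝ} (hL : 0 < L)
    {ρ : ℝ} (hρ : 0 ≤ ρ) : Summable (fun k => z L k * ρ ^ k) := by
  refine Summable.of_nonneg_of_le (fun k => mul_nonneg (hz.nonneg L hL k) (by positivity)) ?_
    (Real.summable_pow_div_factorial (L ^ d * ρ))
  intro k
  have h1 := mul_le_mul_of_nonneg_right (coeff_le hz hL k) (show 0 ≤ ρ ^ k by positivity)
  calc z L k * ρ ^ k ≤ (L ^ d) ^ k / (k.factorial : ℝ) * ρ ^ k := h1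
    _ = (L ^ d * ρ) ^ k / (k.factorial : ℝ) := by rw [mul_pow]; ring

theorem differentiable_ZC {d : ℕ} {C : ℝ} {z : ℝ → ℕ → ℝ} (hz : Fam d C z) {L : ℝ} (hL : 0 < L) :
    Differentiable ℂ (ZC z L) := by
  intro w
  obtain ⟨ρ, hρ⟩ : ∃ ρ : ℝ, ρ = ‖w‖ + 1 := ⟨_, rfl⟩
  have hρ0 : 0 ≤ ρ := by rw [hρ]; positivity
  have h1 : DifferentiableOn ℂ (fun t : ℂ => ∑' k : ℕ, (z L k : ℂ) * t ^ k)
      (Metric.ball 0 ρ) := by
    refine Complex.differentiableOn_tsum_of_summable_norm (summable_coeff hz hL hρ0) ?_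
      Metric.isOpen_ball ?_
    · intro k
      exact ((differentiable_const _).mul (differentiable_id.pow k)).differentiableOn
    · intro k t ht
      have ht' : ‖t‖ ≤ ρ := by
        rw [Metric.mem_ball, dist_zero_right] at ht
        exact ht.le
      rw [norm_mul, norm_pow, Complex.norm_real, Real.norm_of_nonneg (hz.nonneg L hL k)]
      exact mul_le_mul_of_nonneg_left (pow_le_pow_left₀ (norm_nonneg _) ht' k)
        (hz.nonneg L hL k)
  have h2 : w ∈ Metric.ball (0:ℂ) ρ := by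
    rw [Metric.mem_ball, dist_zero_right, hρ]; linarith
  exact h1.differentiableAt (Metric.isOpen_ball.mem_nhds h2)

theorem ZC_real {z : ℝ → ℕ → ℝ} (L l : ℝ) : ZC z L (l : ℂ) = ((ZM z L 0 l : ℝ) : ℂ) := by
  unfold ZC ZM
  rw [Complex.ofReal_tsum]
  apply tsum_congr
  intro k
  push_cast
  ring

theorem one_le_ZM {d : ℕ} {C : ℝ} {z : ℝ → ℕ → ℝ} (hz : Fam d C z) {L : ℝ} (hL : 0 < L)
    {l : ℝ} (hl : 0 ≤ l) : 1 ≤ ZM z L 0 l := by
  have h1 : ZM z L 0 l = ∑' k : ℕ, z L k * l ^ k := by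
    unfold ZM
    apply tsum_congr
    intro k
    ring
  rw [h1]
  have h2 := (summable_coeff hz hL hl).le_tsum 0
    (fun k _ => mul_nonneg (hz.nonneg L hL k) (by positivity))
  simpa [hz.zero L hL] using h2

/-- A logarithm of the partition function on the disc, divided by the volume. -/
theorem exists_log {d : ℕ} {C : ℝ} {z : ℝ → ℕ → ℝ} (hz : Fam d C z) {l₁ ε M : ℝ}
    (hε : 0 < ε) (_ : 0 < M) (hfree : FreeR d z l₁ ε M) {s : ℝ} (hs : s ∈ Set.Ioo 0 l₁)
    {L : ℝ} (hL : 0 < L) :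
    ∃ F : ℂ → ℂ, F s = 0 ∧ (∀ t ∈ Metric.ball (s:ℂ) ε, DifferentiableAt ℂ F t) ∧
      (∀ t ∈ Metric.ball (s:ℂ) ε, ∀ t' ∈ Metric.ball (s:ℂ) ε, ‖F t - F t'‖ ≤ M * ‖t - t'‖) ∧
      ∀ l : ℝ, 0 ≤ l → (l:ℂ) ∈ Metric.ball (s:ℂ) ε →
        Real.log (ZM z L 0 l) / L ^ d = Real.log (ZM z L 0 s) / L ^ d + (F l).re := by
  have hD := differentiable_ZC hz hL
  have hLd : 0 < L ^ d := by positivity
  have hLdc : ((L ^ d : ℝ) : ℂ) ≠ 0 := by exact_mod_cast hLd.ne'
  have hsub : ∀ t ∈ Metric.ball (s:ℂ) ε, t ∈ Om l₁ ε := by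
    intro t ht
    refine ⟨s, hs.1.le, hs.2.le, ?_⟩
    rwa [Metric.mem_ball, dist_eq_norm] at ht
  obtain ⟨f, hf⟩ : ∃ f : ℂ → ℂ, f = fun t => deriv (ZC z L) t / ZC z L t / ((L ^ d : ℝ) : ℂ) :=
    ⟨_, rfl⟩
  have hfd : DifferentiableOn ℂ f (Metric.ball (s:ℂ) ε) := by
    intro t ht
    rw [hf]
    have h1 : DifferentiableAt ℂ (deriv (ZC z L)) t := hD.contDiff.differentiable_deriv_two t
    exact ((h1.div (hD t) (hfree L hL t (hsub t ht)).1).div_const _).differentiableWithinAt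
  have hfb : ∀ t ∈ Metric.ball (s:ℂ) ε, ‖f t‖ ≤ M := by
    intro t ht
    obtain ⟨h0, h1⟩ := hfree L hL t (hsub t ht)
    have h2 : 0 < ‖ZC z L t‖ := norm_pos_iff.mpr h0
    rw [hf]
    simp only [norm_div, Complex.norm_real]
    rw [Real.norm_of_nonneg hLd.le, div_div, div_le_iff₀ (by positivity)]
    calc ‖deriv (ZC z L) t‖ ≤ M * L ^ d * ‖ZC z L t‖ := h1
      _ = M * (‖ZC z L t‖ * L ^ d) := by ring
  obtain ⟨F, hF0, hF⟩ := hfd.isExactOn_ball.with_val_at (s:ℂ) 0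
  have hconv : Convex ℝ (Metric.ball (s:ℂ) ε) := convex_ball _ _
  refine ⟨F, hF0, fun t ht => (hF t ht).differentiableAt, ?_, ?_⟩
  · intro t ht t' ht'
    exact hconv.norm_image_sub_le_of_norm_hasDerivWithin_le
      (fun x hx => (hF x hx).hasDerivWithinAt) hfb ht' ht
  · -- the function `ZC exp (- L^d F)` is constant
    have hG : ∀ t ∈ Metric.ball (s:ℂ) ε,
        HasDerivAt (fun t => ZC z L t * Complex.exp (-(((L ^ d : ℝ) : ℂ) * F t))) 0 t := by
      intro t ht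
      have h0 := (hfree L hL t (hsub t ht)).1
      have h1 := (hD t).hasDerivAt
      have h2 := (((hF t ht).const_mul (((L ^ d : ℝ) : ℂ))).neg).cexp
      have h3 := h1.mul h2
      refine h3.congr_deriv ?_
      rw [hf]
      field_simp
      ring
    have hss : (s:ℂ) ∈ Metric.ball (s:ℂ) ε := Metric.mem_ball_self hε
    have hconst : ∀ t ∈ Metric.ball (s:ℂ) ε,
        ZC z L t * Complex.exp (-(((L ^ d : ℝ) : ℂ) * F t)) = ZC z L s := by
      intro t ht
      have h1 := hconv.norm_image_sub_le_of_norm_hasDerivWithin_le (C := 0)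
        (fun x hx => (hG x hx).hasDerivWithinAt) (fun x _ => by simp) hss ht
      rw [zero_mul] at h1
      have h2 := norm_le_zero_iff.mp h1
      rw [sub_eq_zero] at h2
      rw [h2, hF0]
      simp
    intro l hl hlb
    have h1 := hconst l hlb
    rw [ZC_real, ZC_real] at h1
    have h2 := congrArg norm h1
    rw [norm_mul, Complex.norm_exp, Complex.norm_real, Complex.norm_real] at h2
    have p1 := one_le_ZM hz hL hl
    have p2 := one_le_ZM hz hL hs.1.le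
    rw [Real.norm_of_nonneg (by linarith), Real.norm_of_nonneg (by linarith)] at h2
    have h3 : (-(((L ^ d : ℝ) : ℂ) * F l)).re = -(L ^ d * (F l).re) := by
      rw [Complex.neg_re, Complex.re_ofReal_mul]
    rw [h3] at h2
    have h4 := congrArg Real.log h2
    rw [Real.log_mul (by linarith) (Real.exp_pos _).ne', Real.log_exp] at h4
    rw [← h4]
    field_simp
    ring

/-- Pointwise limits of uniformly Lipschitz functions are locally uniform. -/
theorem locUnif {ι : Type} {φ : Filter ι} [φ.NeBot] {F : ι → ℂ → ℂ} {G : ℂ → ℂ} {U : Set ℂ}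
    {M : ℝ} (hM : 0 ≤ M)
    (hLip : ∀ᶠ i in φ, ∀ t ∈ U, ∀ t' ∈ U, ‖F i t - F i t'‖ ≤ M * ‖t - t'‖)
    (hpt : ∀ t ∈ U, Tendsto (fun i => F i t) φ (𝓝 (G t))) :
    TendstoLocallyUniformlyOn F G φ U := by
  rw [Metric.tendstoLocallyUniformlyOn_iff]
  intro δ hδ x hx
  have hG : ∀ t ∈ U, ∀ t' ∈ U, ‖G t - G t'‖ ≤ M * ‖t - t'‖ := by
    intro t ht t' ht'
    refine le_of_tendsto ((hpt t ht).sub (hpt t' ht')).norm ?_
    filter_upwards [hLip] with i hi
    exact hi t ht t' ht'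
  refine ⟨Metric.ball x (δ / (3 * (M + 1))) ∩ U, ?_, ?_⟩
  · rw [inter_comm]
    exact inter_mem_nhdsWithin _ (Metric.ball_mem_nhds _ (by positivity))
  · have h1 := (Metric.tendsto_nhds.mp (hpt x hx)) (δ / 3) (by positivity)
    filter_upwards [h1, hLip] with i hi1 hi2
    rintro y ⟨hy, hyU⟩
    rw [Metric.mem_ball, dist_eq_norm] at hy
    rw [dist_eq_norm] at hi1 ⊢
    have hMd : M * ‖y - x‖ ≤ δ / 3 := by
      have h2 : M * ‖y - x‖ ≤ (M + 1) * (δ / (3 * (M + 1))) :=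
        mul_le_mul (by linarith) hy.le (norm_nonneg _) (by linarith)
      have h3 : (M + 1) * (δ / (3 * (M + 1))) = δ / 3 := by field_simp
      linarith
    have a1 := hG y hyU x hx
    have a2 := hi2 x hx y hyU
    rw [norm_sub_rev x y] at a2
    have e : G y - F i y = (G y - G x) + (-(F i x - G x)) + (F i x - F i y) := by ring
    calc ‖G y - F i y‖ = ‖(G y - G x) + (-(F i x - G x)) + (F i x - F i y)‖ := by rw [e]
      _ ≤ ‖G y - G x‖ + ‖-(F i x - G x)‖ + ‖F i x - F i y‖ := norm_add₃_le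
      _ < δ := by rw [norm_neg]; linarith

end ANAN

open ANAN

theorem t_ANA : S_ANA := by
  intro d C z l₁ ε M _ _ _ hε hM hz hfree p hp s hs
  have hex : ∀ L : ℝ, ∃ F : ℂ → ℂ, 0 < L → (F s = 0 ∧
      (∀ t ∈ Metric.ball (s:ℂ) ε, DifferentiableAt ℂ F t) ∧
      (∀ t ∈ Metric.ball (s:ℂ) ε, ∀ t' ∈ Metric.ball (s:ℂ) ε, ‖F t - F t'‖ ≤ M * ‖t - t'‖) ∧
      ∀ l : ℝ, 0 ≤ l → (l:ℂ) ∈ Metric.ball (s:ℂ) ε →
        Real.log (ZM z L 0 l) / L ^ d = Real.log (ZM z L 0 s) / L ^ d + (F l).re) := by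
    intro L
    by_cases hL : 0 < L
    · obtain ⟨F, hF⟩ := exists_log hz hε hM hfree hs hL
      exact ⟨F, fun _ => hF⟩
    · exact ⟨0, fun h => absurd h hL⟩
  choose F hF using hex
  obtain ⟨φ, hφ⟩ : ∃ φ : Ultrafilter ℝ, (φ : Filter ℝ) ≤ atTop :=
    ⟨Ultrafilter.of atTop, Ultrafilter.of_le atTop⟩
  have hpos : ∀ᶠ L : ℝ in (φ : Filter ℝ), 0 < L := hφ (eventually_gt_atTop 0)
  have hss : (s:ℂ) ∈ Metric.ball (s:ℂ) ε := Metric.mem_ball_self hε
  have hlim : ∀ t : ℂ, ∃ g : ℂ, t ∈ Metric.ball (s:ℂ) ε →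
      Tendsto (fun L => F L t) (φ : Filter ℝ) (𝓝 g) := by
    intro t
    by_cases ht : t ∈ Metric.ball (s:ℂ) ε
    · have hK : IsCompact (Metric.closedBall (0:ℂ) (M * ε)) := isCompact_closedBall _ _
      have hmem : Metric.closedBall (0:ℂ) (M * ε) ∈ φ.map (fun L => F L t) := by
        rw [Ultrafilter.mem_map]
        have : ∀ᶠ L : ℝ in (φ : Filter ℝ), F L t ∈ Metric.closedBall (0:ℂ) (M * ε) := by
          filter_upwards [hpos] with L hL
          have h1 := (hF L hL).2.2.1 t ht s hss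
          rw [(hF L hL).1, sub_zero] at h1
          rw [mem_closedBall_zero_iff]
          have h2 : ‖t - s‖ ≤ ε := by
            rw [Metric.mem_ball, dist_eq_norm] at ht; exact ht.le
          exact h1.trans (mul_le_mul_of_nonneg_left h2 hM.le)
        exact this
      obtain ⟨g, _, hg⟩ := hK.ultrafilter_le_nhds (φ.map (fun L => F L t))
        (le_principal_iff.mpr hmem)
      exact ⟨g, fun _ => hg⟩
    · exact ⟨0, fun h => absurd h ht⟩
  choose G hG using hlim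
  have hLU : TendstoLocallyUniformlyOn F G (φ : Filter ℝ) (Metric.ball (s:ℂ) ε) := by
    refine locUnif hM.le ?_ hG
    filter_upwards [hpos] with L hL
    exact (hF L hL).2.2.1
  have hGd : DifferentiableOn ℂ G (Metric.ball (s:ℂ) ε) := by
    refine hLU.differentiableOn ?_ Metric.isOpen_ball
    filter_upwards [hpos] with L hL t ht
    exact ((hF L hL).2.1 t ht).differentiableWithinAt
  have hGa : AnalyticAt ℂ G (s:ℂ) :=
    hGd.analyticAt (Metric.isOpen_ball.mem_nhds hss)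
  have hre : AnalyticAt ℝ (fun x : ℝ => (G x).re) s := hGa.re_ofReal
  have hpe : ∀ l : ℝ, 0 ≤ l → (l:ℂ) ∈ Metric.ball (s:ℂ) ε → p l = p s + (G l).re := by
    intro l hl hlb
    have h1 : Tendsto (fun L : ℝ => Real.log (ZM z L 0 l) / L ^ d) (φ : Filter ℝ) (𝓝 (p l)) :=
      (hp l hl).mono_left hφ
    have h2 : Tendsto (fun L : ℝ => Real.log (ZM z L 0 s) / L ^ d) (φ : Filter ℝ) (𝓝 (p s)) :=
      (hp s hs.1.le).mono_left hφ
    have h3 : Tendsto (fun L : ℝ => (F L l).re) (φ : Filter ℝ) (𝓝 (G l).re) :=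
      (Complex.continuous_re.tendsto _).comp (hG l hlb)
    have h4 := h2.add h3
    refine tendsto_nhds_unique h1 (h4.congr' ?_)
    filter_upwards [hpos] with L hL
    exact ((hF L hL).2.2.2 l hl hlb).symm
  have hev : (fun x : ℝ => p s + (G x).re) =ᶠ[𝓝 s] p := by
    have n1 : ∀ᶠ x : ℝ in 𝓝 s, 0 < x := lt_mem_nhds hs.1
    have n2 : ∀ᶠ x : ℝ in 𝓝 s, (x:ℂ) ∈ Metric.ball (s:ℂ) ε :=
      Complex.continuous_ofReal.continuousAt.eventually (Metric.isOpen_ball.mem_nhds hss)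
    filter_upwards [n1, n2] with x h1 h2
    exact (hpe x h1.le h2).symm
  exact (analyticAt_const.add hre).congr hev

end Pool.Agent.H288.HS
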