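import Pool.Agent.H288.HS.Stm2

set_option autoImplicit false

open MeasureTheory Set Filter Topology

namespace Pool.Agent.H288.HS.BVN

open Pool.Agent.H288.HS

theorem meas_Bs (d : ℕ) (R : ℝ) : MeasurableSet (Bs d R) := by
  have : IsOpen (Bs d R) := isOpen_lt (by fun_prop) continuous_const
  exact this.measurableSet

theorem pre_Bs (d : ℕ) (R : ℝ) (hR : 0 < R) :
    (@WithLp.ofLp 2 (Fin d → ℝ)) ⁻¹' (Bs d R) = Metric.ball (0 : EuclideanSpace ℝ (Fin d)) R := by
  ext x
  rw [mem_preimage, mem_ball_zero_iff, EuclideanSpace.norm_eq, Real.sqrt_lt' hR]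
  simp only [Real.norm_eq_abs, sq_abs]
  rfl

theorem vol_Bs (d : ℕ) (R : ℝ) (hR : 0 < R) :
    volume (Bs d R) = volume (Metric.ball (0 : EuclideanSpace ℝ (Fin d)) R) := by
  rw [← pre_Bs d R hR]
  exact ((PiLp.volume_preserving_ofLp (Fin d)).measure_preimage
    (meas_Bs d R).nullMeasurableSet).symm

end Pool.Agent.H288.HS.BVN

namespace Pool.Agent.H288.HS

theorem t_BV : S_BV := by
  intro d R _ hR
  have h1 : ∀ r : ℝ, 0 < r → bv d r = volume.real (Metric.ball (0 : EuclideanSpace ℝ (Fin d)) r) :=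
    fun r hr => by rw [bv, Measure.real, Measure.real, BVN.vol_Bs d r hr]
  refine ⟨h1 R hR, ?_, ?_⟩
  · rw [h1 R hR, h1 1 one_pos, Measure.real, Measure.real, Measure.addHaar_ball_of_pos _ _ hR,
      ENNReal.toReal_mul, finrank_euclideanSpace_fin, ENNReal.toReal_ofReal (by positivity), mul_comm]
  · rw [h1 1 one_pos, Measure.real]
    exact ENNReal.toReal_pos (Metric.measure_ball_pos _ _ one_pos).ne' measure_ball_lt_top.ne

end Pool.Agent.H288.HS
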