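import Pool.Agent.H288.HS.Stm2

/-! CAN: the canonical ensemble (written by helper358). -/

set_option autoImplicit false

open MeasureTheory Set Filter Topology

namespace Pool.Agent.H288.HS.CANN

open Pool.Agent.H288.HS

variable {d : ℕ} {C : ℝ} {z : ℝ → ℕ → ℝ}

/-- the power series -/
noncomputable def Zs (z : ℝ → ℕ → ℝ) (L l : ℝ) : ℝ := ∑' k : ℕ, z L k * l ^ k

theorem ZM_eq (L l : ℝ) : ZM z L 0 l = Zs z L l := by
  unfold ZM Zs
  simp

theorem z_le (h : Fam d C z) {L : ℝ} (hL : 0 < L) (k : ℕ) :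
    z L k ≤ (L ^ d) ^ k / (k.factorial : ℝ) := by
  induction k with
  | zero => rw [h.zero L hL]; simp
  | succ k ih =>
    have h1 := h.del L hL k
    have hV : 0 < L ^ d := by positivity
    have hk : (0 : ℝ) < (k.factorial : ℝ) := by exact_mod_cast k.factorial_pos
    have hk1 : (0 : ℝ) < ((k + 1).factorial : ℝ) := by exact_mod_cast (k + 1).factorial_pos
    rw [le_div_iff₀ hk] at ih
    rw [le_div_iff₀ hk1, Nat.factorial_succ]
    push_cast
    calc z L (k + 1) * (((k : ℝ) + 1) * (k.factorial : ℝ)) =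
        (((k : ℝ) + 1) * z L (k + 1)) * (k.factorial : ℝ) := by ring
      _ ≤ (L ^ d * z L k) * (k.factorial : ℝ) := mul_le_mul_of_nonneg_right h1 hk.le
      _ = L ^ d * (z L k * (k.factorial : ℝ)) := by ring
      _ ≤ L ^ d * (L ^ d) ^ k := mul_le_mul_of_nonneg_left ih hV.le
      _ = (L ^ d) ^ (k + 1) := by ring

theorem summ (h : Fam d C z) {L l : ℝ} (hL : 0 < L) (hl : 0 ≤ l) :
    Summable (fun k : ℕ => z L k * l ^ k) := by
  refine Summable.of_nonneg_of_le (fun k => mul_nonneg (h.nonneg L hL k) (pow_nonneg hl k))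
    (fun k => ?_) (Real.summable_pow_div_factorial (L ^ d * l))
  rw [mul_pow, mul_div_right_comm]
  exact mul_le_mul_of_nonneg_right (z_le h hL k) (pow_nonneg hl k)

theorem term_le (h : Fam d C z) {L l : ℝ} (hL : 0 < L) (hl : 0 ≤ l) (n : ℕ) :
    z L n * l ^ n ≤ Zs z L l :=
  (summ h hL hl).le_tsum n fun k _ => mul_nonneg (h.nonneg L hL k) (pow_nonneg hl k)

theorem one_le (h : Fam d C z) {L l : ℝ} (hL : 0 < L) (hl : 0 ≤ l) : 1 ≤ Zs z L l := by
  have h1 := term_le h hL hl 0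
  rw [h.zero L hL] at h1
  simpa using h1

theorem exists_term (h : Fam d C z) {L : ℝ} (hL : 0 < L) {a₁ b a₂ c₁ c₂ : ℝ} (h1 : 0 < a₁)
    (h2 : a₁ ≤ b) (h3 : b ≤ a₂) (hc2 : 0 ≤ c₂)
    (t1 : (b / a₁) ^ c₁ * Zs z L a₁ ≤ Zs z L b / 8)
    (t2 : (b / a₂) ^ c₂ * Zs z L a₂ ≤ Zs z L b / 8) :
    ∃ n : ℕ, c₁ ≤ n ∧ (n : ℝ) ≤ c₂ ∧ Zs z L b / (2 * (c₂ + 1)) ≤ z L n * b ^ n := by
  by_contra hcon
  push Not at hcon
  have hb : 0 < b := h1.trans_le h2
  have ha2 : 0 < a₂ := hb.trans_le h3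
  have hZ := one_le h hL hb.le
  set K := Zs z L b / (2 * (c₂ + 1)) with hK
  have hK0 : 0 < K := by positivity
  have hpt : ∀ n : ℕ, z L n * b ^ n ≤ (b / a₁) ^ c₁ * (z L n * a₁ ^ n) +
      (b / a₂) ^ c₂ * (z L n * a₂ ^ n) +
      (if n ∈ Finset.range (⌊c₂⌋₊ + 1) then K else 0) := by
    intro n
    have hz := h.nonneg L hL n
    have p1 : 0 ≤ (b / a₁) ^ c₁ * (z L n * a₁ ^ n) := by positivity
    have p2 : 0 ≤ (b / a₂) ^ c₂ * (z L n * a₂ ^ n) := by positivity
    have p3 : (0 : ℝ) ≤ (if n ∈ Finset.range (⌊c₂⌋₊ + 1) then K else 0) := by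
      split_ifs
      · exact hK0.le
      · exact le_rfl
    rcases lt_or_ge (n : ℝ) c₁ with hn | hn
    · have e1 : b ^ n ≤ (b / a₁) ^ c₁ * a₁ ^ n := by
        have e2 : (b / a₁) ^ n ≤ (b / a₁) ^ c₁ := by
          rw [← Real.rpow_natCast]
          exact Real.rpow_le_rpow_of_exponent_le ((one_le_div h1).2 h2) hn.le
        have e3 : b ^ n = (b / a₁) ^ n * a₁ ^ n := by
          rw [← mul_pow, div_mul_cancel₀ _ h1.ne']
        rw [e3]
        exact mul_le_mul_of_nonneg_right e2 (by positivity)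
      have e4 := mul_le_mul_of_nonneg_left e1 hz
      have e5 : z L n * ((b / a₁) ^ c₁ * a₁ ^ n) = (b / a₁) ^ c₁ * (z L n * a₁ ^ n) := by ring
      linarith
    · rcases lt_or_ge c₂ (n : ℝ) with hn' | hn'
      · have e1 : b ^ n ≤ (b / a₂) ^ c₂ * a₂ ^ n := by
          have e2 : (b / a₂) ^ n ≤ (b / a₂) ^ c₂ := by
            rw [← Real.rpow_natCast]
            exact Real.rpow_le_rpow_of_exponent_ge (by positivity) ((div_le_one ha2).2 h3) hn'.le
          have e3 : b ^ n = (b / a₂) ^ n * a₂ ^ n := by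
            rw [← mul_pow, div_mul_cancel₀ _ ha2.ne']
          rw [e3]
          exact mul_le_mul_of_nonneg_right e2 (by positivity)
        have e4 := mul_le_mul_of_nonneg_left e1 hz
        have e5 : z L n * ((b / a₂) ^ c₂ * a₂ ^ n) = (b / a₂) ^ c₂ * (z L n * a₂ ^ n) := by ring
        linarith
      · have e1 := hcon n hn hn'
        have e2 : n ∈ Finset.range (⌊c₂⌋₊ + 1) := by
          rw [Finset.mem_range]
          have := Nat.le_floor hn'
          omega
        rw [if_pos e2]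
        linarith
  have s1 := (summ h hL h1.le).mul_left ((b / a₁) ^ c₁)
  have s2 := (summ h hL ha2.le).mul_left ((b / a₂) ^ c₂)
  have s3 : HasSum (fun n : ℕ => if n ∈ Finset.range (⌊c₂⌋₊ + 1) then K else 0)
      (((⌊c₂⌋₊ : ℝ) + 1) * K) := by
    have e1 : HasSum (fun n : ℕ => if n ∈ Finset.range (⌊c₂⌋₊ + 1) then K else 0)
        (∑ n ∈ Finset.range (⌊c₂⌋₊ + 1), (if n ∈ Finset.range (⌊c₂⌋₊ + 1) then K else 0)) :=
      hasSum_sum_of_ne_finset_zero (fun n hn => if_neg hn)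
    have e2 : ∑ n ∈ Finset.range (⌊c₂⌋₊ + 1),
        (if n ∈ Finset.range (⌊c₂⌋₊ + 1) then K else 0) = ((⌊c₂⌋₊ : ℝ) + 1) * K := by
      rw [Finset.sum_congr rfl fun n hn => if_pos hn, Finset.sum_const, Finset.card_range,
        nsmul_eq_mul]
      push_cast
      ring
    rw [e2] at e1
    exact e1
  have hle := Summable.tsum_le_tsum hpt (summ h hL hb.le) ((s1.add s2).add s3.summable)
  rw [(s1.add s2).tsum_add s3.summable, s1.tsum_add s2, tsum_mul_left, tsum_mul_left, s3.tsum_eq]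
    at hle
  have e6 : (⌊c₂⌋₊ : ℝ) ≤ c₂ := Nat.floor_le hc2
  have e7 : ((⌊c₂⌋₊ : ℝ) + 1) * K ≤ (c₂ + 1) * K :=
    mul_le_mul_of_nonneg_right (by linarith) hK0.le
  have e8 : (c₂ + 1) * K = Zs z L b / 2 := by
    rw [hK]; field_simp
  have e9 : ∑' k : ℕ, z L k * b ^ k = Zs z L b := rfl
  have e10 : ∑' k : ℕ, z L k * a₁ ^ k = Zs z L a₁ := rfl
  have e11 : ∑' k : ℕ, z L k * a₂ ^ k = Zs z L a₂ := rfl
  rw [e9, e10, e11] at hle
  linarith

theorem iter_del (h : Fam d C z) {L : ℝ} (hL : 0 < L) (N m : ℕ) :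
    ((N : ℝ) / L ^ d) ^ m * z L (N + m) ≤ z L N := by
  induction m with
  | zero => simp
  | succ m ih =>
    refine le_trans ?_ ih
    have hV : 0 < L ^ d := by positivity
    have h1 := h.del L hL (N + m)
    have h2 := h.nonneg L hL (N + m + 1)
    have h3 : (N : ℝ) * z L (N + m + 1) ≤ L ^ d * z L (N + m) := by
      refine le_trans (mul_le_mul_of_nonneg_right ?_ h2) h1
      push_cast
      have : (0 : ℝ) ≤ m := Nat.cast_nonneg m
      linarith
    have h4 : (N : ℝ) / L ^ d * z L (N + m + 1) ≤ z L (N + m) := by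
      rw [div_mul_eq_mul_div, div_le_iff₀ hV]
      linarith
    rw [pow_succ, mul_assoc]
    exact mul_le_mul_of_nonneg_left h4 (by positivity)

theorem tail_ev (h : Fam d C z) (hd : 1 ≤ d) {a b c pa pb : ℝ} (ha : 0 < a) (hb : 0 < b)
    (hpa : Tendsto (fun L : ℝ => Real.log (Zs z L a) / L ^ d) atTop (𝓝 pa))
    (hpb : Tendsto (fun L : ℝ => Real.log (Zs z L b) / L ^ d) atTop (𝓝 pb))
    (hlt : pa + c * Real.log (b / a) < pb) :
    ∀ᶠ L : ℝ in atTop, (b / a) ^ (c * L ^ d) * Zs z L a ≤ Zs z L b / 8 := by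
  have hV : Tendsto (fun L : ℝ => L ^ d) atTop atTop := tendsto_pow_atTop (by omega)
  have t1 : Tendsto (fun L : ℝ => c * Real.log (b / a) + Real.log (Zs z L a) / L ^ d +
      Real.log 8 / L ^ d) atTop (𝓝 (c * Real.log (b / a) + pa + 0)) :=
    ((tendsto_const_nhds).add hpa).add (tendsto_const_nhds.div_atTop hV)
  filter_upwards [t1.eventually_lt hpb (by linarith), eventually_gt_atTop (0 : ℝ)] with L h1 hL
  have hVp : 0 < L ^ d := by positivity
  have hZa : 0 < Zs z L a := lt_of_lt_of_le one_pos (one_le h hL ha.le)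
  have hZb : 0 < Zs z L b := lt_of_lt_of_le one_pos (one_le h hL hb.le)
  have h2 : Real.log (b / a) * (c * L ^ d) + Real.log (Zs z L a) + Real.log 8 ≤
      Real.log (Zs z L b) := by
    have h3 := mul_lt_mul_of_pos_right h1 hVp
    rw [add_mul, add_mul, div_mul_cancel₀ _ hVp.ne', div_mul_cancel₀ _ hVp.ne',
      div_mul_cancel₀ _ hVp.ne'] at h3
    linarith
  have h4 := Real.exp_le_exp.2 h2
  rw [Real.exp_add, Real.exp_add, Real.exp_log hZa, Real.exp_log hZb,
    Real.exp_log (by norm_num : (0 : ℝ) < 8), ← Real.rpow_def_of_pos (div_pos hb ha)] at h4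
  linarith

/-- strict convexity of the pressure in `log s` -/
theorem convex {l₁ : ℝ} {p : ℝ → ℝ} (han : ∀ s ∈ Set.Ioo 0 l₁, AnalyticAt ℝ p s)
    (hmono : StrictMonoOn (fun s => s * deriv p s) (Set.Ioo 0 l₁)) {a b : ℝ} (ha : 0 < a)
    (hab : a < b) (hb : b < l₁) :
    p a + (a * deriv p a) * Real.log (b / a) < p b ∧
    p b + (b * deriv p b) * Real.log (a / b) < p a := by
  have hsub : ∀ t ∈ Set.Icc a b, t ∈ Set.Ioo 0 l₁ := fun t ht =>
    ⟨ha.trans_le ht.1, ht.2.trans_lt hb⟩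
  have hd : ∀ c : ℝ, ∀ t ∈ Set.Icc a b,
      HasDerivAt (fun t => p t - c * Real.log t) (deriv p t - c * t⁻¹) t := by
    intro c t ht
    have h1 := (han t (hsub t ht)).differentiableAt.hasDerivAt
    have h2 := (Real.hasDerivAt_log (hsub t ht).1.ne').const_mul c
    exact h1.sub h2
  have hcont : ∀ c : ℝ, ContinuousOn (fun t => p t - c * Real.log t) (Set.Icc a b) :=
    fun c t ht => (hd c t ht).continuousAt.continuousWithinAt
  have hamem : a ∈ Set.Icc a b := ⟨le_rfl, hab.le⟩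
  have hbmem : b ∈ Set.Icc a b := ⟨hab.le, le_rfl⟩
  have e1 : Real.log (b / a) = Real.log b - Real.log a :=
    Real.log_div (ha.trans hab).ne' ha.ne'
  have e2 : Real.log (a / b) = Real.log a - Real.log b :=
    Real.log_div ha.ne' (ha.trans hab).ne'
  constructor
  · have h1 : StrictMonoOn (fun t => p t - (a * deriv p a) * Real.log t) (Set.Icc a b) := by
      apply strictMonoOn_of_deriv_pos (convex_Icc a b) (hcont _)
      intro t ht
      rw [interior_Icc] at ht
      have ht' : t ∈ Set.Icc a b := ⟨ht.1.le, ht.2.le⟩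
      rw [(hd _ t ht').deriv]
      have h2 := hmono (hsub a hamem) (hsub t ht') ht.1
      simp only at h2
      have ht0 : 0 < t := (hsub t ht').1
      have h3 : deriv p t - a * deriv p a * t⁻¹ = (t * deriv p t - a * deriv p a) / t := by
        field_simp
      rw [h3]
      exact div_pos (by linarith) ht0
    have h4 := h1 hamem hbmem hab
    simp only at h4
    rw [e1]
    linarith
  · have h1 : StrictAntiOn (fun t => p t - (b * deriv p b) * Real.log t) (Set.Icc a b) := by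
      apply strictAntiOn_of_deriv_neg (convex_Icc a b) (hcont _)
      intro t ht
      rw [interior_Icc] at ht
      have ht' : t ∈ Set.Icc a b := ⟨ht.1.le, ht.2.le⟩
      rw [(hd _ t ht').deriv]
      have h2 := hmono (hsub t ht') (hsub b hbmem) ht.2
      simp only at h2
      have ht0 : 0 < t := (hsub t ht').1
      have h3 : deriv p t - b * deriv p b * t⁻¹ = (t * deriv p t - b * deriv p b) / t := by
        field_simp
      rw [h3]
      exact div_neg_of_neg_of_pos (by linarith) ht0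
    have h4 := h1 hamem hbmem hab
    simp only at h4
    rw [e2]
    linarith

/-- the lower bound -/
theorem lower (h : Fam d C z) (hd : 1 ≤ d) {l₁ : ℝ} {p : ℝ → ℝ}
    (hp : ∀ l : ℝ, 0 ≤ l → Tendsto (fun L : ℝ => Real.log (Zs z L l) / L ^ d) atTop (𝓝 (p l)))
    (han : ∀ s ∈ Set.Ioo 0 l₁, AnalyticAt ℝ p s)
    (hpos : ∀ s ∈ Set.Ioo 0 l₁, 0 < deriv p s)
    (hmono : StrictMonoOn (fun s => s * deriv p s) (Set.Ioo 0 l₁)) {s : ℝ}
    (hs : s ∈ Set.Ioo 0 l₁) {δ : ℝ} (hδ : 0 < δ) :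
    ∀ᶠ q in thermo d (s * deriv p s), 0 < z q.2 q.1 ∧
      p s - (s * deriv p s) * Real.log s - δ < Real.log (z q.2 q.1) / q.2 ^ d := by
  set ρ := s * deriv p s with hρ
  have hs0 : 0 < s := hs.1
  have hρ0 : 0 < ρ := mul_pos hs0 (hpos s hs)
  -- the function of four variables
  have hcont : ContinuousAt (fun w : ℝ × ℝ × ℝ × ℝ =>
      (w.1 - w.2.2.1) * Real.log w.2.2.1 + w.2.2.2 - w.1 * Real.log w.2.1) (ρ, s, ρ, p s) := by
    have c1 : ContinuousAt (fun w : ℝ × ℝ × ℝ × ℝ => Real.log w.2.2.1) (ρ, s, ρ, p s) := by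
      refine ContinuousAt.log ?_ hρ0.ne'
      fun_prop
    have c2 : ContinuousAt (fun w : ℝ × ℝ × ℝ × ℝ => Real.log w.2.1) (ρ, s, ρ, p s) := by
      refine ContinuousAt.log ?_ hs0.ne'
      fun_prop
    have c3 : ContinuousAt (fun w : ℝ × ℝ × ℝ × ℝ => w.1 - w.2.2.1) (ρ, s, ρ, p s) := by fun_prop
    have c4 : ContinuousAt (fun w : ℝ × ℝ × ℝ × ℝ => w.2.2.2) (ρ, s, ρ, p s) := by fun_prop
    have c5 : ContinuousAt (fun w : ℝ × ℝ × ℝ × ℝ => w.1) (ρ, s, ρ, p s) := by fun_prop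
    exact ((c3.mul c1).add c4).sub (c5.mul c2)
  obtain ⟨η, hη, hη2⟩ := Metric.continuousAt_iff.1 hcont (δ / 2) (by linarith)
  have key : ∀ x t r P : ℝ, |x - ρ| < η → |t - s| < η → |r - ρ| < η → |P - p s| < η →
      p s - ρ * Real.log s - δ / 2 < (x - r) * Real.log r + P - x * Real.log t := by
    intro x t r P h1 h2 h3 h4
    have h5 : dist (x, t, r, P) (ρ, s, ρ, p s) < η := by
      rw [Prod.dist_eq, Prod.dist_eq, Prod.dist_eq]
      simp only [Real.dist_eq]
      exact max_lt h1 (max_lt h2 (max_lt h3 h4))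
    have h6 := hη2 h5
    rw [Real.dist_eq] at h6
    have h7 := (abs_lt.1 h6).1
    simp only [sub_self, zero_mul, zero_add] at h7
    linarith
  -- the choice of the activities
  have hρc : ContinuousAt (fun t => t * deriv p t) s :=
    continuousAt_id.mul (han s hs).deriv.continuousAt
  have hpc : ContinuousAt p s := (han s hs).continuousAt
  obtain ⟨ε₁, hε₁, hε₁2⟩ := Metric.continuousAt_iff.1 hρc η hη
  obtain ⟨ε₂, hε₂, hε₂2⟩ := Metric.continuousAt_iff.1 hpc (η / 2) (by linarith)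
  obtain ⟨τ, hτ0, hτ⟩ : ∃ τ : ℝ, 0 < τ ∧ τ < ε₁ ∧ τ < ε₂ ∧ τ < η ∧ s + τ < l₁ := by
    refine ⟨min (min ε₁ ε₂) (min η (l₁ - s)) / 2, ?_, ?_⟩
    · have h1 : 0 < l₁ - s := by linarith [hs.2]
      have := lt_min (lt_min hε₁ hε₂) (lt_min hη h1)
      linarith
    · have h1 : 0 < l₁ - s := by linarith [hs.2]
      have h0 := lt_min (lt_min hε₁ hε₂) (lt_min hη h1)
      have a1 := min_le_left (min ε₁ ε₂) (min η (l₁ - s))
      have a2 := min_le_right (min ε₁ ε₂) (min η (l₁ - s))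
      have a3 := min_le_left ε₁ ε₂
      have a4 := min_le_right ε₁ ε₂
      have a5 := min_le_left η (l₁ - s)
      have a6 := min_le_right η (l₁ - s)
      refine ⟨by linarith, by linarith, by linarith, by linarith⟩
  obtain ⟨hτ1, hτ2, hτ3, hτ4⟩ := hτ
  have m1 : s + τ / 4 ∈ Set.Ioo 0 l₁ := ⟨by linarith, by linarith⟩
  have m2 : s + τ / 2 ∈ Set.Ioo 0 l₁ := ⟨by linarith, by linarith⟩
  have m3 : s + τ ∈ Set.Ioo 0 l₁ := ⟨by linarith, by linarith⟩
  obtain ⟨s₁, hs₁⟩ : ∃ t, t = s + τ / 4 := ⟨_, rfl⟩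
  obtain ⟨s', hs'⟩ : ∃ t, t = s + τ / 2 := ⟨_, rfl⟩
  obtain ⟨s'', hs''⟩ : ∃ t, t = s + τ := ⟨_, rfl⟩
  rw [← hs₁] at m1
  rw [← hs'] at m2
  rw [← hs''] at m3
  have o1 : s < s₁ := by linarith
  have o2 : s₁ < s' := by linarith
  have o3 : s' < s'' := by linarith
  obtain ⟨ρ₁, hρ₁⟩ : ∃ t, t = s₁ * deriv p s₁ := ⟨_, rfl⟩
  obtain ⟨ρ'', hρ''⟩ : ∃ t, t = s'' * deriv p s'' := ⟨_, rfl⟩
  have r1 : ρ < ρ₁ := by
    rw [hρ₁, hρ]
    exact hmono hs m1 o1
  have r2 : ρ₁ < ρ'' := by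
    rw [hρ₁, hρ'']
    exact hmono m1 m3 (o2.trans o3)
  have r3 : ρ'' < ρ + η := by
    have h1 : dist s'' s < ε₁ := by
      rw [Real.dist_eq, hs'']
      rw [abs_of_pos (by linarith)]
      linarith
    have h2 := hε₁2 h1
    rw [Real.dist_eq] at h2
    have h3 := (abs_lt.1 h2).2
    rw [hρ'']
    linarith
  have r4 : |p s' - p s| < η / 2 := by
    have h1 : dist s' s < ε₂ := by
      rw [Real.dist_eq, hs']
      rw [abs_of_pos (by linarith)]
      linarith
    have h2 := hε₂2 h1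
    rwa [Real.dist_eq] at h2
  have g1 := (convex han hmono m1.1 o2 m2.2).1
  have g2 := (convex han hmono m2.1 o3 m3.2).2
  rw [← hρ₁] at g1
  rw [← hρ''] at g2
  -- the limits
  have l1 : Tendsto (fun q : ℕ × ℝ => q.2) (thermo d ρ) atTop :=
    tendsto_snd.mono_left inf_le_left
  have l2 : Tendsto (fun q : ℕ × ℝ => (q.1 : ℝ) / q.2 ^ d) (thermo d ρ) (𝓝 ρ) :=
    tendsto_comap.mono_left inf_le_right
  have hV : Tendsto (fun L : ℝ => L ^ d) atTop atTop := tendsto_pow_atTop (by omega)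
  have hlog : Tendsto (fun L : ℝ => Real.log (2 * (ρ'' * L ^ d + 1)) / L ^ d) atTop (𝓝 0) := by
    have h1 : Tendsto (fun x : ℝ => Real.log (2 * (ρ'' * x + 1)) / x) atTop (𝓝 0) := by
      have hρ''0 : 0 < ρ'' := hρ0.trans (r1.trans r2)
      have h2 : Tendsto (fun x : ℝ => 2 * (ρ'' * x + 1)) atTop atTop := by
        refine Tendsto.const_mul_atTop (by norm_num) ?_
        exact tendsto_atTop_add_const_right _ _ (tendsto_id.const_mul_atTop hρ''0)
      have h3 := Real.isLittleO_log_id_atTop.tendsto_div_nhds_zero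
      have h4 := h3.comp h2
      have h5 : Tendsto (fun x : ℝ => 2 * (ρ'' * x + 1) / x) atTop (𝓝 (2 * ρ'' + 0)) := by
        have h6 : Tendsto (fun x : ℝ => 2 * ρ'' + 2 / x) atTop (𝓝 (2 * ρ'' + 0)) :=
          tendsto_const_nhds.add (tendsto_const_nhds.div_atTop tendsto_id)
        refine h6.congr' ?_
        filter_upwards [eventually_gt_atTop (0 : ℝ)] with x hx
        field_simp
      have h7 := h4.mul h5
      rw [zero_mul] at h7
      refine h7.congr' ?_
      filter_upwards [eventually_gt_atTop (0 : ℝ)] with x hx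
      have h8 : 0 < 2 * (ρ'' * x + 1) := by positivity
      simp only [Function.comp_apply, id]
      field_simp
    exact h1.comp hV
  have e1 := l1.eventually (eventually_gt_atTop (0 : ℝ))
  have e2 := l2.eventually (Metric.ball_mem_nhds ρ hη)
  have e3 := l2.eventually (eventually_lt_nhds r1)
  have e4 := l2.eventually (eventually_gt_nhds hρ0)
  have e5 := l1.eventually (tail_ev (c := ρ₁) h hd m1.1 m2.1 (hp s₁ m1.1.le) (hp s' m2.1.le) g1)
  have e6 := l1.eventually (tail_ev (c := ρ'') h hd m3.1 m2.1 (hp s'' m3.1.le) (hp s' m2.1.le) g2)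
  have e7 := l1.eventually ((hp s' m2.1.le).eventually (Metric.ball_mem_nhds (p s')
    (by linarith : (0 : ℝ) < η / 2)))
  have e8 := l1.eventually (hlog.eventually (eventually_lt_nhds (by linarith : (0 : ℝ) < δ / 2)))
  filter_upwards [e1, e2, e3, e4, e5, e6, e7, e8] with q f1 f2 f3 f4 f5 f6 f7 f8
  obtain ⟨N, L⟩ := q
  simp only at f1 f2 f3 f4 f5 f6 f7 f8 ⊢
  have hVp : 0 < L ^ d := by positivity
  have hρ''0 : 0 < ρ'' := hρ0.trans (r1.trans r2)
  obtain ⟨n, n1, n2, n3⟩ := exists_term h f1 m1.1 o2.le o3.le (by positivity) f5 f6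
  have hNn : N ≤ n := by
    have h1 : (N : ℝ) < ρ₁ * L ^ d := by rwa [div_lt_iff₀ hVp] at f3
    exact_mod_cast (h1.trans_le n1).le
  have hZ' : 1 ≤ Zs z L s' := one_le h f1 m2.1.le
  have hzn : 0 < z L n * s' ^ n := lt_of_lt_of_le (by positivity) n3
  have hs'0 : 0 < s' := m2.1
  have hzn' : 0 < z L n := by
    refine lt_of_le_of_ne (h.nonneg L f1 n) fun h0 => ?_
    rw [← h0, zero_mul] at hzn
    exact lt_irrefl _ hzn
  have hdel := iter_del h f1 N (n - N)
  rw [Nat.add_sub_cancel' hNn] at hdel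
  have hr : 0 < ((N : ℝ) / L ^ d) ^ (n - N) := pow_pos f4 _
  have hpos1 : 0 < ((N : ℝ) / L ^ d) ^ (n - N) * z L n := mul_pos hr hzn'
  have hzN : 0 < z L N := hpos1.trans_le hdel
  refine ⟨hzN, ?_⟩
  have k1 := Real.log_le_log hpos1 hdel
  rw [Real.log_mul hr.ne' hzn'.ne', Real.log_pow, Nat.cast_sub hNn] at k1
  have k2 := Real.log_le_log (by positivity) n3
  rw [Real.log_mul hzn'.ne' (by positivity), Real.log_pow,
    Real.log_div (by positivity) (by positivity)] at k2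
  have k3 : ((n : ℝ) - N) * Real.log ((N : ℝ) / L ^ d) + Real.log (Zs z L s') -
      Real.log (2 * (ρ'' * L ^ d + 1)) - n * Real.log s' ≤ Real.log (z L N) := by linarith
  have k4 := div_le_div_of_nonneg_right k3 hVp.le
  have k5 : (((n : ℝ) - N) * Real.log ((N : ℝ) / L ^ d) + Real.log (Zs z L s') -
      Real.log (2 * (ρ'' * L ^ d + 1)) - n * Real.log s') / L ^ d =
      ((n : ℝ) / L ^ d - (N : ℝ) / L ^ d) * Real.log ((N : ℝ) / L ^ d) +
        Real.log (Zs z L s') / L ^ d - (n : ℝ) / L ^ d * Real.log s' -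
        Real.log (2 * (ρ'' * L ^ d + 1)) / L ^ d := by
    field_simp
    ring
  rw [k5] at k4
  have x1 : ρ₁ ≤ (n : ℝ) / L ^ d := by rwa [le_div_iff₀ hVp]
  have x2 : (n : ℝ) / L ^ d ≤ ρ'' := by rwa [div_le_iff₀ hVp]
  rw [Real.dist_eq] at f2 f7
  have k6 := key ((n : ℝ) / L ^ d) s' ((N : ℝ) / L ^ d) (Real.log (Zs z L s') / L ^ d)
    (by rw [abs_lt]; constructor <;> linarith)
    (by rw [abs_lt]; constructor <;> linarith) f2
    (by
      have h1 := abs_lt.1 f7
      have h2 := abs_lt.1 r4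
      rw [abs_lt]
      constructor <;> linarith [h1.1, h1.2, h2.1, h2.2])
  linarith

end Pool.Agent.H288.HS.CANN

namespace Pool.Agent.H288.HS

open CANN in
theorem t_CAN : S_CAN := by
  intro d C z l₁ hd _ _ h p hp' han hpos hmono s hs
  have hp : ∀ l : ℝ, 0 ≤ l → Tendsto (fun L : ℝ => Real.log (Zs z L l) / L ^ d) atTop
      (𝓝 (p l)) := by
    intro l hl
    have h1 := hp' l hl
    simp only [ZM_eq] at h1
    exact h1
  have hs0 : 0 < s := hs.1
  have hρ0 : 0 < s * deriv p s := mul_pos hs0 (hpos s hs)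
  have low := fun (δ : ℝ) (hδ : 0 < δ) => lower h hd hp han hpos hmono hs hδ
  refine ⟨(low 1 one_pos).mono fun q hq => hq.1, ?_⟩
  set ρ := s * deriv p s with hρ
  have l1 : Tendsto (fun q : ℕ × ℝ => q.2) (thermo d ρ) atTop :=
    tendsto_snd.mono_left inf_le_left
  have l2 : Tendsto (fun q : ℕ × ℝ => (q.1 : ℝ) / q.2 ^ d) (thermo d ρ) (𝓝 ρ) :=
    tendsto_comap.mono_left inf_le_right
  have e1 := l1.eventually (eventually_gt_atTop (0 : ℝ))
  have e4 := l2.eventually (eventually_gt_nhds hρ0)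
  -- the limit of `log z / V`
  have hy : Tendsto (fun q : ℕ × ℝ => Real.log (z q.2 q.1) / q.2 ^ d) (thermo d ρ)
      (𝓝 (p s - ρ * Real.log s)) := by
    have hup : Tendsto (fun q : ℕ × ℝ => Real.log (Zs z q.2 s) / q.2 ^ d -
        (q.1 : ℝ) / q.2 ^ d * Real.log s) (thermo d ρ) (𝓝 (p s - ρ * Real.log s)) :=
      ((hp s hs0.le).comp l1).sub (l2.mul_const _)
    rw [Metric.tendsto_nhds]
    intro ε hε
    have hup' := hup.eventually (eventually_lt_nhds (by linarith :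
      p s - ρ * Real.log s < p s - ρ * Real.log s + ε))
    filter_upwards [low ε hε, hup', e1] with q h1 h2 h3
    obtain ⟨N, L⟩ := q
    simp only at h1 h2 h3 ⊢
    have hVp : 0 < L ^ d := by positivity
    rw [Real.dist_eq, abs_lt]
    refine ⟨by linarith [h1.2], ?_⟩
    have h4 := term_le h h3 hs0.le N
    have h5 : 0 < z L N * s ^ N := mul_pos h1.1 (by positivity)
    have h6 := Real.log_le_log h5 h4
    rw [Real.log_mul h1.1.ne' (by positivity), Real.log_pow] at h6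
    have h7 := div_le_div_of_nonneg_right h6 hVp.le
    have h8 : (Real.log (z L N) + (N : ℝ) * Real.log s) / L ^ d =
        Real.log (z L N) / L ^ d + (N : ℝ) / L ^ d * Real.log s := by
      field_simp
    rw [h8] at h7
    linarith
  have hfin := hy.neg.div l2 hρ0.ne'
  have e9 : -(p s - ρ * Real.log s) / ρ = Real.log s - p s / ρ := by
    field_simp
    ring
  rw [e9] at hfin
  refine hfin.congr' ?_
  filter_upwards [e1, e4] with q h1 h2
  obtain ⟨N, L⟩ := q
  simp only at h1 h2 ⊢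
  have hVp : 0 < L ^ d := by positivity
  have hN : (N : ℝ) ≠ 0 := by
    intro h0
    rw [h0, zero_div] at h2
    exact lt_irrefl _ h2
  show -(Real.log (z L N) / L ^ d) / ((N : ℝ) / L ^ d) = -Real.log (z L N) / N
  field_simp

end Pool.Agent.H288.HS
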