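import Pool.Agent.H288.HS.Stm2

/-!
# The recursion for the ratios (task HS-CHAIN, helper922)
-/

set_option autoImplicit false

open MeasureTheory Set Filter Topology

namespace Pool.Agent.H288.HS

namespace CHAINN

variable {V : Type} {N : V → V → Prop} {w : ℝ} {r : ℕ} {col : V → V → Fin r} {C a : ℝ}

open Classical in
theorem lev_zero (A : Finset V) (x : V) : lev N col A x 0 = A := by
  unfold lev
  apply Finset.filter_true_of_mem
  intro z _ h
  exact absurd h.2 (Nat.not_lt_zero _)

open Classical in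
theorem lev_last (A : Finset V) (x : V) : lev N col A x r = rem N A x := by
  unfold lev rem
  apply Finset.filter_congr
  intro z _
  constructor
  · intro h h'
    exact h ⟨h', (col x z).2⟩
  · intro h h'
    exact h h'.1

open Classical in
theorem mem_lev (A : Finset V) (x : V) (k : ℕ) (z : V) :
    z ∈ lev N col A x k ↔ z ∈ A ∧ ¬ (N x z ∧ (col x z : ℕ) < k) := by
  unfold lev
  exact Finset.mem_filter

open Classical in
theorem mem_cl (A : Finset V) (x : V) (k : ℕ) (z : V) :
    z ∈ cl N col A x k ↔ z ∈ A ∧ (N x z ∧ (col x z : ℕ) = k) := by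
  unfold cl
  exact Finset.mem_filter

theorem step (h : S_STEP) (hG : Geo N w r col C a) (A : Finset V) (x : V) (k : ℕ) (l : ℂ) :
    Z N w (lev N col A x k) l = Z N w (lev N col A x (k + 1)) l +
      l * w * ∑ y ∈ cl N col A x k, Z N w (rem N (lev N col A x (k + 1)) y) l := by
  apply h V N w _ _ _ l hG.refl hG.symm
  · intro z
    rw [mem_lev, mem_lev, mem_cl]
    constructor
    · rintro ⟨h1, h2⟩
      by_cases h3 : N x z ∧ (col x z : ℕ) = k
      · exact Or.inr ⟨h1, h3⟩
      · refine Or.inl ⟨h1, fun h4 => ?_⟩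
        have h5 : (col x z : ℕ) ≠ k := fun h6 => h3 ⟨h4.1, h6⟩
        exact h2 ⟨h4.1, by omega⟩
    · rintro (⟨h1, h2⟩ | ⟨h1, h2⟩)
      · exact ⟨h1, fun h4 => h2 ⟨h4.1, by omega⟩⟩
      · refine ⟨h1, fun h4 => ?_⟩
        have := h4.2
        have := h2.2
        omega
  · intro z h1 h2
    rw [mem_lev] at h1
    rw [mem_cl] at h2
    exact h1.2 ⟨h2.2.1, by omega⟩
  · intro y hy z hz
    rw [mem_cl] at hy hz
    refine hG.clique x y z hy.2.1 hz.2.1 ?_
    apply Fin.ext
    rw [hy.2.2, hz.2.2]

theorem diff (A : Finset V) (l : ℂ) : DifferentiableAt ℂ (Z N w A) l := by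
  have h : Z N w A = fun l : ℂ => ∑ I ∈ ind N A, (l * (w : ℂ)) ^ I.card := rfl
  rw [h]
  fun_prop

theorem one_add (h : S_STEP) (hG : Geo N w r col C a) (A : Finset V) (x : V) (k : ℕ) (l : ℂ)
    (h0 : Z N w (lev N col A x (k + 1)) l ≠ 0) :
    Z N w (lev N col A x k) l = Z N w (lev N col A x (k + 1)) l * (1 + SS N w col A x k l) := by
  rw [step h hG]
  unfold SS W
  rw [← Finset.sum_div]
  field_simp

theorem logd (h : S_STEP) (hG : Geo N w r col C a) (A : Finset V) (x : V) (k : ℕ) (l : ℂ)
    (h0 : Z N w (lev N col A x (k + 1)) l ≠ 0) (h1 : Z N w (lev N col A x k) l ≠ 0)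
    (h2 : ∀ y ∈ cl N col A x k, Z N w (rem N (lev N col A x (k + 1)) y) l ≠ 0) :
    logDeriv (Z N w (lev N col A x (k + 1))) l - logDeriv (Z N w (lev N col A x k)) l =
      -(SD N w col A x k l / (1 + SS N w col A x k l)) := by
  have e1 : Z N w (lev N col A x k) = fun l : ℂ => Z N w (lev N col A x (k + 1)) l +
      l * w * ∑ y ∈ cl N col A x k, Z N w (rem N (lev N col A x (k + 1)) y) l :=
    funext fun l => step h hG A x k l
  have e2 : HasDerivAt (fun l : ℂ => Z N w (lev N col A x (k + 1)) l +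
      l * w * ∑ y ∈ cl N col A x k, Z N w (rem N (lev N col A x (k + 1)) y) l)
      (deriv (Z N w (lev N col A x (k + 1))) l +
        (1 * (w : ℂ) * ∑ y ∈ cl N col A x k, Z N w (rem N (lev N col A x (k + 1)) y) l +
        l * w * ∑ y ∈ cl N col A x k, deriv (Z N w (rem N (lev N col A x (k + 1)) y)) l)) l := by
    refine (diff _ l).hasDerivAt.add ?_
    refine ((hasDerivAt_id l).mul_const (w : ℂ)).mul ?_
    exact HasDerivAt.fun_sum fun y _ => (diff _ l).hasDerivAt
  have e3 : deriv (Z N w (lev N col A x k)) l = deriv (Z N w (lev N col A x (k + 1))) l +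
        (1 * (w : ℂ) * ∑ y ∈ cl N col A x k, Z N w (rem N (lev N col A x (k + 1)) y) l +
        l * w * ∑ y ∈ cl N col A x k, deriv (Z N w (rem N (lev N col A x (k + 1)) y)) l) := by
    rw [e1]
    exact e2.deriv
  have e4 := one_add h hG A x k l h0
  have e5 : 1 + SS N w col A x k l ≠ 0 := by
    intro h5
    rw [h5, mul_zero] at e4
    exact h1 e4
  have e6 : SD N w col A x k l = w * ((∑ y ∈ cl N col A x k,
      Z N w (rem N (lev N col A x (k + 1)) y) l) / Z N w (lev N col A x (k + 1)) l *
      (1 - l * (deriv (Z N w (lev N col A x (k + 1))) l / Z N w (lev N col A x (k + 1)) l)) +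
      l * (∑ y ∈ cl N col A x k, deriv (Z N w (rem N (lev N col A x (k + 1)) y)) l) /
        Z N w (lev N col A x (k + 1)) l) := by
    unfold SD
    congr 1
    rw [Finset.sum_div, Finset.sum_mul, Finset.mul_sum, Finset.sum_div, ← Finset.sum_add_distrib]
    refine Finset.sum_congr rfl fun y hy => ?_
    unfold W DD
    rw [logDeriv_apply, logDeriv_apply]
    have := h2 y hy
    field_simp
    ring
  have e7 : 1 + SS N w col A x k l = 1 + l * w * ((∑ y ∈ cl N col A x k,
      Z N w (rem N (lev N col A x (k + 1)) y) l) / Z N w (lev N col A x (k + 1)) l) := by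
    unfold SS W
    rw [Finset.sum_div]
  rw [logDeriv_apply, logDeriv_apply, e3, e4, e6]
  rw [e7] at e5 ⊢
  generalize (∑ y ∈ cl N col A x k, Z N w (rem N (lev N col A x (k + 1)) y) l) = s at e5 ⊢
  generalize (∑ y ∈ cl N col A x k, deriv (Z N w (rem N (lev N col A x (k + 1)) y)) l) = s'
  generalize deriv (Z N w (lev N col A x (k + 1))) l = z'
  generalize Z N w (lev N col A x (k + 1)) l = z at h0 e5 ⊢
  have e8 : z + l * w * s ≠ 0 := by
    intro h8
    apply e5
    have : z * (1 + l * w * (s / z)) = z + l * w * s := by field_simp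
    rw [h8] at this
    rcases mul_eq_zero.1 this with h9 | h9
    · exact absurd h9 h0
    · exact h9
  have e9 : 1 + l * w * (s / z) = (z + l * w * s) / z := by field_simp
  rw [e9]
  obtain ⟨u, hu⟩ : ∃ u, u = z + l * w * s := ⟨_, rfl⟩
  rw [← hu] at e8 ⊢
  field_simp
  rw [hu]
  ring

theorem tele (f : ℕ → ℂ) (n : ℕ) (h : ∀ k ≤ n, f k ≠ 0) :
    ∏ k ∈ Finset.range n, (f (k + 1) / f k) = f n / f 0 := by
  induction n with
  | zero => rw [Finset.prod_range_zero, div_self (h 0 le_rfl)]
  | succ n ih =>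
    rw [Finset.prod_range_succ, ih fun k hk => h k (by omega)]
    have h1 := h n (by omega)
    have h0 := h 0 (by omega)
    field_simp

end CHAINN

theorem t_CHAIN (h : S_STEP) : S_CHAIN := by
  intro V N w r col C a hG A x l h1 h2
  have h3 : ∀ k < r, Z N w (lev N col A x k) l = Z N w (lev N col A x (k + 1)) l *
      (1 + SS N w col A x k l) := fun k hk => CHAINN.one_add h hG A x k l (h1 (k + 1) hk)
  have h4 : ∀ k < r, 1 + SS N w col A x k l ≠ 0 := by
    intro k hk h5
    have h6 := h3 k hk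
    rw [h5, mul_zero] at h6
    exact h1 k hk.le h6
  refine ⟨h4, ?_, ?_⟩
  · have e1 : W N w A x l = ∏ k ∈ Finset.range r,
        (Z N w (lev N col A x (k + 1)) l / Z N w (lev N col A x k) l) := by
      rw [CHAINN.tele (fun k => Z N w (lev N col A x k) l) r h1, CHAINN.lev_zero,
        CHAINN.lev_last]
      rfl
    rw [e1]
    refine Finset.prod_congr rfl fun k hk => ?_
    rw [Finset.mem_range] at hk
    have h5 := h4 k hk
    have h6 := h1 (k + 1) hk
    rw [h3 k hk, div_eq_iff (mul_ne_zero h6 h5)]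
    field_simp
  · have e1 : DD N w A x l = ∑ k ∈ Finset.range r,
        (logDeriv (Z N w (lev N col A x (k + 1))) l - logDeriv (Z N w (lev N col A x k)) l) := by
      rw [Finset.sum_range_sub (fun k => logDeriv (Z N w (lev N col A x k)) l), CHAINN.lev_zero,
        CHAINN.lev_last]
      rfl
    rw [e1, ← Finset.sum_neg_distrib]
    refine Finset.sum_congr rfl fun k hk => ?_
    rw [Finset.mem_range] at hk
    exact CHAINN.logd h hG A x k l (h1 (k + 1) hk) (h1 k hk.le) (h2 k hk)

end Pool.Agent.H288.HS
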