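import Pool.Agent.H288.HS.Stm2

/-!
# Hard spheres: the Gronwall-type estimate on a disc (helper230)
-/

set_option autoImplicit false

open Set Metric

namespace Pool.Agent.H288.HS.CLOSEN

theorem pos_case (f : ℂ → ℂ) (c : ℂ) (ε K : ℝ) (hε : 0 < ε) (hK : 0 < K) (h1 : 2 * K * ε ≤ 1)
    (hf : ∀ z ∈ Metric.ball c ε, DifferentiableAt ℂ f z ∧ ‖deriv f z‖ ^ 2 ≤ K ^ 2 * ‖f z‖)
    (hc : ‖f c‖ ≤ 1) (z : ℂ) (hz : z ∈ Metric.ball c ε) : ‖f z - f c‖ ≤ 2 * K * ε := by
  have hzc : ‖z - c‖ < ε := by rwa [← dist_eq_norm]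
  have hmem : ∀ t : ℝ, t ∈ Icc (0 : ℝ) 1 → c + (t : ℂ) * (z - c) ∈ Metric.ball c ε := by
    intro t ht
    rw [Metric.mem_ball, dist_eq_norm, add_sub_cancel_left, norm_mul, Complex.norm_real,
      Real.norm_of_nonneg ht.1]
    have : t * ‖z - c‖ ≤ 1 * ‖z - c‖ := mul_le_mul_of_nonneg_right ht.2 (norm_nonneg _)
    linarith
  have hder : ∀ t ∈ Icc (0 : ℝ) 1, HasDerivAt (fun t : ℝ => f (c + (t : ℂ) * (z - c)) - f c)
      (deriv f (c + (t : ℂ) * (z - c)) * (z - c)) t := by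
    intro t ht
    have hd := ((hf _ (hmem t ht)).1).hasDerivAt
    have hl : HasDerivAt (fun w : ℂ => c + w * (z - c)) (z - c) (t : ℂ) := by
      simpa using ((hasDerivAt_id (t : ℂ)).mul_const (z - c)).const_add c
    have hcomp : HasDerivAt (fun w : ℂ => f (c + w * (z - c)))
        (deriv f (c + (t : ℂ) * (z - c)) * (z - c)) (t : ℂ) :=
      HasDerivAt.comp (t : ℂ) (h₂ := f) (h := fun w : ℂ => c + w * (z - c)) hd hl
    exact (hcomp.comp_ofReal).sub_const _
  have key := image_norm_le_of_norm_deriv_right_lt_deriv_boundary'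
    (f := fun t : ℝ => f (c + (t : ℂ) * (z - c)) - f c)
    (f' := fun t : ℝ => deriv f (c + (t : ℂ) * (z - c)) * (z - c)) (a := 0) (b := 1)
    (fun t ht => (hder t ht).continuousAt.continuousWithinAt)
    (fun t ht => (hder t (Ico_subset_Icc_self ht)).hasDerivWithinAt)
    (B := fun t => 2 * K * ε * t) (B' := fun _ => 2 * K * ε)
    (by simp) (by fun_prop)
    (fun t _ => by simpa using ((hasDerivAt_id t).const_mul (2 * K * ε)).hasDerivWithinAt)
    (fun t ht hbt => ?_)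
  · have := key (x := 1) (by simp)
    simpa using this
  · have htI := Ico_subset_Icc_self ht
    have h2 := (hf _ (hmem t htI)).2
    have hbt' : ‖f (c + (t : ℂ) * (z - c)) - f c‖ = 2 * K * ε * t := hbt
    have h3 : ‖f (c + (t : ℂ) * (z - c))‖ ≤ 2 := by
      have h4 : ‖f (c + (t : ℂ) * (z - c))‖ ≤ ‖f (c + (t : ℂ) * (z - c)) - f c‖ + ‖f c‖ := by
        have := norm_add_le (f (c + (t : ℂ) * (z - c)) - f c) (f c)
        rwa [sub_add_cancel] at this
      have h5 : 2 * K * ε * t ≤ 1 := by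
        have h0 : 0 ≤ 2 * K * ε := by positivity
        calc 2 * K * ε * t ≤ 2 * K * ε * 1 := mul_le_mul_of_nonneg_left htI.2 h0
          _ ≤ 1 := by linarith
      rw [hbt'] at h4
      linarith
    have h6 : ‖deriv f (c + (t : ℂ) * (z - c))‖ < 2 * K := by
      have h7 : ‖deriv f (c + (t : ℂ) * (z - c))‖ ^ 2 < (2 * K) ^ 2 := by
        have h8 : K ^ 2 * ‖f (c + (t : ℂ) * (z - c))‖ ≤ K ^ 2 * 2 :=
          mul_le_mul_of_nonneg_left h3 (by positivity)
        have h9 : 0 < K ^ 2 := by positivity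
        nlinarith
      exact lt_of_pow_lt_pow_left₀ 2 (by positivity) h7
    show ‖deriv f (c + (t : ℂ) * (z - c)) * (z - c)‖ < 2 * K * ε
    rw [norm_mul]
    exact mul_lt_mul'' h6 hzc (norm_nonneg _) (norm_nonneg _)

theorem zero_case (f : ℂ → ℂ) (c : ℂ) (ε : ℝ)
    (hf : ∀ z ∈ Metric.ball c ε, DifferentiableAt ℂ f z ∧ ‖deriv f z‖ ^ 2 ≤ 0)
    (z : ℂ) (hz : z ∈ Metric.ball c ε) (hε : 0 < ε) : ‖f z - f c‖ ≤ 0 := by
  have h := Convex.norm_image_sub_le_of_norm_deriv_le (𝕜 := ℂ) (f := f) (C := 0)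
    (s := Metric.ball c ε) (x := c) (y := z) (fun w hw => (hf w hw).1)
    (fun w hw => by
      have h2 := (hf w hw).2
      have h3 := norm_nonneg (deriv f w)
      nlinarith)
    (convex_ball c ε) (Metric.mem_ball_self hε) hz
  simpa using h

end Pool.Agent.H288.HS.CLOSEN

namespace Pool.Agent.H288.HS

theorem t_CLOSE : S_CLOSE := by
  intro f c ε K hε hK h1 hf hc z hz
  rcases hK.eq_or_lt with h0 | h0
  · subst h0
    have := CLOSEN.zero_case f c ε (fun w hw => ⟨(hf w hw).1, by simpa using (hf w hw).2⟩) z hz hε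
    simpa using this
  · exact CLOSEN.pos_case f c ε K hε h0 h1 hf hc z hz

end Pool.Agent.H288.HS
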