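import Pool.Agent.H288.HS.Stm2

/-!
# The six sectors of the plane: `S_COL2`
-/

set_option autoImplicit false

open MeasureTheory Set Filter Topology

namespace Pool.Agent.H288.HS.COL2N

/-! ## Diameter of the sectors -/

lemma s3 : √3 * √3 = 3 := Real.mul_self_sqrt (by norm_num)

lemma s3pos : 0 < √3 := Real.sqrt_pos.mpr (by norm_num)

/-- Two vectors of the first closed sector. -/
lemma key0 (a b c d : ℝ) (hb : 0 ≤ b) (hab : b ≤ √3 * a) (hd : 0 ≤ d) (hcd : d ≤ √3 * c)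
    (h : a ^ 2 + b ^ 2 ≤ c ^ 2 + d ^ 2) :
    (a - c) ^ 2 + (b - d) ^ 2 ≤ c ^ 2 + d ^ 2 := by
  have h3 := s3
  have h3p := s3pos
  obtain ⟨q, hq⟩ : ∃ q, q = √3 * a - b := ⟨_, rfl⟩
  obtain ⟨q', hq'⟩ : ∃ q', q' = √3 * c - d := ⟨_, rfl⟩
  have hq0 : 0 ≤ q := by linarith
  have hq0' : 0 ≤ q' := by linarith
  have ha : √3 * a = q + b := by linarith
  have hc : √3 * c = q' + d := by linarith
  have e1 : 3 * (a * c + b * d) = 4 * (b * d) + b * q' + q * d + q * q' := by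
    have : 3 * (a * c) = (√3 * a) * (√3 * c) := by
      calc 3 * (a * c) = (√3 * √3) * (a * c) := by rw [h3]
        _ = _ := by ring
    have h2 : (√3 * a) * (√3 * c) = (q + b) * (q' + d) := by rw [ha, hc]
    nlinarith
  have e2 : √3 * (a * d - b * c) = q * d - b * q' := by
    have : √3 * (a * d - b * c) = (√3 * a) * d - b * (√3 * c) := by ring
    rw [this, ha, hc]; ring
  have hbd : 0 ≤ b * d := mul_nonneg hb hd
  have hbq : 0 ≤ b * q' := mul_nonneg hb hq0'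
  have hqd : 0 ≤ q * d := mul_nonneg hq0 hd
  have hqq : 0 ≤ q * q' := mul_nonneg hq0 hq0'
  have hdot : 0 ≤ a * c + b * d := by linarith
  -- `3 (u·v)² ≥ (u × v)²`
  have hkey : (a * d - b * c) ^ 2 ≤ 3 * (a * c + b * d) ^ 2 := by
    have e3 : (3 * (a * c + b * d)) ^ 2 = (4 * (b * d) + b * q' + q * d + q * q') ^ 2 := by
      rw [e1]
    have e4 : 3 * (a * d - b * c) ^ 2 = (q * d - b * q') ^ 2 := by
      rw [← e2]
      calc 3 * (a * d - b * c) ^ 2 = (√3 * √3) * (a * d - b * c) ^ 2 := by rw [h3]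
        _ = _ := by ring
    have e5 : (q * d - b * q') ^ 2 ≤ (4 * (b * d) + b * q' + q * d + q * q') ^ 2 := by
      apply sq_le_sq'
      · linarith
      · linarith
    nlinarith
  have hlag : (a ^ 2 + b ^ 2) * (c ^ 2 + d ^ 2) = (a * c + b * d) ^ 2 + (a * d - b * c) ^ 2 := by
    ring
  have h4 : (a ^ 2 + b ^ 2) ^ 2 ≤ (2 * (a * c + b * d)) ^ 2 := by
    have h5 : (a ^ 2 + b ^ 2) ^ 2 ≤ (a ^ 2 + b ^ 2) * (c ^ 2 + d ^ 2) := by
      rw [sq (a ^ 2 + b ^ 2)]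
      exact mul_le_mul_of_nonneg_left h (by positivity)
    nlinarith
  have h6 : a ^ 2 + b ^ 2 ≤ 2 * (a * c + b * d) :=
    abs_le_of_sq_le_sq' h4 (by linarith) |>.2
  nlinarith

/-- Two vectors of the second closed sector. -/
lemma key1 (a b c d : ℝ) (hb : √3 * a ≤ b) (hab : -b ≤ √3 * a) (hd : √3 * c ≤ d)
    (hcd : -d ≤ √3 * c) (h : a ^ 2 + b ^ 2 ≤ c ^ 2 + d ^ 2) :
    (a - c) ^ 2 + (b - d) ^ 2 ≤ c ^ 2 + d ^ 2 := by
  have h3 := s3
  have h3p := s3pos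
  have hn : ∀ x y : ℝ, (x / 2 + √3 / 2 * y) ^ 2 + (y / 2 - √3 / 2 * x) ^ 2 = x ^ 2 + y ^ 2 := by
    intro x y
    have : (x / 2 + √3 / 2 * y) ^ 2 + (y / 2 - √3 / 2 * x) ^ 2 =
      (x ^ 2 + y ^ 2) / 4 + (√3 * √3) * (x ^ 2 + y ^ 2) / 4 := by ring
    rw [this, h3]; ring
  have hx : ∀ x y : ℝ, -y ≤ √3 * x → y / 2 - √3 / 2 * x ≤ √3 * (x / 2 + √3 / 2 * y) := by
    intro x y hxy
    have : √3 * (x / 2 + √3 / 2 * y) = √3 * x / 2 + (√3 * √3) * y / 2 := by ring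
    rw [this, h3]; linarith
  have := key0 (a / 2 + √3 / 2 * b) (b / 2 - √3 / 2 * a) (c / 2 + √3 / 2 * d)
    (d / 2 - √3 / 2 * c) (by linarith) (hx a b hab) (by linarith) (hx c d hcd)
    (by rw [hn, hn]; exact h)
  rw [hn] at this
  have e := hn (a - c) (b - d)
  have e2 : (a / 2 + √3 / 2 * b - (c / 2 + √3 / 2 * d)) ^ 2 +
      (b / 2 - √3 / 2 * a - (d / 2 - √3 / 2 * c)) ^ 2 =
      ((a - c) / 2 + √3 / 2 * (b - d)) ^ 2 + ((b - d) / 2 - √3 / 2 * (a - c)) ^ 2 := by ring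
  rw [e2, e] at this
  exact this

open Classical in
/-- The number of the sector. -/
noncomputable def csec (x y : ℝ) : Fin 6 :=
  if 0 ≤ y then (if y ≤ √3 * x then 0 else if -y ≤ √3 * x then 1 else 2)
  else (if -y ≤ √3 * x then 5 else if y ≤ √3 * x then 4 else 3)

lemma csec_zero {x y : ℝ} (h : csec x y = 0) : 0 ≤ y ∧ y ≤ √3 * x := by
  unfold csec at h
  split_ifs at h with h1 h2 h3 h4 h5 <;> simp_all

lemma csec_one {x y : ℝ} (h : csec x y = 1) : √3 * x ≤ y ∧ -y ≤ √3 * x := by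
  unfold csec at h
  split_ifs at h with h1 h2 h3 h4 h5 <;> first | exact absurd h (by decide) | skip
  exact ⟨le_of_lt (not_le.mp h2), h3⟩

lemma csec_two {x y : ℝ} (h : csec x y = 2) : 0 ≤ y ∧ √3 * x ≤ -y := by
  unfold csec at h
  split_ifs at h with h1 h2 h3 h4 h5 <;> first | exact absurd h (by decide) | skip
  exact ⟨h1, le_of_lt (not_le.mp h3)⟩

lemma csec_three {x y : ℝ} (h : csec x y = 3) : y ≤ 0 ∧ √3 * x ≤ y := by
  unfold csec at h
  split_ifs at h with h1 h2 h3 h4 h5 <;> first | exact absurd h (by decide) | skip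
  exact ⟨le_of_lt (not_le.mp h1), le_of_lt (not_le.mp h5)⟩

lemma csec_four {x y : ℝ} (h : csec x y = 4) : y ≤ √3 * x ∧ √3 * x ≤ -y := by
  unfold csec at h
  split_ifs at h with h1 h2 h3 h4 h5 <;> first | exact absurd h (by decide) | skip
  exact ⟨h5, le_of_lt (not_le.mp h4)⟩

lemma csec_five {x y : ℝ} (h : csec x y = 5) : y ≤ 0 ∧ -y ≤ √3 * x := by
  unfold csec at h
  split_ifs at h with h1 h2 h3 h4 h5 <;> first | exact absurd h (by decide) | skip
  exact ⟨le_of_lt (not_le.mp h1), h4⟩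

lemma key (j : Fin 6) (a b c d : ℝ) (h1 : csec a b = j) (h2 : csec c d = j)
    (h : a ^ 2 + b ^ 2 ≤ c ^ 2 + d ^ 2) :
    (a - c) ^ 2 + (b - d) ^ 2 ≤ c ^ 2 + d ^ 2 := by
  fin_cases j
  · obtain ⟨p, q⟩ := csec_zero h1
    obtain ⟨p', q'⟩ := csec_zero h2
    exact key0 a b c d p q p' q' h
  · obtain ⟨p, q⟩ := csec_one h1
    obtain ⟨p', q'⟩ := csec_one h2
    exact key1 a b c d p q p' q' h
  · obtain ⟨p, q⟩ := csec_two h1
    obtain ⟨p', q'⟩ := csec_two h2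
    have := key0 (-a) b (-c) d p (by linarith) p' (by linarith) (by linarith [neg_sq a, neg_sq c])
    nlinarith
  · obtain ⟨p, q⟩ := csec_three h1
    obtain ⟨p', q'⟩ := csec_three h2
    have := key0 (-a) (-b) (-c) (-d) (by linarith) (by linarith) (by linarith) (by linarith)
      (by linarith [neg_sq a, neg_sq c, neg_sq b, neg_sq d])
    nlinarith
  · obtain ⟨p, q⟩ := csec_four h1
    obtain ⟨p', q'⟩ := csec_four h2
    have := key1 (-a) (-b) (-c) (-d) (by linarith) (by linarith) (by linarith) (by linarith)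
      (by linarith [neg_sq a, neg_sq c, neg_sq b, neg_sq d])
    nlinarith
  · obtain ⟨p, q⟩ := csec_five h1
    obtain ⟨p', q'⟩ := csec_five h2
    have := key0 a (-b) c (-d) (by linarith) (by linarith) (by linarith) (by linarith)
      (by linarith [neg_sq b, neg_sq d])
    nlinarith

lemma diam (ρ : ℝ) (a b c d : ℝ) (h1 : a ^ 2 + b ^ 2 < ρ ^ 2) (h2 : c ^ 2 + d ^ 2 < ρ ^ 2)
    (hc : csec a b = csec c d) : (a - c) ^ 2 + (b - d) ^ 2 < ρ ^ 2 := by
  rcases le_total (a ^ 2 + b ^ 2) (c ^ 2 + d ^ 2) with h | h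
  · exact lt_of_le_of_lt (key (csec c d) a b c d hc rfl h) h2
  · have := key (csec a b) c d a b hc.symm rfl h
    nlinarith

/-! ## Half planes -/

/-- Open half plane. -/
def HS (a b : ℝ) : Set (Fin 2 → ℝ) := {z | 0 < a * z 0 + b * z 1}

lemma HS_convex (a b : ℝ) : Convex ℝ (HS a b) := by
  intro x hx y hy s t hs ht hst
  simp only [HS, mem_setOf_eq, Pi.add_apply, Pi.smul_apply, smul_eq_mul] at *
  have e : a * (s * x 0 + t * y 0) + b * (s * x 1 + t * y 1) =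
    s * (a * x 0 + b * x 1) + t * (a * y 0 + b * y 1) := by ring
  rw [e]
  rcases eq_or_lt_of_le hs with h | h
  · have : t = 1 := by linarith
    rw [← h, this]; linarith
  · have := mul_pos h hx
    have := mul_nonneg ht hy.le
    linarith

lemma HS_open (a b : ℝ) : IsOpen (HS a b) := by
  unfold HS
  exact isOpen_lt continuous_const (by fun_prop)

lemma Bs_convex (R : ℝ) : Convex ℝ (Bs 2 R) := by
  intro x hx y hy s t hs ht hst
  simp only [Bs, mem_setOf_eq, Pi.add_apply, Pi.smul_apply, smul_eq_mul, Fin.sum_univ_two] at *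
  have e : ∀ u v : ℝ, (s * u + t * v) ^ 2 = s * u ^ 2 + t * v ^ 2 - s * t * (u - v) ^ 2 := by
    intro u v
    have : t = 1 - s := by linarith
    rw [this]; ring
  rw [e, e]
  have h1 : 0 ≤ s * t * (x 0 - y 0) ^ 2 := by positivity
  have h2 : 0 ≤ s * t * (x 1 - y 1) ^ 2 := by positivity
  have h3 : s * (x 0 ^ 2 + x 1 ^ 2) + t * (y 0 ^ 2 + y 1 ^ 2) < R ^ 2 := by
    rcases eq_or_lt_of_le hs with h | h
    · have : t = 1 := by linarith
      rw [← h, this]; linarith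
    · have a1 : s * (x 0 ^ 2 + x 1 ^ 2) < s * R ^ 2 := mul_lt_mul_of_pos_left hx h
      have a2 : t * (y 0 ^ 2 + y 1 ^ 2) ≤ t * R ^ 2 := mul_le_mul_of_nonneg_left hy.le ht
      have a3 : s * R ^ 2 + t * R ^ 2 = R ^ 2 := by rw [← add_mul, hst, one_mul]
      linarith
  linarith

lemma Bs_open (R : ℝ) : IsOpen (Bs 2 R) := by
  unfold Bs
  exact isOpen_lt (by fun_prop) continuous_const

lemma Bs_bounded (R : ℝ) : Bornology.IsBounded (Bs 2 R) := by
  refine (Metric.isBounded_closedBall (x := (0 : Fin 2 → ℝ)) (r := |R|)).subset ?_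
  intro x hx
  simp only [Bs, mem_setOf_eq, Fin.sum_univ_two] at hx
  rw [mem_closedBall_zero_iff, pi_norm_le_iff_of_nonneg (abs_nonneg R)]
  intro i
  rw [Real.norm_eq_abs]
  apply sq_le_sq.mp
  fin_cases i
  · simp only [Fin.zero_eta]; nlinarith [sq_nonneg (x 1)]
  · simp only [Fin.mk_one]; nlinarith [sq_nonneg (x 0)]

lemma Bs_volume (R : ℝ) (hR : 0 < R) : volume (Bs 2 R) = ENNReal.ofReal (Real.pi * R ^ 2) := by
  have h := (PiLp.volume_preserving_ofLp (Fin 2)).measure_preimage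
    (Bs_open R).measurableSet.nullMeasurableSet
  rw [← h]
  have e : (@WithLp.ofLp 2 (Fin 2 → ℝ)) ⁻¹' Bs 2 R =
      Metric.ball (0 : EuclideanSpace ℝ (Fin 2)) R := by
    ext x
    simp only [mem_preimage, Bs, mem_setOf_eq, mem_ball_zero_iff]
    rw [← EuclideanSpace.real_norm_sq_eq x]
    exact ⟨fun h => lt_of_pow_lt_pow_left₀ 2 hR.le h, fun h => by gcongr⟩
  rw [e, EuclideanSpace.volume_ball_fin_two, ← ENNReal.ofReal_pow hR.le,
    ← ENNReal.ofReal_mul (by positivity), mul_comm]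

/-! ## The rotation -/

/-- The rotation by 60 degrees. -/
noncomputable def rot : (Fin 2 → ℝ) →ₗ[ℝ] (Fin 2 → ℝ) :=
  Matrix.toLin' !![1 / 2, -(√3 / 2); √3 / 2, 1 / 2]

lemma rot_zero (z : Fin 2 → ℝ) : rot z 0 = z 0 / 2 - √3 / 2 * z 1 := by
  simp [rot, Matrix.toLin'_apply, Matrix.mulVec, dotProduct, Fin.sum_univ_two]
  ring

lemma rot_one (z : Fin 2 → ℝ) : rot z 1 = √3 / 2 * z 0 + z 1 / 2 := by
  simp [rot, Matrix.toLin'_apply, Matrix.mulVec, dotProduct, Fin.sum_univ_two]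
  ring

lemma rot_det : LinearMap.det rot = 1 := by
  rw [rot, LinearMap.det_toLin', Matrix.det_fin_two_of]
  have h3 := s3
  have : (1 : ℝ) / 2 * (1 / 2) - -(√3 / 2) * (√3 / 2) = 1 / 4 + (√3 * √3) / 4 := by ring
  rw [this, h3]; norm_num

lemma rot_volume (s : Set (Fin 2 → ℝ)) : volume (rot ⁻¹' s) = volume s := by
  rw [Measure.addHaar_preimage_linearMap volume (by rw [rot_det]; norm_num), rot_det]
  simp

lemma rot_Bs (R : ℝ) : rot ⁻¹' (Bs 2 R) = Bs 2 R := by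
  ext z
  simp only [mem_preimage, Bs, mem_setOf_eq, Fin.sum_univ_two, rot_zero, rot_one]
  have h3 := s3
  have e : (z 0 / 2 - √3 / 2 * z 1) ^ 2 + (√3 / 2 * z 0 + z 1 / 2) ^ 2 = z 0 ^ 2 + z 1 ^ 2 := by
    have : (z 0 / 2 - √3 / 2 * z 1) ^ 2 + (√3 / 2 * z 0 + z 1 / 2) ^ 2 =
      (z 0 ^ 2 + z 1 ^ 2) / 4 + (√3 * √3) * (z 0 ^ 2 + z 1 ^ 2) / 4 := by ring
    rw [this, h3]; ring
  rw [e]

lemma rot_HS (a b : ℝ) :
    rot ⁻¹' (HS a b) = HS (a / 2 + b * (√3 / 2)) (b / 2 - a * (√3 / 2)) := by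
  ext z
  simp only [mem_preimage, HS, mem_setOf_eq, rot_zero, rot_one]
  have e : a * (z 0 / 2 - √3 / 2 * z 1) + b * (√3 / 2 * z 0 + z 1 / 2) =
    (a / 2 + b * (√3 / 2)) * z 0 + (b / 2 - a * (√3 / 2)) * z 1 := by ring
  rw [e]

lemma HS_smul (t a b : ℝ) (ht : 0 < t) : HS (t * a) (t * b) = HS a b := by
  ext z
  simp only [HS, mem_setOf_eq]
  have e : t * a * z 0 + t * b * z 1 = t * (a * z 0 + b * z 1) := by ring
  rw [e]
  exact mul_pos_iff_of_pos_left ht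

/-- The open sectors. -/
noncomputable def OS (j : Fin 6) : Set (Fin 2 → ℝ) :=
  match j with
  | 0 => HS 0 1 ∩ HS (√3) (-1)
  | 1 => HS (-√3) 1 ∩ HS (√3) 1
  | 2 => HS (-√3) (-1) ∩ HS 0 1
  | 3 => HS 0 (-1) ∩ HS (-√3) 1
  | 4 => HS (√3) (-1) ∩ HS (-√3) (-1)
  | 5 => HS (√3) 1 ∩ HS 0 (-1)

lemma OS_convex (j : Fin 6) : Convex ℝ (OS j) := by
  fin_cases j <;> exact (HS_convex _ _).inter (HS_convex _ _)

lemma OS_open (j : Fin 6) : IsOpen (OS j) := by
  fin_cases j <;> exact (HS_open _ _).inter (HS_open _ _)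

lemma r1 : rot ⁻¹' (HS (-√3) 1) = HS 0 1 := by
  rw [rot_HS]
  have h3 := s3
  rw [← HS_smul 2 0 1 (by norm_num)]
  congr 1
  · ring
  · nlinarith

lemma r2 : rot ⁻¹' (HS (√3) 1) = HS (√3) (-1) := by
  rw [rot_HS]
  have h3 := s3
  congr 1
  · ring
  · nlinarith

lemma r3 : rot ⁻¹' (HS (-√3) (-1)) = HS (-√3) 1 := by
  rw [rot_HS]
  have h3 := s3
  congr 1
  · ring
  · nlinarith

lemma r4 : rot ⁻¹' (HS 0 1) = HS (√3) 1 := by
  rw [rot_HS, ← HS_smul (1 / 2) (√3) 1 (by norm_num)]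
  congr 1
  · ring
  · ring

lemma r5 : rot ⁻¹' (HS 0 (-1)) = HS (-√3) (-1) := by
  rw [rot_HS, ← HS_smul (1 / 2) (-√3) (-1) (by norm_num)]
  congr 1
  · ring
  · ring

lemma r6 : rot ⁻¹' (HS (√3) (-1)) = HS 0 (-1) := by
  rw [rot_HS]
  have h3 := s3
  rw [← HS_smul 2 0 (-1) (by norm_num)]
  congr 1
  · ring
  · nlinarith

lemma v_succ (R : ℝ) (s t s' t' : Set (Fin 2 → ℝ)) (h1 : rot ⁻¹' s' = s) (h2 : rot ⁻¹' t' = t) :
    volume ((s ∩ t) ∩ Bs 2 R) = volume ((s' ∩ t') ∩ Bs 2 R) := by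
  rw [← rot_volume ((s' ∩ t') ∩ Bs 2 R), preimage_inter, preimage_inter, h1, h2, rot_Bs]

lemma v_eq (R : ℝ) (j : Fin 6) : volume (OS j ∩ Bs 2 R) = volume (OS 0 ∩ Bs 2 R) := by
  have h1 : volume (OS 0 ∩ Bs 2 R) = volume (OS 1 ∩ Bs 2 R) := v_succ R _ _ _ _ r1 r2
  have h2 : volume (OS 1 ∩ Bs 2 R) = volume (OS 2 ∩ Bs 2 R) := v_succ R _ _ _ _ r3 r4
  have h3 : volume (OS 2 ∩ Bs 2 R) = volume (OS 3 ∩ Bs 2 R) := v_succ R _ _ _ _ r5 r1
  have h4 : volume (OS 3 ∩ Bs 2 R) = volume (OS 4 ∩ Bs 2 R) := v_succ R _ _ _ _ r6 r3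
  have h5 : volume (OS 4 ∩ Bs 2 R) = volume (OS 5 ∩ Bs 2 R) := v_succ R _ _ _ _ r2 r5
  fin_cases j
  · rfl
  · exact h1.symm
  · exact (h1.trans h2).symm
  · exact (h1.trans (h2.trans h3)).symm
  · exact (h1.trans (h2.trans (h3.trans h4))).symm
  · exact (h1.trans (h2.trans (h3.trans (h4.trans h5)))).symm

/-! ## The lines -/

/-- A line through the origin. -/
def LI (a b : ℝ) : Set (Fin 2 → ℝ) := {z | a * z 0 + b * z 1 = 0}

lemma LI_null (a b : ℝ) (hb : b ≠ 0) : volume (LI a b) = 0 := by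
  let f : (Fin 2 → ℝ) →ₗ[ℝ] ℝ := a • LinearMap.proj 0 + b • LinearMap.proj 1
  have hf : ∀ z, f z = a * z 0 + b * z 1 := fun z => by simp [f]
  have e : LI a b = (LinearMap.ker f : Set (Fin 2 → ℝ)) := by
    ext z
    simp only [LI, mem_setOf_eq, SetLike.mem_coe, LinearMap.mem_ker, hf]
  rw [e]
  apply Measure.addHaar_submodule
  intro h
  have h1 : (![0, 1] : Fin 2 → ℝ) ∈ LinearMap.ker f := by rw [h]; trivial
  rw [LinearMap.mem_ker, hf] at h1
  simp at h1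
  exact hb h1

lemma cover (R : ℝ) : Bs 2 R ⊆ (⋃ j : Fin 6, OS j ∩ Bs 2 R) ∪
    (LI 0 1 ∪ (LI (√3) (-1) ∪ LI (√3) 1)) := by
  intro z hz
  by_cases h1 : z ∈ LI 0 1
  · exact Or.inr (Or.inl h1)
  by_cases h2 : z ∈ LI (√3) (-1)
  · exact Or.inr (Or.inr (Or.inl h2))
  by_cases h3 : z ∈ LI (√3) 1
  · exact Or.inr (Or.inr (Or.inr h3))
  left
  simp only [LI, mem_setOf_eq] at h1 h2 h3
  rw [mem_iUnion]
  have g1 : z 1 ≠ 0 := fun h => h1 (by rw [h]; ring)
  rcases lt_or_gt_of_ne g1 with k1 | k1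
  · rcases lt_or_gt_of_ne h3 with k3 | k3
    · rcases lt_or_gt_of_ne h2 with k2 | k2
      · refine ⟨3, ⟨?_, ?_⟩, hz⟩
        · simp only [HS, mem_setOf_eq]; linarith
        · simp only [HS, mem_setOf_eq]; linarith
      · refine ⟨4, ⟨?_, ?_⟩, hz⟩
        · simp only [HS, mem_setOf_eq]; linarith
        · simp only [HS, mem_setOf_eq]; linarith
    · refine ⟨5, ⟨?_, ?_⟩, hz⟩
      · simp only [HS, mem_setOf_eq]; linarith
      · simp only [HS, mem_setOf_eq]; linarith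
  · rcases lt_or_gt_of_ne h2 with k2 | k2
    · rcases lt_or_gt_of_ne h3 with k3 | k3
      · refine ⟨2, ⟨?_, ?_⟩, hz⟩
        · simp only [HS, mem_setOf_eq]; linarith
        · simp only [HS, mem_setOf_eq]; linarith
      · refine ⟨1, ⟨?_, ?_⟩, hz⟩
        · simp only [HS, mem_setOf_eq]; linarith
        · simp only [HS, mem_setOf_eq]; linarith
    · refine ⟨0, ⟨?_, ?_⟩, hz⟩
      · simp only [HS, mem_setOf_eq]; linarith
      · simp only [HS, mem_setOf_eq]; linarith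

lemma area (R : ℝ) (hR : 0 < R) (j : Fin 6) :
    Real.pi * R ^ 2 / 6 ≤ volume.real (OS j ∩ Bs 2 R) := by
  have hfin : volume (OS j ∩ Bs 2 R) ≠ ⊤ := by
    refine ne_top_of_le_ne_top ?_ (measure_mono inter_subset_right)
    rw [Bs_volume R hR]
    exact ENNReal.ofReal_ne_top
  have h1 : volume (Bs 2 R) ≤ 6 * volume (OS j ∩ Bs 2 R) := by
    calc volume (Bs 2 R) ≤ volume ((⋃ j : Fin 6, OS j ∩ Bs 2 R) ∪
          (LI 0 1 ∪ (LI (√3) (-1) ∪ LI (√3) 1))) := measure_mono (cover R)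
      _ ≤ volume (⋃ j : Fin 6, OS j ∩ Bs 2 R) +
          volume (LI 0 1 ∪ (LI (√3) (-1) ∪ LI (√3) 1)) := measure_union_le _ _
      _ = volume (⋃ j : Fin 6, OS j ∩ Bs 2 R) := by
          rw [measure_union_null (LI_null _ _ (by norm_num)) (measure_union_null
            (LI_null _ _ (by norm_num)) (LI_null _ _ (by norm_num))), add_zero]
      _ ≤ ∑ i : Fin 6, volume (OS i ∩ Bs 2 R) := measure_iUnion_fintype_le _ _
      _ = ∑ i : Fin 6, volume (OS j ∩ Bs 2 R) := by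
          refine Finset.sum_congr rfl fun i _ => ?_
          rw [v_eq R i, v_eq R j]
      _ = 6 * volume (OS j ∩ Bs 2 R) := by
          rw [Finset.sum_const, Finset.card_univ, Fintype.card_fin, nsmul_eq_mul]
          norm_num
  rw [Bs_volume R hR] at h1
  have h2 : (ENNReal.ofReal (Real.pi * R ^ 2)).toReal ≤ (6 * volume (OS j ∩ Bs 2 R)).toReal :=
    ENNReal.toReal_mono (ENNReal.mul_ne_top (by norm_num) hfin) h1
  rw [ENNReal.toReal_ofReal (by positivity), ENNReal.toReal_mul] at h2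
  have h6 : (6 : ENNReal).toReal = 6 := by norm_num
  rw [h6] at h2
  rw [Measure.real]
  linarith

/-! ## The colour of the open sectors -/

lemma csec_OS (j : Fin 6) (n : ℝ) (hn : 0 < n) (x y : ℝ)
    (h : (fun k : Fin 2 => (![x, y] k) / n) ∈ OS j) : csec x y = j := by
  have hs : ∀ a b : ℝ, (fun k : Fin 2 => (![x, y] k) / n) ∈ HS a b → 0 < a * x + b * y := by
    intro a b h
    simp only [HS, mem_setOf_eq, Matrix.cons_val_zero, Matrix.cons_val_one] at h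
    have e : a * (x / n) + b * (y / n) = (a * x + b * y) / n := by ring
    rw [e] at h
    exact (div_pos_iff_of_pos_right hn).mp h
  fin_cases j
  · have p := hs _ _ h.1
    have q := hs _ _ h.2
    have k1 : 0 ≤ y := by linarith
    have k2 : y ≤ √3 * x := by linarith
    simp [csec, k1, k2]
  · have p := hs _ _ h.1
    have q := hs _ _ h.2
    have k1 : 0 ≤ y := by linarith
    have k2 : ¬ y ≤ √3 * x := by rw [not_le]; linarith
    have k3 : -y ≤ √3 * x := by linarith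
    simp [csec, k1, k2, k3]
  · have p := hs _ _ h.1
    have q := hs _ _ h.2
    have k1 : 0 ≤ y := by linarith
    have k2 : ¬ y ≤ √3 * x := by rw [not_le]; linarith
    have k3 : ¬ -y ≤ √3 * x := by rw [not_le]; linarith
    simp [csec, k1, k2, k3]
  · have p := hs _ _ h.1
    have q := hs _ _ h.2
    have k1 : ¬ 0 ≤ y := by rw [not_le]; linarith
    have k2 : ¬ y ≤ √3 * x := by rw [not_le]; linarith
    have k3 : ¬ -y ≤ √3 * x := by rw [not_le]; linarith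
    simp [csec, k1, k2, k3]
  · have p := hs _ _ h.1
    have q := hs _ _ h.2
    have k1 : ¬ 0 ≤ y := by rw [not_le]; linarith
    have k2 : y ≤ √3 * x := by linarith
    have k3 : ¬ -y ≤ √3 * x := by rw [not_le]; linarith
    simp [csec, k1, k2, k3]
  · have p := hs _ _ h.1
    have q := hs _ _ h.2
    have k1 : ¬ 0 ≤ y := by rw [not_le]; linarith
    have k3 : -y ≤ √3 * x := by linarith
    simp [csec, k1, k3]

lemma fin_pts (r : ℝ) (s : Set (Fin 2 → ℤ)) (h : ∀ z ∈ s, ∑ k, (z k : ℝ) ^ 2 < r ^ 2) :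
    s.Finite := by
  refine (Set.finite_Icc (fun _ : Fin 2 => -⌈|r|⌉) (fun _ : Fin 2 => ⌈|r|⌉)).subset ?_
  intro z hz
  have h1 := h z hz
  have h2 : ∀ k, |(z k : ℝ)| ≤ |r| := by
    intro k
    apply sq_le_sq.mp
    have : (z k : ℝ) ^ 2 ≤ ∑ k, (z k : ℝ) ^ 2 :=
      Finset.single_le_sum (f := fun k => (z k : ℝ) ^ 2) (fun i _ => sq_nonneg _)
        (Finset.mem_univ k)
    linarith
  have h3 : ∀ k, -⌈|r|⌉ ≤ z k ∧ z k ≤ ⌈|r|⌉ := by
    intro k
    have a1 := abs_le.mp (h2 k)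
    have a2 := Int.le_ceil |r|
    constructor
    · have : (-⌈|r|⌉ : ℝ) ≤ (z k : ℝ) := by linarith
      exact_mod_cast this
    · have : (z k : ℝ) ≤ (⌈|r|⌉ : ℝ) := by linarith
      exact_mod_cast this
  exact ⟨fun k => (h3 k).1, fun k => (h3 k).2⟩

end Pool.Agent.H288.HS.COL2N

namespace Pool.Agent.H288.HS

open COL2N in
theorem t_COL2 (h : S_CONV) : S_COL2 := by
  refine ⟨fun z => csec (z 0) (z 1), ?_, ?_⟩
  · intro ρ u v hu hv hc
    rw [Fin.sum_univ_two] at *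
    exact diam ρ _ _ _ _ hu hv hc
  · intro R δ hR hδ
    rw [eventually_all]
    intro j
    have hB := Bs_bounded R
    have hconv := h 2 (OS j ∩ Bs 2 R) (by norm_num) ((OS_convex j).inter (Bs_convex R))
      ((OS_open j).inter (Bs_open R)).measurableSet (hB.subset inter_subset_right)
    have harea := area R hR j
    have hev := hconv.eventually (lt_mem_nhds (show Real.pi * R ^ 2 / 6 - δ <
      volume.real (OS j ∩ Bs 2 R) by linarith))
    filter_upwards [hev, eventually_gt_atTop 0] with n hn hn0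
    have hn0' : (0 : ℝ) < n := by exact_mod_cast hn0
    refine hn.le.trans ?_
    have hw : 0 ≤ wt 2 n := by unfold wt; positivity
    refine mul_le_mul_of_nonneg_left ?_ hw
    have hsub : {z : Fin 2 → ℤ | (fun k => (z k : ℝ) / n) ∈ OS j ∩ Bs 2 R} ⊆
        {z : Fin 2 → ℤ | ∑ k, (z k : ℝ) ^ 2 < (n * R) ^ 2 ∧ csec (z 0) (z 1) = j} := by
      intro z hz
      obtain ⟨hz1, hz2⟩ := hz
      refine ⟨?_, ?_⟩
      · simp only [Bs, mem_setOf_eq, Fin.sum_univ_two] at hz2 ⊢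
        have e : ((z 0 : ℝ) / n) ^ 2 + ((z 1 : ℝ) / n) ^ 2 =
          ((z 0 : ℝ) ^ 2 + (z 1 : ℝ) ^ 2) / (n : ℝ) ^ 2 := by ring
        rw [e, div_lt_iff₀ (by positivity)] at hz2
        nlinarith
      · apply csec_OS j n hn0'
        have e : (fun k : Fin 2 => (![(z 0 : ℝ), (z 1 : ℝ)] k) / (n : ℝ)) =
            fun k => (z k : ℝ) / n := by
          funext k
          fin_cases k <;> rfl
        rw [e]
        exact hz1
    have hfin : {z : Fin 2 → ℤ | ∑ k, (z k : ℝ) ^ 2 < (n * R) ^ 2 ∧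
        csec (z 0) (z 1) = j}.Finite := fin_pts (n * R) _ (fun z hz => hz.1)
    exact_mod_cast Set.ncard_le_ncard hsub hfin

end Pool.Agent.H288.HS
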