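import Pool.Agent.H288.HS.Stm2

/-!
# The 24 cones of the space
-/

set_option autoImplicit false

open MeasureTheory Set Filter Topology

namespace Pool.Agent.H288.HS

namespace COL3N

/-! ### The inequality in a cone -/

theorem poly1 (p q r p' q' r' : ℝ) (hp : 0 ≤ p) (hq : 0 ≤ q) (hr : 0 ≤ r) (hp' : 0 ≤ p')
    (hq' : 0 ≤ q') (hr' : 0 ≤ r') :
    ((p + q + r) ^ 2 + (q + r) ^ 2 + r ^ 2) * ((p' + q' + r') ^ 2 + (q' + r') ^ 2 + r' ^ 2) ≤
      4 * ((p + q + r) * (p' + q' + r') + (q + r) * (q' + r') + r * r') ^ 2 := by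
  rw [← sub_nonneg]
  ring_nf
  positivity

theorem poly2 (p q r p' q' r' : ℝ) (hp : 0 ≤ p) (hq : 0 ≤ q) (hr : 0 ≤ r) (hp' : 0 ≤ p')
    (hq' : 0 ≤ q') (hr' : 0 ≤ r') :
    ((p + q + r) ^ 2 + (q + r) ^ 2 + r ^ 2) * ((p' + q' + r') ^ 2 + r' ^ 2 + (q' + r') ^ 2) ≤
      4 * ((p + q + r) * (p' + q' + r') + (q + r) * r' + r * (q' + r')) ^ 2 := by
  rw [← sub_nonneg]
  ring_nf
  positivity

/-- cone with the first coordinate maximal -/
theorem cone (a0 a1 a2 b0 b1 b2 : ℝ) (h1 : 0 ≤ a1) (h2 : 0 ≤ a2) (h3 : a1 ≤ a0) (h4 : a2 ≤ a0)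
    (k1 : 0 ≤ b1) (k2 : 0 ≤ b2) (k3 : b1 ≤ b0) (k4 : b2 ≤ b0) :
    (a0 ^ 2 + a1 ^ 2 + a2 ^ 2) * (b0 ^ 2 + b1 ^ 2 + b2 ^ 2) ≤
      4 * (a0 * b0 + a1 * b1 + a2 * b2) ^ 2 := by
  rcases le_total a2 a1 with ha | ha <;> rcases le_total b2 b1 with hb | hb
  · have := poly1 (a0 - a1) (a1 - a2) a2 (b0 - b1) (b1 - b2) b2 (by linarith) (by linarith) h2
      (by linarith) (by linarith) k2
    have e : ∀ x y z : ℝ, x - y + (y - z) + z = x := by intros; ring
    simp only [e, sub_add_cancel] at this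
    linarith
  · have := poly2 (a0 - a1) (a1 - a2) a2 (b0 - b2) (b2 - b1) b1 (by linarith) (by linarith) h2
      (by linarith) (by linarith) k1
    have e : ∀ x y z : ℝ, x - y + (y - z) + z = x := by intros; ring
    simp only [e, sub_add_cancel] at this
    linarith
  · have := poly2 (b0 - b1) (b1 - b2) b2 (a0 - a2) (a2 - a1) a1 (by linarith) (by linarith) k2
      (by linarith) (by linarith) h1
    have e : ∀ x y z : ℝ, x - y + (y - z) + z = x := by intros; ring
    simp only [e, sub_add_cancel] at this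
    linarith
  · have := poly1 (a0 - a2) (a2 - a1) a1 (b0 - b2) (b2 - b1) b1 (by linarith) (by linarith) h1
      (by linarith) (by linarith) k1
    have e : ∀ x y z : ℝ, x - y + (y - z) + z = x := by intros; ring
    simp only [e, sub_add_cancel] at this
    linarith

theorem close (U V P ρ : ℝ) (hU : U < ρ) (hV : V < ρ) (hU0 : 0 ≤ U) (hV0 : 0 ≤ V) (hP : 0 ≤ P)
    (h : U * V ≤ 4 * P ^ 2) : U + V - 2 * P < ρ := by
  rcases le_total U V with h1 | h1
  · have h2 : U ≤ 2 * P := by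
      have h3 : U ^ 2 ≤ (2 * P) ^ 2 := by nlinarith
      exact (pow_le_pow_iff_left₀ hU0 (by linarith) (by norm_num)).1 h3
    linarith
  · have h2 : V ≤ 2 * P := by
      have h3 : V ^ 2 ≤ (2 * P) ^ 2 := by nlinarith
      exact (pow_le_pow_iff_left₀ hV0 (by linarith) (by norm_num)).1 h3
    linarith

theorem fin3 (i : Fin 3) : i = 0 ∨ i = 1 ∨ i = 2 := by
  revert i
  decide

/-- the inequality for two vectors with the same maximal coordinate and the same signs -/
theorem cone3 (u v : Fin 3 → ℝ) (i : Fin 3) (hu : ∀ k, |u k| ≤ |u i|) (hv : ∀ k, |v k| ≤ |v i|)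
    (hs : ∀ k, u k * v k = |u k| * |v k|) :
    (∑ k, u k ^ 2) * (∑ k, v k ^ 2) ≤ 4 * (∑ k, u k * v k) ^ 2 := by
  have e1 : ∑ k, u k ^ 2 = |u 0| ^ 2 + |u 1| ^ 2 + |u 2| ^ 2 := by
    rw [Fin.sum_univ_three, sq_abs, sq_abs, sq_abs]
  have e2 : ∑ k, v k ^ 2 = |v 0| ^ 2 + |v 1| ^ 2 + |v 2| ^ 2 := by
    rw [Fin.sum_univ_three, sq_abs, sq_abs, sq_abs]
  have e3 : ∑ k, u k * v k = |u 0| * |v 0| + |u 1| * |v 1| + |u 2| * |v 2| := by
    rw [Fin.sum_univ_three, hs, hs, hs]
  rw [e1, e2, e3]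
  rcases fin3 i with rfl | rfl | rfl
  · exact cone _ _ _ _ _ _ (abs_nonneg _) (abs_nonneg _) (hu 1) (hu 2) (abs_nonneg _)
      (abs_nonneg _) (hv 1) (hv 2)
  · have := cone |u 1| |u 0| |u 2| |v 1| |v 0| |v 2| (abs_nonneg _) (abs_nonneg _) (hu 0) (hu 2)
      (abs_nonneg _) (abs_nonneg _) (hv 0) (hv 2)
    nlinarith
  · have := cone |u 2| |u 0| |u 1| |v 2| |v 0| |v 1| (abs_nonneg _) (abs_nonneg _) (hu 0) (hu 1)
      (abs_nonneg _) (abs_nonneg _) (hv 0) (hv 1)
    nlinarith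

/-! ### The colouring -/

/-- an index of maximal absolute value -/
noncomputable def ix (z : Fin 3 → ℤ) : Fin 3 := (Finite.exists_max (fun k => |z k|)).choose

theorem ix_spec (z : Fin 3 → ℤ) (k : Fin 3) : |z k| ≤ |z (ix z)| :=
  (Finite.exists_max (fun k => |z k|)).choose_spec k

/-- numbering of the colours -/
noncomputable def enc : Fin 3 × (Fin 3 → Bool) ≃ Fin 24 :=
  Fintype.equivFinOfCardEq (by simp [Fintype.card_prod])

/-- the colouring -/
noncomputable def colr (z : Fin 3 → ℤ) : Fin 24 := enc (ix z, fun k => decide (0 ≤ z k))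

theorem part1 (ρ : ℝ) (u v : Fin 3 → ℤ) (hu : ∑ k, (u k : ℝ) ^ 2 < ρ ^ 2)
    (hv : ∑ k, (v k : ℝ) ^ 2 < ρ ^ 2) (h : colr u = colr v) :
    ∑ k, ((u k : ℝ) - (v k : ℝ)) ^ 2 < ρ ^ 2 := by
  have h0 := enc.injective h
  have h1 : ix u = ix v := congrArg Prod.fst h0
  have h2 : ∀ k, (0 ≤ u k ↔ 0 ≤ v k) := by
    intro k
    have := congrFun (congrArg Prod.snd h0) k
    simpa using this
  have hs : ∀ k, (u k : ℝ) * (v k : ℝ) = |(u k : ℝ)| * |(v k : ℝ)| := by
    intro k
    by_cases hk : 0 ≤ u k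
    · have hk' := (h2 k).1 hk
      rw [abs_of_nonneg (by exact_mod_cast hk), abs_of_nonneg (by exact_mod_cast hk')]
    · have hk' : ¬ 0 ≤ v k := fun h' => hk ((h2 k).2 h')
      push Not at hk hk'
      have g1 : (u k : ℝ) < 0 := by exact_mod_cast hk
      have g2 : (v k : ℝ) < 0 := by exact_mod_cast hk'
      rw [abs_of_neg g1, abs_of_neg g2]
      ring
  have hmu : ∀ k, |(u k : ℝ)| ≤ |(u (ix u) : ℝ)| := by
    intro k
    exact_mod_cast ix_spec u k
  have hmv : ∀ k, |(v k : ℝ)| ≤ |(v (ix u) : ℝ)| := by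
    intro k
    rw [h1]
    exact_mod_cast ix_spec v k
  have key := cone3 (fun k => (u k : ℝ)) (fun k => (v k : ℝ)) (ix u) hmu hmv hs
  have hP : 0 ≤ ∑ k, (u k : ℝ) * (v k : ℝ) :=
    Finset.sum_nonneg fun k _ => by rw [hs k]; positivity
  have := close (∑ k, (u k : ℝ) ^ 2) (∑ k, (v k : ℝ) ^ 2) (∑ k, (u k : ℝ) * (v k : ℝ)) (ρ ^ 2)
    hu hv (Finset.sum_nonneg fun k _ => sq_nonneg _) (Finset.sum_nonneg fun k _ => sq_nonneg _)
    hP key
  have e : ∑ k, ((u k : ℝ) - (v k : ℝ)) ^ 2 = ∑ k, (u k : ℝ) ^ 2 + ∑ k, (v k : ℝ) ^ 2 -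
      2 * ∑ k, (u k : ℝ) * (v k : ℝ) := by
    rw [Finset.mul_sum, ← Finset.sum_add_distrib, ← Finset.sum_sub_distrib]
    exact Finset.sum_congr rfl fun k _ => by ring
  rw [e]
  exact this

/-! ### The volumes -/

/-- the sign -/
def sg (b : Bool) : ℝ := if b then 1 else -1

theorem sg_sq (b : Bool) : sg b * sg b = 1 := by
  cases b <;> simp [sg]

/-- the open cones, intersected with the ball -/
def O (R : ℝ) (i : Fin 3) (s : Fin 3 → Bool) : Set (Fin 3 → ℝ) :=
  {x | ∑ k, x k ^ 2 < R ^ 2 ∧ (∀ k, 0 < sg (s k) * x k) ∧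
    ∀ k, k ≠ i → sg (s k) * x k < sg (s i) * x i}

theorem O_open (R : ℝ) (i : Fin 3) (s : Fin 3 → Bool) : IsOpen (O R i s) := by
  have e : O R i s = {x | ∑ k, x k ^ 2 < R ^ 2} ∩ ((⋂ k, {x | 0 < sg (s k) * x k}) ∩
      ⋂ k, {x | k ≠ i → sg (s k) * x k < sg (s i) * x i}) := by
    ext x
    simp only [O, Set.mem_ofPred_eq, Set.mem_inter_iff, Set.mem_iInter]
  rw [e]
  refine IsOpen.inter (isOpen_lt (by fun_prop) continuous_const) (IsOpen.inter ?_ ?_)
  · exact isOpen_iInter_of_finite fun k => isOpen_lt continuous_const (by fun_prop)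
  · refine isOpen_iInter_of_finite fun k => ?_
    by_cases hk : k = i
    · simp [hk]
    · simp only [ne_eq, hk, not_false_eq_true, true_imp_iff]
      exact isOpen_lt (by fun_prop) (by fun_prop)

theorem ball_convex (R : ℝ) : Convex ℝ {x : Fin 3 → ℝ | ∑ k, x k ^ 2 < R ^ 2} := by
  intro x hx y hy a b ha hb hab
  simp only [Set.mem_ofPred_eq] at hx hy ⊢
  have h1 : ∀ k, ((a • x + b • y) k) ^ 2 ≤ a * x k ^ 2 + b * y k ^ 2 := by
    intro k
    simp only [Pi.add_apply, Pi.smul_apply, smul_eq_mul]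
    have hb' : b = 1 - a := by linarith
    subst hb'
    nlinarith [mul_nonneg (mul_nonneg ha hb) (sq_nonneg (x k - y k))]
  have h2 : ∑ k, ((a • x + b • y) k) ^ 2 ≤ a * ∑ k, x k ^ 2 + b * ∑ k, y k ^ 2 := by
    rw [Finset.mul_sum, Finset.mul_sum, ← Finset.sum_add_distrib]
    exact Finset.sum_le_sum fun k _ => h1 k
  have h3 : a * ∑ k, x k ^ 2 + b * ∑ k, y k ^ 2 < R ^ 2 := by
    rcases eq_or_lt_of_le ha with h | h
    · rw [← h]
      have : b = 1 := by linarith
      rw [this]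
      linarith
    · have g1 := mul_lt_mul_of_pos_left hx h
      have g2 := mul_le_mul_of_nonneg_left hy.le hb
      have g3 : a * R ^ 2 + b * R ^ 2 = R ^ 2 := by rw [← add_mul, hab, one_mul]
      linarith
  linarith

theorem O_convex (R : ℝ) (i : Fin 3) (s : Fin 3 → Bool) : Convex ℝ (O R i s) := by
  intro x hx y hy a b ha hb hab
  refine ⟨ball_convex R hx.1 hy.1 ha hb hab, fun k => ?_, fun k hk => ?_⟩
  · simp only [Pi.add_apply, Pi.smul_apply, smul_eq_mul]
    have h1 := hx.2.1 k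
    have h2 := hy.2.1 k
    have e : sg (s k) * (a * x k + b * y k) = a * (sg (s k) * x k) + b * (sg (s k) * y k) := by ring
    rw [e]
    rcases eq_or_lt_of_le ha with h | h
    · have : b = 1 := by linarith
      rw [← h, this]
      linarith
    · have g1 := mul_pos h h1
      have g2 := mul_nonneg hb h2.le
      linarith
  · simp only [Pi.add_apply, Pi.smul_apply, smul_eq_mul]
    have h1 := hx.2.2 k hk
    have h2 := hy.2.2 k hk
    have e : ∀ k, sg (s k) * (a * x k + b * y k) = a * (sg (s k) * x k) + b * (sg (s k) * y k) := by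
      intro k
      ring
    rw [e, e]
    rcases eq_or_lt_of_le ha with h | h
    · have : b = 1 := by linarith
      rw [← h, this]
      linarith
    · have g1 := mul_lt_mul_of_pos_left h1 h
      have g2 := mul_le_mul_of_nonneg_left h2.le hb
      linarith

theorem coord_le {R : ℝ} (hR : 0 < R) {x : Fin 3 → ℝ} (hx : ∑ k, x k ^ 2 < R ^ 2) (k : Fin 3) :
    |x k| ≤ R := by
  have h1 : x k ^ 2 ≤ ∑ k, x k ^ 2 :=
    Finset.single_le_sum (f := fun k => x k ^ 2) (fun k _ => sq_nonneg _) (Finset.mem_univ k)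
  exact abs_le_of_sq_le_sq (by linarith) hR.le

theorem O_bdd {R : ℝ} (hR : 0 < R) (i : Fin 3) (s : Fin 3 → Bool) :
    Bornology.IsBounded (O R i s) := by
  refine (Metric.isBounded_closedBall (x := (0 : Fin 3 → ℝ)) (r := R)).subset ?_
  intro x hx
  rw [mem_closedBall_zero_iff, pi_norm_le_iff_of_nonneg hR.le]
  intro k
  rw [Real.norm_eq_abs]
  exact coord_le hR hx.1 k

/-- the permutation and sign change of the coordinates -/
def Ph (i : Fin 3) (s : Fin 3 → Bool) (x : Fin 3 → ℝ) : Fin 3 → ℝ :=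
  fun k => sg (s k) * x (Equiv.swap 0 i k)

theorem Ph_mp (i : Fin 3) (s : Fin 3 → Bool) :
    MeasurePreserving (Ph i s) (volume : Measure (Fin 3 → ℝ)) volume := by
  have h1 : MeasurePreserving (fun x : Fin 3 → ℝ => fun k => x (Equiv.swap 0 i k))
      (volume : Measure (Fin 3 → ℝ)) volume := by
    have h := volume_measurePreserving_piCongrLeft (fun _ : Fin 3 => ℝ) (Equiv.swap 0 i)
    have e : (MeasurableEquiv.piCongrLeft (fun _ : Fin 3 => ℝ) (Equiv.swap 0 i) :
        (Fin 3 → ℝ) → (Fin 3 → ℝ)) = fun x : Fin 3 → ℝ => fun k => x (Equiv.swap 0 i k) := by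
      funext x k
      have h2 := MeasurableEquiv.piCongrLeft_apply_apply (β := fun _ : Fin 3 => ℝ)
        (Equiv.swap 0 i) x (Equiv.swap 0 i k)
      rw [Equiv.swap_apply_self] at h2
      exact h2
    rw [e] at h
    exact h
  have h2 : MeasurePreserving (fun x : Fin 3 → ℝ => fun k => sg (s k) * x k)
      (volume : Measure (Fin 3 → ℝ)) volume := by
    refine volume_preserving_pi (f := fun k (t : ℝ) => sg (s k) * t) fun k => ?_
    cases hk : s k
    · have : (fun t : ℝ => sg false * t) = Neg.neg := by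
        funext t
        simp [sg]
      rw [this]
      exact Measure.measurePreserving_neg _
    · have : (fun t : ℝ => sg true * t) = id := by
        funext t
        simp [sg]
      rw [this]
      exact MeasurePreserving.id _
  exact h2.comp h1

theorem Ph_pre (R : ℝ) (i : Fin 3) (s : Fin 3 → Bool) :
    Ph i s ⁻¹' (O R i s) = O R 0 (fun _ => true) := by
  ext x
  have e1 : ∀ k, sg (s k) * (sg (s k) * x (Equiv.swap 0 i k)) = x (Equiv.swap 0 i k) := by
    intro k
    rw [← mul_assoc, sg_sq, one_mul]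
  have e2 : ∀ k, sg true * x k = x k := fun k => by simp [sg]
  simp only [O, Ph, Set.mem_preimage, Set.mem_ofPred_eq, e1, e2]
  have e3 : ∑ k, (sg (s k) * x (Equiv.swap 0 i k)) ^ 2 = ∑ k, x k ^ 2 := by
    refine Eq.trans (Finset.sum_congr rfl fun k _ => ?_)
      (Equiv.sum_comp (Equiv.swap 0 i) (fun k => x k ^ 2))
    rw [mul_pow, sq (sg (s k)), sg_sq, one_mul]
  rw [e3, Equiv.swap_apply_right]
  have e4 : (∀ k, 0 < x (Equiv.swap 0 i k)) ↔ ∀ k, 0 < x k :=
    ⟨fun h k => by simpa using h (Equiv.swap 0 i k), fun h k => h _⟩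
  have e5 : (∀ k, k ≠ i → x (Equiv.swap 0 i k) < x 0) ↔ ∀ k, k ≠ 0 → x k < x 0 := by
    constructor
    · intro h k hk
      have h1 := h (Equiv.swap 0 i k) (by
        intro h2
        apply hk
        have h3 := congrArg (Equiv.swap 0 i) h2
        rw [Equiv.swap_apply_self, Equiv.swap_apply_right] at h3
        exact h3)
      rwa [Equiv.swap_apply_self] at h1
    · intro h k hk
      refine h _ ?_
      intro h2
      apply hk
      have h3 := congrArg (Equiv.swap 0 i) h2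
      rw [Equiv.swap_apply_self, Equiv.swap_apply_left] at h3
      exact h3
  rw [e4, e5]

theorem O_vol (R : ℝ) (i : Fin 3) (s : Fin 3 → Bool) :
    volume (O R i s) = volume (O R 0 (fun _ => true)) := by
  rw [← Ph_pre R i s, (Ph_mp i s).measure_preimage (O_open R i s).measurableSet.nullMeasurableSet]

theorem null_lin (f : (Fin 3 → ℝ) →ₗ[ℝ] ℝ) (hf : f ≠ 0) :
    (volume : Measure (Fin 3 → ℝ)) {x | f x = 0} = 0 := by
  have h1 : LinearMap.ker f ≠ ⊤ := by
    intro h
    exact hf (LinearMap.ker_eq_top.1 h)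
  exact Measure.addHaar_submodule volume (LinearMap.ker f) h1

/-- the exceptional set -/
def Nl : Set (Fin 3 → ℝ) :=
  (⋃ k : Fin 3, {x | x k = 0}) ∪ ⋃ i : Fin 3, ⋃ k : Fin 3, {x | i ≠ k ∧ |x i| = |x k|}

theorem Nl_null : (volume : Measure (Fin 3 → ℝ)) Nl = 0 := by
  unfold Nl
  rw [measure_union_null_iff]
  constructor
  · rw [measure_iUnion_null_iff]
    intro k
    refine null_lin (LinearMap.proj k : (Fin 3 → ℝ) →ₗ[ℝ] ℝ) ?_
    intro h
    have := LinearMap.congr_fun h (Pi.single k 1)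
    simp at this
  · rw [measure_iUnion_null_iff]
    intro i
    rw [measure_iUnion_null_iff]
    intro k
    by_cases hik : i = k
    · have : {x : Fin 3 → ℝ | i ≠ k ∧ |x i| = |x k|} = ∅ := by
        ext x
        simp [hik]
      rw [this, measure_empty]
    · have h1 : {x : Fin 3 → ℝ | i ≠ k ∧ |x i| = |x k|} ⊆
          {x | ((LinearMap.proj i : (Fin 3 → ℝ) →ₗ[ℝ] ℝ) - (LinearMap.proj k : (Fin 3 → ℝ) →ₗ[ℝ] ℝ))
            x = 0} ∪
          {x | ((LinearMap.proj i : (Fin 3 → ℝ) →ₗ[ℝ] ℝ) + (LinearMap.proj k : (Fin 3 → ℝ) →ₗ[ℝ] ℝ))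
            x = 0} := by
        rintro x ⟨_, hx⟩
        rcases abs_eq_abs.1 hx with h | h
        · left
          simp only [Set.mem_ofPred_eq, LinearMap.sub_apply, LinearMap.proj_apply]
          linarith
        · right
          simp only [Set.mem_ofPred_eq, LinearMap.add_apply, LinearMap.proj_apply]
          linarith
      refine measure_mono_null h1 ((measure_union_null_iff).2 ⟨null_lin _ ?_, null_lin _ ?_⟩)
      · intro h
        have := LinearMap.congr_fun h (Pi.single i 1)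
        simp [Pi.single_eq_of_ne (Ne.symm hik)] at this
      · intro h
        have := LinearMap.congr_fun h (Pi.single i 1)
        simp [Pi.single_eq_of_ne (Ne.symm hik)] at this

theorem cover (R : ℝ) : {x : Fin 3 → ℝ | ∑ k, x k ^ 2 < R ^ 2} ⊆
    (⋃ p : Fin 3 × (Fin 3 → Bool), O R p.1 p.2) ∪ Nl := by
  intro x hx
  by_cases hN : x ∈ Nl
  · exact Or.inr hN
  · left
    have h0 : ∀ k, x k ≠ 0 := by
      intro k hk
      exact hN (Or.inl (Set.mem_iUnion.2 ⟨k, hk⟩))
    have h1 : ∀ i k, i ≠ k → |x i| ≠ |x k| := by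
      intro i k hik h
      exact hN (Or.inr (Set.mem_iUnion.2 ⟨i, Set.mem_iUnion.2 ⟨k, hik, h⟩⟩))
    obtain ⟨i, hi⟩ := Finite.exists_max (fun k => |x k|)
    rw [Set.mem_iUnion]
    have hs : ∀ k, sg (decide (0 < x k)) * x k = |x k| := by
      intro k
      by_cases hk : 0 < x k
      · simp [sg, hk, abs_of_pos hk]
      · push Not at hk
        simp [sg, not_lt.2 hk, abs_of_nonpos hk]
    refine ⟨(i, fun k => decide (0 < x k)), hx, fun k => ?_, fun k hk => ?_⟩
    · change 0 < sg (decide (0 < x k)) * x k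
      rw [hs]
      exact abs_pos.2 (h0 k)
    · change sg (decide (0 < x k)) * x k < sg (decide (0 < x i)) * x i
      rw [hs, hs]
      exact lt_of_le_of_ne (hi k) (h1 k i hk)

theorem ball_vol {R : ℝ} (hR : 0 < R) :
    volume {x : Fin 3 → ℝ | ∑ k, x k ^ 2 < R ^ 2} = ENNReal.ofReal (4 / 3 * Real.pi * R ^ 3) := by
  have h := EuclideanSpace.volume_ball_fin_three (0 : EuclideanSpace ℝ (Fin 3)) R
  rw [← (PiLp.volume_preserving_toLp (Fin 3)).measure_preimage
      measurableSet_ball.nullMeasurableSet] at h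
  have e : (WithLp.toLp 2 : (Fin 3 → ℝ) → EuclideanSpace ℝ (Fin 3)) ⁻¹'
      Metric.ball (0 : EuclideanSpace ℝ (Fin 3)) R = {x : Fin 3 → ℝ | ∑ k, x k ^ 2 < R ^ 2} := by
    rw [EuclideanSpace.ball_zero_eq _ hR.le]
    rfl
  rw [e] at h
  rw [h, ← ENNReal.ofReal_pow hR.le, ← ENNReal.ofReal_mul (by positivity)]
  congr 1
  ring

theorem O_lower {R : ℝ} (hR : 0 < R) (i : Fin 3) (s : Fin 3 → Bool) :
    Real.pi * R ^ 3 / 18 ≤ volume.real (O R i s) := by
  have hfin : volume (O R i s) ≠ ⊤ := (O_bdd hR i s).measure_lt_top.ne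
  have h1 : volume {x : Fin 3 → ℝ | ∑ k, x k ^ 2 < R ^ 2} ≤ 24 * volume (O R i s) := by
    refine (measure_mono (cover R)).trans ((measure_union_le _ _).trans ?_)
    rw [Nl_null, add_zero]
    refine (measure_iUnion_fintype_le _ _).trans ?_
    have : ∀ p : Fin 3 × (Fin 3 → Bool), volume (O R p.1 p.2) = volume (O R i s) := by
      intro p
      rw [O_vol R p.1 p.2, O_vol R i s]
    rw [Finset.sum_congr rfl fun p _ => this p, Finset.sum_const, Finset.card_univ]
    simp only [Fintype.card_prod, Fintype.card_fin, Fintype.card_fun, Fintype.card_bool]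
    rw [nsmul_eq_mul]
    norm_num
  rw [ball_vol hR] at h1
  have h2 : 4 / 3 * Real.pi * R ^ 3 ≤ 24 * volume.real (O R i s) := by
    have h3 := ENNReal.toReal_mono (ENNReal.mul_ne_top (by norm_num) hfin) h1
    rw [ENNReal.toReal_ofReal (by positivity), ENNReal.toReal_mul] at h3
    exact h3
  linarith

theorem sub_col {R : ℝ} (hR : 0 < R) {n : ℕ} (hn : 0 < n) (i : Fin 3) (s : Fin 3 → Bool) :
    ({z : Fin 3 → ℤ | (fun k => (z k : ℝ) / n) ∈ O R i s}.ncard : ℝ) ≤
      ({z : Fin 3 → ℤ | ∑ k, (z k : ℝ) ^ 2 < (n * R) ^ 2 ∧ colr z = enc (i, s)}.ncard : ℝ) := by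
  have hn' : (0:ℝ) < n := by exact_mod_cast hn
  have hsub : {z : Fin 3 → ℤ | (fun k => (z k : ℝ) / n) ∈ O R i s} ⊆
      {z : Fin 3 → ℤ | ∑ k, (z k : ℝ) ^ 2 < (n * R) ^ 2 ∧ colr z = enc (i, s)} := by
    rintro z ⟨h1, h2, h3⟩
    have h2' : ∀ k, 0 < sg (s k) * (z k : ℝ) := by
      intro k
      have := h2 k
      simp only at this
      rw [← mul_div_assoc, div_pos_iff_of_pos_right hn'] at this
      exact this
    have habs : ∀ k, sg (s k) * (z k : ℝ) = |(z k : ℝ)| := by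
      intro k
      have h4 : |sg (s k) * (z k : ℝ)| = |(z k : ℝ)| := by
        rw [abs_mul]
        have : |sg (s k)| = 1 := by cases s k <;> simp [sg]
        rw [this, one_mul]
      rw [← h4, abs_of_pos (h2' k)]
    have h3' : ∀ k, k ≠ i → |z k| < |z i| := by
      intro k hk
      have h4 := h3 k hk
      simp only at h4
      rw [← mul_div_assoc, ← mul_div_assoc, div_lt_div_iff_of_pos_right hn', habs, habs] at h4
      exact_mod_cast h4
    refine ⟨?_, ?_⟩
    · have h5 : ∑ k, ((z k : ℝ) / n) ^ 2 = (∑ k, (z k : ℝ) ^ 2) / (n:ℝ) ^ 2 := by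
        rw [Finset.sum_div]
        exact Finset.sum_congr rfl fun k _ => div_pow _ _ _
      rw [h5, div_lt_iff₀ (by positivity)] at h1
      rw [mul_pow]
      linarith
    · unfold colr
      congr 1
      refine Prod.ext ?_ ?_
      · change ix z = i
        by_contra hne
        have h6 := h3' (ix z) hne
        have h7 := ix_spec z i
        omega
      · funext k
        change decide (0 ≤ z k) = s k
        have h8 := h2' k
        cases hk : s k
        · rw [hk] at h8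
          simp only [sg, Bool.false_eq_true, if_false] at h8
          have h9 : (z k : ℝ) < 0 := by linarith
          have h10 : z k < 0 := by exact_mod_cast h9
          simp [not_le.2 h10]
        · rw [hk] at h8
          simp only [sg, if_true, one_mul] at h8
          have h10 : 0 < z k := by exact_mod_cast h8
          simp [h10.le]
  have hfin : {z : Fin 3 → ℤ | ∑ k, (z k : ℝ) ^ 2 < (n * R) ^ 2 ∧ colr z = enc (i, s)}.Finite := by
    refine (Set.finite_Icc (fun _ : Fin 3 => -⌈(n:ℝ) * R⌉) (fun _ => ⌈(n:ℝ) * R⌉)).subset ?_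
    rintro z ⟨h1, _⟩
    have h2 : ∀ k, |(z k : ℝ)| ≤ (n:ℝ) * R := fun k => coord_le (by positivity) h1 k
    rw [Set.mem_Icc]
    constructor <;> intro k
    · have h3 := (abs_le.1 (h2 k)).1
      have h4 := Int.le_ceil ((n:ℝ) * R)
      have h5 : (-(⌈(n:ℝ) * R⌉ : ℝ)) ≤ (z k : ℝ) := by linarith
      exact_mod_cast h5
    · have h3 := (abs_le.1 (h2 k)).2
      have h4 := Int.le_ceil ((n:ℝ) * R)
      have h5 : (z k : ℝ) ≤ (⌈(n:ℝ) * R⌉ : ℝ) := by linarith
      exact_mod_cast h5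
  exact_mod_cast Set.ncard_le_ncard hsub hfin

end COL3N

open COL3N in
theorem t_COL3 (h : S_CONV) : S_COL3 := by
  refine ⟨colr, part1, ?_⟩
  intro R δ hR hδ
  rw [eventually_all]
  intro j
  obtain ⟨⟨i, s⟩, rfl⟩ := enc.surjective j
  have h1 := h 3 (O R i s) (by norm_num) (O_convex R i s) (O_open R i s).measurableSet
    (O_bdd hR i s)
  have h2 := O_lower hR i s
  have h3 : ∀ᶠ n : ℕ in atTop, Real.pi * R ^ 3 / 18 - δ <
      wt 3 n * ({z : Fin 3 → ℤ | (fun k => (z k : ℝ) / n) ∈ O R i s}.ncard : ℝ) :=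
    h1.eventually_const_lt (by linarith)
  filter_upwards [h3, eventually_gt_atTop 0] with n hn hn0
  refine hn.le.trans (mul_le_mul_of_nonneg_left (sub_col hR hn0 i s) ?_)
  unfold wt
  positivity

end Pool.Agent.H288.HS
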