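import Pool.Agent.H288.HS.Stm2

/-!
# Colouring by small cubes
-/

set_option autoImplicit false

open MeasureTheory Set Filter Topology

namespace Pool.Agent.H288.HS

namespace COLDN

theorem abs_lt_of_sum {d : ℕ} {ρ : ℝ} (hρ : 0 < ρ) {z : Fin d → ℤ}
    (h : ∑ k, (z k : ℝ) ^ 2 < ρ ^ 2) (k : Fin d) : |(z k : ℝ)| < ρ := by
  have h1 : (z k : ℝ) ^ 2 ≤ ∑ k, (z k : ℝ) ^ 2 :=
    Finset.single_le_sum (f := fun k => (z k : ℝ) ^ 2) (fun i _ => sq_nonneg _) (Finset.mem_univ k)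
  exact abs_lt_of_sq_lt_sq (lt_of_le_of_lt h1 h) hρ.le

theorem floor_range {D : ℕ} {ρ x : ℝ} (hρ : 0 < ρ) (hx : |x| < ρ) (hD : 0 < D) :
    -(D : ℤ) ≤ ⌊x * D / ρ⌋ ∧ ⌊x * D / ρ⌋ < D := by
  have hD' : (0 : ℝ) < D := by exact_mod_cast hD
  obtain ⟨h1, h2⟩ := abs_lt.1 hx
  constructor
  · rw [Int.le_floor]
    push_cast
    rw [le_div_iff₀ hρ]
    nlinarith
  · rw [Int.floor_lt]
    push_cast
    rw [div_lt_iff₀ hρ]
    nlinarith

end COLDN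

open COLDN in
theorem t_COLD : S_COLD := by
  intro d R hd hR
  have hD : 0 < d + 1 := Nat.succ_pos d
  let e : (Fin d → Fin (2 * (d + 1))) ≃ Fin (Fintype.card (Fin d → Fin (2 * (d + 1)))) :=
    Fintype.equivFin _
  refine ⟨Fintype.card (Fin d → Fin (2 * (d + 1))), Fintype.card_pos_iff.2 ⟨fun _ => ⟨0, by omega⟩⟩,
    fun n z => e (fun k => ⟨(⌊(z k : ℝ) * ((d + 1 : ℕ) : ℝ) / (n * R)⌋ + ((d + 1 : ℕ) : ℤ)).toNat %
      (2 * (d + 1)), Nat.mod_lt _ (by omega)⟩), ?_⟩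
  filter_upwards [eventually_ge_atTop 1] with n hn u v hu hv huv
  have hn' : (0 : ℝ) < n := by exact_mod_cast hn
  have hρ : 0 < (n : ℝ) * R := mul_pos hn' hR
  have h1 := e.injective huv
  have h2 : ∀ k, |(u k : ℝ) - v k| ≤ n * R / ((d + 1 : ℕ) : ℝ) := by
    intro k
    have h3 := congrFun h1 k
    rw [Fin.mk.injEq] at h3
    have h4 := floor_range hρ (abs_lt_of_sum hρ hu k) hD
    have h5 := floor_range hρ (abs_lt_of_sum hρ hv k) hD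
    rw [Nat.mod_eq_of_lt (by omega), Nat.mod_eq_of_lt (by omega)] at h3
    have h6 : ⌊(u k : ℝ) * ((d + 1 : ℕ) : ℝ) / (n * R)⌋ =
        ⌊(v k : ℝ) * ((d + 1 : ℕ) : ℝ) / (n * R)⌋ := by omega
    have h7 := Int.abs_sub_lt_one_of_floor_eq_floor h6
    have hDr : (0 : ℝ) < ((d + 1 : ℕ) : ℝ) := by exact_mod_cast hD
    have h8 : (u k : ℝ) * ((d + 1 : ℕ) : ℝ) / (n * R) - (v k : ℝ) * ((d + 1 : ℕ) : ℝ) / (n * R) =
        ((u k : ℝ) - v k) * (((d + 1 : ℕ) : ℝ) / (n * R)) := by ring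
    rw [h8, abs_mul, abs_of_pos (div_pos hDr hρ)] at h7
    have h9 : |(u k : ℝ) - v k| = |(u k : ℝ) - v k| * (((d + 1 : ℕ) : ℝ) / (n * R)) *
        (n * R / ((d + 1 : ℕ) : ℝ)) := by
      field_simp
    rw [h9]
    have h10 : 0 < n * R / ((d + 1 : ℕ) : ℝ) := div_pos hρ hDr
    calc _ ≤ 1 * (n * R / ((d + 1 : ℕ) : ℝ)) := mul_le_mul_of_nonneg_right h7.le h10.le
      _ = _ := one_mul _
  have h3 : ∀ k, ((u k : ℝ) - v k) ^ 2 ≤ (n * R / ((d + 1 : ℕ) : ℝ)) ^ 2 := by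
    intro k
    rw [← sq_abs]
    exact pow_le_pow_left₀ (abs_nonneg _) (h2 k) 2
  calc ∑ k, ((u k : ℝ) - (v k : ℝ)) ^ 2 ≤ ∑ _k : Fin d, (n * R / ((d + 1 : ℕ) : ℝ)) ^ 2 :=
        Finset.sum_le_sum fun k _ => h3 k
    _ = d * (n * R / ((d + 1 : ℕ) : ℝ)) ^ 2 := by simp
    _ < (n * R) ^ 2 := by
        rw [div_pow, ← mul_div_assoc, div_lt_iff₀ (by positivity), mul_comm]
        refine mul_lt_mul_of_pos_left ?_ (by positivity)
        push_cast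
        nlinarith [Nat.cast_nonneg (α := ℝ) d]

end Pool.Agent.H288.HS
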