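import Pool.Agent.H288.HS.Stm2

/-!
# Grid points of bounded convex sets (project HS, helper288; part CONV)
-/

set_option autoImplicit false

open MeasureTheory Set Filter Topology

namespace Pool.Agent.H288.HS.CONVN

open Pointwise in
theorem image_eq (d : ℕ) (s : Set (Fin d → ℝ)) {n : ℕ} (hn : n ≠ 0) :
    (fun (z : Fin d → ℤ) (k : Fin d) => (z k : ℝ) / n) ''
      {z : Fin d → ℤ | (fun k => (z k : ℝ) / n) ∈ s} =
    s ∩ (n : ℝ)⁻¹ • (Submodule.span ℤ (Set.range (Pi.basisFun ℝ (Fin d))) : Set (Fin d → ℝ)) := by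
  have hn' : (n : ℝ) ≠ 0 := Nat.cast_ne_zero.2 hn
  ext x
  constructor
  · rintro ⟨z, hz, rfl⟩
    refine ⟨hz, ?_⟩
    rw [Set.mem_smul_set]
    refine ⟨fun k => (z k : ℝ), ?_, ?_⟩
    · rw [SetLike.mem_coe, Module.Basis.mem_span_iff_repr_mem]
      intro i
      rw [Pi.basisFun_repr]
      exact ⟨z i, rfl⟩
    · funext k
      rw [Pi.smul_apply, smul_eq_mul, inv_mul_eq_div]
  · rintro ⟨hx, hx2⟩
    rw [Set.mem_smul_set] at hx2
    obtain ⟨y, hy, rfl⟩ := hx2
    rw [SetLike.mem_coe, Module.Basis.mem_span_iff_repr_mem] at hy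
    choose z hz using hy
    have h1 : (fun k => (z k : ℝ) / n) = (n : ℝ)⁻¹ • y := by
      funext k
      rw [Pi.smul_apply, smul_eq_mul, inv_mul_eq_div]
      congr 1
      have := hz k
      rw [Pi.basisFun_repr] at this
      exact this
    refine ⟨z, ?_, h1⟩
    change (fun k => (z k : ℝ) / n) ∈ s
    rw [h1]
    exact hx

end Pool.Agent.H288.HS.CONVN

namespace Pool.Agent.H288.HS

open CONVN

theorem t_CONV : S_CONV := by
  intro d s _ hconv hms hb
  have h1 := tendsto_card_div_pow_atTop_volume s hb hms (hconv.addHaar_frontier volume)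
  refine h1.congr' ?_
  filter_upwards [eventually_ge_atTop 1] with n hn
  have hn' : (n : ℝ) ≠ 0 := by
    have : n ≠ 0 := by omega
    exact_mod_cast this
  have h2 : Function.Injective (fun (z : Fin d → ℤ) (k : Fin d) => (z k : ℝ) / n) := by
    intro z z' h
    funext k
    have := congrFun h k
    simp only [div_left_inj' hn', Int.cast_inj] at this
    exact this
  rw [Nat.card_coe_set_eq, ← image_eq d s (by omega), Set.ncard_image_of_injective _ h2,
    Fintype.card_fin]
  unfold wt
  ring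

end Pool.Agent.H288.HS
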