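import Pool.Agent.H288.HS.Stm3
import Pool.Agent.H288.HS.T.COL2
import Pool.Agent.H288.HS.T.CONV

/-!
# The six sectors of the plane, weighted: `S_COLW`
-/

set_option autoImplicit false

open MeasureTheory Set Filter Topology

namespace Pool.Agent.H288.HS.COLWN

open COL2N

/-! ## Polar coordinates -/

lemma mem_Q0 (R : ℝ) (hR : 0 < R) (r t : ℝ) (hr : 0 < r) (h1 : -Real.pi < t) (h2 : t < Real.pi) :
    (![r * Real.cos t, r * Real.sin t] : Fin 2 → ℝ) ∈ OS 0 ∩ Bs 2 R ↔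
      r < R ∧ 0 < t ∧ t < Real.pi / 3 := by
  have hpi := Real.pi_pos
  have hcs := Real.sin_sq_add_cos_sq t
  have e1 : (![r * Real.cos t, r * Real.sin t] : Fin 2 → ℝ) ∈ Bs 2 R ↔ r < R := by
    simp only [Bs, mem_setOf_eq, Fin.sum_univ_two, Matrix.cons_val_zero, Matrix.cons_val_one]
    have : (r * Real.cos t) ^ 2 + (r * Real.sin t) ^ 2 = r ^ 2 := by
      have : (r * Real.cos t) ^ 2 + (r * Real.sin t) ^ 2 =
        r ^ 2 * (Real.sin t ^ 2 + Real.cos t ^ 2) := by ring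
      rw [this, hcs, mul_one]
    rw [this]
    exact ⟨fun h => lt_of_pow_lt_pow_left₀ 2 hR.le h, fun h => by gcongr⟩
  have e2 : √3 * Real.cos t - Real.sin t = 2 * Real.sin (Real.pi / 3 - t) := by
    rw [Real.sin_sub, Real.sin_pi_div_three, Real.cos_pi_div_three]; ring
  have e3 : (![r * Real.cos t, r * Real.sin t] : Fin 2 → ℝ) ∈ OS 0 ↔
      0 < Real.sin t ∧ 0 < Real.sin (Real.pi / 3 - t) := by
    simp only [OS, HS, mem_inter_iff, mem_setOf_eq, Matrix.cons_val_zero, Matrix.cons_val_one]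
    have a1 : 0 * (r * Real.cos t) + 1 * (r * Real.sin t) = r * Real.sin t := by ring
    have a2 : √3 * (r * Real.cos t) + -1 * (r * Real.sin t) =
      (2 * r) * Real.sin (Real.pi / 3 - t) := by
      have : √3 * (r * Real.cos t) + -1 * (r * Real.sin t) =
        r * (√3 * Real.cos t - Real.sin t) := by ring
      rw [this, e2]; ring
    rw [a1, a2, mul_pos_iff_of_pos_left hr, mul_pos_iff_of_pos_left (by linarith)]
  rw [mem_inter_iff, e1, e3]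
  constructor
  · rintro ⟨⟨h3, h4⟩, h5⟩
    have h6 : 0 < t := by
      by_contra h
      rw [not_lt] at h
      have := Real.sin_nonpos_of_nonpos_of_neg_pi_le h h1.le
      linarith
    refine ⟨h5, h6, ?_⟩
    by_contra h
    rw [not_lt] at h
    have := Real.sin_nonpos_of_nonpos_of_neg_pi_le (x := Real.pi / 3 - t) (by linarith)
      (by linarith)
    linarith
  · rintro ⟨h3, h4, h5⟩
    exact ⟨⟨Real.sin_pos_of_pos_of_lt_pi h4 h2, Real.sin_pos_of_pos_of_lt_pi (by linarith)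
      (by linarith)⟩, h3⟩

lemma Q_meas (R : ℝ) (j : Fin 6) : MeasurableSet (OS j ∩ Bs 2 R) :=
  ((OS_open j).inter (Bs_open R)).measurableSet

/-- The integral over the first sector in polar coordinates. -/
lemma polarQ (R : ℝ) (hR : 0 < R) (F : (Fin 2 → ℝ) → ℝ) (g h : ℝ → ℝ)
    (hF : ∀ r t : ℝ, r * F ![r * Real.cos t, r * Real.sin t] = g r * h t) :
    ∫ x in OS 0 ∩ Bs 2 R, F x =
      (∫ r in Ioo 0 R, g r) * ∫ t in Ioo 0 (Real.pi / 3), h t := by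
  have hpi := Real.pi_pos
  rw [← integral_indicator (Q_meas R 0)]
  have e0 : ∫ x : Fin 2 → ℝ, (OS 0 ∩ Bs 2 R).indicator F x =
      ∫ p : ℝ × ℝ, (OS 0 ∩ Bs 2 R).indicator F ![p.1, p.2] := by
    have := (volume_preserving_finTwoArrow ℝ).symm.integral_comp
      (MeasurableEquiv.finTwoArrow (α := ℝ)).symm.measurableEmbedding
      ((OS 0 ∩ Bs 2 R).indicator F)
    rw [← this]
    rfl
  rw [e0, ← integral_comp_polarCoord_symm]
  have hT : MeasurableSet (polarCoord.target) := polarCoord.open_target.measurableSet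
  rw [← integral_indicator hT]
  have hS : MeasurableSet (Ioo (0 : ℝ) R ×ˢ Ioo (0 : ℝ) (Real.pi / 3)) :=
    measurableSet_Ioo.prod measurableSet_Ioo
  have e1 : (polarCoord.target).indicator (fun p : ℝ × ℝ => p.1 •
      (OS 0 ∩ Bs 2 R).indicator F ![(polarCoord.symm p).1, (polarCoord.symm p).2]) =
      (Ioo (0 : ℝ) R ×ˢ Ioo (0 : ℝ) (Real.pi / 3)).indicator (fun p => g p.1 * h p.2) := by
    funext p
    obtain ⟨r, t⟩ := p
    by_cases hp : (r, t) ∈ polarCoord.target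
    · have hp' : 0 < r ∧ -Real.pi < t ∧ t < Real.pi := by
        simpa [polarCoord] using hp
      obtain ⟨hr, h1, h2⟩ := hp'
      rw [indicator_of_mem hp]
      have e2 : (![(polarCoord.symm (r, t)).1, (polarCoord.symm (r, t)).2] : Fin 2 → ℝ) =
        ![r * Real.cos t, r * Real.sin t] := by
        rw [polarCoord_symm_apply]
      rw [e2]
      have hm := mem_Q0 R hR r t hr h1 h2
      by_cases hq : r < R ∧ 0 < t ∧ t < Real.pi / 3
      · rw [indicator_of_mem (hm.mpr hq), indicator_of_mem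
          (show (r, t) ∈ Ioo (0 : ℝ) R ×ˢ Ioo (0 : ℝ) (Real.pi / 3) from
            ⟨⟨hr, hq.1⟩, hq.2.1, hq.2.2⟩), smul_eq_mul]
        exact hF r t
      · rw [indicator_of_notMem (fun h => hq (hm.mp h)), indicator_of_notMem
          (fun h : (r, t) ∈ Ioo (0 : ℝ) R ×ˢ Ioo (0 : ℝ) (Real.pi / 3) =>
            hq ⟨h.1.2, h.2.1, h.2.2⟩), smul_zero]
    · rw [indicator_of_notMem hp, indicator_of_notMem]
      intro hq
      apply hp
      have hq1 : 0 < r := hq.1.1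
      have hq2 : 0 < t := hq.2.1
      have hq3 : t < Real.pi / 3 := hq.2.2
      show (r, t) ∈ Ioi (0 : ℝ) ×ˢ Ioo (-Real.pi) Real.pi
      exact ⟨hq1, by linarith, by linarith⟩
  rw [e1, integral_indicator hS]
  exact setIntegral_prod_mul g h _ _

lemma int_pow (R : ℝ) (hR : 0 < R) (n : ℕ) :
    ∫ r in Ioo 0 R, r ^ n = R ^ (n + 1) / (n + 1) := by
  rw [← integral_Ioc_eq_integral_Ioo, ← intervalIntegral.integral_of_le hR.le, integral_pow]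
  simp

lemma int_cos : ∫ t in Ioo 0 (Real.pi / 3), Real.cos t = √3 / 2 := by
  have hpi := Real.pi_pos
  rw [← integral_Ioc_eq_integral_Ioo, ← intervalIntegral.integral_of_le (by linarith),
    integral_cos, Real.sin_pi_div_three, Real.sin_zero, sub_zero]

lemma int_sin : ∫ t in Ioo 0 (Real.pi / 3), Real.sin t = 1 / 2 := by
  have hpi := Real.pi_pos
  rw [← integral_Ioc_eq_integral_Ioo, ← intervalIntegral.integral_of_le (by linarith),
    integral_sin, Real.cos_pi_div_three, Real.cos_zero]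
  norm_num

lemma int_one : ∫ t in Ioo 0 (Real.pi / 3), (1 : ℝ) = Real.pi / 3 := by
  have hpi := Real.pi_pos
  rw [← integral_Ioc_eq_integral_Ioo, ← intervalIntegral.integral_of_le (by linarith)]
  simp

lemma Q0_x (R : ℝ) (hR : 0 < R) : ∫ x in OS 0 ∩ Bs 2 R, x 0 = R ^ 3 / 3 * (√3 / 2) := by
  rw [polarQ R hR (fun x => x 0) (fun r => r ^ 2) Real.cos (fun r t => by
    simp only [Matrix.cons_val_zero]; ring), int_pow R hR, int_cos]
  norm_num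

lemma Q0_y (R : ℝ) (hR : 0 < R) : ∫ x in OS 0 ∩ Bs 2 R, x 1 = R ^ 3 / 3 * (1 / 2) := by
  rw [polarQ R hR (fun x => x 1) (fun r => r ^ 2) Real.sin (fun r t => by
    show r * (r * Real.sin t) = r ^ 2 * Real.sin t
    ring), int_pow R hR, int_sin]
  norm_num

lemma Q0_sq (R : ℝ) (hR : 0 < R) :
    ∫ x in OS 0 ∩ Bs 2 R, (x 0 ^ 2 + x 1 ^ 2) = Real.pi * R ^ 4 / 12 := by
  rw [polarQ R hR (fun x => x 0 ^ 2 + x 1 ^ 2) (fun r => r ^ 3) (fun _ => 1) (fun r t => by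
    simp only [Matrix.cons_val_zero, Matrix.cons_val_one]
    have hcs := Real.sin_sq_add_cos_sq t
    have : r * ((r * Real.cos t) ^ 2 + (r * Real.sin t) ^ 2) =
      r ^ 3 * (Real.sin t ^ 2 + Real.cos t ^ 2) := by ring
    rw [this, hcs]), int_pow R hR, int_one]
  push_cast
  ring

lemma Q_int (R : ℝ) (hR : 0 < R) (j : Fin 6) (F : (Fin 2 → ℝ) → ℝ) (hF : Continuous F) :
    IntegrableOn F (OS j ∩ Bs 2 R) := by
  have hK : IsCompact (closure (Bs 2 R)) := (Bs_bounded R).isCompact_closure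
  exact (hF.continuousOn.integrableOn_compact hK).mono_set
    (inter_subset_right.trans subset_closure)

/-! ## The other sectors -/

lemma rot_inj : Function.Injective rot := by
  intro x y h
  have h3 := s3
  have a0 := congrFun h 0
  have a1 := congrFun h 1
  rw [rot_zero, rot_zero] at a0
  rw [rot_one, rot_one] at a1
  have b0 : x 0 = y 0 := by
    have e : ∀ z : Fin 2 → ℝ, (z 0 / 2 - √3 / 2 * z 1) / 2 + √3 / 2 * (√3 / 2 * z 0 + z 1 / 2) =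
      z 0 := by
      intro z
      have : (z 0 / 2 - √3 / 2 * z 1) / 2 + √3 / 2 * (√3 / 2 * z 0 + z 1 / 2) =
        z 0 / 4 + (√3 * √3) / 4 * z 0 := by ring
      rw [this, h3]; ring
    rw [← e x, ← e y, a0, a1]
  have b1 : x 1 = y 1 := by
    rw [b0] at a1
    linarith
  funext i
  fin_cases i
  · exact b0
  · exact b1

lemma rot_cont : Continuous rot := rot.continuous_of_finiteDimensional

lemma rot_emb : MeasurableEmbedding rot := rot_cont.measurableEmbedding rot_inj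

lemma rot_mp : MeasurePreserving (rot : (Fin 2 → ℝ) → (Fin 2 → ℝ)) volume volume := by
  refine ⟨rot_cont.measurable, Measure.ext fun s hs => ?_⟩
  rw [Measure.map_apply rot_cont.measurable hs, rot_volume]

lemma int_succ (R : ℝ) (s t s' t' : Set (Fin 2 → ℝ)) (h1 : rot ⁻¹' s' = s) (h2 : rot ⁻¹' t' = t)
    (F : (Fin 2 → ℝ) → ℝ) :
    ∫ x in (s' ∩ t') ∩ Bs 2 R, F x = ∫ x in (s ∩ t) ∩ Bs 2 R, F (rot x) := by
  rw [← rot_mp.setIntegral_preimage_emb rot_emb F ((s' ∩ t') ∩ Bs 2 R), preimage_inter,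
    preimage_inter, h1, h2, rot_Bs]

lemma int_step (R : ℝ) (F : (Fin 2 → ℝ) → ℝ) :
    (∫ x in OS 1 ∩ Bs 2 R, F x = ∫ x in OS 0 ∩ Bs 2 R, F (rot x)) ∧
    (∫ x in OS 2 ∩ Bs 2 R, F x = ∫ x in OS 1 ∩ Bs 2 R, F (rot x)) ∧
    (∫ x in OS 3 ∩ Bs 2 R, F x = ∫ x in OS 2 ∩ Bs 2 R, F (rot x)) ∧
    (∫ x in OS 4 ∩ Bs 2 R, F x = ∫ x in OS 3 ∩ Bs 2 R, F (rot x)) ∧
    (∫ x in OS 5 ∩ Bs 2 R, F x = ∫ x in OS 4 ∩ Bs 2 R, F (rot x)) :=
  ⟨int_succ R _ _ _ _ r1 r2 F, int_succ R _ _ _ _ r3 r4 F, int_succ R _ _ _ _ r5 r1 F,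
    int_succ R _ _ _ _ r6 r3 F, int_succ R _ _ _ _ r2 r5 F⟩

lemma all_sectors (P : Fin 6 → Prop) (h0 : P 0) (h1 : P 0 → P 1) (h2 : P 1 → P 2) (h3 : P 2 → P 3)
    (h4 : P 3 → P 4) (h5 : P 4 → P 5) (j : Fin 6) : P j := by
  have g1 := h1 h0
  have g2 := h2 g1
  have g3 := h3 g2
  have g4 := h4 g3
  have g5 := h5 g4
  fin_cases j
  exacts [h0, g1, g2, g3, g4, g5]

lemma Q_sq (R : ℝ) (hR : 0 < R) (j : Fin 6) :
    ∫ x in OS j ∩ Bs 2 R, (x 0 ^ 2 + x 1 ^ 2) = Real.pi * R ^ 4 / 12 := by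
  have h3 := s3
  have e : ∀ z : Fin 2 → ℝ, (rot z 0) ^ 2 + (rot z 1) ^ 2 = z 0 ^ 2 + z 1 ^ 2 := by
    intro z
    rw [rot_zero, rot_one]
    have : (z 0 / 2 - √3 / 2 * z 1) ^ 2 + (√3 / 2 * z 0 + z 1 / 2) ^ 2 =
      (z 0 ^ 2 + z 1 ^ 2) / 4 + (√3 * √3) * (z 0 ^ 2 + z 1 ^ 2) / 4 := by ring
    rw [this, h3]; ring
  obtain ⟨k1, k2, k3, k4, k5⟩ := int_step R (fun x => x 0 ^ 2 + x 1 ^ 2)
  simp_rw [e] at k1 k2 k3 k4 k5
  exact all_sectors (fun j => ∫ x in OS j ∩ Bs 2 R, (x 0 ^ 2 + x 1 ^ 2) = Real.pi * R ^ 4 / 12)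
    (Q0_sq R hR) (fun h => k1.trans h) (fun h => k2.trans h) (fun h => k3.trans h)
    (fun h => k4.trans h) (fun h => k5.trans h) j

lemma Q_lin (R : ℝ) (hR : 0 < R) (j : Fin 6) : ∀ a b : ℝ,
    ∫ x in OS j ∩ Bs 2 R, (a * x 0 + b * x 1) ≤ √(a ^ 2 + b ^ 2) * (R ^ 3 / 3) := by
  have h3 := s3
  have hstep : ∀ (i i' : Fin 6),
      (∀ F : (Fin 2 → ℝ) → ℝ, ∫ x in OS i' ∩ Bs 2 R, F x = ∫ x in OS i ∩ Bs 2 R, F (rot x)) →
      (∀ a b : ℝ, ∫ x in OS i ∩ Bs 2 R, (a * x 0 + b * x 1) ≤ √(a ^ 2 + b ^ 2) * (R ^ 3 / 3)) →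
      ∀ a b : ℝ, ∫ x in OS i' ∩ Bs 2 R, (a * x 0 + b * x 1) ≤ √(a ^ 2 + b ^ 2) * (R ^ 3 / 3) := by
    intro i i' hF h a b
    rw [hF (fun x => a * x 0 + b * x 1)]
    have := h (a / 2 + b * (√3 / 2)) (b / 2 - a * (√3 / 2))
    have e1 : (a / 2 + b * (√3 / 2)) ^ 2 + (b / 2 - a * (√3 / 2)) ^ 2 = a ^ 2 + b ^ 2 := by
      have : (a / 2 + b * (√3 / 2)) ^ 2 + (b / 2 - a * (√3 / 2)) ^ 2 =
        (a ^ 2 + b ^ 2) / 4 + (√3 * √3) * (a ^ 2 + b ^ 2) / 4 := by ring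
      rw [this, h3]; ring
    rw [e1] at this
    refine le_trans (le_of_eq ?_) this
    refine integral_congr_ae (Eventually.of_forall fun x => ?_)
    show a * rot x 0 + b * rot x 1 = (a / 2 + b * (√3 / 2)) * x 0 + (b / 2 - a * (√3 / 2)) * x 1
    rw [rot_zero, rot_one]; ring
  have h0 : ∀ a b : ℝ,
      ∫ x in OS 0 ∩ Bs 2 R, (a * x 0 + b * x 1) ≤ √(a ^ 2 + b ^ 2) * (R ^ 3 / 3) := by
    intro a b
    have i0 : IntegrableOn (fun x : Fin 2 → ℝ => a * x 0) (OS 0 ∩ Bs 2 R) :=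
      Q_int R hR 0 _ (by fun_prop)
    have i1 : IntegrableOn (fun x : Fin 2 → ℝ => b * x 1) (OS 0 ∩ Bs 2 R) :=
      Q_int R hR 0 _ (by fun_prop)
    rw [integral_add i0 i1, integral_const_mul, integral_const_mul, Q0_x R hR, Q0_y R hR]
    have e : a * (R ^ 3 / 3 * (√3 / 2)) + b * (R ^ 3 / 3 * (1 / 2)) =
      (a * (√3 / 2) + b * (1 / 2)) * (R ^ 3 / 3) := by ring
    rw [e]
    refine mul_le_mul_of_nonneg_right ?_ (by positivity)
    apply Real.le_sqrt_of_sq_le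
    have : (a * (√3 / 2) + b * (1 / 2)) ^ 2 + (a * (1 / 2) - b * (√3 / 2)) ^ 2 =
      (a ^ 2 + b ^ 2) / 4 + (√3 * √3) * (a ^ 2 + b ^ 2) / 4 := by ring
    rw [h3] at this
    nlinarith [sq_nonneg (a * (1 / 2) - b * (√3 / 2))]
  exact all_sectors (fun j => ∀ a b : ℝ,
    ∫ x in OS j ∩ Bs 2 R, (a * x 0 + b * x 1) ≤ √(a ^ 2 + b ^ 2) * (R ^ 3 / 3)) h0
    (hstep 0 1 fun F => (int_step R F).1) (hstep 1 2 fun F => (int_step R F).2.1)
    (hstep 2 3 fun F => (int_step R F).2.2.1) (hstep 3 4 fun F => (int_step R F).2.2.2.1)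
    (hstep 4 5 fun F => (int_step R F).2.2.2.2) j

/-! ## Limits of sums over the grid -/

/-- The grid sums of a continuous function over a bounded convex set. -/
lemma sum_conv (s : Set (Fin 2 → ℝ)) (hs : Convex ℝ s) (hm : MeasurableSet s)
    (hb : Bornology.IsBounded s) (F : (Fin 2 → ℝ) → ℝ) (hF : Continuous F) :
    Tendsto (fun n : ℕ => wt 2 n * ∑' z : {z : Fin 2 → ℤ // (fun k => (z k : ℝ) / n) ∈ s},
      F (fun k => (z.1 k : ℝ) / n)) atTop (𝓝 (∫ x in s, F x)) := by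
  have h1 := tendsto_tsum_div_pow_atTop_integral s F hF hb hm (hs.addHaar_frontier volume)
  refine h1.congr' ?_
  filter_upwards [eventually_ge_atTop 1] with n hn
  have hn' : (n : ℝ) ≠ 0 := by
    have : n ≠ 0 := by omega
    exact_mod_cast this
  have h2 : Function.Injective (fun (z : Fin 2 → ℤ) (k : Fin 2) => (z k : ℝ) / n) := by
    intro z z' h
    funext k
    have := congrFun h k
    simp only [div_left_inj' hn', Int.cast_inj] at this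
    exact this
  have h3 := CONVN.image_eq 2 s (n := n) (by omega)
  rw [← h3]
  have h4 := tsum_image F (h2.injOn (s := {z : Fin 2 → ℤ | (fun k => (z k : ℝ) / n) ∈ s}))
  have h5 : ∑' z : {z : Fin 2 → ℤ // (fun k => (z k : ℝ) / n) ∈ s}, F (fun k => (z.1 k : ℝ) / n) =
      ∑' x : ↑((fun (z : Fin 2 → ℤ) (k : Fin 2) => (z k : ℝ) / n) ''
        {z : Fin 2 → ℤ | (fun k => (z k : ℝ) / n) ∈ s}), F x := h4.symm
  rw [h5, Fintype.card_fin]
  unfold wt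
  ring

lemma T_fin (R : ℝ) (n : ℕ) (hn : 0 < n) (j : Fin 6) :
    {z : Fin 2 → ℤ | (fun k => (z k : ℝ) / n) ∈ OS j ∩ Bs 2 R}.Finite := by
  refine fin_pts (n * R) _ fun z hz => ?_
  have hn0 : (0 : ℝ) < n := by exact_mod_cast hn
  have hz2 : ∑ k, ((z k : ℝ) / n) ^ 2 < R ^ 2 := hz.2
  rw [Fin.sum_univ_two] at *
  have e : ((z 0 : ℝ) / n) ^ 2 + ((z 1 : ℝ) / n) ^ 2 =
    ((z 0 : ℝ) ^ 2 + (z 1 : ℝ) ^ 2) / (n : ℝ) ^ 2 := by ring
  rw [e, div_lt_iff₀ (by positivity)] at hz2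
  nlinarith

/-- The grid points of a sector. -/
noncomputable def TF (R : ℝ) (n : ℕ) (hn : 0 < n) (j : Fin 6) : Finset (Fin 2 → ℤ) :=
  (T_fin R n hn j).toFinset

lemma mem_TF (R : ℝ) (n : ℕ) (hn : 0 < n) (j : Fin 6) (z : Fin 2 → ℤ) :
    z ∈ TF R n hn j ↔ (fun k => (z k : ℝ) / n) ∈ OS j ∩ Bs 2 R := by
  unfold TF
  rw [Set.Finite.mem_toFinset]
  rfl

lemma TF_sum (R : ℝ) (n : ℕ) (hn : 0 < n) (j : Fin 6) (F : (Fin 2 → ℝ) → ℝ) :
    ∑' z : {z : Fin 2 → ℤ // (fun k => (z k : ℝ) / n) ∈ OS j ∩ Bs 2 R},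
      F (fun k => (z.1 k : ℝ) / n) = ∑ z ∈ TF R n hn j, F (fun k => (z k : ℝ) / n) := by
  have h1 := tsum_subtype {z : Fin 2 → ℤ | (fun k => (z k : ℝ) / n) ∈ OS j ∩ Bs 2 R}
    (fun z => F (fun k => (z k : ℝ) / n))
  have h2 : ∑' z : {z : Fin 2 → ℤ // (fun k => (z k : ℝ) / n) ∈ OS j ∩ Bs 2 R},
      F (fun k => (z.1 k : ℝ) / n) =
      ∑' z : {z : Fin 2 → ℤ | (fun k => (z k : ℝ) / n) ∈ OS j ∩ Bs 2 R},
      F (fun k => (z.1 k : ℝ) / n) := rfl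
  rw [h2, h1, tsum_eq_sum (s := TF R n hn j)]
  · refine Finset.sum_congr rfl fun z hz => ?_
    exact indicator_of_mem ((mem_TF R n hn j z).mp hz) _
  · intro z hz
    exact indicator_of_notMem (fun h => hz ((mem_TF R n hn j z).mpr h)) _

lemma lim_F (R : ℝ) (j : Fin 6) (F : (Fin 2 → ℝ) → ℝ) (hF : Continuous F) (ε : ℝ) (hε : 0 < ε) :
    ∀ᶠ n : ℕ in atTop, ∀ hn : 0 < n,
      |wt 2 n * ∑ z ∈ TF R n hn j, F (fun k => (z k : ℝ) / n) - ∫ x in OS j ∩ Bs 2 R, F x| ≤ ε := by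
  have h := sum_conv (OS j ∩ Bs 2 R) ((OS_convex j).inter (Bs_convex R)) (Q_meas R j)
    ((Bs_bounded R).subset inter_subset_right) F hF
  have h2 := (Metric.tendsto_nhds.mp h) ε hε
  filter_upwards [h2] with n hn1 hn
  rw [TF_sum R n hn j F, Real.dist_eq] at hn1
  exact hn1.le

/-- The final estimate. -/
lemma arith (R δ ε s w0 w1 A B M0 M1 m0 m1 V : ℝ) (hR : 0 < R) (hε : 0 < ε)
    (hεd : ε * (1 + 1 / R ^ 2 + 4 / R) = δ) (hs0 : 0 ≤ s) (hs1 : s ^ 2 ≤ 1)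
    (hw0R : |w0| ≤ R) (hw1R : |w1| ≤ R) (kA : -ε ≤ A - V)
    (kB : -ε ≤ B - Real.pi * R ^ 4 / 12) (kM0 : |M0 - m0| ≤ ε) (kM1 : |M1 - m1| ≤ ε)
    (harea : Real.pi * R ^ 2 / 6 ≤ V) (hlin : w0 * m0 + w1 * m1 ≤ s * R * (R ^ 3 / 3)) :
    Real.pi * R ^ 2 / 6 * (19 / 25 + 6 / 25 * (1 / 2 - 4 / Real.pi * s + s ^ 2)) - δ ≤
      (19 / 25 + 6 / 25 * s ^ 2) * A + 6 / 25 / R ^ 2 * B -
        12 / 25 / R ^ 2 * (w0 * M0 + w1 * M1) := by
  have a0 : w0 * (M0 - m0) ≤ R * ε := by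
    calc w0 * (M0 - m0) ≤ |w0 * (M0 - m0)| := le_abs_self _
      _ = |w0| * |M0 - m0| := abs_mul _ _
      _ ≤ R * ε := mul_le_mul hw0R kM0 (abs_nonneg _) hR.le
  have a1 : w1 * (M1 - m1) ≤ R * ε := by
    calc w1 * (M1 - m1) ≤ |w1 * (M1 - m1)| := le_abs_self _
      _ = |w1| * |M1 - m1| := abs_mul _ _
      _ ≤ R * ε := mul_le_mul hw1R kM1 (abs_nonneg _) hR.le
  have hM : w0 * M0 + w1 * M1 ≤ s * R * (R ^ 3 / 3) + 2 * R * ε := by
    have : w0 * M0 + w1 * M1 = (w0 * m0 + w1 * m1) + w0 * (M0 - m0) + w1 * (M1 - m1) := by ring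
    rw [this]; linarith
  have b1 : (19 / 25 + 6 / 25 * s ^ 2) * (Real.pi * R ^ 2 / 6) - ε ≤
      (19 / 25 + 6 / 25 * s ^ 2) * A := by
    have c1 : Real.pi * R ^ 2 / 6 - ε ≤ A := by linarith
    have c2 : 0 ≤ 19 / 25 + 6 / 25 * s ^ 2 := by positivity
    have c3 : 19 / 25 + 6 / 25 * s ^ 2 ≤ 1 := by linarith
    have c4 := mul_le_mul_of_nonneg_left c1 c2
    have c5 : (19 / 25 + 6 / 25 * s ^ 2) * ε ≤ 1 * ε := mul_le_mul_of_nonneg_right c3 hε.le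
    rw [mul_sub] at c4
    linarith
  have b2 : 6 / 25 / R ^ 2 * (Real.pi * R ^ 4 / 12 - ε) ≤ 6 / 25 / R ^ 2 * B :=
    mul_le_mul_of_nonneg_left (by linarith) (by positivity)
  have b3 : 12 / 25 / R ^ 2 * (w0 * M0 + w1 * M1) ≤
      12 / 25 / R ^ 2 * (s * R * (R ^ 3 / 3) + 2 * R * ε) :=
    mul_le_mul_of_nonneg_left hM (by positivity)
  have e2 : 6 / 25 / R ^ 2 * (Real.pi * R ^ 4 / 12 - ε) =
      6 / 25 * (Real.pi * R ^ 2 / 12) - 6 / 25 * (ε * (1 / R ^ 2)) := by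
    field_simp
  have e3 : 12 / 25 / R ^ 2 * (s * R * (R ^ 3 / 3) + 2 * R * ε) =
      4 / 25 * (s * R ^ 2) + 6 / 25 * (ε * (4 / R)) := by
    field_simp
    ring
  have e4 : Real.pi * R ^ 2 / 6 * (19 / 25 + 6 / 25 * (1 / 2 - 4 / Real.pi * s + s ^ 2)) =
      (19 / 25 + 6 / 25 * s ^ 2) * (Real.pi * R ^ 2 / 6) + 6 / 25 * (Real.pi * R ^ 2 / 12) -
        4 / 25 * (s * R ^ 2) := by
    have hpi := Real.pi_pos
    field_simp
    ring
  have e5 : ε * (1 / R ^ 2) + ε * (4 / R) + ε = δ := by rw [← hεd]; ring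
  have p1 : 0 ≤ ε * (1 / R ^ 2) := by positivity
  have p2 : 0 ≤ ε * (4 / R) := by positivity
  rw [e4]
  rw [e2] at b2
  rw [e3] at b3
  linarith

end Pool.Agent.H288.HS.COLWN

namespace Pool.Agent.H288.HS

open COL2N COLWN

theorem t_COLW : S_COLW := by
  classical
  refine ⟨fun z => csec (z 0) (z 1), ?_, ?_⟩
  · intro ρ u v hu hv hc
    rw [Fin.sum_univ_two] at *
    exact diam ρ _ _ _ _ hu hv hc
  · intro R δ hR hδ
    obtain ⟨ε, hε, hεd⟩ : ∃ ε : ℝ, 0 < ε ∧ ε * (1 + 1 / R ^ 2 + 4 / R) = δ := by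
      have h0 : 0 < 1 + 1 / R ^ 2 + 4 / R := by positivity
      exact ⟨δ / (1 + 1 / R ^ 2 + 4 / R), by positivity, by field_simp⟩
    have hA : ∀ᶠ n : ℕ in atTop, ∀ j : Fin 6, ∀ hn : 0 < n,
        |wt 2 n * ∑ z ∈ TF R n hn j, (1 : ℝ) - ∫ x in OS j ∩ Bs 2 R, (1 : ℝ)| ≤ ε := by
      rw [eventually_all]; intro j
      exact lim_F R j (fun _ => 1) continuous_const ε hε
    have hB : ∀ᶠ n : ℕ in atTop, ∀ j : Fin 6, ∀ hn : 0 < n,
        |wt 2 n * ∑ z ∈ TF R n hn j, (((z 0 : ℝ) / n) ^ 2 + ((z 1 : ℝ) / n) ^ 2) -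
          ∫ x in OS j ∩ Bs 2 R, (x 0 ^ 2 + x 1 ^ 2)| ≤ ε := by
      rw [eventually_all]; intro j
      exact lim_F R j (fun x => x 0 ^ 2 + x 1 ^ 2) (by fun_prop) ε hε
    have hM0 : ∀ᶠ n : ℕ in atTop, ∀ j : Fin 6, ∀ hn : 0 < n,
        |wt 2 n * ∑ z ∈ TF R n hn j, ((z 0 : ℝ) / n) - ∫ x in OS j ∩ Bs 2 R, x 0| ≤ ε := by
      rw [eventually_all]; intro j
      exact lim_F R j (fun x => x 0) (by fun_prop) ε hε
    have hM1 : ∀ᶠ n : ℕ in atTop, ∀ j : Fin 6, ∀ hn : 0 < n,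
        |wt 2 n * ∑ z ∈ TF R n hn j, ((z 1 : ℝ) / n) - ∫ x in OS j ∩ Bs 2 R, x 1| ≤ ε := by
      rw [eventually_all]; intro j
      exact lim_F R j (fun x => x 1) (by fun_prop) ε hε
    filter_upwards [hA, hB, hM0, hM1, eventually_gt_atTop 0] with n hA hB hM0 hM1 hn v hv s hs
    obtain ⟨j, hj⟩ : ∃ j, j = csec (v 0 : ℝ) (v 1 : ℝ) := ⟨_, rfl⟩
    have hn0 : (0 : ℝ) < n := by exact_mod_cast hn
    have hnR : 0 < n * R := by positivity
    have hw : 0 ≤ wt 2 n := by unfold wt; positivity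
    rw [Fin.sum_univ_two] at hv hs
    -- the point `v / n`
    obtain ⟨w0, hw0⟩ : ∃ w0, w0 = (v 0 : ℝ) / n := ⟨_, rfl⟩
    obtain ⟨w1, hw1⟩ : ∃ w1, w1 = (v 1 : ℝ) / n := ⟨_, rfl⟩
    have hwR : w0 ^ 2 + w1 ^ 2 < R ^ 2 := by
      rw [hw0, hw1]
      have e : ((v 0 : ℝ) / n) ^ 2 + ((v 1 : ℝ) / n) ^ 2 =
        ((v 0 : ℝ) ^ 2 + (v 1 : ℝ) ^ 2) / (n : ℝ) ^ 2 := by ring
      rw [e, div_lt_iff₀ (by positivity)]
      nlinarith
    have hs0 : 0 ≤ s := by rw [hs]; positivity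
    have hs2 : s ^ 2 = (w0 ^ 2 + w1 ^ 2) / R ^ 2 := by
      rw [hs, div_pow, Real.sq_sqrt (by positivity), hw0, hw1]
      field_simp
    have hsR : √(w0 ^ 2 + w1 ^ 2) = s * R := by
      rw [show w0 ^ 2 + w1 ^ 2 = (s * R) ^ 2 by rw [mul_pow, hs2]; field_simp]
      exact Real.sqrt_sq (by positivity)
    have hs1 : s ^ 2 ≤ 1 := by
      rw [hs2, div_le_one (by positivity)]; exact hwR.le
    have hw0R : |w0| ≤ R := by
      apply abs_le_of_sq_le_sq _ hR.le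
      nlinarith [sq_nonneg w1]
    have hw1R : |w1| ≤ R := by
      apply abs_le_of_sq_le_sq _ hR.le
      nlinarith [sq_nonneg w0]
    -- reduction to the open sector
    have hfin : {z : Fin 2 → ℤ | ∑ k, (z k : ℝ) ^ 2 < (n * R) ^ 2}.Finite :=
      fin_pts (n * R) _ (fun z hz => hz)
    have hterm : ∀ u : Fin 2 → ℤ, 0 ≤ (19 / 25 + 6 / 25 *
        ((∑ k, ((u k : ℝ) - (v k : ℝ)) ^ 2) / (n * R) ^ 2) : ℝ) := by
      intro u; positivity
    have hle : ∑ u ∈ TF R n hn j, (19 / 25 + 6 / 25 *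
        ((∑ k, ((u k : ℝ) - (v k : ℝ)) ^ 2) / (n * R) ^ 2)) ≤
        ∑' u : Fin 2 → ℤ, (if ∑ k, (u k : ℝ) ^ 2 < (n * R) ^ 2 ∧
          csec (u 0 : ℝ) (u 1 : ℝ) = csec (v 0 : ℝ) (v 1 : ℝ) then
          19 / 25 + 6 / 25 * ((∑ k, ((u k : ℝ) - (v k : ℝ)) ^ 2) / (n * R) ^ 2) else 0) := by
      rw [tsum_eq_sum (s := hfin.toFinset)]
      · have hsub : TF R n hn j ⊆ hfin.toFinset := by
          intro z hz
          rw [Set.Finite.mem_toFinset]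
          have hz2 := ((mem_TF R n hn j z).mp hz).2
          simp only [Bs, mem_setOf_eq, Fin.sum_univ_two] at hz2 ⊢
          have e : ((z 0 : ℝ) / n) ^ 2 + ((z 1 : ℝ) / n) ^ 2 =
            ((z 0 : ℝ) ^ 2 + (z 1 : ℝ) ^ 2) / (n : ℝ) ^ 2 := by ring
          rw [e, div_lt_iff₀ (by positivity)] at hz2
          nlinarith
        refine le_trans (Finset.sum_le_sum fun u hu => ?_)
          (Finset.sum_le_sum_of_subset_of_nonneg hsub fun u _ _ => ?_)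
        · have hu1 := (mem_TF R n hn j u).mp hu
          have hu2 : ∑ k, (u k : ℝ) ^ 2 < (n * R) ^ 2 := (Set.Finite.mem_toFinset hfin).mp (hsub hu)
          have hu3 : csec (u 0 : ℝ) (u 1 : ℝ) = j := by
            apply csec_OS j n hn0
            have e : (fun k : Fin 2 => (![(u 0 : ℝ), (u 1 : ℝ)] k) / (n : ℝ)) =
                fun k => (u k : ℝ) / n := by
              funext k
              fin_cases k <;> rfl
            rw [e]
            exact hu1.1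
          rw [if_pos ⟨hu2, hu3.trans hj⟩]
        · split_ifs
          · exact hterm u
          · exact le_rfl
      · intro u hu
        rw [if_neg]
        intro h
        exact hu ((Set.Finite.mem_toFinset hfin).mpr h.1)
    refine le_trans ?_ (mul_le_mul_of_nonneg_left hle hw)
    -- expansion
    have hexp : wt 2 n * ∑ u ∈ TF R n hn j, (19 / 25 + 6 / 25 *
        ((∑ k, ((u k : ℝ) - (v k : ℝ)) ^ 2) / (n * R) ^ 2)) =
        (19 / 25 + 6 / 25 * s ^ 2) * (wt 2 n * ∑ z ∈ TF R n hn j, (1 : ℝ)) +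
        6 / 25 / R ^ 2 * (wt 2 n * ∑ z ∈ TF R n hn j, (((z 0 : ℝ) / n) ^ 2 + ((z 1 : ℝ) / n) ^ 2)) -
        12 / 25 / R ^ 2 * (w0 * (wt 2 n * ∑ z ∈ TF R n hn j, ((z 0 : ℝ) / n)) +
          w1 * (wt 2 n * ∑ z ∈ TF R n hn j, ((z 1 : ℝ) / n))) := by
      have e : ∀ u : Fin 2 → ℤ, (19 / 25 + 6 / 25 *
          ((∑ k, ((u k : ℝ) - (v k : ℝ)) ^ 2) / (n * R) ^ 2) : ℝ) =
          (19 / 25 + 6 / 25 * s ^ 2) * 1 +
          6 / 25 / R ^ 2 * (((u 0 : ℝ) / n) ^ 2 + ((u 1 : ℝ) / n) ^ 2) -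
          12 / 25 / R ^ 2 * (w0 * ((u 0 : ℝ) / n) + w1 * ((u 1 : ℝ) / n)) := by
        intro u
        rw [hs2, hw0, hw1, Fin.sum_univ_two]
        field_simp
        ring
      simp_rw [e]
      have e' : ∑ u ∈ TF R n hn j, (w0 * ((u 0 : ℝ) / n) + w1 * ((u 1 : ℝ) / n)) =
          w0 * ∑ u ∈ TF R n hn j, ((u 0 : ℝ) / n) + w1 * ∑ u ∈ TF R n hn j, ((u 1 : ℝ) / n) := by
        rw [Finset.sum_add_distrib, ← Finset.mul_sum, ← Finset.mul_sum]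
      rw [Finset.sum_sub_distrib, Finset.sum_add_distrib, ← Finset.mul_sum, ← Finset.mul_sum,
        ← Finset.mul_sum, e']
      ring
    rw [hexp]
    have kA := abs_le.mp (hA j hn)
    have kB := abs_le.mp (hB j hn)
    have kM0 := hM0 j hn
    have kM1 := hM1 j hn
    rw [Q_sq R hR j] at kB
    have hvol : ∫ x in OS j ∩ Bs 2 R, (1 : ℝ) = volume.real (OS j ∩ Bs 2 R) := by
      rw [setIntegral_const, smul_eq_mul, mul_one]
    rw [hvol] at kA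
    have harea := area R hR j
    obtain ⟨A, hAd⟩ : ∃ A, A = wt 2 n * ∑ z ∈ TF R n hn j, (1 : ℝ) := ⟨_, rfl⟩
    obtain ⟨B, hBd⟩ : ∃ B, B = wt 2 n * ∑ z ∈ TF R n hn j,
      (((z 0 : ℝ) / n) ^ 2 + ((z 1 : ℝ) / n) ^ 2) := ⟨_, rfl⟩
    obtain ⟨M0, hM0d⟩ : ∃ M0, M0 = wt 2 n * ∑ z ∈ TF R n hn j, ((z 0 : ℝ) / n) := ⟨_, rfl⟩
    obtain ⟨M1, hM1d⟩ : ∃ M1, M1 = wt 2 n * ∑ z ∈ TF R n hn j, ((z 1 : ℝ) / n) := ⟨_, rfl⟩
    rw [← hAd] at kA
    rw [← hBd] at kB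
    rw [← hM0d] at kM0
    rw [← hM1d] at kM1
    rw [← hAd, ← hBd, ← hM0d, ← hM1d]
    obtain ⟨m0, hm0⟩ : ∃ m0, m0 = ∫ x in OS j ∩ Bs 2 R, x 0 := ⟨_, rfl⟩
    obtain ⟨m1, hm1⟩ : ∃ m1, m1 = ∫ x in OS j ∩ Bs 2 R, x 1 := ⟨_, rfl⟩
    rw [← hm0] at kM0
    rw [← hm1] at kM1
    have hlin : w0 * m0 + w1 * m1 ≤ s * R * (R ^ 3 / 3) := by
      have := Q_lin R hR j w0 w1
      rw [hsR] at this
      have i0 : IntegrableOn (fun x : Fin 2 → ℝ => w0 * x 0) (OS j ∩ Bs 2 R) :=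
        Q_int R hR j _ (by fun_prop)
      have i1 : IntegrableOn (fun x : Fin 2 → ℝ => w1 * x 1) (OS j ∩ Bs 2 R) :=
        Q_int R hR j _ (by fun_prop)
      rw [integral_add i0 i1, integral_const_mul, integral_const_mul, ← hm0, ← hm1] at this
      exact this
    exact arith R δ ε s w0 w1 A B M0 M1 m0 m1 (volume.real (OS j ∩ Bs 2 R)) hR hε hεd hs0 hs1 hw0R
      hw1R kA.1 kB.1 kM0 kM1 harea hlin

end Pool.Agent.H288.HS
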