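import Pool.Agent.H288.HS.Stm4

/-!
# The 24 cones of the space, weighted: `S_COLW3`
-/

set_option autoImplicit false

open MeasureTheory Set Filter Topology

namespace Pool.Agent.H288.HS.COLW3N

lemma fin_pts (r : ℝ) (s : Set (Fin 3 → ℤ)) (h : ∀ z ∈ s, ∑ k, (z k : ℝ) ^ 2 < r ^ 2) :
    s.Finite := by
  refine (Set.finite_Icc (fun _ : Fin 3 => -⌈|r|⌉) (fun _ : Fin 3 => ⌈|r|⌉)).subset ?_
  intro z hz
  have h1 := h z hz
  have h2 : ∀ k, |(z k : ℝ)| ≤ |r| := by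
    intro k
    apply sq_le_sq.mp
    have : (z k : ℝ) ^ 2 ≤ ∑ k, (z k : ℝ) ^ 2 :=
      Finset.single_le_sum (f := fun k => (z k : ℝ) ^ 2) (fun i _ => sq_nonneg _)
        (Finset.mem_univ k)
    linarith
  have h3 : ∀ k, -⌈|r|⌉ ≤ z k ∧ z k ≤ ⌈|r|⌉ := by
    intro k
    have a1 := abs_le.mp (h2 k)
    have a2 := Int.le_ceil |r|
    constructor
    · have : (-⌈|r|⌉ : ℝ) ≤ (z k : ℝ) := by linarith
      exact_mod_cast this
    · have : (z k : ℝ) ≤ (⌈|r|⌉ : ℝ) := by linarith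
      exact_mod_cast this
  exact ⟨fun k => (h3 k).1, fun k => (h3 k).2⟩

/-- Cauchy-Schwarz in coordinates -/
lemma cs3 (x y : Fin 3 → ℝ) (a b : ℝ) (ha : 0 ≤ a) (hb : 0 ≤ b) (hx : ∑ k, x k ^ 2 = a ^ 2)
    (hy : ∑ k, y k ^ 2 = b ^ 2) : a ^ 2 - 2 * a * b + b ^ 2 ≤ ∑ k, (x k - y k) ^ 2 := by
  have h1 : (∑ k, x k * y k) ^ 2 ≤ (∑ k, x k ^ 2) * ∑ k, y k ^ 2 :=
    Finset.sum_mul_sq_le_sq_mul_sq _ _ _
  rw [hx, hy] at h1
  have h2 : ∑ k, x k * y k ≤ a * b := by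
    apply le_of_sq_le_sq _ (mul_nonneg ha hb)
    rw [mul_pow]
    exact h1
  have h3 : ∑ k, (x k - y k) ^ 2 = ∑ k, x k ^ 2 - 2 * ∑ k, x k * y k + ∑ k, y k ^ 2 := by
    simp only [Fin.sum_univ_three]
    ring
  rw [h3, hx, hy]
  linarith

/-- the last estimate -/
lemma arith3 (R δ ε s A B D : ℝ) (hR : 0 < R) (hε : 0 < ε)
    (hεd : ε * (1 + 1 / R ^ 2 + 1 / R) = δ) (hs0 : 0 ≤ s) (hs1 : s ≤ 1)
    (k1 : -ε < A - Real.pi * R ^ 3 / 18) (k3 : -ε < B - Real.pi * R ^ 5 / 30)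
    (k2 : D - Real.pi * R ^ 4 / 24 < ε) :
    Real.pi * R ^ 3 / 6 * (31 / 120 + 9 / 40 * (1 / 5 - s / 2 + s ^ 2 / 3)) - δ ≤
      (31 / 40 + 9 / 40 * s ^ 2) * A + 9 / 40 / R ^ 2 * B - 9 / 20 * s / R * D := by
  have b1 : (31 / 40 + 9 / 40 * s ^ 2) * (Real.pi * R ^ 3 / 18 - ε) ≤
      (31 / 40 + 9 / 40 * s ^ 2) * A :=
    mul_le_mul_of_nonneg_left (by linarith [k1]) (by positivity)
  have b2 : 9 / 40 / R ^ 2 * (Real.pi * R ^ 5 / 30 - ε) ≤ 9 / 40 / R ^ 2 * B :=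
    mul_le_mul_of_nonneg_left (by linarith [k3]) (by positivity)
  have b3 : 9 / 20 * s / R * D ≤ 9 / 20 * s / R * (Real.pi * R ^ 4 / 24 + ε) :=
    mul_le_mul_of_nonneg_left (by linarith [k2]) (by positivity)
  have e2 : (31 / 40 + 9 / 40 * s ^ 2) * (Real.pi * R ^ 3 / 18 - ε) +
      9 / 40 / R ^ 2 * (Real.pi * R ^ 5 / 30 - ε) -
      9 / 20 * s / R * (Real.pi * R ^ 4 / 24 + ε) =
      Real.pi * R ^ 3 / 6 * (31 / 120 + 9 / 40 * (1 / 5 - s / 2 + s ^ 2 / 3)) -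
      ε * ((31 / 40 + 9 / 40 * s ^ 2) + 9 / 40 * (1 / R ^ 2) + 9 / 20 * s * (1 / R)) := by
    field_simp
    ring
  have e3 : ε * ((31 / 40 + 9 / 40 * s ^ 2) + 9 / 40 * (1 / R ^ 2) + 9 / 20 * s * (1 / R)) ≤ δ := by
    rw [← hεd]
    refine mul_le_mul_of_nonneg_left ?_ hε.le
    have p1 : 0 ≤ 1 / R ^ 2 := by positivity
    have p2 : 0 ≤ 1 / R := by positivity
    have p3 : s ^ 2 ≤ 1 := by nlinarith
    have p4 : 9 / 20 * s * (1 / R) ≤ 1 * (1 / R) :=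
      mul_le_mul_of_nonneg_right (by linarith) p2
    linarith
  linarith

end Pool.Agent.H288.HS.COLW3N

namespace Pool.Agent.H288.HS

open COLW3N

theorem t_COLW3 (h1 : S_CONE3) (h2 : S_RAD3) : S_COLW3 := by
  classical
  obtain ⟨c, hc1, hc2⟩ := h1
  refine ⟨c, hc1, ?_⟩
  intro R δ hR hδ
  obtain ⟨ε, hε, hεd⟩ : ∃ ε : ℝ, 0 < ε ∧ ε * (1 + 1 / R ^ 2 + 1 / R) = δ := by
    have h0 : 0 < 1 + 1 / R ^ 2 + 1 / R := by positivity
    exact ⟨δ / (1 + 1 / R ^ 2 + 1 / R), by positivity, by field_simp⟩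
  -- the integrals
  have i1 : 1 / 24 * ∫ x in Bs 3 R, (fun _ : ℝ => (1 : ℝ)) (∑ k, x k ^ 2) =
      Real.pi * R ^ 3 / 18 := by
    rw [h2 R (fun _ => 1) hR continuous_const]
    simp only [one_mul]
    rw [integral_pow]
    norm_num
    ring
  have i2 : 1 / 24 * ∫ x in Bs 3 R, Real.sqrt (∑ k, x k ^ 2) = Real.pi * R ^ 4 / 24 := by
    rw [h2 R Real.sqrt hR Real.continuous_sqrt]
    have e : ∫ r in (0 : ℝ)..R, Real.sqrt (r ^ 2) * r ^ 2 = ∫ r in (0 : ℝ)..R, r ^ 3 := by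
      refine intervalIntegral.integral_congr fun r hr => ?_
      rw [uIcc_of_le hR.le] at hr
      show Real.sqrt (r ^ 2) * r ^ 2 = r ^ 3
      rw [Real.sqrt_sq hr.1]
      ring
    rw [e, integral_pow]
    norm_num
    ring
  have i3 : 1 / 24 * ∫ x in Bs 3 R, (fun t : ℝ => t) (∑ k, x k ^ 2) = Real.pi * R ^ 5 / 30 := by
    rw [h2 R (fun t => t) hR continuous_id]
    have e : ∫ r in (0 : ℝ)..R, r ^ 2 * r ^ 2 = ∫ r in (0 : ℝ)..R, r ^ 4 := by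
      refine intervalIntegral.integral_congr fun r _ => ?_
      show r ^ 2 * r ^ 2 = r ^ 4
      ring
    rw [e, integral_pow]
    norm_num
    ring
  have hlim : ∀ (g : ℝ → ℝ) (L : ℝ), Continuous g → 1 / 24 * ∫ x in Bs 3 R, g (∑ k, x k ^ 2) = L →
      ∀ᶠ n : ℕ in atTop, ∀ (j : Fin 24) (hf : {u : Fin 3 → ℤ |
        ∑ k, (u k : ℝ) ^ 2 < (n * R) ^ 2 ∧ c u = j}.Finite),
        |wt 3 n * ∑ u ∈ hf.toFinset, g (∑ k, ((u k : ℝ) / n) ^ 2) - L| < ε := by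
    intro g L hg hL
    rw [eventually_all]
    intro j
    have h := hc2 R g hR hg j
    rw [hL] at h
    refine ((Metric.tendsto_nhds.1 h) ε hε).mono fun n hn hf => ?_
    rw [Real.dist_eq, finsum_mem_eq_finite_toFinset_sum _ hf] at hn
    exact hn
  filter_upwards [hlim _ _ continuous_const i1, hlim _ _ Real.continuous_sqrt i2,
    hlim _ _ continuous_id i3, eventually_gt_atTop 0] with n k1 k2 k3 hn v hv s hs
  have hn0 : (0 : ℝ) < n := by exact_mod_cast hn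
  have hnR : 0 < n * R := by positivity
  have hw : 0 ≤ wt 3 n := by unfold wt; positivity
  have hfin : {u : Fin 3 → ℤ | ∑ k, (u k : ℝ) ^ 2 < (n * R) ^ 2 ∧ c u = c v}.Finite :=
    fin_pts (n * R) _ fun z hz => hz.1
  have k1 := abs_lt.1 (k1 (c v) hfin)
  have k2 := abs_lt.1 (k2 (c v) hfin)
  have k3 := abs_lt.1 (k3 (c v) hfin)
  have hs0 : 0 ≤ s := by rw [hs]; positivity
  have hs2 : s ^ 2 = (∑ k, (v k : ℝ) ^ 2) / (n * R) ^ 2 := by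
    rw [hs, div_pow, Real.sq_sqrt (Finset.sum_nonneg fun _ _ => sq_nonneg _)]
  have hs1 : s ≤ 1 := by
    have : s ^ 2 ≤ 1 := by
      rw [hs2, div_le_one (by positivity)]
      exact hv.le
    nlinarith
  have hts : ∑' u : Fin 3 → ℤ, (if ∑ k, (u k : ℝ) ^ 2 < (n * R) ^ 2 ∧ c u = c v then
      31 / 40 + 9 / 40 * ((∑ k, ((u k : ℝ) - (v k : ℝ)) ^ 2) / (n * R) ^ 2) else 0) =
      ∑ u ∈ hfin.toFinset,
        (31 / 40 + 9 / 40 * ((∑ k, ((u k : ℝ) - (v k : ℝ)) ^ 2) / (n * R) ^ 2)) := by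
    rw [tsum_eq_sum (s := hfin.toFinset)]
    · refine Finset.sum_congr rfl fun u hu => ?_
      rw [Set.Finite.mem_toFinset] at hu
      exact if_pos hu
    · intro u hu
      rw [Set.Finite.mem_toFinset] at hu
      exact if_neg hu
  rw [hts]
  have hterm : ∀ u : Fin 3 → ℤ,
      (31 / 40 + 9 / 40 * s ^ 2) * 1 + 9 / 40 / R ^ 2 * (∑ k, ((u k : ℝ) / n) ^ 2) -
        9 / 20 * s / R * Real.sqrt (∑ k, ((u k : ℝ) / n) ^ 2) ≤
      31 / 40 + 9 / 40 * ((∑ k, ((u k : ℝ) - (v k : ℝ)) ^ 2) / (n * R) ^ 2) := by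
    intro u
    have hsum : 0 ≤ ∑ k, ((u k : ℝ) / n) ^ 2 := Finset.sum_nonneg fun _ _ => sq_nonneg _
    obtain ⟨a, ha⟩ : ∃ a, a = Real.sqrt (∑ k, ((u k : ℝ) / n) ^ 2) := ⟨_, rfl⟩
    have ha0 : 0 ≤ a := by rw [ha]; positivity
    have ha2 : ∑ k, ((u k : ℝ) / n) ^ 2 = a ^ 2 := by rw [ha, Real.sq_sqrt hsum]
    have hb2 : ∑ k, ((v k : ℝ) / n) ^ 2 = (s * R) ^ 2 := by
      rw [mul_pow, hs2]
      simp only [div_pow, Fin.sum_univ_three]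
      field_simp
    have hcs := cs3 (fun k => (u k : ℝ) / n) (fun k => (v k : ℝ) / n) a (s * R) ha0
      (by positivity) ha2 hb2
    have he : (∑ k, ((u k : ℝ) - (v k : ℝ)) ^ 2) / (n * R) ^ 2 =
        (∑ k, ((u k : ℝ) / n - (v k : ℝ) / n) ^ 2) / R ^ 2 := by
      simp only [Fin.sum_univ_three]
      field_simp
    rw [he, ← ha, ha2]
    have h3 : (a ^ 2 - 2 * a * (s * R) + (s * R) ^ 2) / R ^ 2 ≤
        (∑ k, ((u k : ℝ) / n - (v k : ℝ) / n) ^ 2) / R ^ 2 := by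
      gcongr
    have h4 : (a ^ 2 - 2 * a * (s * R) + (s * R) ^ 2) / R ^ 2 =
        a ^ 2 / R ^ 2 - 2 * a * s / R + s ^ 2 := by
      field_simp
    have h5 : (31 / 40 + 9 / 40 * s ^ 2) * 1 + 9 / 40 / R ^ 2 * a ^ 2 - 9 / 20 * s / R * a =
        31 / 40 + 9 / 40 * (a ^ 2 / R ^ 2 - 2 * a * s / R + s ^ 2) := by
      ring
    rw [h5, ← h4]
    linarith
  have hsumle := Finset.sum_le_sum (s := hfin.toFinset) fun u _ => hterm u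
  rw [Finset.sum_sub_distrib, Finset.sum_add_distrib, ← Finset.mul_sum, ← Finset.mul_sum,
    ← Finset.mul_sum] at hsumle
  have hfinal := mul_le_mul_of_nonneg_left hsumle hw
  obtain ⟨A, hA⟩ : ∃ A, A = wt 3 n * ∑ z ∈ hfin.toFinset, (1 : ℝ) := ⟨_, rfl⟩
  obtain ⟨B, hB⟩ : ∃ B, B = wt 3 n * ∑ u ∈ hfin.toFinset, ∑ k, ((u k : ℝ) / n) ^ 2 := ⟨_, rfl⟩
  obtain ⟨D, hD⟩ : ∃ D, D = wt 3 n * ∑ u ∈ hfin.toFinset,
    Real.sqrt (∑ k, ((u k : ℝ) / n) ^ 2) := ⟨_, rfl⟩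
  have e1 : wt 3 n * ((31 / 40 + 9 / 40 * s ^ 2) * ∑ z ∈ hfin.toFinset, (1 : ℝ) +
      9 / 40 / R ^ 2 * ∑ u ∈ hfin.toFinset, ∑ k, ((u k : ℝ) / n) ^ 2 -
      9 / 20 * s / R * ∑ u ∈ hfin.toFinset, Real.sqrt (∑ k, ((u k : ℝ) / n) ^ 2)) =
      (31 / 40 + 9 / 40 * s ^ 2) * A + 9 / 40 / R ^ 2 * B - 9 / 20 * s / R * D := by
    rw [hA, hB, hD]
    ring
  rw [e1] at hfinal
  refine le_trans ?_ hfinal
  rw [← hA] at k1
  rw [← hD] at k2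
  have k3' : -ε < B - Real.pi * R ^ 5 / 30 ∧ B - Real.pi * R ^ 5 / 30 < ε := by
    rw [hB]
    exact k3
  exact arith3 R δ ε s A B D hR hε hεd hs0 hs1 k1.1 k3'.1 k2.2

end Pool.Agent.H288.HS
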