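import Pool.Agent.H288.HS.Stm4
import Pool.Agent.H288.HS.T.COL3
import Pool.Agent.H288.HS.T.CONV

/-!
# The 24 cones of the space: grid sums of a continuous function of the norm (helper596)
-/

set_option autoImplicit false

open MeasureTheory Set Filter Topology

namespace Pool.Agent.H288.HS.CONE3N

open COL3N

/-! ### The sets -/

lemma Bs3_open (R : ℝ) : IsOpen (Bs 3 R) := by
  unfold Bs
  exact isOpen_lt (by fun_prop) continuous_const

lemma Bs3_bdd {R : ℝ} (hR : 0 < R) : Bornology.IsBounded (Bs 3 R) := by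
  refine (Metric.isBounded_closedBall (x := (0 : Fin 3 → ℝ)) (r := R)).subset ?_
  intro x hx
  rw [mem_closedBall_zero_iff, pi_norm_le_iff_of_nonneg hR.le]
  intro k
  rw [Real.norm_eq_abs]
  exact coord_le hR hx k

lemma Bs3_convex (R : ℝ) : Convex ℝ (Bs 3 R) := ball_convex R

/-- the open cones, numbered by the colours -/
noncomputable def OJ (R : ℝ) (j : Fin 24) : Set (Fin 3 → ℝ) := O R (enc.symm j).1 (enc.symm j).2

lemma OJ_sub (R : ℝ) (j : Fin 24) : OJ R j ⊆ Bs 3 R := fun _ hx => hx.1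

lemma sgx {b b' : Bool} {x : ℝ} (h : 0 < sg b * x) (h' : 0 < sg b' * x) : b = b' := by
  cases b <;> cases b' <;> simp [sg] at h h' ⊢ <;> linarith

lemma O_uniq {R : ℝ} {i i' : Fin 3} {s s' : Fin 3 → Bool} {x : Fin 3 → ℝ} (h : x ∈ O R i s)
    (h' : x ∈ O R i' s') : i = i' ∧ s = s' := by
  have hs : s = s' := funext fun k => sgx (h.2.1 k) (h'.2.1 k)
  subst hs
  refine ⟨?_, rfl⟩
  by_contra hne
  have h1 := h.2.2 i' (Ne.symm hne)
  have h2 := h'.2.2 i hne
  linarith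

lemma OJ_disj (R : ℝ) : Pairwise (Function.onFun Disjoint (OJ R)) := by
  intro j j' hjj
  rw [Function.onFun, Set.disjoint_left]
  intro x hx hx'
  obtain ⟨h1, h2⟩ := O_uniq hx hx'
  exact hjj (enc.symm.injective (Prod.ext h1 h2))

lemma OJ_union (R : ℝ) : (⋃ j, OJ R j) =ᵐ[volume] Bs 3 R := by
  refine (ae_eq_set).2 ⟨?_, ?_⟩
  · have : (⋃ j, OJ R j) \ Bs 3 R = ∅ := by
      rw [Set.diff_eq_empty]
      exact Set.iUnion_subset (OJ_sub R)
    rw [this, measure_empty]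
  · refine measure_mono_null ?_ Nl_null
    intro x hx
    rcases cover R hx.1 with h | h
    · exfalso
      obtain ⟨p, hp⟩ := Set.mem_iUnion.1 h
      refine hx.2 (Set.mem_iUnion.2 ⟨enc p, ?_⟩)
      unfold OJ
      rw [Equiv.symm_apply_apply]
      exact hp
    · exact h

lemma OJ_meas (R : ℝ) (j : Fin 24) : MeasurableSet (OJ R j) := (O_open R _ _).measurableSet

lemma intOn {R : ℝ} (hR : 0 < R) {F : (Fin 3 → ℝ) → ℝ} (hF : Continuous F) {s : Set (Fin 3 → ℝ)}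
    (hs : s ⊆ Bs 3 R) : IntegrableOn F s := by
  have hK : IsCompact (closure (Bs 3 R)) := (Bs3_bdd hR).isCompact_closure
  exact (hF.continuousOn.integrableOn_compact hK).mono_set (hs.trans subset_closure)

/-! ### The integrals -/

lemma Ph_inj (i : Fin 3) (s : Fin 3 → Bool) : Function.Injective (Ph i s) := by
  intro x y h
  funext k
  have h1 := congrFun h (Equiv.swap 0 i k)
  simp only [Ph, Equiv.swap_apply_self] at h1
  have h2 := congrArg (fun t => sg (s (Equiv.swap 0 i k)) * t) h1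
  simp only [← mul_assoc, sg_sq, one_mul] at h2
  exact h2

lemma Ph_cont (i : Fin 3) (s : Fin 3 → Bool) : Continuous (Ph i s) := by
  unfold Ph
  fun_prop

lemma Ph_norm (i : Fin 3) (s : Fin 3 → Bool) (x : Fin 3 → ℝ) :
    ∑ k, (Ph i s x k) ^ 2 = ∑ k, x k ^ 2 := by
  unfold Ph
  refine Eq.trans (Finset.sum_congr rfl fun k _ => ?_)
    (Equiv.sum_comp (Equiv.swap 0 i) (fun k => x k ^ 2))
  rw [mul_pow, sq (sg (s k)), sg_sq, one_mul]

lemma int_O (R : ℝ) (g : ℝ → ℝ) (i : Fin 3) (s : Fin 3 → Bool) :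
    ∫ x in O R i s, g (∑ k, x k ^ 2) = ∫ x in O R 0 (fun _ => true), g (∑ k, x k ^ 2) := by
  have hemb : MeasurableEmbedding (Ph i s) := (Ph_cont i s).measurableEmbedding (Ph_inj i s)
  rw [← Ph_pre R i s, ← (Ph_mp i s).setIntegral_preimage_emb hemb (fun x => g (∑ k, x k ^ 2)) (O R i s)]
  simp only [Ph_norm]

lemma int_OJ {R : ℝ} (hR : 0 < R) (g : ℝ → ℝ) (hg : Continuous g) (j : Fin 24) :
    ∫ x in OJ R j, g (∑ k, x k ^ 2) = 1 / 24 * ∫ x in Bs 3 R, g (∑ k, x k ^ 2) := by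
  have hF : Continuous (fun x : Fin 3 → ℝ => g (∑ k, x k ^ 2)) := by fun_prop
  have h1 : ∫ x in Bs 3 R, g (∑ k, x k ^ 2) = ∑ j, ∫ x in OJ R j, g (∑ k, x k ^ 2) := by
    rw [← setIntegral_congr_set (OJ_union R)]
    exact integral_iUnion_fintype (OJ_meas R) (OJ_disj R) fun j => intOn hR hF (OJ_sub R j)
  have h2 : ∀ j', ∫ x in OJ R j', g (∑ k, x k ^ 2) = ∫ x in OJ R j, g (∑ k, x k ^ 2) := by
    intro j'
    unfold OJ
    exact (int_O R g _ _).trans (int_O R g _ _).symm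
  rw [h1, Finset.sum_congr rfl fun j' _ => h2 j', Finset.sum_const, Finset.card_univ, Fintype.card_fin,
    nsmul_eq_mul]
  push_cast
  ring

/-! ### Grid sums -/

/-- The grid sums of a continuous function over a bounded convex set. -/
lemma sum_conv (s : Set (Fin 3 → ℝ)) (hs : Convex ℝ s) (hm : MeasurableSet s)
    (hb : Bornology.IsBounded s) (F : (Fin 3 → ℝ) → ℝ) (hF : Continuous F) :
    Tendsto (fun n : ℕ => wt 3 n * ∑' z : {z : Fin 3 → ℤ // (fun k => (z k : ℝ) / n) ∈ s},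
      F (fun k => (z.1 k : ℝ) / n)) atTop (𝓝 (∫ x in s, F x)) := by
  have h1 := tendsto_tsum_div_pow_atTop_integral s F hF hb hm (hs.addHaar_frontier volume)
  refine h1.congr' ?_
  filter_upwards [eventually_ge_atTop 1] with n hn
  have hn' : (n : ℝ) ≠ 0 := by
    have : n ≠ 0 := by omega
    exact_mod_cast this
  have h2 : Function.Injective (fun (z : Fin 3 → ℤ) (k : Fin 3) => (z k : ℝ) / n) := by
    intro z z' h
    funext k
    have := congrFun h k
    simp only [div_left_inj' hn', Int.cast_inj] at this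
    exact this
  have h3 := CONVN.image_eq 3 s (n := n) (by omega)
  rw [← h3]
  have h4 := tsum_image F (h2.injOn (s := {z : Fin 3 → ℤ | (fun k => (z k : ℝ) / n) ∈ s}))
  have h5 : ∑' z : {z : Fin 3 → ℤ // (fun k => (z k : ℝ) / n) ∈ s}, F (fun k => (z.1 k : ℝ) / n) =
      ∑' x : ↑((fun (z : Fin 3 → ℤ) (k : Fin 3) => (z k : ℝ) / n) ''
        {z : Fin 3 → ℤ | (fun k => (z k : ℝ) / n) ∈ s}), F x := h4.symm
  rw [h5, Fintype.card_fin]
  unfold wt
  ring

lemma B_fin {R : ℝ} (hR : 0 < R) (n : ℕ) : {z : Fin 3 → ℤ | ∑ k, (z k : ℝ) ^ 2 < (n * R) ^ 2}.Finite := by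
  rcases Nat.eq_zero_or_pos n with h0 | h0
  · subst h0
    have : {z : Fin 3 → ℤ | ∑ k, (z k : ℝ) ^ 2 < (((0 : ℕ) : ℝ) * R) ^ 2} = ∅ := by
      ext z
      simp only [Set.mem_ofPred_eq, Set.mem_empty_iff_false, iff_false, not_lt]
      have : (0 : ℝ) ≤ ∑ k, (z k : ℝ) ^ 2 := Finset.sum_nonneg fun k _ => sq_nonneg _
      simpa using this
    rw [this]
    exact Set.finite_empty
  have hn : (0 : ℝ) < n := by exact_mod_cast h0
  refine (Set.finite_Icc (fun _ : Fin 3 => -⌈(n:ℝ) * R⌉) (fun _ => ⌈(n:ℝ) * R⌉)).subset ?_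
  intro z h1
  have h2 : ∀ k, |(z k : ℝ)| ≤ (n:ℝ) * R := fun k =>
    coord_le (x := fun k => (z k : ℝ)) (by positivity : 0 < (n:ℝ) * R) h1 k
  rw [Set.mem_Icc]
  constructor <;> intro k
  · have h3 := (abs_le.1 (h2 k)).1
    have h4 := Int.le_ceil ((n:ℝ) * R)
    have h5 : (-(⌈(n:ℝ) * R⌉ : ℝ)) ≤ (z k : ℝ) := by linarith
    exact_mod_cast h5
  · have h3 := (abs_le.1 (h2 k)).2
    have h4 := Int.le_ceil ((n:ℝ) * R)
    have h5 : (z k : ℝ) ≤ (⌈(n:ℝ) * R⌉ : ℝ) := by linarith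
    exact_mod_cast h5

/-- the grid points of the ball -/
noncomputable def Bf {R : ℝ} (hR : 0 < R) (n : ℕ) : Finset (Fin 3 → ℤ) := (B_fin hR n).toFinset

lemma mem_Bf {R : ℝ} (hR : 0 < R) (n : ℕ) (z : Fin 3 → ℤ) :
    z ∈ Bf hR n ↔ ∑ k, (z k : ℝ) ^ 2 < (n * R) ^ 2 := by
  unfold Bf
  rw [Set.Finite.mem_toFinset]
  rfl

lemma scale {R : ℝ} {n : ℕ} (hn : 0 < n) (z : Fin 3 → ℤ) :
    ∑ k, ((z k : ℝ) / n) ^ 2 < R ^ 2 ↔ ∑ k, (z k : ℝ) ^ 2 < (n * R) ^ 2 := by
  have hn' : (0 : ℝ) < n := by exact_mod_cast hn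
  have h5 : ∑ k, ((z k : ℝ) / n) ^ 2 = (∑ k, (z k : ℝ) ^ 2) / (n:ℝ) ^ 2 := by
    rw [Finset.sum_div]
    exact Finset.sum_congr rfl fun k _ => div_pow _ _ _
  rw [h5, div_lt_iff₀ (by positivity), mul_pow, mul_comm (R ^ 2)]

open Classical in
/-- the grid points of a subset of the ball -/
noncomputable def Af {R : ℝ} (hR : 0 < R) (n : ℕ) (s : Set (Fin 3 → ℝ)) : Finset (Fin 3 → ℤ) :=
  (Bf hR n).filter (fun z => (fun k => (z k : ℝ) / n) ∈ s)

lemma mem_Af {R : ℝ} (hR : 0 < R) {n : ℕ} (hn : 0 < n) {s : Set (Fin 3 → ℝ)} (hs : s ⊆ Bs 3 R)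
    (z : Fin 3 → ℤ) : z ∈ Af hR n s ↔ (fun k => (z k : ℝ) / n) ∈ s := by
  classical
  unfold Af
  rw [Finset.mem_filter, mem_Bf]
  refine ⟨fun h => h.2, fun h => ⟨(scale hn z).1 (hs h), h⟩⟩

lemma Af_sum {R : ℝ} (hR : 0 < R) {n : ℕ} (hn : 0 < n) {s : Set (Fin 3 → ℝ)} (hs : s ⊆ Bs 3 R)
    (F : (Fin 3 → ℝ) → ℝ) :
    ∑' z : {z : Fin 3 → ℤ // (fun k => (z k : ℝ) / n) ∈ s}, F (fun k => (z.1 k : ℝ) / n) =
      ∑ z ∈ Af hR n s, F (fun k => (z k : ℝ) / n) := by
  have h1 := tsum_subtype {z : Fin 3 → ℤ | (fun k => (z k : ℝ) / n) ∈ s}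
    (fun z => F (fun k => (z k : ℝ) / n))
  have h2 : ∑' z : {z : Fin 3 → ℤ // (fun k => (z k : ℝ) / n) ∈ s}, F (fun k => (z.1 k : ℝ) / n) =
      ∑' z : {z : Fin 3 → ℤ | (fun k => (z k : ℝ) / n) ∈ s}, F (fun k => (z.1 k : ℝ) / n) := rfl
  rw [h2, h1, tsum_eq_sum (s := Af hR n s)]
  · refine Finset.sum_congr rfl fun z hz => ?_
    exact indicator_of_mem ((mem_Af hR hn hs z).1 hz) _
  · intro z hz
    exact indicator_of_notMem (fun h => hz ((mem_Af hR hn hs z).2 h)) _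

lemma Af_lim {R : ℝ} (hR : 0 < R) {s : Set (Fin 3 → ℝ)} (hs : s ⊆ Bs 3 R) (hc : Convex ℝ s)
    (ho : MeasurableSet s) (F : (Fin 3 → ℝ) → ℝ) (hF : Continuous F) :
    Tendsto (fun n : ℕ => wt 3 n * ∑ z ∈ Af hR n s, F (fun k => (z k : ℝ) / n)) atTop
      (𝓝 (∫ x in s, F x)) := by
  refine (sum_conv s hc ho ((Bs3_bdd hR).subset hs) F hF).congr' ?_
  filter_upwards [eventually_gt_atTop 0] with n hn
  rw [Af_sum hR hn hs]

/-- the grid points of a colour -/
noncomputable def Cf {R : ℝ} (hR : 0 < R) (n : ℕ) (j : Fin 24) : Finset (Fin 3 → ℤ) :=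
  (Bf hR n).filter (fun z => colr z = j)

lemma Af_Cf {R : ℝ} (hR : 0 < R) {n : ℕ} (hn : 0 < n) (j : Fin 24) : Af hR n (OJ R j) ⊆ Cf hR n j := by
  classical
  intro z hz
  have hz' := (mem_Af hR hn (OJ_sub R j) z).1 hz
  have hn' : (0:ℝ) < n := by exact_mod_cast hn
  unfold Cf
  rw [Finset.mem_filter, mem_Bf]
  refine ⟨(scale hn z).1 (OJ_sub R j hz'), ?_⟩
  obtain ⟨⟨i, s⟩, rfl⟩ := enc.surjective j
  unfold OJ at hz'
  rw [Equiv.symm_apply_apply] at hz'
  obtain ⟨-, h2, h3⟩ := hz'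
  have h2' : ∀ k, 0 < sg (s k) * (z k : ℝ) := by
    intro k
    have := h2 k
    simp only at this
    rw [← mul_div_assoc, div_pos_iff_of_pos_right hn'] at this
    exact this
  have habs : ∀ k, sg (s k) * (z k : ℝ) = |(z k : ℝ)| := by
    intro k
    have h4 : |sg (s k) * (z k : ℝ)| = |(z k : ℝ)| := by
      rw [abs_mul]
      have : |sg (s k)| = 1 := by cases s k <;> simp [sg]
      rw [this, one_mul]
    rw [← h4, abs_of_pos (h2' k)]
  have h3' : ∀ k, k ≠ i → |z k| < |z i| := by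
    intro k hk
    have h4 := h3 k hk
    simp only at h4
    rw [← mul_div_assoc, ← mul_div_assoc, div_lt_div_iff_of_pos_right hn', habs, habs] at h4
    exact_mod_cast h4
  unfold colr
  congr 1
  refine Prod.ext ?_ ?_
  · change ix z = i
    by_contra hne
    have h6 := h3' (ix z) hne
    have h7 := ix_spec z i
    omega
  · funext k
    change decide (0 ≤ z k) = s k
    have h8 := h2' k
    cases hk : s k
    · rw [hk] at h8
      simp only [sg, Bool.false_eq_true, if_false] at h8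
      have h9 : (z k : ℝ) < 0 := by linarith
      have h10 : z k < 0 := by exact_mod_cast h9
      simp [not_le.2 h10]
    · rw [hk] at h8
      simp only [sg, if_true, one_mul] at h8
      have h10 : 0 < z k := by exact_mod_cast h8
      simp [h10.le]

lemma Cf_card {R : ℝ} (hR : 0 < R) (n : ℕ) : ∑ j, (Cf hR n j).card = (Bf hR n).card := by
  unfold Cf
  exact (Finset.card_eq_sum_card_fiberwise (f := colr) (t := Finset.univ) (s := Bf hR n)
    (fun _ _ => Finset.mem_coe.2 (Finset.mem_univ _))).symm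

/-- almost all the grid points are in the open cones -/
lemma gap {R : ℝ} (hR : 0 < R) (j : Fin 24) :
    Tendsto (fun n : ℕ => wt 3 n * (((Cf hR n j).card : ℝ) - ((Af hR n (OJ R j)).card : ℝ))) atTop (𝓝 0) := by
  have hB := Af_lim hR (Subset.refl (Bs 3 R)) (Bs3_convex R) (Bs3_open R).measurableSet
    (fun _ => (1 : ℝ)) continuous_const
  have hA : ∀ j, Tendsto (fun n : ℕ => wt 3 n * ∑ z ∈ Af hR n (OJ R j), (1 : ℝ)) atTop
      (𝓝 (∫ x in OJ R j, (1 : ℝ))) := fun j =>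
    Af_lim hR (OJ_sub R j) (O_convex R _ _) (OJ_meas R j) (fun _ => (1 : ℝ)) continuous_const
  have hS := tendsto_finsetSum (Finset.univ : Finset (Fin 24)) (fun j _ => hA j)
  have hI : ∑ j, ∫ x in OJ R j, (1 : ℝ) = ∫ x in Bs 3 R, (1 : ℝ) := by
    have h1 : ∀ j, ∫ x in OJ R j, (1 : ℝ) = 1 / 24 * ∫ x in Bs 3 R, (1 : ℝ) := fun j =>
      int_OJ hR (fun _ => (1 : ℝ)) continuous_const j
    rw [Finset.sum_congr rfl fun j _ => h1 j, Finset.sum_const, Finset.card_univ, Fintype.card_fin,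
      nsmul_eq_mul]
    push_cast
    ring
  rw [hI] at hS
  have hD := hB.sub hS
  rw [sub_self] at hD
  refine squeeze_zero' ?_ ?_ hD
  · filter_upwards [eventually_gt_atTop 0] with n hn
    have h1 : ((Af hR n (OJ R j)).card : ℝ) ≤ ((Cf hR n j).card : ℝ) := by
      exact_mod_cast Finset.card_le_card (Af_Cf hR hn j)
    have h2 : 0 ≤ wt 3 n := by unfold wt; positivity
    exact mul_nonneg h2 (by linarith)
  · filter_upwards [eventually_gt_atTop 0] with n hn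
    have h2 : 0 ≤ wt 3 n := by unfold wt; positivity
    have h3 : Af hR n (Bs 3 R) = Bf hR n := by
      ext z
      rw [mem_Af hR hn (Subset.refl _), mem_Bf, ← scale hn]
      rfl
    have h4 : (∑ j, ((Cf hR n j).card : ℝ)) = ((Bf hR n).card : ℝ) := by exact_mod_cast Cf_card hR n
    have h5 : ∀ j, (0 : ℝ) ≤ ((Cf hR n j).card : ℝ) - ((Af hR n (OJ R j)).card : ℝ) := by
      intro j
      have h1 : ((Af hR n (OJ R j)).card : ℝ) ≤ ((Cf hR n j).card : ℝ) := by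
        exact_mod_cast Finset.card_le_card (Af_Cf hR hn j)
      linarith
    have h6 := Finset.single_le_sum (f := fun j => ((Cf hR n j).card : ℝ) - ((Af hR n (OJ R j)).card : ℝ))
      (fun j _ => h5 j) (Finset.mem_univ j)
    rw [Finset.sum_sub_distrib, h4] at h6
    simp only [Finset.sum_const, nsmul_eq_mul, mul_one]
    rw [h3, ← Finset.mul_sum, ← mul_sub]
    exact mul_le_mul_of_nonneg_left h6 h2

lemma Cf_lim {R : ℝ} (hR : 0 < R) (g : ℝ → ℝ) (hg : Continuous g) (j : Fin 24) :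
    Tendsto (fun n : ℕ => wt 3 n * ∑ z ∈ Cf hR n j, g (∑ k, ((z k : ℝ) / n) ^ 2)) atTop
      (𝓝 (1 / 24 * ∫ x in Bs 3 R, g (∑ k, x k ^ 2))) := by
  have hF : Continuous (fun x : Fin 3 → ℝ => g (∑ k, x k ^ 2)) := by fun_prop
  have h1 := Af_lim hR (OJ_sub R j) (O_convex R _ _) (OJ_meas R j) _ hF
  rw [int_OJ hR g hg j] at h1
  obtain ⟨G, hG⟩ := (isCompact_Icc (a := (0 : ℝ)) (b := R ^ 2)).exists_bound_of_continuousOn hg.continuousOn
  have h2 := (gap hR j).mul_const G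
  rw [zero_mul] at h2
  have h3 : Tendsto (fun n : ℕ => wt 3 n * ∑ z ∈ Cf hR n j, g (∑ k, ((z k : ℝ) / n) ^ 2) -
      wt 3 n * ∑ z ∈ Af hR n (OJ R j), g (∑ k, ((z k : ℝ) / n) ^ 2)) atTop (𝓝 0) := by
    refine squeeze_zero_norm' ?_ h2
    filter_upwards [eventually_gt_atTop 0] with n hn
    have h4 : 0 ≤ wt 3 n := by unfold wt; positivity
    rw [← mul_sub, norm_mul, Real.norm_of_nonneg h4, mul_assoc]
    refine mul_le_mul_of_nonneg_left ?_ h4
    have h5 := Finset.sum_sdiff (Af_Cf hR hn j) (f := fun z : Fin 3 → ℤ => g (∑ k, ((z k : ℝ) / n) ^ 2))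
    rw [← h5, add_sub_cancel_right]
    refine (norm_sum_le_of_le (f := fun z : Fin 3 → ℤ => g (∑ k, ((z k : ℝ) / n) ^ 2)) _ (n := fun _ => G)
      fun z hz => ?_).trans ?_
    · apply hG
      have h6 : z ∈ Bf hR n := (Finset.mem_filter.1 (Finset.mem_sdiff.1 hz).1).1
      rw [mem_Bf, ← scale hn] at h6
      exact ⟨Finset.sum_nonneg fun k _ => sq_nonneg _, h6.le⟩
    · rw [Finset.sum_const, nsmul_eq_mul, Finset.card_sdiff_of_subset (Af_Cf hR hn j),
        Nat.cast_sub (Finset.card_le_card (Af_Cf hR hn j))]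
  have h7 := h3.add h1
  rw [zero_add] at h7
  refine h7.congr fun n => ?_
  ring

end Pool.Agent.H288.HS.CONE3N

namespace Pool.Agent.H288.HS

open COL3N CONE3N

theorem t_CONE3 : S_CONE3 := by
  refine ⟨colr, part1, ?_⟩
  intro R g hR hg j
  refine (Cf_lim hR g hg j).congr fun n => ?_
  congr 1
  have hfin : {u : Fin 3 → ℤ | ∑ k, (u k : ℝ) ^ 2 < (n * R) ^ 2 ∧ colr u = j}.Finite :=
    (B_fin hR n).subset fun u hu => hu.1
  rw [finsum_mem_eq_finite_toFinset_sum _ hfin]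
  refine Finset.sum_congr ?_ fun _ _ => rfl
  ext z
  unfold Cf
  rw [Finset.mem_filter, mem_Bf, Set.Finite.mem_toFinset]
  rfl

end Pool.Agent.H288.HS
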