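import Pool.Agent.H288.HS.Stm2

/-! # Choice of the constants -/

set_option autoImplicit false

open MeasureTheory Set Filter Topology

namespace Pool.Agent.H288.HS

theorem t_CONST : S_CONST := by
  intro r C a l₁ _ hC _ _ hlt
  set θ : ℝ := √(l₁ * GG r * a) with hθ
  have hθ1 : θ < 1 := by
    rw [hθ, Real.sqrt_lt' one_pos, one_pow]
    exact hlt
  have hC0 : 0 < √C := Real.sqrt_pos.2 hC
  have h1θ : 0 < 1 - θ := by linarith
  set M : ℝ := 8 * √C / (1 - θ) with hM
  have hM0 : 0 < M := by positivity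
  have hMeq : (1 - θ) * M = 8 * √C := by
    rw [hM]
    field_simp
  have hMs : 2 * √C + θ * M < M := by nlinarith
  refine ⟨M, hM0, ?_⟩
  have c1 : Continuous fun ε : ℝ => 2 * (M * √C) * ε := by fun_prop
  have c2 : Continuous fun ε : ℝ => 2 * (2 * ε + l₁ * (2 * (M * √C) * ε)) * C := by fun_prop
  have c3 : ContinuousAt (fun ε : ℝ => ((1 - 2 * (2 * ε + l₁ * (2 * (M * √C) * ε)) * C)⁻¹) ^ (r + 1) *
      (2 * √C + √((l₁ + ε) * GG r * a) * M)) 0 := by
    refine ContinuousAt.mul (ContinuousAt.pow (ContinuousAt.inv₀ ?_ ?_) _) ?_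
    · exact (continuous_const.sub c2).continuousAt
    · norm_num
    · have c4 : Continuous fun ε : ℝ => √((l₁ + ε) * GG r * a) :=
        Real.continuous_sqrt.comp (by fun_prop)
      exact (continuous_const.add (c4.mul continuous_const)).continuousAt
  have e1 : ∀ᶠ ε in 𝓝 (0 : ℝ), 2 * (M * √C) * ε < Real.exp (-(l₁ * C)) / 2 := by
    refine c1.continuousAt.eventually_lt_const ?_
    have := Real.exp_pos (-(l₁ * C))
    show 2 * (M * √C) * 0 < Real.exp (-(l₁ * C)) / 2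
    rw [mul_zero]
    positivity
  have e2 : ∀ᶠ ε in 𝓝 (0 : ℝ), 2 * (2 * ε + l₁ * (2 * (M * √C) * ε)) * C < 1 := by
    refine c2.continuousAt.eventually_lt_const ?_
    norm_num
  have e3 : ∀ᶠ ε in 𝓝 (0 : ℝ), ((1 - 2 * (2 * ε + l₁ * (2 * (M * √C) * ε)) * C)⁻¹) ^ (r + 1) *
      (2 * √C + √((l₁ + ε) * GG r * a) * M) < M := by
    refine c3.eventually_lt_const ?_
    simp only [mul_zero, add_zero, zero_mul, sub_zero, inv_one, one_pow, one_mul]
    exact hMs
  obtain ⟨ε, ⟨h1, h2, h3⟩, hε⟩ := (((e1.and (e2.and e3)).filter_mono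
    (nhdsWithin_le_nhds (s := Set.Ioi 0))).and self_mem_nhdsWithin).exists
  exact ⟨ε, hε, h1.le, h2, h3.le⟩

end Pool.Agent.H288.HS
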