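import Pool.Agent.H288.HS.Stm5

/-!
# Hard spheres: `COUNTP`, translation of the grid paths
-/

set_option autoImplicit false

open MeasureTheory Set Filter Topology

namespace Pool.Agent.H288.HS

namespace COUNTPN

theorem pt_sub {d K : ℕ} (x : Fin d → ℤ) (q : Fin K → Fin d → ℤ) (i : Fin (K + 1)) :
    pt (fun _ => 0) (fun j k => q j k - x k) i = fun k => pt x q i k - x k := by
  refine Fin.cases ?_ (fun j => ?_) i
  · funext k
    simp [pt]
  · funext k
    simp [pt]

theorem NB_sub {d : ℕ} (R : ℝ) (n : ℕ) (x a b : Fin d → ℤ) :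
    NB d R n (fun k => a k - x k) (fun k => b k - x k) ↔ NB d R n a b := by
  have h : ∀ k, (((a k - x k : ℤ) : ℝ) - ((b k - x k : ℤ) : ℝ)) = (a k : ℝ) - (b k : ℝ) := by
    intro k
    push_cast
    ring
  simp only [NB, h]

theorem cZ_sub {d r m : ℕ} (c : Fin m → (Fin d → ℝ) → Fin r) (o : Fin m)
    (x a b : Fin d → ℤ) :
    cZ c o (fun k => a k - x k) (fun k => b k - x k) = cZ c o a b := by
  have h : ∀ k, (((b k - x k : ℤ) : ℝ) - ((a k - x k : ℤ) : ℝ)) = (b k : ℝ) - (a k : ℝ) := by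
    intro k
    push_cast
    ring
  simp only [cZ, h]

theorem PathOK_sub {d r m K : ℕ} (c : Fin m → (Fin d → ℝ) → Fin r) (R : ℝ) (n : ℕ)
    (o : Fin K → Fin m) (x : Fin d → ℤ) (q : Fin K → Fin d → ℤ)
    (h : PathOK (NB d R n) (cZ c) x o q) :
    PathOK (NB d R n) (cZ c) (fun _ => 0) o (fun i k => q i k - x k) := by
  obtain ⟨h1, h2⟩ := h
  refine ⟨fun i => ?_, fun i j hij => ?_⟩
  · rw [pt_sub, pt_sub, NB_sub]
    exact h1 i
  · rw [pt_sub, pt_sub, pt_sub, NB_sub, cZ_sub, cZ_sub]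
    exact h2 i j hij

open Classical in
theorem card_le {d r m K : ℕ} (c : Fin m → (Fin d → ℝ) → Fin r) (R : ℝ) (n : ℕ)
    (o : Fin K → Fin m) (A : Finset (Fin d → ℤ)) (x : Fin d → ℤ)
    (hfin : (PZ d r m K c R n o).Finite) :
    ((Fintype.piFinset (fun _ : Fin K => A)).filter
      (fun q => PathOK (NB d R n) (cZ c) x o q)).card ≤ (PZ d r m K c R n o).ncard := by
  rw [← Set.ncard_coe_finset]
  refine Set.ncard_le_ncard_of_injOn (fun q i k => q i k - x k) ?_ ?_ hfin
  · intro q hq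
    have hq' : PathOK (NB d R n) (cZ c) x o q := by
      have := Finset.mem_coe.1 hq
      exact (Finset.mem_filter.1 this).2
    exact PathOK_sub c R n o x q hq'
  · intro q _ q' _ hqq
    funext i k
    have h := congrFun (congrFun hqq i) k
    have h' : q i k - x k = q' i k - x k := h
    linarith

end COUNTPN

open Classical in
theorem t_COUNTP : S_COUNTP := by
  intro hP hF d r m K c R n A x
  rw [hP]
  have hw : 0 ≤ wt d n := by
    unfold wt
    positivity
  have e : (wt d n / (m : ℝ)) ^ K = (1 / (m : ℝ)) ^ K * (wt d n) ^ K := by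
    rw [← mul_pow]
    congr 1
    ring
  rw [e, mul_assoc, Finset.mul_sum]
  refine mul_le_mul_of_nonneg_left ?_ (by positivity)
  refine Finset.sum_le_sum fun o _ => ?_
  refine mul_le_mul_of_nonneg_left ?_ (pow_nonneg hw K)
  exact_mod_cast COUNTPN.card_le c R n o A x (hF d r m K c R n o)

end Pool.Agent.H288.HS

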