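import Pool.Agent.H288.HS.Stm2

set_option autoImplicit false
set_option linter.all false

open MeasureTheory Set Filter Topology

namespace Pool.Agent.H288.HS.DELSUMN

open Classical in
theorem mem_ind {V : Type} {N : V → V → Prop} {A I : Finset V} :
    I ∈ ind N A ↔ I ⊆ A ∧ Indep N I := by
  unfold ind
  rw [Finset.mem_filter, Finset.mem_powerset]

open Classical in
theorem del {V : Type} (N : V → V → Prop) (A : Finset V) (k : ℕ) :
    (k + 1) * cnt N A (k + 1) ≤ A.card * cnt N A k := by
  set S1 := (ind N A).filter (fun I => I.card = k + 1) with hS1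
  set S0 := (ind N A).filter (fun I => I.card = k) with hS0
  have h1 : (S1.sigma (fun I => I)).card = (k + 1) * cnt N A (k + 1) := by
    rw [Finset.card_sigma, Finset.sum_congr rfl (fun I hI => (Finset.mem_filter.1 hI).2),
      Finset.sum_const, smul_eq_mul, mul_comm]
    rfl
  have h2 : (S0 ×ˢ A).card = A.card * cnt N A k := by
    rw [Finset.card_product, mul_comm]
    rfl
  rw [← h1, ← h2]
  refine Finset.card_le_card_of_injOn (fun p => (p.1.erase p.2, p.2)) ?_ ?_
  · rintro ⟨I, v⟩ hp
    obtain ⟨hI, hv⟩ := Finset.mem_sigma.1 hp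
    obtain ⟨hI1, hI2⟩ := Finset.mem_filter.1 hI
    obtain ⟨hIA, hInd⟩ := mem_ind.1 hI1
    refine Finset.mem_coe.2 (Finset.mem_product.2 ⟨Finset.mem_filter.2 ⟨mem_ind.2 ⟨?_, ?_⟩, ?_⟩, ?_⟩)
    · exact (Finset.erase_subset _ _).trans hIA
    · intro x hx y hy hxy
      exact hInd x (Finset.mem_of_mem_erase hx) y (Finset.mem_of_mem_erase hy) hxy
    · show (I.erase v).card = k
      rw [Finset.card_erase_of_mem hv]
      have : I.card = k + 1 := hI2
      omega
    · exact hIA hv
  · rintro ⟨I, v⟩ hp ⟨I', v'⟩ hp' h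
    obtain ⟨hI, hv⟩ := Finset.mem_sigma.1 hp
    obtain ⟨hI', hv'⟩ := Finset.mem_sigma.1 hp'
    have e1 : I.erase v = I'.erase v' := congrArg Prod.fst h
    have e2 : v = v' := congrArg Prod.snd h
    subst e2
    have hv1 : v ∈ I := hv
    have hv2 : v ∈ I' := hv'
    have e3 : I = I' := by
      rw [← Finset.insert_erase hv1, e1, Finset.insert_erase hv2]
    subst e3
    rfl

open Classical in
theorem card_le {V : Type} {N : V → V → Prop} {A I : Finset V} (h : I ∈ ind N A) :
    I.card ∈ Finset.range (A.card + 1) := by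
  rw [Finset.mem_range]
  have := Finset.card_le_card (mem_ind.1 h).1
  omega

open Classical in
theorem cnt_zero {V : Type} {N : V → V → Prop} {A : Finset V} {k : ℕ}
    (h : k ∉ Finset.range (A.card + 1)) : cnt N A k = 0 := by
  unfold cnt
  rw [Finset.card_eq_zero, Finset.filter_eq_empty_iff]
  intro I hI hk
  apply h
  rw [← hk]
  exact card_le hI

open Classical in
theorem sum_ind {V : Type} {N : V → V → Prop} {A : Finset V} {F : Type} [Field F]
    [TopologicalSpace F] (f : ℕ → F) : ∑ I ∈ ind N A, f I.card =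
      ∑' k : ℕ, (cnt N A k : F) * f k := by
  rw [tsum_eq_sum (s := Finset.range (A.card + 1))
    (fun k hk => by rw [cnt_zero hk, Nat.cast_zero, zero_mul]),
    ← Finset.sum_fiberwise_of_maps_to (fun I hI => card_le hI) (fun I => f I.card)]
  refine Finset.sum_congr rfl fun k _ => ?_
  rw [Finset.sum_congr rfl (fun I hI => by rw [(Finset.mem_filter.1 hI).2] :
    ∀ I ∈ (ind N A).filter (fun I => I.card = k), f I.card = f k), Finset.sum_const, nsmul_eq_mul]
  rfl

open Classical in
theorem cnt_le {V : Type} (N : V → V → Prop) (A : Finset V) (k : ℕ) :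
    cnt N A k ≤ A.card.choose k := by
  rw [← Finset.card_powersetCard]
  unfold cnt
  refine Finset.card_le_card fun I hI => ?_
  obtain ⟨h1, h2⟩ := Finset.mem_filter.1 hI
  exact Finset.mem_powersetCard.2 ⟨(mem_ind.1 h1).1, h2⟩

end Pool.Agent.H288.HS.DELSUMN

namespace Pool.Agent.H288.HS

open DELSUMN

theorem t_DEL : S_DEL := fun V N A k => del N A k

theorem t_SUM : S_SUM := by
  intro V N w A hw
  refine ⟨fun l => ?_, fun j l => ?_, fun k => ⟨by positivity, ?_⟩⟩
  · unfold Z
    rw [sum_ind (fun k => (l * (w : ℂ)) ^ k)]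
    refine tsum_congr fun k => ?_
    push_cast
    rw [mul_pow]
    ring
  · unfold Mo
    rw [sum_ind (fun k => (k : ℝ) ^ j * (l * w) ^ k)]
    refine tsum_congr fun k => ?_
    rw [mul_pow]
    ring
  · rw [mul_pow, mul_div_assoc]
    refine mul_le_mul_of_nonneg_left ?_ (pow_nonneg hw k)
    have h1 : (cnt N A k : ℝ) ≤ (A.card.choose k : ℝ) := by exact_mod_cast cnt_le N A k
    exact h1.trans (Nat.choose_le_pow_div k A.card)

end Pool.Agent.H288.HS
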