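import Pool.Agent.H288.HS.Stm2

/-!
# Hard spheres: passing to the continuum limit, inequalities
-/

set_option autoImplicit false

open MeasureTheory Set Filter Topology

namespace Pool.Agent.H288.HS

namespace FAMN

section fin

variable {V : Type}

theorem cnt_zero (N : V → V → Prop) (A : Finset V) : cnt N A 0 = 1 := by
  classical
  unfold cnt ind
  rw [Finset.card_eq_one]
  refine ⟨∅, ?_⟩
  ext I
  simp only [Finset.mem_filter, Finset.mem_powerset, Finset.mem_singleton, Finset.card_eq_zero]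
  constructor
  · rintro ⟨-, h⟩
    exact h
  · rintro rfl
    exact ⟨⟨Finset.empty_subset _, fun x hx => absurd hx (Finset.notMem_empty x)⟩, rfl⟩

theorem cnt_one (N : V → V → Prop) (A : Finset V) : cnt N A 1 = A.card := by
  classical
  rw [← Finset.card_image_of_injective A Finset.singleton_injective]
  unfold cnt ind
  apply congrArg Finset.card
  ext I
  simp only [Finset.mem_filter, Finset.mem_powerset, Finset.mem_image]
  constructor
  · rintro ⟨⟨h1, -⟩, h2⟩
    obtain ⟨x, rfl⟩ := Finset.card_eq_one.1 h2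
    exact ⟨x, h1 (Finset.mem_singleton_self x), rfl⟩
  · rintro ⟨x, hx, rfl⟩
    refine ⟨⟨Finset.singleton_subset_iff.2 hx, ?_⟩, Finset.card_singleton x⟩
    intro y hy z hz hne
    rw [Finset.mem_singleton] at hy hz
    exact absurd (hy.trans hz.symm) hne

theorem cnt_mono (N : V → V → Prop) {A B : Finset V} (h : A ⊆ B) (k : ℕ) :
    cnt N A k ≤ cnt N B k := by
  classical
  unfold cnt ind
  apply Finset.card_le_card
  intro I hI
  simp only [Finset.mem_filter, Finset.mem_powerset] at hI ⊢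
  exact ⟨⟨hI.1.1.trans h, hI.1.2⟩, hI.2⟩

end fin

theorem GB_mono (d : ℕ) {L L' : ℝ} (h : L ≤ L') (n : ℕ) : GB d L n ⊆ GB d L' n := by
  unfold GB
  apply Fintype.piFinset_subset
  intro _
  apply Finset.Icc_subset_Icc_right
  exact Int.floor_mono (mul_le_mul_of_nonneg_left h (Nat.cast_nonneg n))

theorem wt_nonneg (d n : ℕ) : 0 ≤ wt d n := by
  unfold wt
  positivity

theorem zz_one (d : ℕ) (R L : ℝ) (hL : 0 < L) : zz d R L 1 = L ^ d := by
  have h : Conf 1 d R L =
      Set.pi univ (fun _ : Fin 1 => Set.pi univ (fun _ : Fin d => Icc (0 : ℝ) L)) := by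
    ext x
    constructor
    · intro hx i _ k _
      exact hx.1 i k
    · intro hx
      exact ⟨fun i k => hx i (mem_univ _) k (mem_univ _),
        fun i j hij => absurd (Subsingleton.elim i j) hij⟩
  unfold zz
  rw [h, volume_pi_pi, Finset.prod_const, Finset.card_univ, Fintype.card_fin, pow_one,
    volume_pi_pi, Finset.prod_const, Finset.card_univ, Fintype.card_fin, Real.volume_Icc,
    ENNReal.toReal_pow, ENNReal.toReal_ofReal (by linarith), sub_zero, Nat.factorial_one,
    Nat.cast_one, inv_one, one_mul]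

variable {d : ℕ} {R L : ℝ}

theorem lim_card (hLIM : S_LIM) (hd : 1 ≤ d) (hR : 0 < R) (hL : 0 < L) :
    Tendsto (fun n : ℕ => wt d n * ((GB d L n).card : ℝ)) atTop (𝓝 (L ^ d)) := by
  have h := hLIM d 1 R L hd hR hL
  rw [zz_one d R L hL] at h
  refine h.congr fun n => ?_
  rw [pow_one, cnt_one]

theorem lim_Mo (hLIM : S_LIM) (hSER : S_SER) (hSUM : S_SUM) (hd : 1 ≤ d) (hR : 0 < R)
    (hL : 0 < L) (j : ℕ) (l : ℝ) :
    Tendsto (fun n : ℕ => Mo (NB d R n) (wt d n) (GB d L n) j l) atTop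
      (𝓝 (ZM (zz d R) L j l)) := by
  have hB : ∀ᶠ n : ℕ in atTop, wt d n * ((GB d L n).card : ℝ) ≤ L ^ d + 1 :=
    (lim_card hLIM hd hR hL).eventually_le_const (by linarith)
  have h := (hSER (fun n k => (wt d n) ^ k * (cnt (NB d R n) (GB d L n) k : ℝ)) (zz d R L)
    (L ^ d + 1) (by positivity) (fun k => hLIM d k R L hd hR hL)
    (hB.mono fun n hn k => by
      obtain ⟨h1, h2⟩ := (hSUM _ (NB d R n) (wt d n) (GB d L n) (wt_nonneg d n)).2.2 k
      refine ⟨h1, h2.trans ?_⟩
      apply div_le_div_of_nonneg_right _ (by positivity)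
      exact pow_le_pow_left₀ (mul_nonneg (wt_nonneg d n) (Nat.cast_nonneg _)) hn k)).2.1 j l
  refine h.congr fun n => ?_
  exact ((hSUM _ (NB d R n) (wt d n) (GB d L n) (wt_nonneg d n)).2.1 j l).symm

end FAMN

open FAMN

theorem t_FAM : S_FAMQ := by
  intro hLIM hSER hSUM hUP hGIN hDEL hSUBD d R hd hR
  refine ⟨?_, ?_, ?_, ?_, ?_, ?_, ?_⟩
  · intro L hL
    refine tendsto_nhds_unique (hLIM d 0 R L hd hR hL) ?_
    refine tendsto_const_nhds.congr fun n => ?_
    rw [cnt_zero, pow_zero, Nat.cast_one, one_mul]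
  · intro L hL
    exact zz_one d R L hL
  · intro L _ k
    unfold zz
    positivity
  · intro L hL k
    refine le_of_tendsto_of_tendsto' ((hLIM d (k + 1) R L hd hR hL).const_mul ((k : ℝ) + 1))
      ((lim_card hLIM hd hR hL).mul (hLIM d k R L hd hR hL)) fun n => ?_
    have h1 : ((k : ℝ) + 1) * (cnt (NB d R n) (GB d L n) (k + 1) : ℝ) ≤
        ((GB d L n).card : ℝ) * (cnt (NB d R n) (GB d L n) k : ℝ) := by
      exact_mod_cast hDEL _ (NB d R n) (GB d L n) k
    have h2 : 0 ≤ wt d n ^ (k + 1) := pow_nonneg (wt_nonneg d n) _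
    have h3 := mul_le_mul_of_nonneg_left h1 h2
    calc ((k : ℝ) + 1) * (wt d n ^ (k + 1) * (cnt (NB d R n) (GB d L n) (k + 1) : ℝ)) =
        wt d n ^ (k + 1) * (((k : ℝ) + 1) * (cnt (NB d R n) (GB d L n) (k + 1) : ℝ)) := by ring
      _ ≤ wt d n ^ (k + 1) *
          (((GB d L n).card : ℝ) * (cnt (NB d R n) (GB d L n) k : ℝ)) := h3
      _ = wt d n * ((GB d L n).card : ℝ) *
          (wt d n ^ k * (cnt (NB d R n) (GB d L n) k : ℝ)) := by ring
  · intro L L' hL hLL k
    refine le_of_tendsto_of_tendsto' (hLIM d k R L hd hR hL)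
      (hLIM d k R L' hd hR (lt_of_lt_of_le hL hLL)) fun n => ?_
    have h1 : (cnt (NB d R n) (GB d L n) k : ℝ) ≤ (cnt (NB d R n) (GB d L' n) k : ℝ) := by
      exact_mod_cast cnt_mono _ (GB_mono d hLL n) k
    exact mul_le_mul_of_nonneg_left h1 (pow_nonneg (wt_nonneg d n) _)
  · intro L hL M hM l hl
    have hM' : (0 : ℝ) < M := by exact_mod_cast hM
    refine le_of_tendsto_of_tendsto' (lim_Mo hLIM hSER hSUM hd hR (mul_pos hM' hL) 0 l)
      ((lim_Mo hLIM hSER hSUM hd hR hL 0 l).pow (M ^ d)) fun n => ?_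
    exact hSUBD d R L (wt d n) n M hL (wt_nonneg d n) hM l hl
  · intro L hL l hl
    have h0 := lim_Mo hLIM hSER hSUM hd hR hL 0 l
    have h1 := lim_Mo hLIM hSER hSUM hd hR hL 1 l
    have h2 := lim_Mo hLIM hSER hSUM hd hR hL 2 l
    have hbv : 0 ≤ bv d R := measureReal_nonneg
    have key : ∀ δ : ℝ, 0 < δ → ZM (zz d R) L 1 l * ZM (zz d R) L 0 l ≤
        (ZM (zz d R) L 2 l * ZM (zz d R) L 0 l - ZM (zz d R) L 1 l ^ 2) *
          (1 + (bv d R + δ) * l) := by
      intro δ hδ
      refine le_of_tendsto_of_tendsto (h1.mul h0)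
        (((h2.mul h0).sub (h1.pow 2)).mul_const (1 + (bv d R + δ) * l)) ?_
      filter_upwards [hUP d R δ hd hR hδ, eventually_ge_atTop 1] with n hn hn1
      apply hGIN _ (NB d R n) (wt d n) (bv d R + δ) (GB d L n) hn.1 (by linarith) ?_ ?_
        (fun x => hn.2 (GB d L n) x) l hl
      · intro x
        unfold NB
        have hn' : (0 : ℝ) < n := by exact_mod_cast hn1
        simp only [sub_self, ne_eq, OfNat.ofNat_ne_zero, not_false_eq_true, zero_pow,
          Finset.sum_const_zero]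
        positivity
      · intro x y h
        unfold NB at h ⊢
        have e : ∑ k, ((y k : ℝ) - (x k : ℝ)) ^ 2 = ∑ k, ((x k : ℝ) - (y k : ℝ)) ^ 2 :=
          Finset.sum_congr rfl fun k _ => by ring
        rw [e]
        exact h
    have hc : Tendsto (fun δ : ℝ =>
        (ZM (zz d R) L 2 l * ZM (zz d R) L 0 l - ZM (zz d R) L 1 l ^ 2) *
          (1 + (bv d R + δ) * l)) (𝓝[>] 0)
        (𝓝 ((ZM (zz d R) L 2 l * ZM (zz d R) L 0 l - ZM (zz d R) L 1 l ^ 2) *
          (1 + (bv d R + 0) * l))) := by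
      apply Tendsto.mono_left _ nhdsWithin_le_nhds
      exact (Continuous.tendsto (by fun_prop) 0)
    rw [add_zero] at hc
    refine ge_of_tendsto hc ?_
    filter_upwards [self_mem_nhdsWithin] with δ hδ
    exact key δ hδ

end Pool.Agent.H288.HS
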