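import Pool.Agent.H288.HS.Stm5

/-!
# Hard spheres: the set of the grid paths from the origin is finite
-/

set_option autoImplicit false

open MeasureTheory Set Filter Topology

namespace Pool.Agent.H288.HS

namespace FINPN

/-- coordinates of two excluded points are close -/
lemma close {d : ℕ} {R : ℝ} {n : ℕ} {x y : Fin d → ℤ} (h : NB d R n x y) (k : Fin d) :
    |y k| ≤ |x k| + ⌈|(n : ℝ) * R|⌉ := by
  have h1 : ((x k : ℝ) - (y k : ℝ)) ^ 2 < (n * R) ^ 2 :=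
    lt_of_le_of_lt (Finset.single_le_sum (f := fun k => ((x k : ℝ) - (y k : ℝ)) ^ 2)
      (fun i _ => sq_nonneg _) (Finset.mem_univ k)) h
  have h2 : |(x k : ℝ) - (y k : ℝ)| < |(n : ℝ) * R| := sq_lt_sq.mp h1
  have h3 : |(x k : ℝ) - (y k : ℝ)| ≤ ((⌈|(n : ℝ) * R|⌉ : ℤ) : ℝ) := h2.le.trans (Int.le_ceil _)
  have h4 : |x k - y k| ≤ ⌈|(n : ℝ) * R|⌉ := by exact_mod_cast h3
  have h5 : |y k| ≤ |x k| + |x k - y k| := by
    have h6 : y k = x k - (x k - y k) := by ring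
    calc |y k| = |x k - (x k - y k)| := by rw [← h6]
      _ ≤ |x k| + |x k - y k| := abs_sub _ _
  linarith

/-- the points of the path are bounded -/
lemma bdd {d K : ℕ} {R : ℝ} {n : ℕ} {q : Fin K → Fin d → ℤ}
    (h : ∀ i : Fin K, NB d R n (pt (fun _ => 0) q i.castSucc) (pt (fun _ => 0) q i.succ))
    (j : Fin (K + 1)) (k : Fin d) :
    |pt (fun _ => (0 : ℤ)) q j k| ≤ (j : ℕ) * ⌈|(n : ℝ) * R|⌉ := by
  induction j using Fin.induction with
  | zero => simp [pt]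
  | succ i ih =>
    have h1 := close (h i) k
    rw [Fin.val_succ]
    rw [Fin.val_castSucc] at ih
    push_cast
    linarith

end FINPN

theorem t_FINP : S_FINP := by
  intro d r m K c R n o
  have hB : 0 ≤ ⌈|(n : ℝ) * R|⌉ := Int.ceil_nonneg (abs_nonneg _)
  refine (Set.finite_Icc (fun (_ : Fin K) (_ : Fin d) => -((K : ℤ) * ⌈|(n : ℝ) * R|⌉))
    (fun (_ : Fin K) (_ : Fin d) => (K : ℤ) * ⌈|(n : ℝ) * R|⌉)).subset ?_
  intro q hq
  have hq1 : PathOK (NB d R n) (cZ c) (fun _ => 0) o q := hq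
  have hb : ∀ i k, |q i k| ≤ (K : ℤ) * ⌈|(n : ℝ) * R|⌉ := by
    intro i k
    have h1 := FINPN.bdd hq1.1 i.succ k
    have h2 : pt (fun _ => (0 : ℤ)) q i.succ k = q i k := by simp [pt]
    rw [h2] at h1
    refine h1.trans (mul_le_mul_of_nonneg_right ?_ hB)
    have h3 : ((i.succ : Fin (K + 1)) : ℕ) ≤ K := by
      rw [Fin.val_succ]
      exact i.2
    exact_mod_cast h3
  exact ⟨fun i k => (abs_le.mp (hb i k)).1, fun i k => (abs_le.mp (hb i k)).2⟩

end Pool.Agent.H288.HS
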