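import Pool.Agent.H288.HS.Stm2

/-!
# Passing to the continuum limit: the zero-free region
-/

set_option autoImplicit false

open MeasureTheory Set Filter Topology

namespace Pool.Agent.H288.HS

namespace FREEN

theorem tendsto_vol (d : ℕ) (L : ℝ) (hL : 0 < L) :
    Tendsto (fun n : ℕ => wt d n * ((GB d L n).card : ℝ)) atTop (𝓝 (L ^ d)) := by
  have h1 : Tendsto (fun n : ℕ => (((⌊(n : ℝ) * L⌋ : ℤ) : ℝ) + 1) / n) atTop (𝓝 L) := by
    refine tendsto_of_tendsto_of_tendsto_of_le_of_le' (g := fun _ => L)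
      (h := fun n : ℕ => L + 1 / (n : ℝ)) tendsto_const_nhds ?_ ?_ ?_
    · have h := (tendsto_const_nhds (x := L) (f := (atTop : Filter ℕ))).add
        (tendsto_one_div_atTop_nhds_zero_nat (𝕜 := ℝ))
      rwa [add_zero] at h
    · filter_upwards [eventually_gt_atTop 0] with n hn
      have hn' : (0 : ℝ) < n := by exact_mod_cast hn
      rw [le_div_iff₀ hn']
      have := (Int.lt_floor_add_one ((n : ℝ) * L)).le
      linarith [mul_comm L (n : ℝ)]
    · filter_upwards [eventually_gt_atTop 0] with n hn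
      have hn' : (0 : ℝ) < n := by exact_mod_cast hn
      rw [div_le_iff₀ hn', add_mul, one_div, inv_mul_cancel₀ hn'.ne']
      have := Int.floor_le ((n : ℝ) * L)
      linarith [mul_comm L (n : ℝ)]
  have h2 := h1.pow d
  refine h2.congr' ?_
  filter_upwards [eventually_gt_atTop 0] with n hn
  have hn' : (0 : ℝ) < n := by exact_mod_cast hn
  have h3 : (((⌊(n : ℝ) * L⌋ + 1 - 0).toNat : ℕ) : ℝ) = ((⌊(n : ℝ) * L⌋ : ℤ) : ℝ) + 1 := by
    have h4 : 0 ≤ ⌊(n : ℝ) * L⌋ := Int.floor_nonneg.2 (by positivity)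
    have h5 : (((⌊(n : ℝ) * L⌋ + 1 - 0).toNat : ℕ) : ℤ) = ⌊(n : ℝ) * L⌋ + 1 := by
      rw [Int.toNat_of_nonneg (by omega)]
      ring
    exact_mod_cast h5
  have h6 : ((GB d L n).card : ℝ) = (((⌊(n : ℝ) * L⌋ : ℤ) : ℝ) + 1) ^ d := by
    rw [GB, Fintype.card_piFinset_const, Int.card_Icc, Nat.cast_pow, h3]
  rw [h6, wt, div_pow]
  ring

theorem one_le_Z {V : Type} (N : V → V → Prop) (w : ℝ) (hw : 0 ≤ w) (A : Finset V) (s : ℝ)
    (hs : 0 ≤ s) : 1 ≤ ‖Z N w A (s : ℂ)‖ := by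
  have h1 : Z N w A (s : ℂ) = ((∑ I ∈ ind N A, (s * w) ^ I.card : ℝ) : ℂ) := by
    rw [Z]
    push_cast
    rfl
  rw [h1, Complex.norm_real]
  refine le_trans ?_ (le_abs_self _)
  have h2 : (∅ : Finset V) ∈ ind N A := by
    classical
    rw [ind, Finset.mem_filter]
    exact ⟨Finset.empty_mem_powerset A, fun x hx => absurd hx (Finset.notMem_empty x)⟩
  calc (1 : ℝ) = (s * w) ^ (∅ : Finset V).card := by simp
    _ ≤ ∑ I ∈ ind N A, (s * w) ^ I.card :=
        Finset.single_le_sum (f := fun I : Finset V => (s * w) ^ I.card)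
          (fun I _ => by positivity) h2

theorem differentiable_Z {V : Type} (N : V → V → Prop) (w : ℝ) (A : Finset V) :
    Differentiable ℂ (Z N w A) := by
  have h1 : Z N w A = fun l : ℂ => ∑ I ∈ ind N A, (l * (w : ℂ)) ^ I.card := rfl
  rw [h1]
  fun_prop

theorem gron (f : ℂ → ℂ) (hf : Differentiable ℂ f) (s l : ℂ) (K : ℝ)
    (hK : ∀ t : ℝ, 0 ≤ t → t ≤ 1 →
      ‖deriv f (l + t * (s - l))‖ * ‖s - l‖ ≤ K * ‖f (l + t * (s - l))‖) :
    ‖f s‖ ≤ ‖f l‖ * Real.exp K := by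
  have hd : ∀ t : ℝ, HasDerivAt (fun t : ℝ => f (l + t * (s - l)))
      (deriv f (l + t * (s - l)) * (s - l)) t := by
    intro t
    have h1 : HasDerivAt (fun t : ℝ => l + (t : ℂ) * (s - l)) (s - l) t := by
      have h2 := ((Complex.ofRealCLM.hasDerivAt (x := t)).mul_const (s - l)).const_add l
      simpa using h2
    exact HasDerivAt.comp t (hf (l + t * (s - l))).hasDerivAt h1
  have h2 := norm_le_gronwallBound_of_norm_deriv_right_le
    (f := fun t : ℝ => f (l + t * (s - l)))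
    (f' := fun t : ℝ => deriv f (l + t * (s - l)) * (s - l)) (δ := ‖f l‖) (K := K) (ε := 0)
    (a := 0) (b := 1)
    (fun t _ => (hd t).continuousAt.continuousWithinAt)
    (fun t _ => (hd t).hasDerivWithinAt) (by simp)
    (fun t ht => by
      rw [norm_mul, add_zero]
      exact hK t ht.1 ht.2.le) 1 ⟨zero_le_one, le_rfl⟩
  rw [gronwallBound_ε0] at h2
  have h3 : l + ((1 : ℝ) : ℂ) * (s - l) = s := by
    push_cast
    ring
  simp only [h3, sub_zero, mul_one] at h2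
  exact h2

theorem seg_mem {l₁ ε : ℝ} {s : ℝ} {l : ℂ} (hs0 : 0 ≤ s) (hs1 : s ≤ l₁) (hl : ‖l - (s : ℂ)‖ < ε)
    (t : ℝ) (ht0 : 0 ≤ t) (ht1 : t ≤ 1) : l + t * ((s : ℂ) - l) ∈ Om l₁ ε := by
  refine ⟨s, hs0, hs1, ?_⟩
  have h1 : l + t * ((s : ℂ) - l) - s = ((1 - t : ℝ) : ℂ) * (l - s) := by
    push_cast
    ring
  rw [h1, norm_mul, Complex.norm_real, Real.norm_of_nonneg (by linarith)]
  have h2 : (1 - t) * ‖l - (s : ℂ)‖ ≤ 1 * ‖l - (s : ℂ)‖ :=
    mul_le_mul_of_nonneg_right (by linarith) (norm_nonneg _)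
  linarith

theorem GG_nonneg (r : ℕ) : 0 ≤ GG r := by
  unfold GG
  positivity

end FREEN

open FREEN

theorem t_FREE : S_FREEQ := by
  intro hLIM hSER hSUM hCORE d R r C a l₁ hd hR hr hC ha hl₁ hlt hgeo
  -- the choice of `δ`
  obtain ⟨δ, hδ, hlt'⟩ : ∃ δ : ℝ, 0 < δ ∧ l₁ * GG r * (a + δ) < 1 := by
    have hg : 0 ≤ l₁ * GG r := mul_nonneg hl₁ (GG_nonneg r)
    set g := l₁ * GG r with hgdef
    refine ⟨(1 - g * a) / (2 * (g + 1)), div_pos (by linarith) (by linarith), ?_⟩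
    have h1 : g * ((1 - g * a) / (2 * (g + 1))) ≤ (1 - g * a) / 2 := by
      rw [mul_div_assoc', div_le_div_iff₀ (by linarith) (by norm_num)]
      nlinarith
    rw [mul_add]
    linarith
  obtain ⟨ε, hε, M, hM, hcore⟩ := hCORE r (C + δ) (a + δ) l₁ hr (by linarith) (by linarith) hl₁ hlt'
  refine ⟨ε, hε, M, hM, fun L hL l hl => ?_⟩
  have hvol := tendsto_vol d L hL
  have hwt : ∀ n : ℕ, 0 ≤ wt d n := fun n => by unfold wt; positivity
  -- the power series
  have hser := hSER (fun n k => (wt d n) ^ k * (cnt (NB d R n) (GB d L n) k : ℝ)) (zz d R L)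
    (L ^ d + 1) (by positivity) (fun k => hLIM d k R L hd hR hL) (by
      have h1 : ∀ᶠ n : ℕ in atTop, wt d n * ((GB d L n).card : ℝ) < L ^ d + 1 :=
        hvol.eventually (gt_mem_nhds (by linarith))
      filter_upwards [h1] with n hn k
      obtain ⟨-, -, h2⟩ := hSUM (Fin d → ℤ) (NB d R n) (wt d n) (GB d L n) (hwt n)
      obtain ⟨h3, h4⟩ := h2 k
      refine ⟨h3, h4.trans ?_⟩
      have h5 : 0 ≤ wt d n * ((GB d L n).card : ℝ) := mul_nonneg (hwt n) (Nat.cast_nonneg _)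
      gcongr)
  have hZ : ∀ n : ℕ, (fun t : ℂ => ∑' k : ℕ,
      (((wt d n) ^ k * (cnt (NB d R n) (GB d L n) k : ℝ) : ℝ) : ℂ) * t ^ k) =
        Z (NB d R n) (wt d n) (GB d L n) := by
    intro n
    funext t
    exact ((hSUM (Fin d → ℤ) (NB d R n) (wt d n) (GB d L n) (hwt n)).1 t).symm
  have hlim0 : Tendsto (fun n : ℕ => Z (NB d R n) (wt d n) (GB d L n) l) atTop
      (𝓝 (ZC (zz d R) L l)) := by
    have h1 := hser.1 0 l
    simp only [pow_zero, one_mul] at h1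
    refine h1.congr fun n => ?_
    exact congrFun (hZ n) l
  have hlim1 : Tendsto (fun n : ℕ => deriv (Z (NB d R n) (wt d n) (GB d L n)) l) atTop
      (𝓝 (deriv (ZC (zz d R) L) l)) := by
    have h1 := hser.2.2 l
    refine h1.congr fun n => ?_
    rw [hZ n]
  have hev : ∀ᶠ n : ℕ in atTop, ∀ l' ∈ Om l₁ ε,
      ‖deriv (Z (NB d R n) (wt d n) (GB d L n)) l'‖ ≤
        M * (wt d n * ((GB d L n).card : ℝ)) * ‖Z (NB d R n) (wt d n) (GB d L n) l'‖ := by
    filter_upwards [hgeo δ hδ] with n hn l' hl'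
    obtain ⟨col, hcol⟩ := hn
    exact (hcore (Fin d → ℤ) (NB d R n) (wt d n) col hcol (GB d L n) l' hl').2
  constructor
  · obtain ⟨s, hs0, hs1, hsl⟩ := hl
    have h1 : ∀ᶠ n : ℕ in atTop, 1 ≤ ‖Z (NB d R n) (wt d n) (GB d L n) l‖ *
        Real.exp (M * (wt d n * ((GB d L n).card : ℝ)) * ε) := by
      filter_upwards [hev] with n hn
      have h5 : 0 ≤ M * (wt d n * ((GB d L n).card : ℝ)) :=
        mul_nonneg hM.le (mul_nonneg (hwt n) (Nat.cast_nonneg _))
      refine (one_le_Z (NB d R n) (wt d n) (hwt n) (GB d L n) s hs0).trans ?_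
      refine gron _ (differentiable_Z _ _ _) (s : ℂ) l _ fun t ht0 ht1 => ?_
      have h2 := hn _ (seg_mem hs0 hs1 hsl t ht0 ht1)
      have h3 : ‖(s : ℂ) - l‖ ≤ ε := by
        rw [norm_sub_rev]
        exact hsl.le
      calc ‖deriv (Z (NB d R n) (wt d n) (GB d L n)) (l + t * ((s : ℂ) - l))‖ * ‖(s : ℂ) - l‖
          ≤ (M * (wt d n * ((GB d L n).card : ℝ)) *
            ‖Z (NB d R n) (wt d n) (GB d L n) (l + t * ((s : ℂ) - l))‖) * ε :=
            mul_le_mul h2 h3 (norm_nonneg _) (mul_nonneg h5 (norm_nonneg _))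
        _ = M * (wt d n * ((GB d L n).card : ℝ)) * ε *
            ‖Z (NB d R n) (wt d n) (GB d L n) (l + t * ((s : ℂ) - l))‖ := by ring
    have h2 : Tendsto (fun n : ℕ => ‖Z (NB d R n) (wt d n) (GB d L n) l‖ *
        Real.exp (M * (wt d n * ((GB d L n).card : ℝ)) * ε)) atTop
        (𝓝 (‖ZC (zz d R) L l‖ * Real.exp (M * (L ^ d) * ε))) := by
      refine hlim0.norm.mul ?_
      refine (Real.continuous_exp.tendsto _).comp ?_
      exact (hvol.const_mul M).mul_const ε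
    have h3 : 1 ≤ ‖ZC (zz d R) L l‖ * Real.exp (M * (L ^ d) * ε) :=
      ge_of_tendsto h2 h1
    intro h4
    rw [h4, norm_zero, zero_mul] at h3
    linarith
  · have h2 : Tendsto (fun n : ℕ => M * (wt d n * ((GB d L n).card : ℝ)) *
        ‖Z (NB d R n) (wt d n) (GB d L n) l‖) atTop
        (𝓝 (M * L ^ d * ‖ZC (zz d R) L l‖)) :=
      (hvol.const_mul M).mul hlim0.norm
    exact le_of_tendsto_of_tendsto hlim1.norm h2 (hev.mono fun n hn => hn l hl)

end Pool.Agent.H288.HS
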