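import Pool.Agent.H288.HS.Stm3
import Pool.Agent.H288.HS.T.FREE

/-!
# Passing to the continuum limit: the zero-free region, weighted version
-/

set_option autoImplicit false

open MeasureTheory Set Filter Topology

namespace Pool.Agent.H288.HS

open FREEN

theorem t_FREEWQ : S_FREEWQ := by
  intro hLIM hSER hSUM hCORE d R r C φ₀ a l₁ hd hR hr hC hφ hφ1 ha hl₁ hlt hgeo
  -- the choice of `δ`
  obtain ⟨δ, hδ, hlt'⟩ : ∃ δ : ℝ, 0 < δ ∧ l₁ * GG r * (a + δ) < 1 := by
    have hg : 0 ≤ l₁ * GG r := mul_nonneg hl₁ (GG_nonneg r)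
    set g := l₁ * GG r with hgdef
    refine ⟨(1 - g * a) / (2 * (g + 1)), div_pos (by linarith) (by linarith), ?_⟩
    have h1 : g * ((1 - g * a) / (2 * (g + 1))) ≤ (1 - g * a) / 2 := by
      rw [mul_div_assoc', div_le_div_iff₀ (by linarith) (by norm_num)]
      nlinarith
    rw [mul_add]
    linarith
  obtain ⟨ε, hε, M, hM, hcore⟩ := hCORE r (C + δ) φ₀ (a + δ) l₁ hr (by linarith) hφ hφ1 (by linarith) hl₁ hlt'
  refine ⟨ε, hε, M, hM, fun L hL l hl => ?_⟩
  have hvol := tendsto_vol d L hL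
  have hwt : ∀ n : ℕ, 0 ≤ wt d n := fun n => by unfold wt; positivity
  -- the power series
  have hser := hSER (fun n k => (wt d n) ^ k * (cnt (NB d R n) (GB d L n) k : ℝ)) (zz d R L)
    (L ^ d + 1) (by positivity) (fun k => hLIM d k R L hd hR hL) (by
      have h1 : ∀ᶠ n : ℕ in atTop, wt d n * ((GB d L n).card : ℝ) < L ^ d + 1 :=
        hvol.eventually (gt_mem_nhds (by linarith))
      filter_upwards [h1] with n hn k
      obtain ⟨-, -, h2⟩ := hSUM (Fin d → ℤ) (NB d R n) (wt d n) (GB d L n) (hwt n)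
      obtain ⟨h3, h4⟩ := h2 k
      refine ⟨h3, h4.trans ?_⟩
      have h5 : 0 ≤ wt d n * ((GB d L n).card : ℝ) := mul_nonneg (hwt n) (Nat.cast_nonneg _)
      gcongr)
  have hZ : ∀ n : ℕ, (fun t : ℂ => ∑' k : ℕ,
      (((wt d n) ^ k * (cnt (NB d R n) (GB d L n) k : ℝ) : ℝ) : ℂ) * t ^ k) =
        Z (NB d R n) (wt d n) (GB d L n) := by
    intro n
    funext t
    exact ((hSUM (Fin d → ℤ) (NB d R n) (wt d n) (GB d L n) (hwt n)).1 t).symm
  have hlim0 : Tendsto (fun n : ℕ => Z (NB d R n) (wt d n) (GB d L n) l) atTop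
      (𝓝 (ZC (zz d R) L l)) := by
    have h1 := hser.1 0 l
    simp only [pow_zero, one_mul] at h1
    refine h1.congr fun n => ?_
    exact congrFun (hZ n) l
  have hlim1 : Tendsto (fun n : ℕ => deriv (Z (NB d R n) (wt d n) (GB d L n)) l) atTop
      (𝓝 (deriv (ZC (zz d R) L) l)) := by
    have h1 := hser.2.2 l
    refine h1.congr fun n => ?_
    rw [hZ n]
  have hev : ∀ᶠ n : ℕ in atTop, ∀ l' ∈ Om l₁ ε,
      ‖deriv (Z (NB d R n) (wt d n) (GB d L n)) l'‖ ≤
        M * (wt d n * ((GB d L n).card : ℝ)) * ‖Z (NB d R n) (wt d n) (GB d L n) l'‖ := by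
    filter_upwards [hgeo δ hδ] with n hn l' hl'
    obtain ⟨col, phi, hcol⟩ := hn
    exact (hcore (Fin d → ℤ) (NB d R n) (wt d n) col phi hcol (GB d L n) l' hl').2
  constructor
  · obtain ⟨s, hs0, hs1, hsl⟩ := hl
    have h1 : ∀ᶠ n : ℕ in atTop, 1 ≤ ‖Z (NB d R n) (wt d n) (GB d L n) l‖ *
        Real.exp (M * (wt d n * ((GB d L n).card : ℝ)) * ε) := by
      filter_upwards [hev] with n hn
      have h5 : 0 ≤ M * (wt d n * ((GB d L n).card : ℝ)) :=
        mul_nonneg hM.le (mul_nonneg (hwt n) (Nat.cast_nonneg _))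
      refine (one_le_Z (NB d R n) (wt d n) (hwt n) (GB d L n) s hs0).trans ?_
      refine gron _ (differentiable_Z _ _ _) (s : ℂ) l _ fun t ht0 ht1 => ?_
      have h2 := hn _ (seg_mem hs0 hs1 hsl t ht0 ht1)
      have h3 : ‖(s : ℂ) - l‖ ≤ ε := by
        rw [norm_sub_rev]
        exact hsl.le
      calc ‖deriv (Z (NB d R n) (wt d n) (GB d L n)) (l + t * ((s : ℂ) - l))‖ * ‖(s : ℂ) - l‖
          ≤ (M * (wt d n * ((GB d L n).card : ℝ)) *
            ‖Z (NB d R n) (wt d n) (GB d L n) (l + t * ((s : ℂ) - l))‖) * ε :=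
            mul_le_mul h2 h3 (norm_nonneg _) (mul_nonneg h5 (norm_nonneg _))
        _ = M * (wt d n * ((GB d L n).card : ℝ)) * ε *
            ‖Z (NB d R n) (wt d n) (GB d L n) (l + t * ((s : ℂ) - l))‖ := by ring
    have h2 : Tendsto (fun n : ℕ => ‖Z (NB d R n) (wt d n) (GB d L n) l‖ *
        Real.exp (M * (wt d n * ((GB d L n).card : ℝ)) * ε)) atTop
        (𝓝 (‖ZC (zz d R) L l‖ * Real.exp (M * (L ^ d) * ε))) := by
      refine hlim0.norm.mul ?_
      refine (Real.continuous_exp.tendsto _).comp ?_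
      exact (hvol.const_mul M).mul_const ε
    have h3 : 1 ≤ ‖ZC (zz d R) L l‖ * Real.exp (M * (L ^ d) * ε) :=
      ge_of_tendsto h2 h1
    intro h4
    rw [h4, norm_zero, zero_mul] at h3
    linarith
  · have h2 : Tendsto (fun n : ℕ => M * (wt d n * ((GB d L n).card : ℝ)) *
        ‖Z (NB d R n) (wt d n) (GB d L n) l‖) atTop
        (𝓝 (M * L ^ d * ‖ZC (zz d R) L l‖)) :=
      (hvol.const_mul M).mul hlim0.norm
    exact le_of_tendsto_of_tendsto hlim1.norm h2 (hev.mono fun n hn => hn l hl)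

end Pool.Agent.H288.HS
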