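import Pool.Agent.H288.HS.Stm5

/-!
# The functional is contracted
-/

set_option autoImplicit false

open MeasureTheory Set Filter Topology

namespace Pool.Agent.H288.HS

namespace FUNFN

variable {V : Type} {r m : ℕ}

theorem TE_eq (N : V → V → Prop) (w : ℝ) (col : V → V → Fin r) (F : Finset V → V → ℝ)
    (A : Finset V) (x : V) :
    TE N w col F A x = w * ∑ y ∈ nb N A x, F (lev N col A x ((col x y : ℕ) + 1)) y := by
  classical
  unfold TE
  rw [← Finset.mul_sum]
  congr 1
  rw [← Finset.sum_fiberwise_of_maps_to (s := nb N A x) (t := Finset.range r)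
    (g := fun y => (col x y : ℕ)) (fun y _ => Finset.mem_range.mpr (col x y).isLt)]
  apply Finset.sum_congr rfl
  intro k _
  have hcl : cl N col A x k = (nb N A x).filter (fun y => (col x y : ℕ) = k) := by
    ext y
    simp only [cl, nb, Finset.mem_filter, and_assoc]
  rw [hcl]
  apply Finset.sum_congr rfl
  intro y hy
  rw [(Finset.mem_filter.mp hy).2]

theorem VV_nonneg (N : V → V → Prop) (w : ℝ) (hw : 0 ≤ w) (col : Fin m → V → V → Fin r) :
    ∀ (k : ℕ) (A : Finset V) (x : V), 0 ≤ VV N w col k A x := by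
  intro k
  induction k with
  | zero => intro A x; exact zero_le_one
  | succ k ih =>
    intro A x
    change 0 ≤ (1 / (m : ℝ)) * ∑ b : Fin m, TE N w (col b) (VV N w col k) A x
    apply mul_nonneg (by positivity)
    apply Finset.sum_nonneg
    intro b _
    rw [TE_eq]
    exact mul_nonneg hw (Finset.sum_nonneg fun y _ => ih _ y)

theorem VV_le (N : V → V → Prop) (w C : ℝ) (hG : GeoB N w C) (hC : 0 ≤ C) (hm : 1 ≤ m)
    (col : Fin m → V → V → Fin r) :
    ∀ (k : ℕ) (A : Finset V) (x : V), VV N w col k A x ≤ C ^ k := by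
  have hm' : (0 : ℝ) < m := by exact_mod_cast hm
  intro k
  induction k with
  | zero => intro A x; rw [pow_zero]; exact le_rfl
  | succ k ih =>
    intro A x
    change (1 / (m : ℝ)) * ∑ b : Fin m, TE N w (col b) (VV N w col k) A x ≤ C ^ (k + 1)
    have h1 : ∑ b : Fin m, TE N w (col b) (VV N w col k) A x ≤ ∑ _b : Fin m, C ^ (k + 1) := by
      apply Finset.sum_le_sum
      intro b _
      rw [TE_eq]
      calc w * ∑ y ∈ nb N A x, VV N w col k (lev N (col b) A x ((col b x y : ℕ) + 1)) y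
          ≤ w * ∑ _y ∈ nb N A x, C ^ k :=
            mul_le_mul_of_nonneg_left (Finset.sum_le_sum fun y _ => ih _ y) hG.w_pos.le
        _ = (w * ((nb N A x).card : ℝ)) * C ^ k := by
            rw [Finset.sum_const, nsmul_eq_mul]; ring
        _ ≤ C * C ^ k := mul_le_mul_of_nonneg_right (hG.vol A x) (pow_nonneg hC k)
        _ = C ^ (k + 1) := by ring
    rw [Finset.sum_const, Finset.card_univ, Fintype.card_fin, nsmul_eq_mul] at h1
    calc (1 / (m : ℝ)) * ∑ b : Fin m, TE N w (col b) (VV N w col k) A x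
        ≤ (1 / (m : ℝ)) * ((m : ℝ) * C ^ (k + 1)) :=
          mul_le_mul_of_nonneg_left h1 (by positivity)
      _ = C ^ (k + 1) := by field_simp

theorem TE_FF (N : V → V → Prop) (w : ℝ) (col : Fin m → V → V → Fin r) (K : ℕ) (ρ : ℝ)
    (b : Fin m) (A : Finset V) (x : V) :
    TE N w (col b) (FF N w col K ρ) A x =
      ∑ k ∈ Finset.range K, (ρ ^ k)⁻¹ * TE N w (col b) (VV N w col k) A x := by
  rw [TE_eq]
  unfold FF
  rw [Finset.sum_comm, Finset.mul_sum]
  apply Finset.sum_congr rfl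
  intro k _
  rw [TE_eq, ← Finset.mul_sum]
  ring

theorem avg (N : V → V → Prop) (w : ℝ) (hm : 1 ≤ m) (col : Fin m → V → V → Fin r) (K : ℕ)
    (ρ : ℝ) (A : Finset V) (x : V) :
    ∑ b : Fin m, TE N w (col b) (FF N w col K ρ) A x =
      (m : ℝ) * ∑ k ∈ Finset.range K, (ρ ^ k)⁻¹ * VV N w col (k + 1) A x := by
  have hm' : (m : ℝ) ≠ 0 := by
    have : (0 : ℝ) < m := by exact_mod_cast hm
    exact this.ne'
  rw [Finset.sum_congr rfl fun b _ => TE_FF N w col K ρ b A x, Finset.sum_comm, Finset.mul_sum]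
  apply Finset.sum_congr rfl
  intro k _
  rw [← Finset.mul_sum]
  have h1 : VV N w col (k + 1) A x =
      (1 / (m : ℝ)) * ∑ b : Fin m, TE N w (col b) (VV N w col k) A x := rfl
  rw [h1]
  field_simp

end FUNFN

open FUNFN in
theorem t_FUNF : S_FUNF := by
  classical
  intro V N w r m col C ρ K hG hm hK hC hρ hcl hV
  have hm' : (0 : ℝ) < m := by exact_mod_cast hm
  have hnn := VV_nonneg N w hG.w_pos.le col
  have hle := VV_le N w C hG hC.le hm col
  refine ⟨hG, hcl, ?_, ?_, ?_⟩
  · intro A x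
    unfold FF
    obtain ⟨K', rfl⟩ : ∃ K', K = K' + 1 := ⟨K - 1, by omega⟩
    rw [Finset.sum_range_succ']
    have h1 : (ρ ^ 0)⁻¹ * VV N w col 0 A x = 1 := by
      rw [pow_zero, inv_one, one_mul]; rfl
    rw [h1]
    have h2 : 0 ≤ ∑ k ∈ Finset.range K', (ρ ^ (k + 1))⁻¹ * VV N w col (k + 1) A x :=
      Finset.sum_nonneg fun k _ => mul_nonneg (by positivity) (hnn _ A x)
    linarith
  · intro A x
    unfold FF
    apply Finset.sum_le_sum
    intro k _
    rw [div_pow, div_eq_inv_mul]
    exact mul_le_mul_of_nonneg_left (hle k A x) (by positivity)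
  · intro A x
    have h1 : ∑ k ∈ Finset.range K, (ρ ^ k)⁻¹ * VV N w col (k + 1) A x ≤
        ρ * FF N w col K ρ A x := by
      have h2 : ∑ k ∈ Finset.range K, (ρ ^ k)⁻¹ * VV N w col (k + 1) A x =
          ρ * ∑ k ∈ Finset.range K, (ρ ^ (k + 1))⁻¹ * VV N w col (k + 1) A x := by
        rw [Finset.mul_sum]
        apply Finset.sum_congr rfl
        intro k _
        rw [pow_succ, mul_inv]
        field_simp
      have h3 := Finset.sum_range_succ' (fun k => (ρ ^ k)⁻¹ * VV N w col k A x) K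
      have h4 := Finset.sum_range_succ (fun k => (ρ ^ k)⁻¹ * VV N w col k A x) K
      have h5 : (ρ ^ 0)⁻¹ * VV N w col 0 A x = 1 := by
        rw [pow_zero, inv_one, one_mul]; rfl
      have h6 : (ρ ^ K)⁻¹ * VV N w col K A x ≤ 1 := by
        rw [inv_mul_le_iff₀ (pow_pos hρ K), mul_one]
        exact hV A x
      have h7 : ∑ k ∈ Finset.range K, (ρ ^ k)⁻¹ * VV N w col k A x = FF N w col K ρ A x := rfl
      rw [h2]
      apply mul_le_mul_of_nonneg_left ?_ hρ.le
      rw [h5] at h3
      rw [h7] at h4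
      linarith
    have h8 : ∑ b : Fin m, TE N w (col b) (FF N w col K ρ) A x ≤
        ∑ _b : Fin m, ρ * FF N w col K ρ A x := by
      rw [avg N w hm, Finset.sum_const, Finset.card_univ, Fintype.card_fin, nsmul_eq_mul]
      exact mul_le_mul_of_nonneg_left h1 hm'.le
    have hne : (Finset.univ : Finset (Fin m)).Nonempty := ⟨⟨0, by omega⟩, Finset.mem_univ _⟩
    obtain ⟨b, -, hb⟩ := Finset.exists_le_of_sum_le hne h8
    exact ⟨b, hb⟩

end Pool.Agent.H288.HS
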