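import Pool.Agent.H288.HS.Stm2

/-!
# GEOQ: reduction of `GeoLim` to a colouring of the displacements
-/

set_option autoImplicit false

open MeasureTheory Set Filter Topology

namespace Pool.Agent.H288.HS.GEON

/-- the weights `1 - [L]/2 - [Q]/2` of the points outside of `A` are nonnegative -/
theorem core {V : Type} (A B PA LA QA : Finset V) (P L Q : V → Prop)
    (hPA : ∀ z, z ∈ PA ↔ z ∈ A ∧ P z) (hLA : ∀ z, z ∈ LA ↔ z ∈ A ∧ L z)
    (hQA : ∀ z, z ∈ QA ↔ z ∈ A ∧ Q z) (hB : ∀ z, z ∈ B ↔ P z) (hL : ∀ z, L z → P z)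
    (hQ : ∀ z, Q z → P z) :
    (PA.card : ℝ) - (LA.card : ℝ) / 2 - (QA.card : ℝ) / 2 ≤
      (B.card : ℝ) - (({z | L z} : Set V).ncard : ℝ) / 2 - (({z | Q z} : Set V).ncard : ℝ) / 2 := by
  classical
  have e0 : ∀ (S : V → Prop) (SA : Finset V), (∀ z, z ∈ SA ↔ z ∈ A ∧ S z) → (∀ z, S z → P z) →
      (({z | S z} : Set V).ncard : ℝ) = (SA.card : ℝ) + (((B.filter S) \ A).card : ℝ) ∧
      (((B.filter S) \ A).card : ℝ) ≤ ((B \ A).card : ℝ) := by
    intro S SA hSA hS
    have f1 : ({z | S z} : Set V) = ((B.filter S : Finset V) : Set V) := by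
      ext z
      simp only [Set.mem_ofPred_eq, Finset.coe_filter]
      exact ⟨fun h => ⟨(hB z).2 (hS z h), h⟩, fun h => h.2⟩
    have f2 : (B.filter S) ∩ A = SA := by
      ext z
      rw [hSA]
      simp only [Finset.mem_inter, Finset.mem_filter]
      exact ⟨fun h => ⟨h.2, h.1.2⟩, fun h => ⟨⟨(hB z).2 (hS z h.2), h.2⟩, h.1⟩⟩
    have f3 := Finset.card_sdiff_add_card_inter (B.filter S) A
    rw [f2] at f3
    refine ⟨?_, ?_⟩
    · rw [f1, Set.ncard_coe_finset, ← f3]
      push_cast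
      ring
    · exact_mod_cast Finset.card_le_card
        (Finset.sdiff_subset_sdiff (Finset.filter_subset _ _) le_rfl)
  obtain ⟨l1, l2⟩ := e0 L LA hLA hL
  obtain ⟨q1, q2⟩ := e0 Q QA hQA hQ
  have b1 : B ∩ A = PA := by
    ext z
    rw [hPA]
    simp only [Finset.mem_inter]
    exact ⟨fun h => ⟨h.2, (hB z).1 h.1⟩, fun h => ⟨(hB z).2 h.2, h.1⟩⟩
  have b2 := Finset.card_sdiff_add_card_inter B A
  rw [b1] at b2
  have b3 : (B.card : ℝ) = ((B \ A).card : ℝ) + (PA.card : ℝ) := by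
    exact_mod_cast b2.symm
  rw [l1, q1, b3]
  linarith

/-- the members of `nb` -/
theorem mem_nb' {V : Type} (N : V → V → Prop) (A : Finset V) (x z : V) :
    z ∈ nb N A x ↔ z ∈ A ∧ N x z := by
  classical
  unfold nb
  simp only [Finset.mem_filter]

/-- the sets of the excluded points are finite -/
theorem fin_of_bound {V : Type} (N : V → V → Prop) (w C : ℝ) (hw : 0 < w) (y : V)
    (h : ∀ A : Finset V, w * ((nb N A y).card : ℝ) ≤ C) : {z | N y z}.Finite := by
  by_contra hinf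
  obtain ⟨m, hm⟩ := exists_nat_gt (C / w)
  obtain ⟨A, hA, hc⟩ := (show {z | N y z}.Infinite from hinf).exists_subset_card_eq m
  have h1 : nb N A y = A := by
    refine Finset.ext fun z => ?_
    rw [mem_nb']
    exact ⟨fun h => h.1, fun h => ⟨h, hA h⟩⟩
  have h2 := h A
  rw [h1, hc] at h2
  rw [div_lt_iff₀ hw] at hm
  linarith

end Pool.Agent.H288.HS.GEON

namespace Pool.Agent.H288.HS

open GEON

theorem t_GEOQ (h1 : S_LENSG) (h2 : S_UP) : S_GEOQ := by
  intro d R r q K c hd hR hq hlens hcol hK δ hδ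
  have hδ2 : 0 < δ / 2 := by positivity
  filter_upwards [h2 d R (δ / 2) hd hR hδ2, h1 d R q (δ / 2) hd hR hq hδ2 hlens, hK (δ / 2) hδ2,
    hcol, eventually_ge_atTop 1] with n B1 B2 B3 B4 hn
  obtain ⟨hw, B1⟩ := B1
  have hn0 : (0 : ℝ) < n := by exact_mod_cast hn
  have hsymm : ∀ x y, NB d R n x y → NB d R n y x := by
    intro x y h
    unfold NB at h ⊢
    have e : ∑ k, ((y k : ℝ) - (x k : ℝ)) ^ 2 = ∑ k, ((x k : ℝ) - (y k : ℝ)) ^ 2 :=
      Finset.sum_congr rfl fun k _ => by ring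
    rw [e]
    exact h
  have hdisp : ∀ x z : Fin d → ℤ, NB d R n x z ↔
      ∑ k, (((z - x) k : ℤ) : ℝ) ^ 2 < (n * R) ^ 2 := by
    intro x z
    unfold NB
    have e : ∑ k, (((z - x) k : ℤ) : ℝ) ^ 2 = ∑ k, ((x k : ℝ) - (z k : ℝ)) ^ 2 := by
      refine Finset.sum_congr rfl fun k _ => ?_
      rw [Pi.sub_apply]
      push_cast
      ring
    rw [e]
  have hclique : ∀ x y z, NB d R n x y → NB d R n x z → c n (y - x) = c n (z - x) →
      NB d R n y z := by
    intro x y z hy hz hc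
    have h3 := B4 (y - x) (z - x) ((hdisp x y).1 hy) ((hdisp x z).1 hz) hc
    unfold NB
    have e : ∑ k, ((((y - x) k : ℤ) : ℝ) - (((z - x) k : ℤ) : ℝ)) ^ 2 =
        ∑ k, ((y k : ℝ) - (z k : ℝ)) ^ 2 := by
      refine Finset.sum_congr rfl fun k _ => ?_
      rw [Pi.sub_apply, Pi.sub_apply]
      push_cast
      ring
    rw [← e]
    exact h3
  refine ⟨fun x z => c n (z - x), ?_⟩
  constructor
  · exact hw
  · intro x
    unfold NB
    have e : ∑ k, ((x k : ℝ) - (x k : ℝ)) ^ 2 = 0 :=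
      Finset.sum_eq_zero fun k _ => by ring
    rw [e]
    positivity
  · exact hsymm
  · exact hclique
  · intro A x
    have := B1 A x
    linarith
  · intro A x y hxy
    have hfin : {z | NB d R n y z}.Finite :=
      fin_of_bound (NB d R n) (wt d n) _ hw y fun A => B1 A y
    have hB : ∀ z, z ∈ hfin.toFinset ↔ NB d R n y z := by
      intro z
      rw [Set.Finite.mem_toFinset]
      exact Iff.rfl
    have c2 := B1 hfin.toFinset y
    have c2' : nb (NB d R n) hfin.toFinset y = hfin.toFinset := by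
      refine Finset.ext fun z => ?_
      rw [mem_nb']
      exact ⟨fun h => h.1, fun h => ⟨h, (hB z).1 h⟩⟩
    rw [c2'] at c2
    have c3 := B2 x y hxy
    have c4 := B3 (c n (y - x))
    have c4' : ({z : Fin d → ℤ | NB d R n x z ∧ c n (z - x) = c n (y - x)}).ncard =
        ({z : Fin d → ℤ | ∑ k, (z k : ℝ) ^ 2 < (n * R) ^ 2 ∧ c n z = c n (y - x)}).ncard := by
      have e : {z : Fin d → ℤ | NB d R n x z ∧ c n (z - x) = c n (y - x)} =
          (fun z => z + x) '' {z : Fin d → ℤ | ∑ k, (z k : ℝ) ^ 2 < (n * R) ^ 2 ∧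
            c n z = c n (y - x)} := by
        ext z
        constructor
        · rintro ⟨h3, h4⟩
          exact ⟨z - x, ⟨(hdisp x z).1 h3, h4⟩, sub_add_cancel z x⟩
        · rintro ⟨v, ⟨h3, h4⟩, rfl⟩
          refine ⟨(hdisp x (v + x)).2 ?_, ?_⟩
          · rw [add_sub_cancel_right]
            exact h3
          · show c n (v + x - x) = c n (y - x)
            rw [add_sub_cancel_right]
            exact h4
      rw [e, Set.ncard_image_of_injective _ (add_left_injective x)]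
    have c5 : bv d R - (q + K) / 2 + δ = bv d R + δ / 2 - (q - δ / 2) / 2 - (K - δ / 2) / 2 := by
      ring
    refine le_trans (mul_le_mul_of_nonneg_left (core A hfin.toFinset _ _ _
      (fun z => NB d R n y z) (fun z => NB d R n x z ∧ NB d R n y z)
      (fun z => NB d R n x z ∧ c n (z - x) = c n (y - x)) (fun z => mem_nb' _ _ _ _)
      (fun z => ?_) (fun z => ?_) hB
      (fun z hz => hz.2) (fun z hz => hclique x y z hxy hz.1 hz.2.symm)) hw.le) ?_
    · simp only [Finset.mem_filter]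
    · simp only [Finset.mem_filter]
    rw [c4', c5]
    nlinarith [c2, c3, c4]

end Pool.Agent.H288.HS
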