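import Pool.Agent.H288.HS.Stm5

/-!
# Hard spheres: assembly of the geometric hypothesis
-/

set_option autoImplicit false

open MeasureTheory Set Filter Topology

namespace Pool.Agent.H288.HS

namespace GEOFN

/-- the scaled difference vectors -/
lemma sum_scale {d : ℕ} (s : ℝ) (p : Fin d → ℝ) :
    ∑ k, (s * p k) ^ 2 = s ^ 2 * ∑ k, p k ^ 2 := by
  rw [Finset.mul_sum]
  exact Finset.sum_congr rfl fun k _ => by ring

lemma clique_grid {d r m : ℕ} (c : Fin m → (Fin d → ℝ) → Fin r) (hc : ∀ b, CC d r (c b))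
    (R : ℝ) (hR : 0 < R) (n : ℕ) (hn : 1 ≤ n) (b : Fin m) (x y z : Fin d → ℤ)
    (hxy : NB d R n x y) (hxz : NB d R n x z) (h : cZ c b x y = cZ c b x z) :
    NB d R n y z := by
  have hn0 : (0 : ℝ) < n := by exact_mod_cast hn
  have hT : 0 < (n : ℝ) * R := mul_pos hn0 hR
  have hs : 0 < ((n : ℝ) * R)⁻¹ := inv_pos.2 hT
  have hT2 : 0 < ((n : ℝ) * R) ^ 2 := pow_pos hT 2
  have key : ∀ p : Fin d → ℝ, ∑ k, p k ^ 2 < ((n : ℝ) * R) ^ 2 →
      ∑ k, (((n : ℝ) * R)⁻¹ * p k) ^ 2 < 1 := by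
    intro p hp
    rw [sum_scale, inv_pow, inv_mul_lt_iff₀ hT2, mul_one]
    exact hp
  have h1 : ∑ k, ((y k : ℝ) - (x k : ℝ)) ^ 2 < ((n : ℝ) * R) ^ 2 := by
    refine lt_of_eq_of_lt (Finset.sum_congr rfl fun k _ => ?_) hxy
    ring
  have h2 : ∑ k, ((z k : ℝ) - (x k : ℝ)) ^ 2 < ((n : ℝ) * R) ^ 2 := by
    refine lt_of_eq_of_lt (Finset.sum_congr rfl fun k _ => ?_) hxz
    ring
  have e1 := (hc b).hom ((n : ℝ) * R)⁻¹ (fun k => (y k : ℝ) - (x k : ℝ)) hs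
  have e2 := (hc b).hom ((n : ℝ) * R)⁻¹ (fun k => (z k : ℝ) - (x k : ℝ)) hs
  have h3 := (hc b).clique (fun k => ((n : ℝ) * R)⁻¹ * ((y k : ℝ) - (x k : ℝ)))
    (fun k => ((n : ℝ) * R)⁻¹ * ((z k : ℝ) - (x k : ℝ)))
    (key _ h1) (key _ h2) (by rw [e1, e2]; exact h)
  have h4 : ∑ k, (((n : ℝ) * R)⁻¹ * ((y k : ℝ) - (x k : ℝ)) -
      ((n : ℝ) * R)⁻¹ * ((z k : ℝ) - (x k : ℝ))) ^ 2 =
      (((n : ℝ) * R) ^ 2)⁻¹ * ∑ k, ((y k : ℝ) - (z k : ℝ)) ^ 2 := by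
    rw [← inv_pow, ← sum_scale]
    exact Finset.sum_congr rfl fun k _ => by ring
  rw [h4, inv_mul_lt_iff₀ hT2, mul_one] at h3
  exact h3

end GEOFN

theorem t_GEOF : S_GEOF := by
  intro hFUN hNULL hLIM hCOUNT hUP _ d r m K c R ρ hd hR hm hK hc hρ hvol
  have hbv : 0 ≤ bv d R := measureReal_nonneg
  have hC : 0 < bv d R + 1 := by linarith
  refine ⟨bv d R + 1, ∑ k ∈ Finset.range K, ((bv d R + 1) / ρ) ^ k, hC, ?_, ?_⟩
  · have h0 : (0 : ℕ) ∈ Finset.range K := Finset.mem_range.2 (by omega)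
    have h1 := Finset.single_le_sum (f := fun k : ℕ => ((bv d R + 1) / ρ) ^ k)
      (fun k _ => pow_nonneg (div_nonneg hC.le hρ.le) k) h0
    simpa using h1
  · have hlim : Tendsto (fun n : ℕ => (1 / (m : ℝ)) ^ K * ∑ o : Fin K → Fin m,
        (wt d n) ^ K * ((PZ d r m K c R n o).ncard : ℝ)) atTop
        (𝓝 (pathVol d r m K c R)) := by
      unfold pathVol
      refine Tendsto.const_mul _ (tendsto_finsetSum _ fun o _ => ?_)
      exact hLIM d r m K c R o hd hR hc (hNULL d r m K c R o hd hR hc)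
    have hev := hlim.eventually_lt_const hvol
    filter_upwards [hev, hUP d R 1 hd hR one_pos, eventually_ge_atTop 1] with n h1 h2 h3
    have hn0 : (0 : ℝ) < n := by exact_mod_cast h3
    have hB : GeoB (NB d R n) (wt d n) (bv d R + 1) := by
      refine ⟨h2.1, fun x => ?_, fun x y h => ?_, h2.2⟩
      · show ∑ k, ((x k : ℝ) - (x k : ℝ)) ^ 2 < ((n : ℝ) * R) ^ 2
        have : ∑ k, ((x k : ℝ) - (x k : ℝ)) ^ 2 = 0 :=
          Finset.sum_eq_zero fun k _ => by ring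
        rw [this]
        exact pow_pos (mul_pos hn0 hR) 2
      · refine lt_of_eq_of_lt (Finset.sum_congr rfl fun k _ => ?_) h
        ring
    exact ⟨cZ c, FF (NB d R n) (wt d n) (cZ c) K ρ,
      hFUN (Fin d → ℤ) (NB d R n) (wt d n) r m (cZ c) (bv d R + 1) ρ K hB hm hK hC hρ
        (fun b x y z hxy hxz h => GEOFN.clique_grid c hc R hR n h3 b x y z hxy hxz h)
        (fun A x => (hCOUNT d r m K c R n A x).trans h1.le)⟩

end Pool.Agent.H288.HS
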