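import Pool.Agent.H288.HS.Stm4
import Pool.Agent.H288.HS.T.GEOW

/-!
# GEOW3: assembly of the weighted geometric hypothesis in dimension three (helper720)
-/

set_option autoImplicit false

open MeasureTheory Set Filter Topology

namespace Pool.Agent.H288.HS

open GEON GEOWN

theorem t_GEOW3 : S_GEOW3 := by
  classical
  intro hUP hBV hLJ hLG hTOT hCOL hINEQ R hR δ hδ
  obtain ⟨c, hc1, hc2⟩ := hCOL
  have hδ4 : 0 < δ / 4 := by positivity
  have hbv : bv 3 R = 4 / 3 * Real.pi * R ^ 3 := by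
    have hπ := Real.pi_pos
    rw [(hBV 3 R (by norm_num) hR).1, Measure.real, EuclideanSpace.volume_ball_fin_three]
    rw [ENNReal.toReal_mul, ENNReal.toReal_pow, ENNReal.toReal_ofReal hR.le,
      ENNReal.toReal_ofReal (by positivity)]
    ring
  have hLJ' := hLG R (δ / 4) (fun t => R ^ 3 * Jf3 (√t / R)) hR hδ4 (fun u hu => hLJ R hR u hu)
  filter_upwards [hUP 3 R δ (by norm_num) hR hδ, hLJ', hTOT R (δ / 4) hR hδ4,
    hc2 R (δ / 4) hR hδ4, eventually_ge_atTop 1] with n B1 B2 B3 B4 hn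
  obtain ⟨hw, B1⟩ := B1
  have hn0 : (0 : ℝ) < n := by exact_mod_cast hn
  have hnR : 0 < (n : ℝ) * R := mul_pos hn0 hR
  have hsymm : ∀ x y, NB 3 R n x y → NB 3 R n y x := by
    intro x y h
    unfold NB at h ⊢
    have e : ∑ k, ((y k : ℝ) - (x k : ℝ)) ^ 2 = ∑ k, ((x k : ℝ) - (y k : ℝ)) ^ 2 :=
      Finset.sum_congr rfl fun k _ => by ring
    rw [e]
    exact h
  have hdisp : ∀ x z : Fin 3 → ℤ, NB 3 R n x z ↔
      ∑ k, (((z - x) k : ℤ) : ℝ) ^ 2 < (n * R) ^ 2 := by
    intro x z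
    unfold NB
    have e : ∑ k, (((z - x) k : ℤ) : ℝ) ^ 2 = ∑ k, ((x k : ℝ) - (z k : ℝ)) ^ 2 := by
      refine Finset.sum_congr rfl fun k _ => ?_
      rw [Pi.sub_apply]
      push_cast
      ring
    rw [e]
  have hclique : ∀ x y z, NB 3 R n x y → NB 3 R n x z → c (y - x) = c (z - x) →
      NB 3 R n y z := by
    intro x y z hy hz hc
    have h3 := hc1 (n * R) (y - x) (z - x) ((hdisp x y).1 hy) ((hdisp x z).1 hz) hc
    unfold NB
    have e : ∑ k, ((((y - x) k : ℤ) : ℝ) - (((z - x) k : ℤ) : ℝ)) ^ 2 =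
        ∑ k, ((y k : ℝ) - (z k : ℝ)) ^ 2 := by
      refine Finset.sum_congr rfl fun k _ => ?_
      rw [Pi.sub_apply, Pi.sub_apply]
      push_cast
      ring
    rw [← e]
    exact h3
  have hgw0 : ∀ x z, 31 / 40 ≤ gw3 R n x z := by
    intro x z
    unfold gw3
    have : 0 ≤ (∑ k, ((z k : ℝ) - (x k : ℝ)) ^ 2) / (n * R) ^ 2 :=
      div_nonneg (Finset.sum_nonneg fun k _ => sq_nonneg _) (sq_nonneg _)
    linarith
  refine ⟨fun x z => c (z - x), fun x z => gw3 R n x z, ?_⟩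
  constructor
  · exact hw
  · intro x
    unfold NB
    have e : ∑ k, ((x k : ℝ) - (x k : ℝ)) ^ 2 = 0 :=
      Finset.sum_eq_zero fun k _ => by ring
    rw [e]
    positivity
  · exact hsymm
  · exact hclique
  · norm_num
  · intro x z _
    exact hgw0 x z
  · intro x z h
    unfold gw3
    have h2 : (∑ k, ((z k : ℝ) - (x k : ℝ)) ^ 2) / (n * R) ^ 2 ≤ 1 := by
      rw [div_le_one (by positivity)]
      exact le_of_lt (hsymm x z h)
    linarith
  · intro A x
    have := B1 A x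
    rw [hbv] at this
    exact this
  · intro A x y hxy
    have hfin : {z | NB 3 R n y z}.Finite :=
      fin_of_bound (NB 3 R n) (wt 3 n) _ hw y fun A => B1 A y
    have hB : ∀ z, z ∈ hfin.toFinset ↔ NB 3 R n y z := by
      intro z
      rw [Set.Finite.mem_toFinset]
      exact Iff.rfl
    set s : ℝ := √(∑ k, (((y - x) k : ℤ) : ℝ) ^ 2) / (n * R) with hs
    have hS0 : 0 ≤ ∑ k, (((y - x) k : ℤ) : ℝ) ^ 2 := Finset.sum_nonneg fun k _ => sq_nonneg _
    have hs0 : 0 ≤ s := by positivity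
    have hs1 : s ≤ 1 := by
      rw [hs, div_le_one hnR]
      rw [Real.sqrt_le_left hnR.le]
      exact ((hdisp x y).1 hxy).le
    have hs2 : s ^ 2 = (∑ k, (((y - x) k : ℤ) : ℝ) ^ 2) / (n * R) ^ 2 := by
      rw [hs, div_pow, Real.sq_sqrt hS0]
    have hSe : ∑ k, (((y - x) k : ℤ) : ℝ) ^ 2 = ∑ k, ((y k : ℝ) - (x k : ℝ)) ^ 2 := by
      refine Finset.sum_congr rfl fun k _ => ?_
      rw [Pi.sub_apply]
      push_cast
      ring
    have hgxy : gw3 R n x y = 31 / 40 + 9 / 40 * s ^ 2 := by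
      unfold gw3
      rw [hs2, hSe]
    -- the three estimates
    have c1 := B3 y
    rw [tsum_ite_eq hfin.toFinset _ (fun _ => True) _ (fun _ => instDecidableTrue) _
      (fun z hz => (hB z).2 hz) (fun z hz => ⟨fun _ => trivial, fun _ => (hB z).1 hz⟩)] at c1
    simp only [if_true] at c1
    have c2 := B2 x y hxy
    rw [tsum_ite_eq hfin.toFinset _ (fun z => NB 3 R n x z) _
      (fun z => Classical.propDecidable _) _
      (fun z hz => (hB z).2 hz.1) (fun z hz => ⟨fun h => h.2, fun h => ⟨(hB z).1 hz, h⟩⟩)] at c2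
    have c2e : √((∑ k, ((y k : ℝ) - (x k : ℝ)) ^ 2) / (n : ℝ) ^ 2) / R = s := by
      rw [hs, Real.sqrt_div' _ (by positivity), Real.sqrt_sq hn0.le, ← hSe, div_div]
    have c2' : R ^ 3 * Jf3 s - δ / 4 ≤ wt 3 n *
        ∑ z ∈ hfin.toFinset, @ite ℝ (NB 3 R n x z) (Classical.propDecidable _) (gw3 R n y z) 0 := by
      have h3 : R ^ 3 * Jf3 (√((∑ k, ((y k : ℝ) - (x k : ℝ)) ^ 2) / (n : ℝ) ^ 2) / R) - δ / 4 ≤
        wt 3 n *
        ∑ z ∈ hfin.toFinset, @ite ℝ (NB 3 R n x z) (Classical.propDecidable _) (gw3 R n y z) 0 := c2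
      rw [c2e] at h3
      exact h3
    have c3 := B4 (y - x) ((hdisp x y).1 hxy) s hs
    have c3e : (∑' u : Fin 3 → ℤ, (if ∑ k, (u k : ℝ) ^ 2 < (n * R) ^ 2 ∧ c u = c (y - x) then
          31 / 40 + 9 / 40 * ((∑ k, ((u k : ℝ) - (((y - x) k : ℤ) : ℝ)) ^ 2) / (n * R) ^ 2)
          else 0)) =
        ∑' z : Fin 3 → ℤ, (if NB 3 R n x z ∧ c (z - x) = c (y - x) then gw3 R n y z else 0) := by
      rw [← (Equiv.subRight x).tsum_eq]
      refine tsum_congr fun z => ?_
      have e1 : (Equiv.subRight x) z = z - x := rfl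
      rw [e1]
      by_cases h : NB 3 R n x z ∧ c (z - x) = c (y - x)
      · rw [if_pos ⟨(hdisp x z).1 h.1, h.2⟩, if_pos h]
        unfold gw3
        have e2 : ∑ k, ((((z - x) k : ℤ) : ℝ) - (((y - x) k : ℤ) : ℝ)) ^ 2 =
            ∑ k, ((z k : ℝ) - (y k : ℝ)) ^ 2 := by
          refine Finset.sum_congr rfl fun k _ => ?_
          rw [Pi.sub_apply, Pi.sub_apply]
          push_cast
          ring
        rw [e2]
      · rw [if_neg h, if_neg fun h' => h ⟨(hdisp x z).2 h'.1, h'.2⟩]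
    have c3' : Real.pi * R ^ 3 / 6 * (31 / 120 + 9 / 40 * (1 / 5 - s / 2 + s ^ 2 / 3)) -
        δ / 4 ≤ wt 3 n * ∑ z ∈ hfin.toFinset, @ite ℝ (NB 3 R n x z ∧ c (z - x) = c (y - x))
          (Classical.propDecidable _) (gw3 R n y z) 0 := by
      refine c3.trans (le_of_eq ?_)
      congr 1
      refine Eq.trans ?_ (tsum_ite_eq hfin.toFinset _
        (fun z => NB 3 R n x z ∧ c (z - x) = c (y - x)) (fun z => inferInstance) (fun z => Classical.propDecidable _) _
        (fun z hz => (hB z).2 (hclique x y z hxy hz.1 hz.2.symm)) (fun z _ => Iff.rfl))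
      exact c3e
    have key := core (nb (NB 3 R n) A y) hfin.toFinset (fun z => NB 3 R n y z)
      (fun z => NB 3 R n x z) (fun z => NB 3 R n x z ∧ c (z - x) = c (y - x))
      (fun z => inferInstance) (fun z => Classical.propDecidable _) (fun z => inferInstance)
      (fun z => Classical.propDecidable _) (fun z => gw3 R n y z)
      (fun z hz => ((mem_nb' _ _ _ _).1 hz).2) hB (fun z _ => by linarith [hgw0 y z])
    have hineq := hINEQ s hs0 hs1
    have hR2 : 0 < R ^ 3 := by positivity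
    have hmul := mul_le_mul_of_nonneg_left hineq hR2.le
    have hkey := mul_le_mul_of_nonneg_left key hw.le
    show wt 3 n * ∑ z ∈ nb (NB 3 R n) A y, gw3 R n y z * _ ≤ _ * gw3 R n x y
    refine le_trans hkey ?_
    have hphi0 : 31 / 40 ≤ gw3 R n x y := hgw0 x y
    have hfinal : (153 / 200 * (4 / 3 * Real.pi * R ^ 3) + δ) * gw3 R n x y ≥
        153 / 200 * (4 / 3 * Real.pi * R ^ 3) * gw3 R n x y + δ / 2 := by
      nlinarith
    rw [hgxy] at hfinal ⊢
    nlinarith [hfinal, c1, c2', c3', hmul]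

end Pool.Agent.H288.HS
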