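import Pool.Agent.H288.HS.Stm2

/-!
# HS-GGE: `GG r ≤ 1/e` (helper100, for helper288)
-/

set_option autoImplicit false

namespace Pool.Agent.H288.HS

namespace GGEN

lemma pow_bound (r : ℕ) : (((r : ℝ) + 1) / (r + 2)) ^ (r + 2) ≤ Real.exp (-1) := by
  have h2 : (0 : ℝ) < (r : ℝ) + 2 := by positivity
  have h1 : ((r : ℝ) + 1) / (r + 2) ≤ Real.exp (-(1 / ((r : ℝ) + 2))) := by
    have h3 := Real.add_one_le_exp (-(1 / ((r : ℝ) + 2)))
    have h4 : -(1 / ((r : ℝ) + 2)) + 1 = ((r : ℝ) + 1) / (r + 2) := by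
      field_simp
      ring
    rw [h4] at h3
    exact h3
  calc (((r : ℝ) + 1) / (r + 2)) ^ (r + 2) ≤ (Real.exp (-(1 / ((r : ℝ) + 2)))) ^ (r + 2) :=
        pow_le_pow_left₀ (by positivity) h1 _
    _ = Real.exp (-1) := by
        rw [← Real.exp_nat_mul]
        congr 1
        push_cast
        field_simp

end GGEN

theorem t_GGE : S_GGE := by
  intro r hr
  have hr' : (0 : ℝ) < (r : ℝ) := by exact_mod_cast hr
  constructor
  · unfold GG
    positivity
  · unfold GG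
    have h1 : (r : ℝ) / (r + 1) ≤ 1 := by
      rw [div_le_one (by positivity)]
      linarith
    have h2 : 0 ≤ (((r : ℝ) + 1) / (r + 2)) ^ (r + 2) := by positivity
    calc (r : ℝ) / (r + 1) * (((r : ℝ) + 1) / (r + 2)) ^ (r + 2) ≤
          1 * (((r : ℝ) + 1) / (r + 2)) ^ (r + 2) := mul_le_mul_of_nonneg_right h1 h2
      _ = (((r : ℝ) + 1) / (r + 2)) ^ (r + 2) := one_mul _
      _ ≤ Real.exp (-1) := GGEN.pow_bound r

end Pool.Agent.H288.HS
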