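import Pool.Agent.H288.HS.Stm2

/-!
# Hard spheres: the Ginibre inequality for a finite hard-core gas
-/

set_option autoImplicit false

namespace Pool.Agent.H288.HS.GINN

open Classical in
/-- The points of `A` which are free for `J`. -/
noncomputable def fr {V : Type} (N : V → V → Prop) (A J : Finset V) : Finset V :=
  A.filter (fun v => ∀ u ∈ J, ¬ N v u)

theorem mem_fr {V : Type} (N : V → V → Prop) (A J : Finset V) (v : V) :
    v ∈ fr N A J ↔ v ∈ A ∧ ∀ u ∈ J, ¬ N v u := by
  classical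
  unfold fr
  rw [Finset.mem_filter]

theorem mem_ind {V : Type} (N : V → V → Prop) (A I : Finset V) :
    I ∈ ind N A ↔ I ⊆ A ∧ Indep N I := by
  classical
  unfold ind
  rw [Finset.mem_filter, Finset.mem_powerset]

open Classical in
/-- Pairs `(I, v ∈ I)` against pairs `(J, v free for J)`. -/
theorem swap {V : Type} (N : V → V → Prop) (A : Finset V) (hr : ∀ x, N x x)
    (hs : ∀ x y, N x y → N y x) (g : Finset V → V → ℝ) :
    ∑ I ∈ ind N A, ∑ v ∈ I, g I v =
      ∑ J ∈ ind N A, ∑ v ∈ fr N A J, g (insert v J) v := by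
  rw [Finset.sum_sigma', Finset.sum_sigma']
  refine Finset.sum_bij' (fun p _ => ⟨p.1.erase p.2, p.2⟩) (fun p _ => ⟨insert p.2 p.1, p.2⟩)
    ?_ ?_ ?_ ?_ ?_
  · rintro ⟨I, v⟩ hp
    rw [Finset.mem_sigma] at hp
    obtain ⟨h1, h2⟩ := hp
    simp only at h1 h2
    rw [mem_ind] at h1
    rw [Finset.mem_sigma]
    simp only
    rw [mem_ind, mem_fr]
    refine ⟨⟨(Finset.erase_subset _ _).trans h1.1, ?_⟩, h1.1 h2, ?_⟩
    · intro x hx y hy hxy
      exact h1.2 x (Finset.mem_of_mem_erase hx) y (Finset.mem_of_mem_erase hy) hxy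
    · intro u hu
      exact h1.2 v h2 u (Finset.mem_of_mem_erase hu) (Finset.ne_of_mem_erase hu).symm
  · rintro ⟨J, v⟩ hp
    rw [Finset.mem_sigma] at hp
    obtain ⟨h1, h2⟩ := hp
    simp only at h1 h2
    rw [mem_ind] at h1
    rw [mem_fr] at h2
    rw [Finset.mem_sigma]
    simp only
    rw [mem_ind]
    refine ⟨⟨?_, ?_⟩, Finset.mem_insert_self _ _⟩
    · intro x hx
      rw [Finset.mem_insert] at hx
      rcases hx with rfl | hx
      · exact h2.1
      · exact h1.1 hx
    · intro x hx y hy hxy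
      rw [Finset.mem_insert] at hx hy
      rcases hx with rfl | hx
      · rcases hy with rfl | hy
        · exact absurd rfl hxy
        · exact h2.2 y hy
      · rcases hy with rfl | hy
        · intro h
          exact h2.2 x hx (hs _ _ h)
        · exact h1.2 x hx y hy hxy
  · rintro ⟨I, v⟩ hp
    rw [Finset.mem_sigma] at hp
    obtain ⟨h1, h2⟩ := hp
    simp only at h1 h2
    simp only
    rw [Finset.insert_erase h2]
  · rintro ⟨J, v⟩ hp
    rw [Finset.mem_sigma] at hp
    obtain ⟨h1, h2⟩ := hp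
    simp only at h1 h2
    rw [mem_fr] at h2
    have hv : v ∉ J := fun h => h2.2 v h (hr v)
    simp only
    rw [Finset.erase_insert hv]
  · rintro ⟨I, v⟩ hp
    rw [Finset.mem_sigma] at hp
    obtain ⟨h1, h2⟩ := hp
    simp only at h1 h2
    simp only
    rw [Finset.insert_erase h2]

theorem notMem_of_fr {V : Type} (N : V → V → Prop) (A J : Finset V) (hr : ∀ x, N x x) {v : V}
    (h : v ∈ fr N A J) : v ∉ J := by
  rw [mem_fr] at h
  exact fun h' => h.2 v h' (hr v)

open Classical in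
theorem free_le {V : Type} (N : V → V → Prop) (w C : ℝ) (A J : Finset V) (hw : 0 < w)
    (hs : ∀ x y, N x y → N y x) (hC : ∀ x : V, w * ((nb N A x).card : ℝ) ≤ C) (v : V) :
    w * ((fr N A J).card : ℝ) - C ≤ w * ((fr N A (insert v J)).card : ℝ) := by
  have hsub : fr N A J ⊆ fr N A (insert v J) ∪ nb N A v := by
    intro y hy
    rw [mem_fr] at hy
    rw [Finset.mem_union, mem_fr]
    by_cases h : N v y
    · right
      unfold nb
      rw [Finset.mem_filter]
      exact ⟨hy.1, h⟩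
    · left
      refine ⟨hy.1, ?_⟩
      intro u hu
      rw [Finset.mem_insert] at hu
      rcases hu with rfl | hu
      · exact fun h' => h (hs _ _ h')
      · exact hy.2 u hu
  have h1 : (fr N A J).card ≤ (fr N A (insert v J)).card + (nb N A v).card :=
    (Finset.card_le_card hsub).trans (Finset.card_union_le _ _)
  have h2 : ((fr N A J).card : ℝ) ≤ ((fr N A (insert v J)).card : ℝ) + ((nb N A v).card : ℝ) := by
    exact_mod_cast h1
  have h3 := mul_le_mul_of_nonneg_left h2 hw.le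
  have h4 := hC v
  nlinarith

/-- The algebra: weighted Cauchy-Schwarz. -/
theorem algebra {ι : Type} (s : Finset ι) (P c F : ι → ℝ) (l C M0 M1 M2 : ℝ)
    (hP : ∀ i ∈ s, 0 ≤ P i) (hM0 : M0 = ∑ i ∈ s, P i) (hM1 : M1 = ∑ i ∈ s, c i * P i)
    (hM2 : M2 = ∑ i ∈ s, c i ^ 2 * P i) (hc : ∀ i ∈ s, 0 ≤ c i) (hpos : 0 < M0)
    (hl : 0 ≤ l) (hC : 0 ≤ C)
    (h1 : M1 = l * ∑ i ∈ s, F i * P i)
    (h2 : M2 = l * ∑ i ∈ s, c i * F i * P i + M1)
    (h3 : l * ∑ i ∈ s, F i ^ 2 * P i - C * M1 ≤ ∑ i ∈ s, c i * F i * P i) :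
    M1 * M0 ≤ (M2 * M0 - M1 ^ 2) * (1 + C * l) := by
  set X := ∑ i ∈ s, F i * P i with hX
  set Y := ∑ i ∈ s, c i * F i * P i with hY
  set Q := ∑ i ∈ s, F i ^ 2 * P i with hQ
  have hM1' : 0 ≤ M1 := by
    rw [hM1]
    exact Finset.sum_nonneg fun i hi => mul_nonneg (hc i hi) (hP i hi)
  have hM2' : 0 ≤ M2 := by
    rw [hM2]
    exact Finset.sum_nonneg fun i hi => mul_nonneg (sq_nonneg _) (hP i hi)
  set m := M1 / M0 with hm
  -- the Cauchy-Schwarz inequality
  have hCS : (∑ i ∈ s, ((c i - m) * (c i - l * F i)) * P i) ^ 2 ≤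
      (∑ i ∈ s, (c i - m) ^ 2 * P i) * (∑ i ∈ s, (c i - l * F i) ^ 2 * P i) := by
    have h := Finset.sum_mul_sq_le_sq_mul_sq s (fun i => (c i - m) * Real.sqrt (P i))
      (fun i => (c i - l * F i) * Real.sqrt (P i))
    have e1 : ∑ i ∈ s, (c i - m) * Real.sqrt (P i) * ((c i - l * F i) * Real.sqrt (P i)) =
        ∑ i ∈ s, ((c i - m) * (c i - l * F i)) * P i := by
      refine Finset.sum_congr rfl fun i hi => ?_
      have := Real.mul_self_sqrt (hP i hi)
      calc (c i - m) * Real.sqrt (P i) * ((c i - l * F i) * Real.sqrt (P i)) =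
          (c i - m) * (c i - l * F i) * (Real.sqrt (P i) * Real.sqrt (P i)) := by ring
        _ = _ := by rw [this]
    have e2 : ∑ i ∈ s, ((c i - m) * Real.sqrt (P i)) ^ 2 = ∑ i ∈ s, (c i - m) ^ 2 * P i := by
      refine Finset.sum_congr rfl fun i hi => ?_
      rw [mul_pow, Real.sq_sqrt (hP i hi)]
    have e3 : ∑ i ∈ s, ((c i - l * F i) * Real.sqrt (P i)) ^ 2 =
        ∑ i ∈ s, (c i - l * F i) ^ 2 * P i := by
      refine Finset.sum_congr rfl fun i hi => ?_
      rw [mul_pow, Real.sq_sqrt (hP i hi)]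
    rw [e1, e2, e3] at h
    exact h
  have i1 : ∑ i ∈ s, ((c i - m) * (c i - l * F i)) * P i = M1 := by
    have : ∑ i ∈ s, ((c i - m) * (c i - l * F i)) * P i =
        (∑ i ∈ s, c i ^ 2 * P i) - l * (∑ i ∈ s, c i * F i * P i)
          - m * (∑ i ∈ s, c i * P i) + m * (l * ∑ i ∈ s, F i * P i) := by
      rw [Finset.mul_sum, Finset.mul_sum, Finset.mul_sum, Finset.mul_sum,
        ← Finset.sum_sub_distrib, ← Finset.sum_sub_distrib, ← Finset.sum_add_distrib]
      exact Finset.sum_congr rfl fun i _ => by ring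
    rw [this, ← hM2, ← hM1, ← hY, ← hX, ← h1]
    linarith
  have i2 : ∑ i ∈ s, (c i - m) ^ 2 * P i = M2 - 2 * m * M1 + m ^ 2 * M0 := by
    rw [hM2, hM1, hM0, Finset.mul_sum, Finset.mul_sum, ← Finset.sum_sub_distrib,
      ← Finset.sum_add_distrib]
    exact Finset.sum_congr rfl fun i _ => by ring
  have i3 : ∑ i ∈ s, (c i - l * F i) ^ 2 * P i = M2 - 2 * l * Y + l ^ 2 * Q := by
    rw [hM2, hY, hQ, Finset.mul_sum, Finset.mul_sum, ← Finset.sum_sub_distrib,
      ← Finset.sum_add_distrib]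
    exact Finset.sum_congr rfl fun i _ => by ring
  rw [i1, i2, i3] at hCS
  have hmM : m * M0 = M1 := by
    rw [hm]
    field_simp
  have i4 : M2 - 2 * l * Y + l ^ 2 * Q ≤ (1 + C * l) * M1 := by
    have := mul_le_mul_of_nonneg_left h3 hl
    nlinarith
  have hV : 0 ≤ M2 - 2 * m * M1 + m ^ 2 * M0 := by
    rw [← i2]
    exact Finset.sum_nonneg fun i hi => mul_nonneg (sq_nonneg _) (hP i hi)
  have i5 : M1 ^ 2 ≤ (M2 - 2 * m * M1 + m ^ 2 * M0) * ((1 + C * l) * M1) :=
    hCS.trans (mul_le_mul_of_nonneg_left i4 hV)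
  have i6 : (M2 - 2 * m * M1 + m ^ 2 * M0) * M0 = M2 * M0 - M1 ^ 2 := by
    have e : m ^ 2 * M0 * M0 = M1 ^ 2 := by
      rw [← hmM]
      ring
    have e' : m * M1 * M0 = M1 ^ 2 := by
      rw [← hmM]
      ring
    nlinarith
  rcases hM1'.eq_or_lt with h0 | h0
  · rw [← h0]
    have : 0 ≤ M2 * M0 * (1 + C * l) :=
      mul_nonneg (mul_nonneg hM2' hpos.le) (by positivity)
    simpa using this
  · have i7 : M1 ≤ (M2 - 2 * m * M1 + m ^ 2 * M0) * (1 + C * l) := by
      have : M1 * M1 ≤ ((M2 - 2 * m * M1 + m ^ 2 * M0) * (1 + C * l)) * M1 := by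
        nlinarith [i5]
      exact le_of_mul_le_mul_right this h0
    calc M1 * M0 ≤ (M2 - 2 * m * M1 + m ^ 2 * M0) * (1 + C * l) * M0 :=
          mul_le_mul_of_nonneg_right i7 hpos.le
      _ = ((M2 - 2 * m * M1 + m ^ 2 * M0) * M0) * (1 + C * l) := by ring
      _ = _ := by rw [i6]

end Pool.Agent.H288.HS.GINN

namespace Pool.Agent.H288.HS

open GINN in
theorem t_GIN : S_GIN := by
  classical
  intro V N w C A hw hC hr hs hnb l hl
  have hlw : 0 ≤ l * w := mul_nonneg hl hw.le
  have key : ∀ h : Finset V → ℝ,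
      ∑ I ∈ ind N A, (I.card : ℝ) * h I * (l * w) ^ I.card =
        l * ∑ J ∈ ind N A, (∑ v ∈ fr N A J, w * h (insert v J)) * (l * w) ^ J.card := by
    intro h
    have e1 : ∑ I ∈ ind N A, (I.card : ℝ) * h I * (l * w) ^ I.card =
        ∑ I ∈ ind N A, ∑ v ∈ I, h I * (l * w) ^ I.card := by
      refine Finset.sum_congr rfl fun I _ => ?_
      rw [Finset.sum_const, nsmul_eq_mul, mul_assoc]
    rw [e1, swap N A hr hs (fun I _ => h I * (l * w) ^ I.card), Finset.mul_sum]
    refine Finset.sum_congr rfl fun J _ => ?_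
    rw [Finset.sum_mul, Finset.mul_sum]
    refine Finset.sum_congr rfl fun v hv => ?_
    rw [Finset.card_insert_of_notMem (notMem_of_fr N A J hr hv), pow_succ]
    ring
  have hconst : ∀ J : Finset V, ∑ v ∈ fr N A J, w * (1 : ℝ) = w * ((fr N A J).card : ℝ) := by
    intro J
    rw [Finset.sum_const, nsmul_eq_mul]
    ring
  refine GINN.algebra (ind N A) (fun I => (l * w) ^ I.card) (fun I => (I.card : ℝ))
    (fun I => w * ((fr N A I).card : ℝ)) l C _ _ _ (fun I _ => pow_nonneg hlw _) ?_ ?_ ?_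
    (fun I _ => Nat.cast_nonneg _) ?_ hl hC ?_ ?_ ?_
  · unfold Mo
    exact Finset.sum_congr rfl fun I _ => by rw [pow_zero, one_mul]
  · unfold Mo
    exact Finset.sum_congr rfl fun I _ => by rw [pow_one]
  · rfl
  · unfold Mo
    have hmem : (∅ : Finset V) ∈ ind N A := by
      rw [mem_ind]
      refine ⟨Finset.empty_subset _, ?_⟩
      intro x hx
      exact absurd hx (Finset.notMem_empty x)
    refine Finset.sum_pos' (fun I _ => ?_) ⟨∅, hmem, ?_⟩
    · exact mul_nonneg (pow_nonneg (Nat.cast_nonneg _) _) (pow_nonneg hlw _)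
    · simp
  · have h := key (fun _ => 1)
    simp only [mul_one] at h
    unfold Mo
    simp only [pow_one]
    rw [h]
    congr 1
    refine Finset.sum_congr rfl fun J _ => ?_
    have := hconst J
    simp only [mul_one] at this
    rw [this]
  · have h := key (fun I => (I.card : ℝ))
    have h1 := key (fun _ => 1)
    simp only [mul_one] at h1
    unfold Mo
    simp only [pow_one]
    have e : ∑ I ∈ ind N A, (I.card : ℝ) ^ 2 * (l * w) ^ I.card =
        ∑ I ∈ ind N A, (I.card : ℝ) * (I.card : ℝ) * (l * w) ^ I.card :=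
      Finset.sum_congr rfl fun I _ => by ring
    rw [e, h, h1, ← mul_add, ← Finset.sum_add_distrib]
    congr 1
    refine Finset.sum_congr rfl fun J _ => ?_
    have e2 : ∑ v ∈ fr N A J, w * (((insert v J).card : ℕ) : ℝ) =
        w * ((fr N A J).card : ℝ) * ((J.card : ℝ) + 1) := by
      have : ∀ v ∈ fr N A J, w * (((insert v J).card : ℕ) : ℝ) = w * ((J.card : ℝ) + 1) := by
        intro v hv
        rw [Finset.card_insert_of_notMem (notMem_of_fr N A J hr hv)]
        push_cast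
        ring
      rw [Finset.sum_congr rfl this, Finset.sum_const, nsmul_eq_mul]
      ring
    have e3 : ∑ _v ∈ fr N A J, w = w * ((fr N A J).card : ℝ) := by
      rw [Finset.sum_const, nsmul_eq_mul]
      ring
    rw [e2, e3]
    ring
  · have h := key (fun I => w * ((fr N A I).card : ℝ))
    have h1 := key (fun _ => 1)
    simp only [mul_one] at h1
    have e3 : ∀ J : Finset V, ∑ _v ∈ fr N A J, w = w * ((fr N A J).card : ℝ) := by
      intro J
      rw [Finset.sum_const, nsmul_eq_mul]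
      ring
    have hM1 : Mo N w A 1 l = l * ∑ J ∈ ind N A, w * ((fr N A J).card : ℝ) * (l * w) ^ J.card := by
      unfold Mo
      simp only [pow_one]
      rw [h1]
      congr 1
      refine Finset.sum_congr rfl fun J _ => ?_
      rw [e3]
    rw [h, hM1]
    have e4 : l * ∑ i ∈ ind N A, (w * ((fr N A i).card : ℝ)) ^ 2 * (l * w) ^ i.card -
        C * (l * ∑ J ∈ ind N A, w * ((fr N A J).card : ℝ) * (l * w) ^ J.card) =
        l * ∑ J ∈ ind N A, (w * ((fr N A J).card : ℝ) * (w * ((fr N A J).card : ℝ) - C)) *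
          (l * w) ^ J.card := by
      have : C * (l * ∑ J ∈ ind N A, w * ((fr N A J).card : ℝ) * (l * w) ^ J.card) =
          l * ∑ J ∈ ind N A, C * (w * ((fr N A J).card : ℝ) * (l * w) ^ J.card) := by
        rw [← Finset.mul_sum]
        ring
      rw [this, ← mul_sub, ← Finset.sum_sub_distrib]
      congr 1
      exact Finset.sum_congr rfl fun J _ => by ring
    rw [e4]
    refine mul_le_mul_of_nonneg_left ?_ hl
    refine Finset.sum_le_sum fun J _ => ?_
    refine mul_le_mul_of_nonneg_right ?_ (pow_nonneg hlw _)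
    have e5 : w * ((fr N A J).card : ℝ) * (w * ((fr N A J).card : ℝ) - C) =
        ∑ _v ∈ fr N A J, w * (w * ((fr N A J).card : ℝ) - C) := by
      rw [Finset.sum_const, nsmul_eq_mul]
      ring
    rw [e5]
    refine Finset.sum_le_sum fun v _ => ?_
    exact mul_le_mul_of_nonneg_left (free_le N w C A J hw hs hnb v) hw.le

end Pool.Agent.H288.HS
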