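import Pool.Agent.H288.HS.Stm2

/-!
# Hard-core gases: the uniform zero-free region (assembly, strong induction on the region)
-/

set_option autoImplicit false

open MeasureTheory Set Filter Topology

namespace Pool.Agent.H288.HS
namespace INDN

variable {V : Type}

/-- The induction claim for a region `A`. -/
def Good (N : V → V → Prop) (w M l₁ ε : ℝ) (A : Finset V) : Prop :=
  ∀ l ∈ Om l₁ ε, Z N w A l ≠ 0 ∧
    ∀ x : V, ‖W N w A x l‖ * ‖DD N w A x l‖ ^ 2 ≤ M ^ 2 * (w * ((nb N A x).card : ℝ))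

theorem Z_empty (N : V → V → Prop) (w : ℝ) (l : ℂ) : Z N w ∅ l = 1 := by
  classical
  have h : ind N (∅ : Finset V) = {∅} := by
    unfold ind
    ext I
    simp only [Finset.powerset_empty, Finset.mem_filter, Finset.mem_singleton]
    constructor
    · rintro ⟨h, -⟩; exact h
    · intro h
      subst h
      refine ⟨rfl, ?_⟩
      intro x hx
      simp at hx
  unfold Z
  rw [h]
  simp

theorem w_le {r : ℕ} {N : V → V → Prop} {w C a : ℝ} {col : V → V → Fin r}
    (hG : Geo N w r col C a) (y : V) : w ≤ C := by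
  have h := hG.vol {y} y
  have hnb : nb N {y} y = {y} := by
    unfold nb
    ext z
    simp only [Finset.mem_filter, Finset.mem_singleton]
    constructor
    · rintro ⟨h, -⟩; exact h
    · intro h; subst h; exact ⟨rfl, hG.refl _⟩
  rw [hnb] at h
  simpa using h

theorem nonvan (hSTEP : S_STEP) {r : ℕ} (N : V → V → Prop) (w C a : ℝ) (col : V → V → Fin r)
    (hG : Geo N w r col C a) (A : Finset V) (l : ℂ) (η : ℝ) (hη : 2 * η * C < 1)
    (hB : ∀ B : Finset V, B.card < A.card → Z N w B l ≠ 0)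
    (hW : ∀ B : Finset V, B.card < A.card → ∀ y : V,
      ∃ t : ℝ, 0 ≤ t ∧ ‖l * W N w B y l - (t : ℂ)‖ ≤ η) :
    Z N w A l ≠ 0 := by
  classical
  rcases A.eq_empty_or_nonempty with rfl | ⟨y, hy⟩
  · rw [Z_empty]; exact one_ne_zero
  · have hcard : (A.erase y).card < A.card := Finset.card_erase_lt_of_mem hy
    have h1 := hSTEP V N w A (A.erase y) {y} l hG.refl hG.symm (by
      intro z
      by_cases hz : z = y
      · subst hz; simp [hy]
      · simp [hz]) (by
      intro z hz hz'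
      rw [Finset.mem_singleton] at hz'
      subst hz'
      simp at hz) (by
      intro z hz z' hz'
      rw [Finset.mem_singleton] at hz hz'
      subst hz
      subst hz'
      exact hG.refl _)
    rw [Finset.sum_singleton] at h1
    have hZB := hB (A.erase y) hcard
    have h2 : Z N w A l = Z N w (A.erase y) l * (1 + w * (l * W N w (A.erase y) y l)) := by
      rw [h1]
      unfold W
      field_simp
    rw [h2]
    refine mul_ne_zero hZB ?_
    obtain ⟨t, ht, hlt⟩ := hW (A.erase y) hcard y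
    have hwC : w ≤ C := w_le hG y
    have hw := hG.w_pos
    have hη0 : 0 ≤ η := (norm_nonneg _).trans hlt
    intro h0
    have h3 : (1 : ℂ) + w * t = - (w * (l * W N w (A.erase y) y l - t)) := by
      linear_combination h0
    have h4 : ‖(1 : ℂ) + w * t‖ = 1 + w * t := by
      have h5 : (1 : ℂ) + w * t = ((1 + w * t : ℝ) : ℂ) := by push_cast; ring
      rw [h5, Complex.norm_real, Real.norm_of_nonneg (by positivity)]
    have h6 : ‖(1 : ℂ) + w * t‖ ≤ w * η := by
      rw [h3, norm_neg, norm_mul, Complex.norm_real, Real.norm_of_nonneg hw.le]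
      exact mul_le_mul_of_nonneg_left hlt hw.le
    rw [h4] at h6
    have h7 : w * η ≤ C * η := mul_le_mul_of_nonneg_right hwC hη0
    have h8 : 0 ≤ w * t := mul_nonneg hw.le ht
    have h9 : 0 ≤ C * η := mul_nonneg (hw.le.trans hwC) hη0
    nlinarith

theorem GG_nonneg (r : ℕ) : 0 ≤ GG r := by
  unfold GG
  positivity

/-- The arithmetic of the last step. -/
theorem arith {C a l₁ ε M κ : ℝ} {r : ℕ} (ω nl nW nD E : ℝ)
    (ha : 0 < a) (hM : 0 < M)
    (hω : 0 ≤ ω) (hωC : ω ≤ C) (hnl : 0 ≤ nl) (hnl' : nl ≤ l₁ + ε) (hnW : 0 ≤ nW) (hnD : 0 ≤ nD)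
    (hκ : 0 ≤ κ)
    (hconst : κ * (2 * √C + √((l₁ + ε) * GG r * a) * M) ≤ M)
    (hE : E ≤ a * ω)
    (h : √nW * nD ≤ κ * (2 * ω + √(nl * GG r * (M ^ 2 * E)))) :
    nW * nD ^ 2 ≤ M ^ 2 * ω := by
  have hGG := GG_nonneg r
  have hle : 0 ≤ l₁ + ε := hnl.trans hnl'
  have h1 : √(nl * GG r * (M ^ 2 * E)) ≤ √((l₁ + ε) * GG r * a) * M * √ω := by
    have h2 : nl * GG r * (M ^ 2 * E) ≤ ((l₁ + ε) * GG r * a) * M ^ 2 * ω := by
      have h3 : nl * GG r * (M ^ 2 * E) ≤ nl * GG r * (M ^ 2 * (a * ω)) := by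
        apply mul_le_mul_of_nonneg_left _ (mul_nonneg hnl hGG)
        exact mul_le_mul_of_nonneg_left hE (by positivity)
      have h4 : nl * GG r * (M ^ 2 * (a * ω)) ≤ (l₁ + ε) * GG r * (M ^ 2 * (a * ω)) := by
        apply mul_le_mul_of_nonneg_right _ (by positivity)
        exact mul_le_mul_of_nonneg_right hnl' hGG
      calc _ ≤ _ := h3
        _ ≤ _ := h4
        _ = _ := by ring
    calc √(nl * GG r * (M ^ 2 * E)) ≤ √(((l₁ + ε) * GG r * a) * M ^ 2 * ω) := Real.sqrt_le_sqrt h2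
      _ = √((l₁ + ε) * GG r * a) * M * √ω := by
        rw [Real.sqrt_mul (by positivity), Real.sqrt_mul (by positivity), Real.sqrt_sq hM.le]
  have h5 : 2 * ω ≤ 2 * √C * √ω := by
    have h6 : √ω ≤ √C := Real.sqrt_le_sqrt hωC
    have h7 : √ω * √ω = ω := Real.mul_self_sqrt hω
    nlinarith [Real.sqrt_nonneg ω]
  have h8 : √nW * nD ≤ M * √ω := by
    calc √nW * nD ≤ κ * (2 * ω + √(nl * GG r * (M ^ 2 * E))) := h
      _ ≤ κ * (2 * √C * √ω + √((l₁ + ε) * GG r * a) * M * √ω) :=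
        mul_le_mul_of_nonneg_left (add_le_add h5 h1) hκ
      _ = κ * (2 * √C + √((l₁ + ε) * GG r * a) * M) * √ω := by ring
      _ ≤ M * √ω := mul_le_mul_of_nonneg_right hconst (Real.sqrt_nonneg _)
  have h9 : (√nW * nD) ^ 2 ≤ (M * √ω) ^ 2 :=
    pow_le_pow_left₀ (mul_nonneg (Real.sqrt_nonneg _) hnD) h8 2
  rw [mul_pow, mul_pow, Real.sq_sqrt hnW, Real.sq_sqrt hω] at h9
  exact h9

theorem Om_norm {l₁ ε : ℝ} {l : ℂ} (hl : l ∈ Om l₁ ε) : ‖l‖ ≤ l₁ + ε := by
  obtain ⟨s, hs0, hs1, hs⟩ := hl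
  have h1 : ‖l‖ ≤ ‖l - (s : ℂ)‖ + ‖(s : ℂ)‖ := by
    have h2 := norm_add_le (l - (s : ℂ)) (s : ℂ)
    simpa using h2
  rw [Complex.norm_real, Real.norm_of_nonneg hs0] at h1
  linarith

theorem good_all (hSTEP : S_STEP) (hPAIR : S_PAIR) (hONE : S_ONE) (hNEAR : S_NEAR)
    {r : ℕ} {C a l₁ M ε : ℝ} (hr : 1 ≤ r) (hC : 0 < C) (ha : 0 < a) (hl₁ : 0 ≤ l₁)
    (hM : 0 < M) (hε : 0 < ε)
    (hc1 : 2 * (M * √C) * ε ≤ Real.exp (-(l₁ * C)) / 2)
    (hc2 : 2 * (2 * ε + l₁ * (2 * (M * √C) * ε)) * C < 1)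
    (hc3 : ((1 - 2 * (2 * ε + l₁ * (2 * (M * √C) * ε)) * C)⁻¹) ^ (r + 1) *
        (2 * √C + √((l₁ + ε) * GG r * a) * M) ≤ M)
    (N : V → V → Prop) (w : ℝ) (col : V → V → Fin r) (hG : Geo N w r col C a) :
    ∀ (n : ℕ) (A : Finset V), A.card = n → Good N w M l₁ ε A := by
  classical
  intro n
  induction n using Nat.strong_induction_on with
  | _ n ih =>
    intro A hAn
    have ihA : ∀ B : Finset V, B.card < A.card → Good N w M l₁ ε B := by
      intro B hB
      exact ih B.card (hAn ▸ hB) B rfl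
    have hremsub : ∀ (B : Finset V) (y : V), rem N B y ⊆ B := by
      intro B y
      unfold rem
      exact Finset.filter_subset _ _
    have hnear : ∀ B : Finset V, B.card < A.card → ∀ y : V, ∀ l ∈ Om l₁ ε,
        ‖W N w B y l‖ ≤ 2 ∧ Real.exp (-(l₁ * C)) / 2 ≤ ‖W N w B y l‖ ∧
        ∃ t : ℝ, 0 ≤ t ∧ ‖l * W N w B y l - (t : ℂ)‖ ≤ 2 * ε + l₁ * (2 * (M * √C) * ε) := by
      intro B hB y
      refine hNEAR V N w r col C a hG l₁ ε M hl₁ hε hM.le hC hc1 B y ?_
      intro l hl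
      refine ⟨(ihA B hB l hl).1, ?_, (ihA B hB l hl).2 y⟩
      exact (ihA (rem N B y) (lt_of_le_of_lt (Finset.card_le_card (hremsub B y)) hB) l hl).1
    intro l hl
    have hZA : Z N w A l ≠ 0 :=
      nonvan hSTEP N w C a col hG A l (2 * ε + l₁ * (2 * (M * √C) * ε)) hc2
        (fun B hB => (ihA B hB l hl).1) (fun B hB y => (hnear B hB y l hl).2.2)
    refine ⟨hZA, ?_⟩
    intro x
    have hηnn : 0 ≤ 2 * ε + l₁ * (2 * (M * √C) * ε) := by positivity
    -- the one-step estimate for any clique colouring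
    have key : ∀ col' : V → V → Fin r, Geo N w r col' C a →
        √‖W N w A x l‖ * ‖DD N w A x l‖ ≤
          ((1 - 2 * (2 * ε + l₁ * (2 * (M * √C) * ε)) * C)⁻¹) ^ (r + 1) *
          (2 * (w * ((nb N A x).card : ℝ)) + √(‖l‖ * GG r * (M ^ 2 * EE N w col' A x))) := by
      intro col' hG'
      refine hONE V N w r col' C a hr hG' A x l M (2 * ε + l₁ * (2 * (M * √C) * ε)) hM.le
        hηnn hc2 ?_ ?_
      · intro k _
        have hsub : lev N col' A x k ⊆ A := by
          unfold lev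
          exact Finset.filter_subset _ _
        rcases (Finset.card_le_card hsub).lt_or_eq with hlt | heq
        · exact (ihA _ hlt l hl).1
        · rw [Finset.eq_of_subset_of_card_le hsub heq.ge]
          exact hZA
      · intro k _ y hy
        have hlt : (lev N col' A x (k + 1)).card < A.card := by
          apply Finset.card_lt_card
          unfold cl at hy
          rw [Finset.mem_filter] at hy
          unfold lev
          rw [Finset.ssubset_iff_subset_ne]
          refine ⟨Finset.filter_subset _ _, ?_⟩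
          intro heq
          have hy2 := hy.1
          rw [← heq, Finset.mem_filter] at hy2
          apply hy2.2
          refine ⟨hy.2.1, ?_⟩
          have h3 := hy.2.2
          omega
        obtain ⟨h1, _, h3⟩ := hnear _ hlt y l hl
        refine ⟨?_, h1, (ihA _ hlt l hl).2 y, h3⟩
        exact (ihA _ (lt_of_le_of_lt (Finset.card_le_card (hremsub _ y)) hlt) l hl).1
    obtain ⟨hG2, hP⟩ := hPAIR V N w r col C a hG
    have hP := hP A x
    have k1 := key col hG
    have k2 := key (fun x y => (col x y).rev) hG2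
    have hκ : 0 ≤ ((1 - 2 * (2 * ε + l₁ * (2 * (M * √C) * ε)) * C)⁻¹) ^ (r + 1) := by
      apply pow_nonneg
      apply inv_nonneg.mpr
      linarith
    have hω : 0 ≤ w * ((nb N A x).card : ℝ) := mul_nonneg hG.w_pos.le (Nat.cast_nonneg _)
    have hωC : w * ((nb N A x).card : ℝ) ≤ C := hG.vol A x
    rcases le_total (EE N w col A x) (EE N w (fun x y => (col x y).rev) A x) with hle | hle
    · refine arith (w * ((nb N A x).card : ℝ)) ‖l‖ ‖W N w A x l‖ ‖DD N w A x l‖
        (EE N w col A x) ha hM hω hωC (norm_nonneg _) (Om_norm hl) (norm_nonneg _)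
        (norm_nonneg _) hκ hc3 ?_ k1
      linarith
    · refine arith (w * ((nb N A x).card : ℝ)) ‖l‖ ‖W N w A x l‖ ‖DD N w A x l‖
        (EE N w (fun x y => (col x y).rev) A x) ha hM hω hωC (norm_nonneg _) (Om_norm hl)
        (norm_nonneg _) (norm_nonneg _) hκ hc3 ?_ k2
      linarith

end INDN

open INDN in
theorem t_IND : S_INDQ := by
  intro hSTEP hPAIR hONE hNEAR hCONST r C a l₁ hr hC ha hl₁ hlt
  obtain ⟨M, hM, ε, hε, hc1, hc2, hc3⟩ := hCONST r C a l₁ hr hC ha hl₁ hlt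
  refine ⟨ε, hε, M, hM, Real.exp (-(l₁ * C)) / 2, by positivity, ?_⟩
  intro V N w col hG A l hl
  have hgood := good_all hSTEP hPAIR hONE hNEAR hr hC ha hl₁ hM hε hc1 hc2 hc3 N w col hG
  refine ⟨(hgood _ A rfl l hl).1, ?_⟩
  intro x
  have h := hNEAR V N w r col C a hG l₁ ε M hl₁ hε hM.le hC hc1 A x (fun l' hl' =>
    ⟨(hgood _ A rfl l' hl').1, (hgood _ (rem N A x) rfl l' hl').1, (hgood _ A rfl l' hl').2 x⟩)
    l hl
  exact ⟨(hgood _ A rfl l hl).2 x, h.1, h.2.1⟩

end Pool.Agent.H288.HS
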