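import Pool.Agent.H288.HS.Stm2

set_option autoImplicit false

/-!
# HS-INEQ: the contraction inequality (helper974)
-/

namespace Pool.Agent.H288.HS

namespace INEQN

open Finset

/-- the maximum of `m^(r+1) (1-m)` -/
lemma max_aux (r : ℕ) (m : ℝ) (hm0 : 0 ≤ m) :
    (r : ℝ) * (m ^ (r + 1) * (1 - m)) ≤ GG r := by
  have hr1 : (0 : ℝ) < (r : ℝ) + 1 := by positivity
  have hr2 : (0 : ℝ) < (r : ℝ) + 2 := by positivity
  have key : ((r : ℝ) + 1) * (m ^ (r + 1) * (1 - m)) ≤ (((r : ℝ) + 1) / (r + 2)) ^ (r + 2) := by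
    rcases hm0.eq_or_lt with h | h
    · rw [← h, zero_pow (Nat.succ_ne_zero r), zero_mul, mul_zero]
      positivity
    · set s : ℝ := ((r : ℝ) + 1) / (((r : ℝ) + 2) * m) with hs
      have hs0 : 0 < s := by positivity
      have hb := one_add_mul_le_pow (show (-2 : ℝ) ≤ s - 1 by linarith) (r + 2)
      have e1 : (1 : ℝ) + (s - 1) = s := by ring
      rw [e1] at hb
      have hsm : s * m = ((r : ℝ) + 1) / (r + 2) := by
        rw [hs]; field_simp
      have hb2 := mul_le_mul_of_nonneg_right hb (pow_nonneg hm0 (r + 2))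
      rw [← mul_pow, hsm] at hb2
      refine le_trans (le_of_eq ?_) hb2
      have e2 : (1 + ((r + 2 : ℕ) : ℝ) * (s - 1)) * m = ((r : ℝ) + 1) * (1 - m) := by
        push_cast
        have e3 : ((r : ℝ) + 2) * (s * m) = (r : ℝ) + 1 := by
          rw [hsm]; field_simp
        linear_combination e3
      calc ((r : ℝ) + 1) * (m ^ (r + 1) * (1 - m)) = (((r : ℝ) + 1) * (1 - m)) * m ^ (r + 1) := by ring
        _ = ((1 + ((r + 2 : ℕ) : ℝ) * (s - 1)) * m) * m ^ (r + 1) := by rw [e2]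
        _ = (1 + ((r + 2 : ℕ) : ℝ) * (s - 1)) * m ^ (r + 2) := by ring
  unfold GG
  calc (r : ℝ) * (m ^ (r + 1) * (1 - m))
      = (r : ℝ) / (r + 1) * (((r : ℝ) + 1) * (m ^ (r + 1) * (1 - m))) := by
        field_simp
    _ ≤ (r : ℝ) / (r + 1) * (((r : ℝ) + 1) / (r + 2)) ^ (r + 2) :=
        mul_le_mul_of_nonneg_left key (by positivity)

/-- the sum against the product -/
lemma prod_sum_le (r : ℕ) (hr : 1 ≤ r) (x : ℕ → ℝ) (hx : ∀ k ∈ range r, 0 ≤ x k ∧ x k ≤ 1) :
    (∏ k ∈ range r, x k) * ∑ k ∈ range r, x k * (1 - x k) ≤ GG r := by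
  have hr0 : (0 : ℝ) < r := by exact_mod_cast hr
  set m : ℝ := (∑ k ∈ range r, x k) / r with hm
  have hsum0 : 0 ≤ ∑ k ∈ range r, x k := sum_nonneg fun k hk => (hx k hk).1
  have hm0 : 0 ≤ m := by positivity
  have hsum : ∑ k ∈ range r, x k = r * m := by
    rw [hm]; field_simp
  have hsumle : ∑ k ∈ range r, x k ≤ r := by
    calc ∑ k ∈ range r, x k ≤ ∑ k ∈ range r, (1 : ℝ) := sum_le_sum fun k hk => (hx k hk).2
      _ = r := by simp
  have hm1 : m ≤ 1 := by
    rw [hm, div_le_one hr0]; exact hsumle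
  -- AM-GM
  have hP : ∏ k ∈ range r, x k ≤ m ^ r := by
    have h1 := Real.geom_mean_le_arith_mean_weighted (range r) (fun _ => (1 / (r : ℝ))) x
      (fun _ _ => by positivity) (by simp; field_simp) (fun k hk => (hx k hk).1)
    rw [Real.finsetProd_rpow _ _ (fun k hk => (hx k hk).1), ← mul_sum] at h1
    have h2 : 1 / (r : ℝ) * ∑ k ∈ range r, x k = m := by rw [hm]; ring
    rw [h2] at h1
    have hP0 : 0 ≤ ∏ k ∈ range r, x k := prod_nonneg fun k hk => (hx k hk).1
    have h3 : ((∏ k ∈ range r, x k) ^ (1 / (r : ℝ))) ^ r = ∏ k ∈ range r, x k := by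
      rw [← Real.rpow_natCast, ← Real.rpow_mul hP0, one_div, inv_mul_cancel₀ hr0.ne', Real.rpow_one]
    rw [← h3]
    exact pow_le_pow_left₀ (Real.rpow_nonneg hP0 _) h1 r
  -- Cauchy-Schwarz
  have hC : ∑ k ∈ range r, x k * (1 - x k) ≤ r * (m * (1 - m)) := by
    have h1 := sq_sum_le_card_mul_sum_sq (s := range r) (f := x)
    rw [card_range, hsum] at h1
    have h2 : (r : ℝ) * m ^ 2 ≤ ∑ k ∈ range r, x k ^ 2 := by
      have h3 : (r : ℝ) * (r * m ^ 2) ≤ r * ∑ k ∈ range r, x k ^ 2 := by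
        calc (r : ℝ) * (r * m ^ 2) = (r * m) ^ 2 := by ring
          _ ≤ _ := h1
      exact le_of_mul_le_mul_left h3 hr0
    calc ∑ k ∈ range r, x k * (1 - x k) = ∑ k ∈ range r, x k - ∑ k ∈ range r, x k ^ 2 := by
          rw [← sum_sub_distrib]
          exact sum_congr rfl fun k _ => by ring
      _ ≤ r * m - r * m ^ 2 := by rw [hsum]; linarith
      _ = r * (m * (1 - m)) := by ring
  have hm2 : 0 ≤ (r : ℝ) * (m * (1 - m)) := by
    have : 0 ≤ 1 - m := by linarith
    positivity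
  calc (∏ k ∈ range r, x k) * ∑ k ∈ range r, x k * (1 - x k)
      ≤ m ^ r * (r * (m * (1 - m))) :=
        mul_le_mul hP hC (sum_nonneg fun k hk =>
          mul_nonneg (hx k hk).1 (by linarith [(hx k hk).2])) (by positivity)
    _ = r * (m ^ (r + 1) * (1 - m)) := by ring
    _ ≤ GG r := max_aux r m hm0

end INEQN

open Finset INEQN in
theorem t_INEQ : S_INEQ := by
  intro r κ lam σ J B T u hr hκ0 hκ1 hlam H
  have h1κ : 0 < 1 - κ := by linarith
  set c : ℝ := (1 - κ)⁻¹ with hc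
  have hc0 : 0 < c := by positivity
  have hc1 : 1 ≤ c := by
    rw [hc]; exact (one_le_inv₀ h1κ).mpr (by linarith)
  have hσ : ∀ k ∈ range r, 0 ≤ σ k := fun k hk => (H k (mem_range.mp hk)).1
  have hJ : ∀ k ∈ range r, 0 ≤ J k := fun k hk => (H k (mem_range.mp hk)).2.1
  have hB : ∀ k ∈ range r, 0 ≤ B k := fun k hk => (H k (mem_range.mp hk)).2.2.1
  have hT : ∀ k ∈ range r, 0 ≤ T k := fun k hk => (H k (mem_range.mp hk)).2.2.2.1
  have hTB : ∀ k ∈ range r, T k ≤ B k + √(lam * σ k * J k) :=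
    fun k hk => (H k (mem_range.mp hk)).2.2.2.2.1
  have hu : ∀ k ∈ range r, (1 - κ) * (1 + σ k) ≤ u k :=
    fun k hk => (H k (mem_range.mp hk)).2.2.2.2.2
  set x : ℕ → ℝ := fun k => (1 + σ k)⁻¹ with hx
  have hx0 : ∀ k ∈ range r, 0 < x k := fun k hk => by
    have := hσ k hk
    simp only [hx]; positivity
  have hx1 : ∀ k ∈ range r, x k ≤ 1 := fun k hk => by
    simp only [hx]
    exact inv_le_one_of_one_le₀ (by linarith [hσ k hk])
  have hu0 : ∀ k ∈ range r, 0 < u k := fun k hk => by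
    have := hσ k hk
    exact lt_of_lt_of_le (by positivity) (hu k hk)
  have hui : ∀ k ∈ range r, (u k)⁻¹ ≤ c * x k := fun k hk => by
    have h2 := hσ k hk
    have h1 := inv_anti₀ (by positivity) (hu k hk)
    rw [mul_inv] at h1
    exact h1
  set P : ℝ := ∏ k ∈ range r, x k with hP
  have hP0 : 0 ≤ P := prod_nonneg fun k hk => (hx0 k hk).le
  have hP1 : P ≤ 1 := prod_le_one (fun k hk => (hx0 k hk).le) hx1
  have hcr : 1 ≤ c ^ r := one_le_pow₀ hc1
  have e1 : √(∏ k ∈ range r, (u k)⁻¹) ≤ c ^ r * √P := by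
    have h1 : ∏ k ∈ range r, (u k)⁻¹ ≤ c ^ r * P := by
      calc ∏ k ∈ range r, (u k)⁻¹ ≤ ∏ k ∈ range r, c * x k :=
            prod_le_prod (fun k hk => (inv_pos.mpr (hu0 k hk)).le) hui
        _ = c ^ r * P := by rw [prod_mul_distrib, prod_const, card_range]
    calc √(∏ k ∈ range r, (u k)⁻¹) ≤ √((c ^ r) ^ 2 * P) := by
          apply Real.sqrt_le_sqrt
          refine le_trans h1 (mul_le_mul_of_nonneg_right ?_ hP0)
          nlinarith
      _ = c ^ r * √P := by
          rw [Real.sqrt_mul (by positivity), Real.sqrt_sq (by positivity)]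
  have e2 : ∑ k ∈ range r, T k / u k ≤ c * ∑ k ∈ range r, T k * x k := by
    rw [mul_sum]
    refine sum_le_sum fun k hk => ?_
    rw [div_eq_mul_inv]
    calc T k * (u k)⁻¹ ≤ T k * (c * x k) := mul_le_mul_of_nonneg_left (hui k hk) (hT k hk)
      _ = c * (T k * x k) := by ring
  have hTx0 : 0 ≤ ∑ k ∈ range r, T k * x k :=
    sum_nonneg fun k hk => mul_nonneg (hT k hk) (hx0 k hk).le
  have hTu0 : 0 ≤ ∑ k ∈ range r, T k / u k :=
    sum_nonneg fun k hk => div_nonneg (hT k hk) (hu0 k hk).le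
  have e3 : √P * ∑ k ∈ range r, T k * x k ≤
      ∑ k ∈ range r, B k + √(lam * GG r * ∑ k ∈ range r, J k) := by
    have hsP1 : √P ≤ 1 := Real.sqrt_le_one.mpr hP1
    have h1 : ∑ k ∈ range r, T k * x k ≤ ∑ k ∈ range r, B k * x k +
        ∑ k ∈ range r, √(lam * σ k * J k) * x k := by
      rw [← sum_add_distrib]
      refine sum_le_sum fun k hk => ?_
      rw [← add_mul]
      exact mul_le_mul_of_nonneg_right (hTB k hk) (hx0 k hk).le
    have h2 : √P * ∑ k ∈ range r, B k * x k ≤ ∑ k ∈ range r, B k := by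
      have h3 : ∑ k ∈ range r, B k * x k ≤ ∑ k ∈ range r, B k :=
        sum_le_sum fun k hk => mul_le_of_le_one_right (hB k hk) (hx1 k hk)
      have h4 : 0 ≤ ∑ k ∈ range r, B k * x k :=
        sum_nonneg fun k hk => mul_nonneg (hB k hk) (hx0 k hk).le
      calc √P * ∑ k ∈ range r, B k * x k ≤ 1 * ∑ k ∈ range r, B k * x k :=
            mul_le_mul_of_nonneg_right hsP1 h4
        _ ≤ _ := by rw [one_mul]; exact h3
    have h5 : √P * ∑ k ∈ range r, √(lam * σ k * J k) * x k ≤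
        √(lam * GG r * ∑ k ∈ range r, J k) := by
      have h6 : ∑ k ∈ range r, √(lam * σ k * J k) * x k =
          √lam * ∑ k ∈ range r, (√(σ k) * x k) * √(J k) := by
        rw [mul_sum]
        refine sum_congr rfl fun k hk => ?_
        rw [Real.sqrt_mul (mul_nonneg hlam (hσ k hk)), Real.sqrt_mul hlam]
        ring
      have h7 : ∑ k ∈ range r, (√(σ k) * x k) * √(J k) ≤
          √(∑ k ∈ range r, x k * (1 - x k)) * √(∑ k ∈ range r, J k) := by
        have h8 := Real.sum_mul_le_sqrt_mul_sqrt (range r) (fun k => √(σ k) * x k)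
          (fun k => √(J k))
        have h9 : ∑ k ∈ range r, (√(σ k) * x k) ^ 2 = ∑ k ∈ range r, x k * (1 - x k) := by
          refine sum_congr rfl fun k hk => ?_
          rw [mul_pow, Real.sq_sqrt (hσ k hk)]
          have h10 : (1 + σ k) ≠ 0 := by have := hσ k hk; positivity
          simp only [hx]
          field_simp
          ring
        have h11 : ∑ k ∈ range r, (√(J k)) ^ 2 = ∑ k ∈ range r, J k :=
          sum_congr rfl fun k hk => Real.sq_sqrt (hJ k hk)
        rw [h9, h11] at h8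
        exact h8
      have h12 := prod_sum_le r hr x (fun k hk => ⟨(hx0 k hk).le, hx1 k hk⟩)
      have hQ0 : 0 ≤ ∑ k ∈ range r, x k * (1 - x k) :=
        sum_nonneg fun k hk => mul_nonneg (hx0 k hk).le (by linarith [hx1 k hk])
      have hJ0 : 0 ≤ ∑ k ∈ range r, J k := sum_nonneg hJ
      calc √P * ∑ k ∈ range r, √(lam * σ k * J k) * x k
          = √P * (√lam * ∑ k ∈ range r, (√(σ k) * x k) * √(J k)) := by rw [h6]
        _ ≤ √P * (√lam * (√(∑ k ∈ range r, x k * (1 - x k)) * √(∑ k ∈ range r, J k))) := by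
            gcongr
        _ = √(lam * (P * ∑ k ∈ range r, x k * (1 - x k)) * ∑ k ∈ range r, J k) := by
            rw [Real.sqrt_mul (by positivity), Real.sqrt_mul hlam, Real.sqrt_mul hP0]
            ring
        _ ≤ √(lam * GG r * ∑ k ∈ range r, J k) := by
            apply Real.sqrt_le_sqrt
            gcongr
    calc √P * ∑ k ∈ range r, T k * x k
        ≤ √P * (∑ k ∈ range r, B k * x k + ∑ k ∈ range r, √(lam * σ k * J k) * x k) :=
          mul_le_mul_of_nonneg_left h1 (Real.sqrt_nonneg _)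
      _ = √P * ∑ k ∈ range r, B k * x k + √P * ∑ k ∈ range r, √(lam * σ k * J k) * x k := by ring
      _ ≤ _ := add_le_add h2 h5
  calc √(∏ k ∈ range r, (u k)⁻¹) * ∑ k ∈ range r, T k / u k
      ≤ (c ^ r * √P) * (c * ∑ k ∈ range r, T k * x k) :=
        mul_le_mul e1 e2 hTu0 (by positivity)
    _ = c ^ (r + 1) * (√P * ∑ k ∈ range r, T k * x k) := by ring
    _ ≤ c ^ (r + 1) * (∑ k ∈ range r, B k + √(lam * GG r * ∑ k ∈ range r, J k)) :=
        mul_le_mul_of_nonneg_left e3 (by positivity)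

end Pool.Agent.H288.HS
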