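import Pool.Agent.H288.HS.Stm3

set_option autoImplicit false

/-!
# HSW-INEQW: a one-variable inequality (helper969)
-/

namespace Pool.Agent.H288.HS

namespace INEQWN

/-- an upper bound of `arcsin` on `[0, 1/2]` -/
lemma arcsin_le_poly (c : ℝ) (h0 : 0 ≤ c) (h1 : c ≤ 1 / 2) :
    Real.arcsin c ≤ c + c ^ 3 / 6 + 951 / 10000 * c ^ 5 := by
  have hmono : MonotoneOn (fun x : ℝ => x + x ^ 3 / 6 + 951 / 10000 * x ^ 5 - Real.arcsin x)
      (Set.Icc 0 (1 / 2)) := by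
    apply monotoneOn_of_deriv_nonneg (convex_Icc _ _)
    · exact ((by fun_prop : Continuous fun x : ℝ => x + x ^ 3 / 6 + 951 / 10000 * x ^ 5).sub
        Real.continuous_arcsin).continuousOn
    · intro x hx
      rw [interior_Icc] at hx
      have hx1 : x ≠ -1 := by linarith [hx.1]
      have hx2 : x ≠ 1 := by linarith [hx.2]
      exact ((by fun_prop : DifferentiableAt ℝ (fun x : ℝ => x + x ^ 3 / 6 + 951 / 10000 * x ^ 5) x).sub
        (Real.hasDerivAt_arcsin hx1 hx2).differentiableAt).differentiableWithinAt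
    · intro x hx
      rw [interior_Icc] at hx
      have hx1 : x ≠ -1 := by linarith [hx.1]
      have hx2 : x ≠ 1 := by linarith [hx.2]
      have hd : HasDerivAt (fun x : ℝ => x + x ^ 3 / 6 + 951 / 10000 * x ^ 5 - Real.arcsin x)
          (1 + 3 * x ^ 2 / 6 + 951 / 10000 * (5 * x ^ 4) - 1 / √(1 - x ^ 2)) x := by
        have e1 : HasDerivAt (fun x : ℝ => x ^ 3 / 6) (3 * x ^ 2 / 6) x := by
          simpa using (hasDerivAt_pow 3 x).div_const 6
        have e2 : HasDerivAt (fun x : ℝ => 951 / 10000 * x ^ 5) (951 / 10000 * (5 * x ^ 4)) x := by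
          simpa using (hasDerivAt_pow 5 x).const_mul (951 / 10000 : ℝ)
        exact (((hasDerivAt_id x).add e1).add e2).sub (Real.hasDerivAt_arcsin hx1 hx2)
      rw [hd.deriv]
      have hu0 : 0 < x ^ 2 := by have := hx.1; positivity
      have hu1 : x ^ 2 ≤ 1 / 4 := by nlinarith [hx.1, hx.2]
      set u := x ^ 2 with hu
      have hs : 0 < √(1 - u) := Real.sqrt_pos.mpr (by linarith)
      have hs2 : √(1 - u) ^ 2 = 1 - u := Real.sq_sqrt (by linarith)
      have e4 : x ^ 4 = u ^ 2 := by rw [hu]; ring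
      rw [e4, sub_nonneg, div_le_iff₀ hs]
      have hq : 0 < 1 + 3 * u / 6 + 951 / 10000 * (5 * u ^ 2) := by positivity
      have key : 1 ≤ (1 + 3 * u / 6 + 951 / 10000 * (5 * u ^ 2)) ^ 2 * (1 - u) := by
        nlinarith [mul_nonneg (sq_nonneg u) (sub_nonneg.mpr hu1),
          mul_nonneg (mul_nonneg (sq_nonneg u) hu0.le) (sub_nonneg.mpr hu1),
          mul_nonneg (mul_nonneg (sq_nonneg u) (sq_nonneg u)) (sub_nonneg.mpr hu1), sq_nonneg u]
      rw [← hs2, ← mul_pow] at key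
      exact (one_le_sq_iff₀ (by positivity)).mp key
  have h := hmono (Set.left_mem_Icc.mpr (by norm_num)) ⟨h0, h1⟩ h0
  simp only [Real.arcsin_zero] at h
  norm_num at h
  linarith

/-- the explicit form of `Jf` -/
lemma Jf_eq (s : ℝ) (h0 : 0 ≤ s) (h1 : s ≤ 1) :
    Jf s = (44 / 25 + 6 / 25 * s ^ 2) * Real.arccos (s / 2) -
      s / 2 * √(1 - (s / 2) ^ 2) * (56 / 25 + 3 / 25 * s ^ 2) := by
  have hc : Real.cos (Real.arccos (s / 2)) = s / 2 :=
    Real.cos_arccos (by linarith) (by linarith)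
  have hs : Real.sin (Real.arccos (s / 2)) = √(1 - (s / 2) ^ 2) := Real.sin_arccos _
  have hsq : √(1 - (s / 2) ^ 2) ^ 2 = 1 - (s / 2) ^ 2 := Real.sq_sqrt (by nlinarith)
  unfold Jf
  have e4 : Real.sin (4 * Real.arccos (s / 2)) =
      4 * √(1 - (s / 2) ^ 2) * (s / 2) * (2 * (s / 2) ^ 2 - 1) := by
    have : 4 * Real.arccos (s / 2) = 2 * (2 * Real.arccos (s / 2)) := by ring
    rw [this, Real.sin_two_mul, Real.sin_two_mul, Real.cos_two_mul, hc, hs]
    ring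
  have e2 : Real.sin (2 * Real.arccos (s / 2)) = 2 * √(1 - (s / 2) ^ 2) * (s / 2) := by
    rw [Real.sin_two_mul, hc, hs]
  rw [e4, e2, hs]
  have e3 : √(1 - (s / 2) ^ 2) ^ 3 = (1 - (s / 2) ^ 2) * √(1 - (s / 2) ^ 2) := by
    rw [pow_succ, hsq]
  rw [e3]
  ring

end INEQWN

open INEQWN in
theorem t_INEQW : S_INEQW := by
  intro s h0 h1
  have hpi := Real.pi_gt_d6
  rw [Jf_eq s h0 h1, Real.arccos_eq_pi_div_two_sub_arcsin]
  have hA := arcsin_le_poly (s / 2) (by linarith) (by linarith)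
  have hS : √(1 - (s / 2) ^ 2) ≤ 1 - (s / 2) ^ 2 / 2 - (s / 2) ^ 4 / 8 := by
    rw [Real.sqrt_le_left (by nlinarith [sq_nonneg s, pow_nonneg h0 4, pow_le_one₀ (n := 4) h0 h1, pow_le_one₀ (n := 2) h0 h1])]
    nlinarith [pow_nonneg h0 6, pow_nonneg h0 8]
  set c := s / 2 with hc
  have hs : s = 2 * c := by rw [hc]; ring
  have hc0 : 0 ≤ c := by linarith
  have hc1 : c ≤ 1 / 2 := by linarith
  rw [hs]
  have hpi0 : Real.pi ≠ 0 := Real.pi_ne_zero
  have e1 : Real.pi / 12 * (19 / 25 + 6 / 25 * (1 / 2 - 4 / Real.pi * (2 * c) + (2 * c) ^ 2)) =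
      Real.pi / 12 * (22 / 25 + 24 / 25 * c ^ 2) - 4 / 25 * c := by
    field_simp
    ring
  rw [e1]
  have hA' := mul_le_mul_of_nonneg_left hA (show (0 : ℝ) ≤ 44 / 25 + 6 / 25 * (2 * c) ^ 2 by positivity)
  have hS' := mul_le_mul_of_nonneg_left hS (show (0 : ℝ) ≤ c * (56 / 25 + 3 / 25 * (2 * c) ^ 2) by positivity)
  have hP : (0 : ℝ) ≤ (Real.pi - 3141592 / 1000000) * (1967 / 15000 + 593 / 625 * c ^ 2) := by
    apply mul_nonneg
    · norm_num at hpi ⊢
      linarith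
    · positivity
  have hpoly : -(3141592 / 1000000) * (1967 / 15000 + 593 / 625 * c ^ 2) +
      (44 / 25 + 6 / 25 * (2 * c) ^ 2) * (c + c ^ 3 / 6 + 951 / 10000 * c ^ 5) / 2 +
      c * (56 / 25 + 3 / 25 * (2 * c) ^ 2) * (1 - c ^ 2 / 2 - c ^ 4 / 8) / 2 + 4 / 25 * c ≤ 0 := by
    have hc5 : c ^ 5 ≤ c ^ 3 / 4 := by
      have : c ^ 2 ≤ 1 / 4 := by nlinarith
      nlinarith [mul_nonneg (pow_nonneg hc0 3) (sub_nonneg.mpr this)]
    nlinarith [sq_nonneg (c - 39 / 100), mul_nonneg hc0 (sq_nonneg (c - 39 / 100)),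
      mul_nonneg (sub_nonneg.mpr hc1) (sq_nonneg (c - 39 / 100)), pow_nonneg hc0 3,
      pow_nonneg hc0 5, pow_nonneg hc0 7]
  nlinarith [hA', hS', hP, hpoly]

end Pool.Agent.H288.HS
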