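import Pool.Agent.H288.HS.Stm4

set_option autoImplicit false

/-!
# HS3-INEQW3: a polynomial inequality (helper120)
-/

namespace Pool.Agent.H288.HS

namespace INEQW3N

/-- the difference of the two sides, divided by `π` -/
theorem poly_nonneg (s : ℝ) (h0 : 0 ≤ s) (h1 : s ≤ 1) :
    0 ≤ 941 / 4500 - 163 / 320 * s + 1243 / 4000 * s ^ 2 + s ^ 3 / 240 + 3 / 1600 * s ^ 5 := by
  have e : 941 / 4500 - 163 / 320 * s + 1243 / 4000 * s ^ 2 + s ^ 3 / 240 + 3 / 1600 * s ^ 5 =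
      1243 / 4000 * (s - 4 / 5) ^ 2 + 1 / 240 * ((s - 4 / 5) ^ 2 * (s + 8 / 5)) +
      3 / 1600 * ((s - 4 / 5) ^ 2 * (s ^ 3 + 8 / 5 * s ^ 2 + 48 / 25 * s + 256 / 125)) +
      (941 / 4500 - 1243 / 4000 * (16 / 25) - 1 / 240 * (128 / 125) - 3 / 1600 * (4096 / 3125) +
        (-163 / 320 + 1243 / 4000 * (8 / 5) + 1 / 240 * (48 / 25) + 3 / 1600 * (256 / 125)) * s) := by
    ring
  rw [e]
  have h2 : 0 ≤ (s - 4 / 5) ^ 2 := sq_nonneg _
  have h3 : 0 ≤ (s - 4 / 5) ^ 2 * (s + 8 / 5) := mul_nonneg h2 (by linarith)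
  have h4 : 0 ≤ (s - 4 / 5) ^ 2 * (s ^ 3 + 8 / 5 * s ^ 2 + 48 / 25 * s + 256 / 125) :=
    mul_nonneg h2 (by positivity)
  have h5 : 0 ≤ 941 / 4500 - 1243 / 4000 * (16 / 25) - 1 / 240 * (128 / 125) -
      3 / 1600 * (4096 / 3125) +
      (-163 / 320 + 1243 / 4000 * (8 / 5) + 1 / 240 * (48 / 25) + 3 / 1600 * (256 / 125)) * s := by
    norm_num
    linarith
  linarith

end INEQW3N

theorem t_INEQW3 : S_INEQW3 := by
  intro s h0 h1
  have h2 := mul_nonneg Real.pi_pos.le (INEQW3N.poly_nonneg s h0 h1)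
  have e : 153 / 200 * (4 / 3 * Real.pi) * (31 / 40 + 9 / 40 * s ^ 2) -
      (91 / 75 * Real.pi - Jf3 s / 2 -
        Real.pi / 12 * (31 / 120 + 9 / 40 * (1 / 5 - s / 2 + s ^ 2 / 3))) =
      Real.pi * (941 / 4500 - 163 / 320 * s + 1243 / 4000 * s ^ 2 + s ^ 3 / 240 +
        3 / 1600 * s ^ 5) := by
    unfold Jf3
    ring
  linarith

end Pool.Agent.H288.HS
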