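import Pool.Agent.H288.HS.Stm2

/-!
# Hard spheres: analytic inverse of an increasing function (INV)
-/

set_option autoImplicit false

open MeasureTheory Set Filter Topology

namespace Pool.Agent.H288.HS

open Set in
theorem t_INV : S_INV := by
  intro C l₁ p hC hl hp hb hm
  set m : ℝ → ℝ := fun s => deriv p s * (1 + C * s) with hm_def
  set h : ℝ → ℝ := fun s => s * deriv p s with hh_def
  have hpos : ∀ s ∈ Ioo 0 l₁, 0 < 1 + C * s := fun s hs => by
    have := mul_nonneg hC hs.1.le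
    linarith
  have hm1 : ∀ s ∈ Ioo 0 l₁, 1 ≤ m s := fun s hs => (hb s hs).1
  have hhm : ∀ s ∈ Ioo 0 l₁, h s = m s * (s / (1 + C * s)) := fun s hs => by
    have h0 : (1 + C * s) ≠ 0 := (hpos s hs).ne'
    simp only [hh_def, hm_def]
    rw [mul_assoc, mul_div_cancel₀ s h0, mul_comm]
  have hq : ∀ s ∈ Ioo 0 l₁, ∀ t ∈ Ioo 0 l₁, s < t → s / (1 + C * s) < t / (1 + C * t) := by
    intro s hs t ht hst
    rw [div_lt_div_iff₀ (hpos s hs) (hpos t ht)]
    nlinarith
  have hstrict : StrictMonoOn h (Ioo 0 l₁) := by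
    intro s hs t ht hst
    rw [hhm s hs, hhm t ht]
    have h1 := hq s hs t ht hst
    have h2 : m s ≤ m t := hm hs ht hst.le
    have h3 : 0 < s / (1 + C * s) := div_pos hs.1 (hpos s hs)
    have h4 := hm1 s hs
    calc m s * (s / (1 + C * s)) < m s * (t / (1 + C * t)) :=
          mul_lt_mul_of_pos_left h1 (by linarith)
      _ ≤ m t * (t / (1 + C * t)) := mul_le_mul_of_nonneg_right h2 (h3.trans h1).le
  refine ⟨hstrict, Function.invFunOn h (Ioo 0 l₁), ?_⟩
  have hana : ∀ s ∈ Ioo 0 l₁, AnalyticAt ℝ h s := fun s hs =>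
    analyticAt_id.mul (hp s hs).deriv
  intro ρ hρ
  -- the preimage exists
  have hex : ∃ s ∈ Ioo 0 l₁, h s = ρ := by
    have hden : 0 < 1 + C * l₁ := by
      have := mul_nonneg hC hl.le
      linarith
    -- a point with h small
    have hρ1 : ρ < l₁ := lt_of_lt_of_le hρ.2 (by
      rw [div_le_iff₀ hden]
      nlinarith [mul_nonneg hC hl.le])
    have hρI : ρ / 2 ∈ Ioo 0 l₁ := ⟨by linarith [hρ.1], by linarith [hρ.1]⟩
    have h1 : h (ρ / 2) ≤ ρ := by
      have := (hb _ hρI).2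
      have h0 : 0 < ρ / 2 := hρI.1
      have : ρ / 2 * deriv p (ρ / 2) ≤ ρ / 2 * 1 := mul_le_mul_of_nonneg_left this h0.le
      simp only [hh_def]
      linarith [hρ.1]
    -- a point with h large
    have hcont : ContinuousAt (fun s : ℝ => s / (1 + C * s)) l₁ := by
      refine ContinuousAt.div continuousAt_id ?_ hden.ne'
      fun_prop
    have hev : ∀ᶠ s in 𝓝 l₁, ρ < s / (1 + C * s) := hcont.eventually_const_lt hρ.2
    have hev2 : ∀ᶠ s in 𝓝[<] l₁, ρ < s / (1 + C * s) := hev.filter_mono nhdsWithin_le_nhds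
    have hev3 : ∀ᶠ s in 𝓝[<] l₁, s ∈ Ioo 0 l₁ := Ioo_mem_nhdsLT hl
    obtain ⟨t, ht1, ht⟩ := (hev2.and hev3).exists
    have h2 : ρ ≤ h t := by
      rw [hhm t ht]
      have h3 : 0 < t / (1 + C * t) := div_pos ht.1 (hpos t ht)
      have h4 := hm1 t ht
      nlinarith
    have hco : ContinuousOn h (Ioo 0 l₁) := fun s hs =>
      (hana s hs).continuousAt.continuousWithinAt
    have hpre : IsPreconnected (Ioo 0 l₁) := isPreconnected_Ioo
    have := hpre.intermediate_value hρI ht hco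
    obtain ⟨s, hs, hs2⟩ := this ⟨h1, h2⟩
    exact ⟨s, hs, hs2⟩
  have hg1 : Function.invFunOn h (Ioo 0 l₁) ρ ∈ Ioo 0 l₁ := Function.invFunOn_mem hex
  have hg2 : h (Function.invFunOn h (Ioo 0 l₁) ρ) = ρ := Function.invFunOn_eq hex
  refine ⟨hg1, hg2, ?_⟩
  set s₀ := Function.invFunOn h (Ioo 0 l₁) ρ with hs₀
  have hder : deriv h s₀ ≠ 0 := by
    have hopen : IsOpen (Ioo 0 l₁) := isOpen_Ioo
    have hmd : DifferentiableAt ℝ m s₀ := by
      have h1 : DifferentiableAt ℝ (deriv p) s₀ := (hp s₀ hg1).deriv.differentiableAt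
      exact h1.mul (by fun_prop)
    have hm0 : 0 ≤ deriv m s₀ := by
      have := hm.derivWithin_nonneg (x := s₀)
      rwa [derivWithin_of_isOpen hopen hg1] at this
    have hqd : HasDerivAt (fun s : ℝ => s / (1 + C * s))
        ((1 * (1 + C * s₀) - s₀ * C) / (1 + C * s₀) ^ 2) s₀ := by
      refine HasDerivAt.div (hasDerivAt_id s₀) ?_ (hpos s₀ hg1).ne'
      simpa using ((hasDerivAt_id s₀).const_mul C).const_add 1
    have hev : h =ᶠ[𝓝 s₀] fun s => m s * (s / (1 + C * s)) := by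
      filter_upwards [hopen.mem_nhds hg1] with s hs
      exact hhm s hs
    have h2 := (hmd.hasDerivAt.mul hqd).congr_of_eventuallyEq hev
    rw [h2.deriv]
    have h3 : 0 < s₀ / (1 + C * s₀) := div_pos hg1.1 (hpos s₀ hg1)
    have h4 := hm1 s₀ hg1
    have h5 : 0 < (1 * (1 + C * s₀) - s₀ * C) / (1 + C * s₀) ^ 2 := by
      have : 1 * (1 + C * s₀) - s₀ * C = 1 := by ring
      rw [this]
      have := hpos s₀ hg1
      positivity
    have h6 : 0 ≤ deriv m s₀ * (s₀ / (1 + C * s₀)) := mul_nonneg hm0 h3.le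
    have h7 : 0 < m s₀ * ((1 * (1 + C * s₀) - s₀ * C) / (1 + C * s₀) ^ 2) :=
      mul_pos (by linarith) h5
    exact (add_pos_of_nonneg_of_pos h6 h7).ne'
  have key := (analyticAt_comp_iff_of_deriv_ne_zero (g := Function.invFunOn h (Ioo 0 l₁))
    (hana s₀ hg1) hder).mp (by
      have hev : (Function.invFunOn h (Ioo 0 l₁) ∘ h) =ᶠ[𝓝 s₀] id := by
        filter_upwards [isOpen_Ioo.mem_nhds hg1] with s hs
        exact hstrict.injOn.leftInvOn_invFunOn hs
      exact analyticAt_id.congr hev.symm)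
  rwa [hg2] at key

end Pool.Agent.H288.HS
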