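import Pool.Agent.H288.HS.Stm2

/-! # LENS2: area of the planar lens -/

set_option autoImplicit false

open MeasureTheory Set Filter Topology

namespace Pool.Agent.H288.HS

namespace LENS2N

/-- the lens of two unit discs at distance 1 -/
def L1 : Set (Fin 2 → ℝ) := {y | y 0 ^ 2 + y 1 ^ 2 < 1 ∧ (y 0 - 1) ^ 2 + y 1 ^ 2 < 1}

/-- half of the height of the lens -/
noncomputable def g (x : ℝ) : ℝ := √(1 - (max x (1 - x)) ^ 2)

theorem int_half : ∫ x in (1 / 2 : ℝ)..1, 2 * √(1 - x ^ 2) = Real.pi / 3 - √3 / 4 := by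
  have hderiv : ∀ x ∈ Ioo (1 / 2 : ℝ) 1,
      HasDerivAt (fun x : ℝ => Real.arcsin x + x * √(1 - x ^ 2)) (2 * √(1 - x ^ 2)) x := by
    rintro x ⟨hx1, hx2⟩
    have hpos : 0 < 1 - x ^ 2 := by nlinarith
    have h1 : HasDerivAt Real.arcsin (1 / √(1 - x ^ 2)) x :=
      Real.hasDerivAt_arcsin (by linarith) (by linarith)
    have h2 : HasDerivAt (fun x : ℝ => 1 - x ^ 2) (-(2 * x)) x := by
      have h := ((hasDerivAt_id' x).pow 2).const_sub (1 : ℝ)
      refine h.congr_deriv ?_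
      norm_num
    have h3 : HasDerivAt (fun x : ℝ => √(1 - x ^ 2)) (-(2 * x) / (2 * √(1 - x ^ 2))) x :=
      h2.sqrt hpos.ne'
    have h4 := h1.add ((hasDerivAt_id' x).mul h3)
    refine h4.congr_deriv ?_
    have hs : 0 < √(1 - x ^ 2) := Real.sqrt_pos.2 hpos
    have hss : √(1 - x ^ 2) * √(1 - x ^ 2) = 1 - x ^ 2 := Real.mul_self_sqrt hpos.le
    field_simp
    nlinarith
  have hcont : Continuous (fun x : ℝ => Real.arcsin x + x * √(1 - x ^ 2)) := by
    have := Real.continuous_arcsin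
    fun_prop
  have hc2 : Continuous fun x : ℝ => 2 * √(1 - x ^ 2) := by fun_prop
  rw [intervalIntegral.integral_eq_sub_of_hasDerivAt_of_le (by norm_num) hcont.continuousOn hderiv
    (hc2.intervalIntegrable _ _)]
  have ha : Real.arcsin (1 / 2) = Real.pi / 6 := by
    rw [← Real.sin_pi_div_six]
    have := Real.pi_pos
    exact Real.arcsin_sin (by linarith) (by linarith)
  have hb : √(1 - (1 / 2 : ℝ) ^ 2) = √3 / 2 := by
    rw [show (1 - (1 / 2 : ℝ) ^ 2) = 3 / 2 ^ 2 by norm_num, Real.sqrt_div' _ (by norm_num),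
      Real.sqrt_sq (by norm_num)]
  rw [ha, hb, Real.arcsin_one]
  norm_num
  ring

theorem int_g : ∫ x in (0 : ℝ)..1, 2 * g x = 2 * Real.pi / 3 - √3 / 2 := by
  have hc : Continuous fun x : ℝ => 2 * g x := by unfold g; fun_prop
  rw [← intervalIntegral.integral_add_adjacent_intervals (hc.intervalIntegrable 0 (1 / 2))
    (hc.intervalIntegrable (1 / 2) 1)]
  have h1 : ∫ x in (1 / 2 : ℝ)..1, 2 * g x = ∫ x in (1 / 2 : ℝ)..1, 2 * √(1 - x ^ 2) := by
    refine intervalIntegral.integral_congr fun x hx => ?_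
    rw [uIcc_of_le (by norm_num)] at hx
    change 2 * √(1 - (max x (1 - x)) ^ 2) = 2 * √(1 - x ^ 2)
    rw [max_eq_left (by linarith [hx.1])]
  have h2 : ∫ x in (0 : ℝ)..(1 / 2), 2 * g x = ∫ x in (0 : ℝ)..(1 / 2), 2 * √(1 - (1 - x) ^ 2) := by
    refine intervalIntegral.integral_congr fun x hx => ?_
    rw [uIcc_of_le (by norm_num)] at hx
    change 2 * √(1 - (max x (1 - x)) ^ 2) = 2 * √(1 - (1 - x) ^ 2)
    rw [max_eq_right (by linarith [hx.2])]
  have h3 : ∫ x in (0 : ℝ)..(1 / 2), 2 * √(1 - (1 - x) ^ 2) =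
      ∫ x in (1 / 2 : ℝ)..1, 2 * √(1 - x ^ 2) := by
    rw [intervalIntegral.integral_comp_sub_left (fun x : ℝ => 2 * √(1 - x ^ 2)) 1]
    norm_num
  rw [h1, h2, h3, int_half]
  ring

theorem L1_sub : L1 ⊆ Set.Icc (fun _ => (-1 : ℝ)) (fun _ => (1 : ℝ)) := by
  intro y hy
  have h0 := hy.1
  constructor
  · intro k
    fin_cases k
    · change -1 ≤ y 0
      nlinarith [sq_nonneg (y 1)]
    · change -1 ≤ y 1
      nlinarith [sq_nonneg (y 0)]
  · intro k
    fin_cases k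
    · change y 0 ≤ 1
      nlinarith [sq_nonneg (y 1)]
    · change y 1 ≤ 1
      nlinarith [sq_nonneg (y 0)]

theorem L1_fin : volume L1 ≠ ⊤ :=
  ((measure_mono L1_sub).trans_lt isCompact_Icc.measure_lt_top).ne

theorem vol_L1 : 2 * Real.pi / 3 - √3 / 2 ≤ volume.real L1 := by
  have hgc : Continuous g := by unfold g; fun_prop
  have hg0 : ∀ x, 0 ≤ g x := fun x => Real.sqrt_nonneg _
  have hint : IntegrableOn g (Ioc (0 : ℝ) 1) :=
    hgc.integrableOn_Icc.mono_set Ioc_subset_Icc_self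
  have h1 : (volume : Measure (ℝ × ℝ)) (regionBetween (fun x => -g x) g (Ioc (0 : ℝ) 1)) =
      ENNReal.ofReal (2 * Real.pi / 3 - √3 / 2) := by
    have h2 := volume_regionBetween_eq_integral (μ := (volume : Measure ℝ)) (hint.neg) hint
      measurableSet_Ioc (fun x _ => neg_le_self (hg0 x))
    have h3 : (∫ y in Ioc (0 : ℝ) 1, (g - -g) y) = 2 * Real.pi / 3 - √3 / 2 := by
      rw [← int_g, intervalIntegral.integral_of_le (by norm_num)]
      refine integral_congr_ae (Filter.Eventually.of_forall fun x => ?_)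
      change g x - -g x = 2 * g x
      ring
    rw [h3] at h2
    exact h2
  have h4 : volume (MeasurableEquiv.finTwoArrow ⁻¹'
      (regionBetween (fun x => -g x) g (Ioc (0 : ℝ) 1)) : Set (Fin 2 → ℝ)) =
      ENNReal.ofReal (2 * Real.pi / 3 - √3 / 2) := by
    rw [(volume_preserving_finTwoArrow ℝ).measure_preimage_equiv, h1]
  have h5 : (MeasurableEquiv.finTwoArrow ⁻¹'
      (regionBetween (fun x => -g x) g (Ioc (0 : ℝ) 1)) : Set (Fin 2 → ℝ)) ⊆ L1 := by
    rintro y ⟨hx, hy⟩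
    have hx0 : 0 < y 0 := hx.1
    have hx1 : y 0 ≤ 1 := hx.2
    have hy1 : -g (y 0) < y 1 := hy.1
    have hy2 : y 1 < g (y 0) := hy.2
    have hm : max (y 0) (1 - y 0) ≤ 1 := max_le hx1 (by linarith)
    have hm0 : 0 ≤ max (y 0) (1 - y 0) := le_max_of_le_left hx0.le
    have hs : 0 ≤ 1 - (max (y 0) (1 - y 0)) ^ 2 := by nlinarith
    have hsq : g (y 0) ^ 2 = 1 - (max (y 0) (1 - y 0)) ^ 2 := Real.sq_sqrt hs
    have hlt : y 1 ^ 2 < g (y 0) ^ 2 := by
      rw [sq_lt_sq, abs_of_nonneg (hg0 _)]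
      exact abs_lt.2 ⟨hy1, hy2⟩
    have ha : y 0 ^ 2 ≤ (max (y 0) (1 - y 0)) ^ 2 :=
      pow_le_pow_left₀ hx0.le (le_max_left _ _) 2
    have hb : (1 - y 0) ^ 2 ≤ (max (y 0) (1 - y 0)) ^ 2 :=
      pow_le_pow_left₀ (by linarith) (le_max_right _ _) 2
    constructor
    · linarith
    · have : (y 0 - 1) ^ 2 = (1 - y 0) ^ 2 := by ring
      linarith
  have h6 := measure_mono (μ := (volume : Measure (Fin 2 → ℝ))) h5
  rw [h4] at h6
  unfold Measure.real
  exact (ENNReal.ofReal_le_iff_le_toReal L1_fin).1 h6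

/-- polar coordinates of `u` -/
theorem polar (R : ℝ) (hR : 0 < R) (u : Fin 2 → ℝ) (hu : ∑ k, u k ^ 2 < R ^ 2) :
    ∃ e₀ e₁ t : ℝ, e₀ ^ 2 + e₁ ^ 2 = 1 ∧ 0 ≤ t ∧ t < 1 ∧ u 0 = t * R * e₀ ∧ u 1 = t * R * e₁ := by
  rw [Fin.sum_univ_two] at hu
  set s : ℝ := √(u 0 ^ 2 + u 1 ^ 2) with hs
  have hs0 : 0 ≤ s := Real.sqrt_nonneg _
  have hss : s ^ 2 = u 0 ^ 2 + u 1 ^ 2 := Real.sq_sqrt (by positivity)
  by_cases h : s = 0
  · rw [h] at hss
    have h0 : u 0 = 0 := by nlinarith [sq_nonneg (u 0), sq_nonneg (u 1)]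
    have h1 : u 1 = 0 := by nlinarith [sq_nonneg (u 0), sq_nonneg (u 1)]
    exact ⟨1, 0, 0, by norm_num, le_rfl, by norm_num, by rw [h0]; ring, by rw [h1]; ring⟩
  · have hsp : 0 < s := lt_of_le_of_ne hs0 (Ne.symm h)
    refine ⟨u 0 / s, u 1 / s, s / R, ?_, by positivity, ?_, ?_, ?_⟩
    · field_simp
      linarith
    · rw [div_lt_one hR]
      nlinarith
    · field_simp
    · field_simp

end LENS2N

open LENS2N

theorem t_LENS2 : S_LENS2 := by
  intro R hR u hu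
  obtain ⟨e₀, e₁, t, he, ht0, ht1, hu0, hu1⟩ := polar R hR u hu
  set M : Matrix (Fin 2) (Fin 2) ℝ := !![R * e₀, -(R * e₁); R * e₁, R * e₀] with hM
  set f : (Fin 2 → ℝ) →ₗ[ℝ] (Fin 2 → ℝ) := Matrix.toLin' M with hf
  have hdet : LinearMap.det f = R ^ 2 := by
    rw [hf, LinearMap.det_toLin', hM, Matrix.det_fin_two_of]
    calc R * e₀ * (R * e₀) - -(R * e₁) * (R * e₁) = R ^ 2 * (e₀ ^ 2 + e₁ ^ 2) := by ring
      _ = R ^ 2 := by rw [he, mul_one]
  have hf0 : ∀ y : Fin 2 → ℝ, f y 0 = R * e₀ * y 0 + -(R * e₁) * y 1 := by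
    intro y
    rw [hf, Matrix.toLin'_apply, hM, Matrix.mulVec, dotProduct, Fin.sum_univ_two]
    simp
  have hf1 : ∀ y : Fin 2 → ℝ, f y 1 = R * e₁ * y 0 + R * e₀ * y 1 := by
    intro y
    rw [hf, Matrix.toLin'_apply, hM, Matrix.mulVec, dotProduct, Fin.sum_univ_two]
    simp
  have hsub : f '' L1 ⊆ Bs 2 R ∩ Bc 2 u R := by
    rintro x ⟨y, hy, rfl⟩
    obtain ⟨hy1, hy2⟩ := hy
    have hR2 : 0 < R ^ 2 := by positivity
    constructor
    · change ∑ k, (f y) k ^ 2 < R ^ 2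
      rw [Fin.sum_univ_two, hf0, hf1]
      have : (R * e₀ * y 0 + -(R * e₁) * y 1) ^ 2 + (R * e₁ * y 0 + R * e₀ * y 1) ^ 2 =
          R ^ 2 * ((e₀ ^ 2 + e₁ ^ 2) * (y 0 ^ 2 + y 1 ^ 2)) := by ring
      rw [this, he, one_mul]
      nlinarith
    · change ∑ k, ((f y) k - u k) ^ 2 < R ^ 2
      rw [Fin.sum_univ_two, hf0, hf1, hu0, hu1]
      have : (R * e₀ * y 0 + -(R * e₁) * y 1 - t * R * e₀) ^ 2 +
          (R * e₁ * y 0 + R * e₀ * y 1 - t * R * e₁) ^ 2 =
          R ^ 2 * ((e₀ ^ 2 + e₁ ^ 2) * ((y 0 - t) ^ 2 + y 1 ^ 2)) := by ring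
      rw [this, he, one_mul]
      have h1 : (y 0 - t) ^ 2 + y 1 ^ 2 < 1 := by
        have h2 : (y 0 - t) ^ 2 + y 1 ^ 2 = (1 - t) * (y 0 ^ 2 + y 1 ^ 2) +
            t * ((y 0 - 1) ^ 2 + y 1 ^ 2) - t * (1 - t) := by ring
        have h3 : (1 - t) * (y 0 ^ 2 + y 1 ^ 2) < (1 - t) * 1 :=
          mul_lt_mul_of_pos_left hy1 (by linarith)
        have h4 : t * ((y 0 - 1) ^ 2 + y 1 ^ 2) ≤ t * 1 := mul_le_mul_of_nonneg_left hy2.le ht0
        have h5 : 0 ≤ t * (1 - t) := mul_nonneg ht0 (by linarith)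
        rw [h2]
        linarith
      nlinarith
  have hfin : volume (Bs 2 R ∩ Bc 2 u R) ≠ ⊤ := by
    have hsub' : Bs 2 R ∩ Bc 2 u R ⊆ Set.Icc (fun _ => -R) (fun _ => R) := by
      rintro x ⟨hx, -⟩
      have hx' : ∑ k, x k ^ 2 < R ^ 2 := hx
      rw [Fin.sum_univ_two] at hx'
      constructor
      · intro k
        fin_cases k
        · change -R ≤ x 0
          nlinarith [sq_nonneg (x 1)]
        · change -R ≤ x 1
          nlinarith [sq_nonneg (x 0)]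
      · intro k
        fin_cases k
        · change x 0 ≤ R
          nlinarith [sq_nonneg (x 1)]
        · change x 1 ≤ R
          nlinarith [sq_nonneg (x 0)]
    exact ((measure_mono hsub').trans_lt isCompact_Icc.measure_lt_top).ne
  have himg : volume.real (f '' L1) = R ^ 2 * volume.real L1 := by
    unfold Measure.real
    rw [Measure.addHaar_image_linearMap, hdet, abs_of_pos (by positivity : (0 : ℝ) < R ^ 2),
      ENNReal.toReal_mul, ENNReal.toReal_ofReal (by positivity)]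
  calc R ^ 2 * (2 * Real.pi / 3 - √3 / 2) ≤ R ^ 2 * volume.real L1 :=
        mul_le_mul_of_nonneg_left vol_L1 (by positivity)
    _ = volume.real (f '' L1) := himg.symm
    _ ≤ volume.real (Bs 2 R ∩ Bc 2 u R) := measureReal_mono hsub hfin

end Pool.Agent.H288.HS
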