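import Pool.Agent.H288.HS.Stm2

/-! `S_LENS3`: the volume of the lens of two balls in `ℝ³`. -/

set_option autoImplicit false

open MeasureTheory Set Filter Topology

namespace Pool.Agent.H288.HS

namespace LENS3N

/-- balls in coordinates -/
theorem Bc_eq {d : ℕ} (u : Fin d → ℝ) {R : ℝ} (hR : 0 < R) :
    Bc d u R = (WithLp.toLp 2 : (Fin d → ℝ) → EuclideanSpace ℝ (Fin d)) ⁻¹'
      Metric.ball (WithLp.toLp 2 u) R := by
  ext x
  simp only [Bc, mem_ofPred_eq, mem_preimage, Metric.mem_ball, EuclideanSpace.dist_eq,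
    Real.sqrt_lt' hR]
  have : ∀ k, dist (x k) (u k) ^ 2 = (x k - u k) ^ 2 := fun k => by
    rw [Real.dist_eq, sq_abs]
  simp only [this]

theorem Bs_eq (d : ℕ) (R : ℝ) : Bs d R = Bc d 0 R := by
  ext x
  simp [Bs, Bc]

theorem vol_lens {d : ℕ} (u : Fin d → ℝ) {R : ℝ} (hR : 0 < R) :
    volume (Bs d R ∩ Bc d u R) =
      volume (Metric.ball (0 : EuclideanSpace ℝ (Fin d)) R ∩ Metric.ball (WithLp.toLp 2 u) R) := by
  rw [Bs_eq, Bc_eq 0 hR, Bc_eq u hR, ← preimage_inter,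
    (PiLp.volume_preserving_toLp (Fin d)).measure_preimage
      (Metric.isOpen_ball.inter Metric.isOpen_ball).measurableSet.nullMeasurableSet]
  rfl

theorem lens_rot {d : ℕ} (v w : EuclideanSpace ℝ (Fin d)) (h : ‖v‖ = ‖w‖) (R : ℝ) :
    volume (Metric.ball (0 : EuclideanSpace ℝ (Fin d)) R ∩ Metric.ball v R) =
      volume (Metric.ball (0 : EuclideanSpace ℝ (Fin d)) R ∩ Metric.ball w R) := by
  have h1 : (Submodule.reflection (Submodule.span ℝ {v - w})ᗮ) v = w := Submodule.reflection_sub h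
  set ρ := Submodule.reflection (Submodule.span ℝ {v - w})ᗮ with hρ
  have h2 := (LinearIsometryEquiv.measurePreserving ρ).measure_preimage
    (Metric.isOpen_ball.inter Metric.isOpen_ball :
      IsOpen (Metric.ball (0 : EuclideanSpace ℝ (Fin d)) R ∩
        Metric.ball w R)).measurableSet.nullMeasurableSet
  rw [← h2]
  congr 1
  ext x
  simp only [mem_inter_iff, Metric.mem_ball, mem_preimage]
  have e1 : dist (ρ x) 0 = dist x 0 := by
    rw [← map_zero ρ, ρ.dist_map, map_zero]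
  have e2 : dist (ρ x) w = dist x v := by
    rw [← h1, ρ.dist_map]
  rw [e1, e2]

theorem disc {s : ℝ} (hs : 0 ≤ s) :
    volume {y : Fin 2 → ℝ | ∑ k, y k ^ 2 < s} = ENNReal.ofReal (Real.pi * s) := by
  have e1 : {y : Fin 2 → ℝ | ∑ k, y k ^ 2 < s} =
      (WithLp.toLp 2 : (Fin 2 → ℝ) → EuclideanSpace ℝ (Fin 2)) ⁻¹' Metric.ball 0 (√s) := by
    ext y
    simp only [mem_ofPred_eq, mem_preimage, Metric.mem_ball, dist_zero_right,
      EuclideanSpace.norm_eq, Real.norm_eq_abs, sq_abs]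
    rw [Real.sqrt_lt_sqrt_iff (Finset.sum_nonneg fun k _ => sq_nonneg _)]
  rw [e1, (PiLp.volume_preserving_toLp (Fin 2)).measure_preimage
      Metric.isOpen_ball.measurableSet.nullMeasurableSet, EuclideanSpace.volume_ball_fin_two,
    ← ENNReal.ofReal_pow (Real.sqrt_nonneg s), Real.sq_sqrt hs, ← ENNReal.ofReal_mul hs, mul_comm]

theorem slab_meas (f : ℝ → ℝ) (hf : Continuous f) (a b : ℝ) :
    MeasurableSet {z : ℝ × (Fin 2 → ℝ) | (a < z.1 ∧ z.1 < b) ∧ ∑ k, z.2 k ^ 2 < f z.1} := by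
  refine IsOpen.measurableSet ?_
  refine IsOpen.inter (IsOpen.inter ?_ ?_) ?_
  · exact isOpen_lt continuous_const continuous_fst
  · exact isOpen_lt continuous_fst continuous_const
  · refine isOpen_lt ?_ (hf.comp continuous_fst)
    fun_prop

theorem slab (f : ℝ → ℝ) (hf : Continuous f) {a b : ℝ} (hab : a ≤ b)
    (hpos : ∀ x ∈ Ioo a b, 0 ≤ f x) :
    volume {z : ℝ × (Fin 2 → ℝ) | (a < z.1 ∧ z.1 < b) ∧ ∑ k, z.2 k ^ 2 < f z.1} =
      ENNReal.ofReal (Real.pi * ∫ x in a..b, f x) := by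
  have hm := slab_meas f hf a b
  rw [Measure.volume_eq_prod, Measure.prod_apply hm]
  have e1 : ∀ x : ℝ, volume (Prod.mk x ⁻¹'
      {z : ℝ × (Fin 2 → ℝ) | (a < z.1 ∧ z.1 < b) ∧ ∑ k, z.2 k ^ 2 < f z.1}) =
      (Ioo a b).indicator (fun x => ENNReal.ofReal (Real.pi * f x)) x := by
    intro x
    by_cases hx : x ∈ Ioo a b
    · rw [indicator_of_mem hx, ← disc (hpos x hx)]
      congr 1
      ext y
      simp only [mem_preimage, mem_ofPred_eq]
      exact ⟨fun h => h.2, fun h => ⟨hx, h⟩⟩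
    · rw [indicator_of_notMem hx]
      have : Prod.mk x ⁻¹'
          {z : ℝ × (Fin 2 → ℝ) | (a < z.1 ∧ z.1 < b) ∧ ∑ k, z.2 k ^ 2 < f z.1} = ∅ := by
        ext y
        simp only [mem_preimage, mem_ofPred_eq, mem_empty_iff_false, iff_false]
        exact fun h => hx h.1
      rw [this, measure_empty]
  simp only [e1]
  rw [lintegral_indicator measurableSet_Ioo, ← intervalIntegral.integral_const_mul,
    intervalIntegral.integral_of_le hab, integral_Ioc_eq_integral_Ioo,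
    ofReal_integral_eq_lintegral_ofReal]
  · exact ((hf.const_mul Real.pi).integrableOn_Icc).mono_set Ioo_subset_Icc_self
  · refine (ae_restrict_iff' measurableSet_Ioo).mpr (Filter.Eventually.of_forall fun x hx => ?_)
    exact mul_nonneg Real.pi_pos.le (hpos x hx)

theorem int1 (R : ℝ) : ∫ x in (R / 2)..R, (R ^ 2 - x ^ 2) = 5 / 24 * R ^ 3 := by
  rw [intervalIntegral.integral_sub (Continuous.intervalIntegrable (by fun_prop) _ _)
    (Continuous.intervalIntegrable (by fun_prop) _ _), intervalIntegral.integral_const,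
    integral_pow]
  simp only [smul_eq_mul]
  norm_num
  ring

theorem int2 (R : ℝ) : ∫ x in (0 : ℝ)..(R / 2), (R ^ 2 - (x - R) ^ 2) = 5 / 24 * R ^ 3 := by
  have e1 : ∀ x : ℝ, R ^ 2 - (x - R) ^ 2 = 2 * R * x - x ^ 2 := fun x => by ring
  simp only [e1]
  rw [intervalIntegral.integral_sub (Continuous.intervalIntegrable (by fun_prop) _ _)
    (Continuous.intervalIntegrable (by fun_prop) _ _), intervalIntegral.integral_const_mul,
    integral_id, integral_pow]
  norm_num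
  ring

/-- the lens in the first direction -/
theorem lens_e {R : ℝ} (hR : 0 < R) :
    ENNReal.ofReal (5 / 12 * Real.pi * R ^ 3) ≤ volume (Bs 3 R ∩ Bc 3 ![R, 0, 0] R) := by
  have hmeas : MeasurableSet (Bs 3 R ∩ Bc 3 ![R, 0, 0] R) := by
    refine (IsOpen.inter ?_ ?_).measurableSet
    · exact isOpen_lt (by fun_prop) continuous_const
    · exact isOpen_lt (by fun_prop) continuous_const
  have h0 := ((volume_preserving_piFinSuccAbove (fun _ : Fin 3 => ℝ) 0).symm _).measure_preimage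
    hmeas.nullMeasurableSet
  rw [← h0]
  set A₁ : Set (ℝ × (Fin 2 → ℝ)) :=
    {z | (R / 2 < z.1 ∧ z.1 < R) ∧ ∑ k, z.2 k ^ 2 < (fun x => R ^ 2 - x ^ 2) z.1} with hA₁
  set A₂ : Set (ℝ × (Fin 2 → ℝ)) :=
    {z | (0 < z.1 ∧ z.1 < R / 2) ∧ ∑ k, z.2 k ^ 2 < (fun x => R ^ 2 - (x - R) ^ 2) z.1} with hA₂
  have v1 : volume A₁ = ENNReal.ofReal (Real.pi * (5 / 24 * R ^ 3)) := by
    rw [hA₁, slab (fun x => R ^ 2 - x ^ 2) (by fun_prop) (by linarith), int1]
    intro x hx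
    have := hx.1; have := hx.2
    show 0 ≤ R ^ 2 - x ^ 2
    nlinarith
  have v2 : volume A₂ = ENNReal.ofReal (Real.pi * (5 / 24 * R ^ 3)) := by
    rw [hA₂, slab (fun x => R ^ 2 - (x - R) ^ 2) (by fun_prop) (by linarith), int2]
    intro x hx
    have := hx.1; have := hx.2
    show 0 ≤ R ^ 2 - (x - R) ^ 2
    nlinarith
  have hdis : Disjoint A₁ A₂ := by
    rw [Set.disjoint_left]
    rintro z ⟨⟨h1, -⟩, -⟩ ⟨⟨-, h2⟩, -⟩
    linarith
  have hm2 : MeasurableSet A₂ :=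
    slab_meas (fun x => R ^ 2 - (x - R) ^ 2) (by fun_prop) 0 (R / 2)
  have hsub : A₁ ∪ A₂ ⊆ (MeasurableEquiv.piFinSuccAbove (fun _ : Fin 3 => ℝ) 0).symm ⁻¹'
      (Bs 3 R ∩ Bc 3 ![R, 0, 0] R) := by
    have hmem : ∀ z : ℝ × (Fin 2 → ℝ), ∑ k, z.2 k ^ 2 < R ^ 2 - z.1 ^ 2 →
        ∑ k, z.2 k ^ 2 < R ^ 2 - (z.1 - R) ^ 2 →
        z ∈ (MeasurableEquiv.piFinSuccAbove (fun _ : Fin 3 => ℝ) 0).symm ⁻¹'
          (Bs 3 R ∩ Bc 3 ![R, 0, 0] R) := by
      intro z h1 h2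
      have e1 : (MeasurableEquiv.piFinSuccAbove (fun _ : Fin 3 => ℝ) 0).symm z =
          Fin.cons (α := fun _ => ℝ) z.1 z.2 := by
        show (0 : Fin 3).insertNth (α := fun _ => ℝ) z.1 z.2 = _
        rw [Fin.insertNth_zero']
      rw [mem_preimage, e1]
      rw [Fin.sum_univ_two] at h1 h2
      refine ⟨?_, ?_⟩
      · show ∑ k : Fin 3, (Fin.cons (α := fun _ => ℝ) z.1 z.2 : Fin 3 → ℝ) k ^ 2 < R ^ 2
        rw [Fin.sum_univ_succ, Fin.sum_univ_two]
        simp only [Fin.cons_zero, Fin.cons_succ]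
        linarith
      · show ∑ k : Fin 3, ((Fin.cons (α := fun _ => ℝ) z.1 z.2 : Fin 3 → ℝ) k -
          (![R, 0, 0] : Fin 3 → ℝ) k) ^ 2 < R ^ 2
        rw [Fin.sum_univ_succ, Fin.sum_univ_two]
        have f1 : (![R, 0, 0] : Fin 3 → ℝ) (Fin.succ 0) = 0 := rfl
        have f2 : (![R, 0, 0] : Fin 3 → ℝ) (Fin.succ 1) = 0 := rfl
        have f0 : (![R, 0, 0] : Fin 3 → ℝ) 0 = R := rfl
        rw [f0, f1, f2]
        simp only [Fin.cons_zero, Fin.cons_succ]
        linarith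
    rintro z (⟨⟨h1, h2⟩, h3⟩ | ⟨⟨h1, h2⟩, h3⟩)
    · exact hmem z h3 (lt_of_lt_of_le h3 (by simp only; nlinarith))
    · exact hmem z (lt_of_lt_of_le h3 (by simp only; nlinarith)) h3
  refine le_trans ?_ (measure_mono hsub)
  rw [measure_union hdis hm2, v1, v2, ← ENNReal.ofReal_add (by positivity) (by positivity)]
  refine ENNReal.ofReal_le_ofReal (le_of_eq ?_)
  ring

end LENS3N

open LENS3N in
theorem t_LENS3 : S_LENS3 := by
  intro R hR u hu
  -- a multiple of length `R`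
  obtain ⟨v, t, ht0, ht1, huv, hv⟩ : ∃ (v : EuclideanSpace ℝ (Fin 3)) (t : ℝ), 0 ≤ t ∧ t ≤ 1 ∧
      (WithLp.toLp 2 u : EuclideanSpace ℝ (Fin 3)) = t • v ∧ ‖v‖ = R := by
    have hnu : ‖(WithLp.toLp 2 u : EuclideanSpace ℝ (Fin 3))‖ < R := by
      rw [EuclideanSpace.norm_eq, Real.sqrt_lt' hR]
      simpa [Real.norm_eq_abs, sq_abs] using hu
    by_cases h0 : (WithLp.toLp 2 u : EuclideanSpace ℝ (Fin 3)) = 0
    · refine ⟨EuclideanSpace.single 0 R, 0, le_rfl, zero_le_one, by rw [h0, zero_smul], ?_⟩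
      rw [PiLp.norm_single, Real.norm_eq_abs, abs_of_pos hR]
    · have hn : 0 < ‖(WithLp.toLp 2 u : EuclideanSpace ℝ (Fin 3))‖ := norm_pos_iff.mpr h0
      refine ⟨(R / ‖(WithLp.toLp 2 u : EuclideanSpace ℝ (Fin 3))‖) • WithLp.toLp 2 u,
        ‖(WithLp.toLp 2 u : EuclideanSpace ℝ (Fin 3))‖ / R, by positivity, ?_, ?_, ?_⟩
      · rw [div_le_one hR]; exact hnu.le
      · rw [smul_smul, div_mul_div_comm, mul_comm, div_self (by positivity), one_smul]
      · rw [norm_smul, Real.norm_eq_abs, abs_of_pos (by positivity), div_mul_cancel₀ _ hn.ne']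
  have hsub : Metric.ball (0 : EuclideanSpace ℝ (Fin 3)) R ∩ Metric.ball v R ⊆
      Metric.ball (0 : EuclideanSpace ℝ (Fin 3)) R ∩ Metric.ball (WithLp.toLp 2 u) R := by
    rintro x ⟨h1, h2⟩
    refine ⟨h1, ?_⟩
    rw [huv]
    have h3 : (0 : EuclideanSpace ℝ (Fin 3)) ∈ Metric.ball x R := by
      rw [Metric.mem_ball, dist_comm]; exact h1
    have h4 : v ∈ Metric.ball x R := by
      rw [Metric.mem_ball, dist_comm]; exact h2
    have h5 : t • v ∈ Metric.ball x R := by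
      have := (convex_ball x R) h3 h4 (sub_nonneg.mpr ht1) ht0 (by ring)
      rwa [smul_zero, zero_add] at this
    rw [Metric.mem_ball, dist_comm]
    exact h5
  have hw : ‖v‖ = ‖(WithLp.toLp 2 (![R, 0, 0] : Fin 3 → ℝ) : EuclideanSpace ℝ (Fin 3))‖ := by
    rw [hv, EuclideanSpace.norm_eq, Fin.sum_univ_three]
    simp [Real.sqrt_sq_eq_abs, abs_of_pos hR]
  have h6 : ENNReal.ofReal (5 / 12 * Real.pi * R ^ 3) ≤ volume (Bs 3 R ∩ Bc 3 u R) := by
    refine (lens_e hR).trans ?_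
    rw [vol_lens _ hR, vol_lens _ hR, ← lens_rot _ _ hw R]
    exact measure_mono hsub
  have hfin : volume (Bs 3 R ∩ Bc 3 u R) ≠ ⊤ := by
    rw [vol_lens _ hR]
    exact ne_top_of_le_ne_top (Metric.isBounded_ball.measure_lt_top).ne
      (measure_mono inter_subset_left)
  exact (ENNReal.ofReal_le_iff_le_toReal hfin).mp h6

end Pool.Agent.H288.HS
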