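import Pool.Agent.H288.HS.Stm2

set_option autoImplicit false

open MeasureTheory Set Filter Topology Pointwise

namespace Pool.Agent.H288.HS.LENSDN

theorem Bs_fin (d : ℕ) {R : ℝ} (hR : 0 < R) : volume (Bs d R) ≠ ⊤ := by
  have hsub : Bs d R ⊆ Metric.ball (0 : Fin d → ℝ) R := by
    intro x hx
    rw [mem_ball_zero_iff, pi_norm_lt_iff hR]
    intro k
    have h1 : x k ^ 2 ≤ ∑ j, x j ^ 2 :=
      Finset.single_le_sum (f := fun j => x j ^ 2) (fun j _ => sq_nonneg _) (Finset.mem_univ k)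
    have h2 : x k ^ 2 < R ^ 2 := lt_of_le_of_lt h1 hx
    rw [Real.norm_eq_abs]
    exact abs_lt_of_sq_lt_sq h2 hR.le
  exact ((measure_mono hsub).trans_lt measure_ball_lt_top).ne

theorem sub {d : ℕ} {R : ℝ} {u : Fin d → ℝ} (hu : ∑ k, u k ^ 2 < R ^ 2) :
    (fun x => (2⁻¹ : ℝ) • u + x) '' ((2⁻¹ : ℝ) • Bs d R) ⊆ Bs d R ∩ Bc d u R := by
  rintro _ ⟨_, ⟨y, hy, rfl⟩, rfl⟩
  have hy' : ∑ k, y k ^ 2 < R ^ 2 := hy
  have hsum : ∑ k, (u k ^ 2 + y k ^ 2) < 2 * R ^ 2 := by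
    rw [Finset.sum_add_distrib]; linarith
  constructor
  · show ∑ k, ((2⁻¹ : ℝ) * u k + (2⁻¹ : ℝ) * y k) ^ 2 < R ^ 2
    have h1 : ∑ k, ((2⁻¹ : ℝ) * u k + (2⁻¹ : ℝ) * y k) ^ 2 ≤ ∑ k, (2⁻¹ : ℝ) * (u k ^ 2 + y k ^ 2) := by
      refine Finset.sum_le_sum fun k _ => ?_
      nlinarith [sq_nonneg (u k - y k)]
    rw [← Finset.mul_sum] at h1
    linarith
  · show ∑ k, ((2⁻¹ : ℝ) * u k + (2⁻¹ : ℝ) * y k - u k) ^ 2 < R ^ 2
    have h1 : ∑ k, ((2⁻¹ : ℝ) * u k + (2⁻¹ : ℝ) * y k - u k) ^ 2 ≤ ∑ k, (2⁻¹ : ℝ) * (u k ^ 2 + y k ^ 2) := by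
      refine Finset.sum_le_sum fun k _ => ?_
      nlinarith [sq_nonneg (u k + y k)]
    rw [← Finset.mul_sum] at h1
    linarith

end Pool.Agent.H288.HS.LENSDN

namespace Pool.Agent.H288.HS

theorem t_LENSD : S_LENSD := by
  intro d R hd hR u hu
  have h1 : volume.real ((fun x => (2⁻¹ : ℝ) • u + x) '' ((2⁻¹ : ℝ) • Bs d R)) = bv d R / 2 ^ d := by
    rw [measureReal_def, Set.image_add_left, measure_preimage_add, Measure.addHaar_smul,
      ENNReal.toReal_mul, ENNReal.toReal_ofReal (abs_nonneg _), Module.finrank_fin_fun,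
      abs_of_nonneg (by positivity), bv, measureReal_def]
    rw [inv_pow]
    ring
  rw [← h1]
  refine measureReal_mono (LENSDN.sub hu) ?_
  exact ne_top_of_le_ne_top (LENSDN.Bs_fin d hR) (measure_mono inter_subset_left)

end Pool.Agent.H288.HS
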