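import Pool.Agent.H288.HS.Stm2

/-!
# Grid points in lenses, uniformly
-/

set_option autoImplicit false

open MeasureTheory Set Filter Topology

namespace Pool.Agent.H288.HS.LENSGN

variable {d : ℕ}

/-- The Euclidean norm of a vector of coordinates. -/
noncomputable def nr (p : Fin d → ℝ) : ℝ := ‖(WithLp.toLp 2 p : EuclideanSpace ℝ (Fin d))‖

lemma nr_sq (p : Fin d → ℝ) : nr p ^ 2 = ∑ k, p k ^ 2 := by
  unfold nr
  rw [EuclideanSpace.norm_sq_eq]
  simp

lemma nr_nonneg (p : Fin d → ℝ) : 0 ≤ nr p := norm_nonneg _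

lemma nr_add_le (p q : Fin d → ℝ) : nr (fun k => p k + q k) ≤ nr p + nr q := by
  unfold nr
  exact norm_add_le (WithLp.toLp 2 p : EuclideanSpace ℝ (Fin d)) (WithLp.toLp 2 q)

lemma nr_smul (c : ℝ) (hc : 0 ≤ c) (p : Fin d → ℝ) : nr (fun k => c * p k) = c * nr p := by
  have h : nr (fun k => c * p k) ^ 2 = (c * nr p) ^ 2 := by
    rw [mul_pow, nr_sq, nr_sq, Finset.mul_sum]
    exact Finset.sum_congr rfl fun k _ => by ring
  exact (sq_eq_sq₀ (nr_nonneg _) (mul_nonneg hc (nr_nonneg _))).mp h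

lemma nr_neg (p : Fin d → ℝ) : nr (fun k => - p k) = nr p := by
  have h : nr (fun k => - p k) ^ 2 = nr p ^ 2 := by
    rw [nr_sq, nr_sq]
    exact Finset.sum_congr rfl fun k _ => by ring
  exact (sq_eq_sq₀ (nr_nonneg _) (nr_nonneg _)).mp h

lemma nr_lt (p : Fin d → ℝ) (r : ℝ) (hr : 0 ≤ r) : ∑ k, p k ^ 2 < r ^ 2 ↔ nr p < r := by
  rw [← nr_sq]
  exact sq_lt_sq₀ (nr_nonneg _) hr

lemma nr_fract (hd : 1 ≤ d) (p : Fin d → ℝ) (hp : ∀ k, |p k| ≤ 1) : nr p ≤ d := by
  have h : nr p ^ 2 ≤ (d : ℝ) ^ 2 := by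
    rw [nr_sq]
    calc ∑ k, p k ^ 2 ≤ ∑ _k : Fin d, (1 : ℝ) := by
          apply Finset.sum_le_sum
          intro k _
          have := hp k
          rw [← sq_abs]
          have h0 := abs_nonneg (p k)
          nlinarith
      _ = d := by simp
      _ ≤ (d : ℝ) ^ 2 := by
          have : (1 : ℝ) ≤ d := by exact_mod_cast hd
          nlinarith
  exact (sq_le_sq₀ (nr_nonneg _) (by positivity)).mp h

/-- the point of the shrunk lens, rounded down -/
lemma in_ball (hd : 1 ≤ d) (R τ : ℝ) (n : ℕ) (hn : 0 < n) (hR : 0 < R) (hτ : 0 ≤ τ) (hτ1 : τ < 1)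
    (hτn : τ * (n * R) = 2 * d) (u p e : Fin d → ℝ) (hu : nr u < R) (hp : nr p < R)
    (he : ∀ k, |e k| ≤ 1) :
    nr (fun k => n * ((1 - τ) * p k + τ * u k / 2) + e k) < n * R := by
  have hn' : (0 : ℝ) < n := by exact_mod_cast hn
  have h1 : nr (fun k => n * ((1 - τ) * p k + τ * u k / 2) + e k) ≤
      nr (fun k => n * ((1 - τ) * p k + τ * u k / 2)) + nr e :=
    nr_add_le (fun k => n * ((1 - τ) * p k + τ * u k / 2)) e
  have h2 : nr (fun k => n * ((1 - τ) * p k + τ * u k / 2)) =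
      n * nr (fun k => (1 - τ) * p k + τ * u k / 2) :=
    nr_smul (n : ℝ) hn'.le (fun k => (1 - τ) * p k + τ * u k / 2)
  have h3 : nr (fun k => (1 - τ) * p k + τ * u k / 2) ≤ (1 - τ) * nr p + τ / 2 * nr u := by
    have h4 := nr_add_le (fun k => (1 - τ) * p k) (fun k => τ / 2 * u k)
    rw [nr_smul (1 - τ) (by linarith) p, nr_smul (τ / 2) (by linarith) u] at h4
    have h5 : (fun k => (1 - τ) * p k + τ * u k / 2) =
        fun k => (fun k => (1 - τ) * p k) k + (fun k => τ / 2 * u k) k := by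
      funext k
      simp only
      ring
    rw [h5]
    exact h4
  have h6 := nr_fract hd e he
  have h7 : (1 - τ) * nr p + τ / 2 * nr u < R * (1 - τ / 2) := by
    have h8 : (1 - τ) * nr p < (1 - τ) * R := mul_lt_mul_of_pos_left hp (by linarith)
    have h9 : τ / 2 * nr u ≤ τ / 2 * R := mul_le_mul_of_nonneg_left hu.le (by linarith)
    nlinarith
  have h10 : n * nr (fun k => (1 - τ) * p k + τ * u k / 2) < n * (R * (1 - τ / 2)) :=
    mul_lt_mul_of_pos_left (lt_of_le_of_lt h3 h7) hn'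
  have h11 : (n : ℝ) * (R * (1 - τ / 2)) = n * R - d := by
    have : (n : ℝ) * (R * (1 - τ / 2)) = n * R - τ * (n * R) / 2 := by ring
    rw [this, hτn]
    ring
  linarith

/-- the set of the grid points is finite -/
lemma fin_ball (R : ℝ) (n : ℕ) (x y : Fin d → ℤ) :
    ({z : Fin d → ℤ | NB d R n x z ∧ NB d R n y z}).Finite := by
  obtain ⟨N, hN⟩ := exists_nat_gt |(n : ℝ) * R|
  apply Set.Finite.subset (Fintype.piFinset
    (fun k => Finset.Icc (x k - (N : ℤ)) (x k + (N : ℤ)))).finite_toSet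
  intro z hz
  rw [Finset.mem_coe, Fintype.mem_piFinset]
  intro k
  have h1 : ∑ k, ((x k : ℝ) - (z k : ℝ)) ^ 2 < (n * R) ^ 2 := hz.1
  have h2 : ((x k : ℝ) - (z k : ℝ)) ^ 2 < (n * R) ^ 2 :=
    lt_of_le_of_lt (Finset.single_le_sum (f := fun k => ((x k : ℝ) - (z k : ℝ)) ^ 2)
      (fun i _ => sq_nonneg _) (Finset.mem_univ k)) h1
  have h3 := sq_lt_sq.mp h2
  have h4 : |(x k : ℝ) - (z k : ℝ)| < N := lt_trans h3 hN
  rw [abs_lt] at h4
  rw [Finset.mem_Icc]
  constructor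
  · have : (x k : ℝ) - N ≤ z k := by linarith [h4.2]
    exact_mod_cast this
  · have : (z k : ℝ) ≤ x k + N := by linarith [h4.1]
    exact_mod_cast this

/-- the volume of the union of the unit cubes attached to finitely many integer points -/
lemma vol_cubes (S : Set (Fin d → ℤ)) (hS : S.Finite) :
    volume {p : Fin d → ℝ | (fun k => ⌊p k⌋) ∈ S} ≤ (S.ncard : ENNReal) := by
  have h1 : {p : Fin d → ℝ | (fun k => ⌊p k⌋) ∈ S} ⊆
      ⋃ z ∈ hS.toFinset, Set.pi Set.univ (fun k => Set.Ico ((z k : ℤ) : ℝ) ((z k : ℝ) + 1)) := by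
    intro p hp
    simp only [Set.mem_iUnion]
    refine ⟨fun k => ⌊p k⌋, (Set.Finite.mem_toFinset hS).mpr hp, ?_⟩
    intro k _
    exact ⟨Int.floor_le _, Int.lt_floor_add_one _⟩
  refine le_trans (measure_mono h1) (le_trans (measure_biUnion_finset_le _ _) ?_)
  have h2 : ∀ z ∈ hS.toFinset,
      volume (Set.pi Set.univ (fun k => Set.Ico ((z k : ℤ) : ℝ) ((z k : ℝ) + 1))) = 1 := by
    intro z _
    rw [Real.volume_pi_Ico]
    simp
  rw [Finset.sum_congr rfl h2]
  simp [Set.ncard_eq_toFinset_card S hS]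

/-- the count for one lens -/
lemma count (hd : 1 ≤ d) (R τ : ℝ) (n : ℕ) (hn : 0 < n) (hR : 0 < R) (hτ : 0 ≤ τ) (hτ1 : τ < 1)
    (hτn : τ * (n * R) = 2 * d) (x y : Fin d → ℤ) (hxy : NB d R n x y) :
    (n * (1 - τ)) ^ d *
      volume.real (Bs d R ∩ Bc d (fun k => ((y k : ℝ) - (x k : ℝ)) / n) R) ≤
    ({z : Fin d → ℤ | NB d R n x z ∧ NB d R n y z}.ncard : ℝ) := by
  have hn' : (0 : ℝ) < n := by exact_mod_cast hn
  have hnR : 0 < (n : ℝ) * R := mul_pos hn' hR
  set u : Fin d → ℝ := fun k => ((y k : ℝ) - (x k : ℝ)) / n with hu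
  set c : ℝ := n * (1 - τ) with hc
  have hc0 : 0 < c := mul_pos hn' (by linarith)
  set a : Fin d → ℝ := fun k => (x k : ℝ) + n * (τ * u k / 2) with ha
  set S : Set (Fin d → ℤ) := {z : Fin d → ℤ | NB d R n x z ∧ NB d R n y z} with hS
  set T : Set (Fin d → ℝ) := {p : Fin d → ℝ | (fun k => ⌊p k⌋) ∈ S} with hT
  have hSf : S.Finite := fin_ball R n x y
  have hTv : volume T ≤ (S.ncard : ENNReal) := vol_cubes S hSf
  have hun : nr u < R := by
    have h1 : ∑ k, ((x k : ℝ) - (y k : ℝ)) ^ 2 < (n * R) ^ 2 := hxy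
    have h2 : nr (fun k => (n : ℝ) * u k) < n * R := by
      rw [← nr_lt _ _ hnR.le]
      refine lt_of_le_of_lt (le_of_eq ?_) h1
      apply Finset.sum_congr rfl
      intro k _
      simp only [hu]
      rw [mul_div_cancel₀ _ hn'.ne']
      ring
    rw [nr_smul (n : ℝ) hn'.le u] at h2
    exact lt_of_mul_lt_mul_left h2 hn'.le
  have hsub : (Bs d R ∩ Bc d u R) ⊆ (fun p : Fin d → ℝ => c • p) ⁻¹' ((fun p => a + p) ⁻¹' T) := by
    intro p hp
    have hp1 : nr p < R := (nr_lt p R hR.le).mp hp.1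
    have hp2 : nr (fun k => p k - u k) < R := (nr_lt (fun k => p k - u k) R hR.le).mp hp.2
    show (fun k => ⌊(a + c • p) k⌋) ∈ S
    set e : Fin d → ℝ := fun k => (⌊(a + c • p) k⌋ : ℝ) - (a + c • p) k with he
    have he1 : ∀ k, |e k| ≤ 1 := by
      intro k
      rw [he, abs_le]
      have h1 := Int.floor_le ((a + c • p) k)
      have h2 := Int.lt_floor_add_one ((a + c • p) k)
      constructor
      · simp only
        linarith
      · simp only
        linarith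
    have hfl : ∀ k, (⌊(a + c • p) k⌋ : ℝ) = (x k : ℝ) + n * (τ * u k / 2) + n * (1 - τ) * p k + e k := by
      intro k
      have h1 : (a + c • p) k = (x k : ℝ) + n * (τ * u k / 2) + n * (1 - τ) * p k := by
        simp only [Pi.add_apply, Pi.smul_apply, smul_eq_mul, ha, hc]
      have h2 : e k = (⌊(a + c • p) k⌋ : ℝ) - (a + c • p) k := rfl
      rw [h2, h1]
      ring
    have hyk : ∀ k, (y k : ℝ) = x k + n * u k := by
      intro k
      simp only [hu]
      rw [mul_div_cancel₀ _ hn'.ne']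
      ring
    constructor
    · show ∑ k, ((x k : ℝ) - ((⌊(a + c • p) k⌋ : ℤ) : ℝ)) ^ 2 < (n * R) ^ 2
      have h1 := in_ball hd R τ n hn hR hτ hτ1 hτn u p e hun hp1 he1
      rw [← nr_lt _ _ hnR.le] at h1
      refine lt_of_le_of_lt (le_of_eq ?_) h1
      apply Finset.sum_congr rfl
      intro k _
      rw [hfl k]
      ring
    · show ∑ k, ((y k : ℝ) - ((⌊(a + c • p) k⌋ : ℤ) : ℝ)) ^ 2 < (n * R) ^ 2
      have h1 := in_ball hd R τ n hn hR hτ hτ1 hτn (fun k => - u k) (fun k => p k - u k) e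
        (by rw [nr_neg]; exact hun) hp2 he1
      rw [← nr_lt _ _ hnR.le] at h1
      refine lt_of_le_of_lt (le_of_eq ?_) h1
      apply Finset.sum_congr rfl
      intro k _
      rw [hfl k, hyk k]
      ring
  have hvol : volume (Bs d R ∩ Bc d u R) ≤ ENNReal.ofReal ((c ^ d)⁻¹ * (S.ncard : ℝ)) := by
    refine le_trans (measure_mono hsub) ?_
    rw [Measure.addHaar_preimage_smul volume hc0.ne', measure_preimage_add]
    rw [ENNReal.ofReal_mul (by positivity), ENNReal.ofReal_natCast]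
    have h1 : |(c ^ Module.finrank ℝ (Fin d → ℝ))⁻¹| = (c ^ d)⁻¹ := by
      rw [Module.finrank_fin_fun, abs_of_pos (by positivity)]
    rw [h1]
    gcongr
  have hreal : volume.real (Bs d R ∩ Bc d u R) ≤ (c ^ d)⁻¹ * (S.ncard : ℝ) := by
    rw [Measure.real]
    exact ENNReal.toReal_le_of_le_ofReal (by positivity) hvol
  have hcd : 0 < c ^ d := by positivity
  calc c ^ d * volume.real (Bs d R ∩ Bc d u R)
      ≤ c ^ d * ((c ^ d)⁻¹ * (S.ncard : ℝ)) := mul_le_mul_of_nonneg_left hreal hcd.le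
    _ = (S.ncard : ℝ) := by
        rw [← mul_assoc, mul_inv_cancel₀ hcd.ne', one_mul]

end Pool.Agent.H288.HS.LENSGN

namespace Pool.Agent.H288.HS

open LENSGN in
theorem t_LENSG : S_LENSG := by
  intro d R q δ hd hR hq hδ hlens
  have hlim : Tendsto (fun n : ℕ => (1 - (2 * d / R) / (n : ℝ)) ^ d * q) atTop (𝓝 q) := by
    have h1 : Tendsto (fun n : ℕ => (2 * d / R) / (n : ℝ)) atTop (𝓝 0) :=
      tendsto_const_div_atTop_nhds_zero_nat _
    have h2 : Tendsto (fun n : ℕ => (1 - (2 * d / R) / (n : ℝ)) ^ d * q) atTop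
        (𝓝 ((1 - 0) ^ d * q)) := ((tendsto_const_nhds.sub h1).pow d).mul_const q
    simpa using h2
  have hev1 : ∀ᶠ n : ℕ in atTop, q - δ < (1 - (2 * d / R) / (n : ℝ)) ^ d * q :=
    hlim.eventually (lt_mem_nhds (by linarith))
  have hev2 : ∀ᶠ n : ℕ in atTop, (2 * d / R) / (n : ℝ) < 1 :=
    (tendsto_const_div_atTop_nhds_zero_nat (2 * d / R)).eventually (gt_mem_nhds one_pos)
  filter_upwards [hev1, hev2, eventually_gt_atTop 0] with n h1 h2 hn x y hxy
  have hn' : (0 : ℝ) < n := by exact_mod_cast hn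
  have hτn : (2 * d / R) / (n : ℝ) * (n * R) = 2 * d := by
    field_simp
  have hcount := count hd R ((2 * d / R) / (n : ℝ)) n hn hR (by positivity) h2 hτn x y hxy
  have hu : ∑ k, ((fun k => ((y k : ℝ) - (x k : ℝ)) / n) k) ^ 2 < R ^ 2 := by
    have h3 : ∑ k, ((x k : ℝ) - (y k : ℝ)) ^ 2 < (n * R) ^ 2 := hxy
    have h4 : ∑ k, ((fun k => ((y k : ℝ) - (x k : ℝ)) / n) k) ^ 2 =
        (∑ k, ((x k : ℝ) - (y k : ℝ)) ^ 2) / n ^ 2 := by
      rw [Finset.sum_div]
      apply Finset.sum_congr rfl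
      intro k _
      simp only
      rw [div_pow]
      congr 1
      ring
    rw [h4, div_lt_iff₀ (by positivity)]
    rw [mul_pow] at h3
    linarith
  have hq' := hlens _ hu
  have hc : (0 : ℝ) ≤ (n * (1 - (2 * d / R) / (n : ℝ))) ^ d :=
    pow_nonneg (mul_nonneg hn'.le (by linarith)) d
  have h5 : (n * (1 - (2 * d / R) / (n : ℝ))) ^ d * q ≤
      ({z : Fin d → ℤ | NB d R n x z ∧ NB d R n y z}.ncard : ℝ) :=
    le_trans (mul_le_mul_of_nonneg_left hq' hc) hcount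
  have h6 : (1 - (2 * d / R) / (n : ℝ)) ^ d * q =
      wt d n * ((n * (1 - (2 * d / R) / (n : ℝ))) ^ d * q) := by
    unfold wt
    rw [mul_pow, ← mul_assoc, ← mul_assoc, one_div, inv_mul_cancel₀ (by positivity), one_mul]
  have hw : 0 ≤ wt d n := by
    unfold wt
    positivity
  calc q - δ ≤ (1 - (2 * d / R) / (n : ℝ)) ^ d * q := h1.le
    _ = wt d n * ((n * (1 - (2 * d / R) / (n : ℝ))) ^ d * q) := h6
    _ ≤ wt d n * ({z : Fin d → ℤ | NB d R n x z ∧ NB d R n y z}.ncard : ℝ) :=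
        mul_le_mul_of_nonneg_left h5 hw

end Pool.Agent.H288.HS
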