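import Pool.Agent.H288.HS.Stm3
import Pool.Agent.H288.HS.T.LENS2

/-! # LENSJ: the integral of a quadratic weight over the planar lens -/

set_option autoImplicit false

open MeasureTheory Set Filter Topology

namespace Pool.Agent.H288.HS

namespace LENSJN

/-- the one-variable integrand -/
noncomputable def G (t x : ℝ) : ℝ :=
  (4 * (19 / 25) + 2 * (6 / 25) * (x ^ 2 + (t - x) ^ 2)) * √(1 - x ^ 2) +
    4 / 3 * (6 / 25) * √(1 - x ^ 2) ^ 3

/-- its primitive after the substitution `x = cos φ` -/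
noncomputable def F (t φ : ℝ) : ℝ :=
  4 * (19 / 25) * ((φ - Real.cos φ * Real.sin φ) / 2) +
  2 * (6 / 25) * (2 * (φ / 8 - Real.sin (4 * φ) / 32) +
    t ^ 2 * ((φ - Real.cos φ * Real.sin φ) / 2) - 2 * t * (Real.sin φ ^ 3 / 3)) +
  4 * (6 / 25) / 3 * (3 * φ / 8 - Real.sin (2 * φ) / 4 + Real.sin (4 * φ) / 32)

theorem F_deriv (t φ : ℝ) (h : 0 ≤ Real.sin φ) :
    HasDerivAt (F t) (G t (Real.cos φ) * Real.sin φ) φ := by
  have hs : √(1 - Real.cos φ ^ 2) = Real.sin φ := by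
    rw [← Real.sin_sq, Real.sqrt_sq h]
  have c2 : Real.cos (2 * φ) = 2 * Real.cos φ ^ 2 - 1 := Real.cos_two_mul φ
  have c4 : Real.cos (4 * φ) = 2 * (2 * Real.cos φ ^ 2 - 1) ^ 2 - 1 := by
    rw [show 4 * φ = 2 * (2 * φ) by ring, Real.cos_two_mul, c2]
  have hsc : Real.sin φ ^ 2 = 1 - Real.cos φ ^ 2 := Real.sin_sq φ
  have d1 : HasDerivAt (fun φ : ℝ => (φ - Real.cos φ * Real.sin φ) / 2)
      ((1 - (-Real.sin φ * Real.sin φ + Real.cos φ * Real.cos φ)) / 2) φ :=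
    ((hasDerivAt_id' φ).sub ((Real.hasDerivAt_cos φ).mul (Real.hasDerivAt_sin φ))).div_const 2
  have d4 : HasDerivAt (fun φ : ℝ => Real.sin (4 * φ)) (Real.cos (4 * φ) * (4 * 1)) φ :=
    ((hasDerivAt_id' φ).const_mul 4).sin
  have d2 : HasDerivAt (fun φ : ℝ => Real.sin (2 * φ)) (Real.cos (2 * φ) * (2 * 1)) φ :=
    ((hasDerivAt_id' φ).const_mul 2).sin
  have d3 : HasDerivAt (fun φ : ℝ => Real.sin φ ^ 3 / 3)
      (((3 : ℕ) : ℝ) * Real.sin φ ^ (3 - 1) * Real.cos φ / 3) φ :=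
    ((Real.hasDerivAt_sin φ).pow 3).div_const 3
  have e1 : HasDerivAt (fun φ : ℝ => φ / 8 - Real.sin (4 * φ) / 32)
      (1 / 8 - Real.cos (4 * φ) * (4 * 1) / 32) φ :=
    ((hasDerivAt_id' φ).div_const 8).sub (d4.div_const 32)
  have e2 : HasDerivAt (fun φ : ℝ => 3 * φ / 8 - Real.sin (2 * φ) / 4 + Real.sin (4 * φ) / 32)
      (3 * 1 / 8 - Real.cos (2 * φ) * (2 * 1) / 4 + Real.cos (4 * φ) * (4 * 1) / 32) φ :=
    ((((hasDerivAt_id' φ).const_mul 3).div_const 8).sub (d2.div_const 4)).add (d4.div_const 32)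
  have e3 := ((d1.const_mul (4 * (19 / 25 : ℝ))).add
    ((((e1.const_mul 2).add (d1.const_mul (t ^ 2))).sub (d3.const_mul (2 * t))).const_mul
      (2 * (6 / 25 : ℝ)))).add (e2.const_mul (4 * (6 / 25 : ℝ) / 3))
  refine e3.congr_deriv ?_
  unfold G
  rw [hs, c2, c4]
  have hs2 : Real.sin φ * Real.sin φ = 1 - Real.cos φ ^ 2 := by rw [← hsc]; ring
  have hs3 : Real.sin φ ^ (3 - 1) = 1 - Real.cos φ ^ 2 := by
    rw [show 3 - 1 = 2 by norm_num, hsc]
  rw [hs3]
  push_cast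
  have g1 : ((4 * (19 / 25) + 2 * (6 / 25) * (Real.cos φ ^ 2 + (t - Real.cos φ) ^ 2)) * Real.sin φ +
    4 / 3 * (6 / 25) * Real.sin φ ^ 3) * Real.sin φ =
      (4 * (19 / 25) + 2 * (6 / 25) * (Real.cos φ ^ 2 + (t - Real.cos φ) ^ 2)) *
        (Real.sin φ * Real.sin φ) + 4 / 3 * (6 / 25) * ((Real.sin φ * Real.sin φ) *
        (Real.sin φ * Real.sin φ)) := by ring
  have g2 : -Real.sin φ * Real.sin φ = -(Real.sin φ * Real.sin φ) := by ring
  rw [g1, g2, hs2]
  ring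

theorem G_cont (t : ℝ) : Continuous (G t) := by
  unfold G
  fun_prop

theorem int_G (t : ℝ) (ht0 : 0 ≤ t) (ht1 : t ≤ 1) : ∫ x in (t / 2)..1, G t x = Jf t := by
  set θ := Real.arccos (t / 2) with hθ
  have hc : Real.cos θ = t / 2 := Real.cos_arccos (by linarith) (by linarith)
  have hθ0 : 0 ≤ θ := Real.arccos_nonneg _
  have hθ1 : θ ≤ Real.pi := Real.arccos_le_pi _
  have h1 : ∫ φ in (0 : ℝ)..θ, (G t ∘ Real.cos) φ * (-Real.sin φ) =
      ∫ x in Real.cos 0..Real.cos θ, G t x := by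
    refine intervalIntegral.integral_comp_mul_deriv (fun x _ => Real.hasDerivAt_cos x)
      (by fun_prop) (G_cont t)
  have h2 : ∫ φ in (0 : ℝ)..θ, G t (Real.cos φ) * Real.sin φ = F t θ - F t 0 := by
    refine intervalIntegral.integral_eq_sub_of_hasDerivAt (fun φ hφ => ?_) ?_
    · rw [uIcc_of_le hθ0] at hφ
      exact F_deriv t φ (Real.sin_nonneg_of_nonneg_of_le_pi hφ.1 (hφ.2.trans hθ1))
    · refine Continuous.intervalIntegrable ?_ _ _
      have := G_cont t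
      fun_prop
  have h3 : ∫ φ in (0 : ℝ)..θ, (G t ∘ Real.cos) φ * (-Real.sin φ) =
      -∫ φ in (0 : ℝ)..θ, G t (Real.cos φ) * Real.sin φ := by
    rw [← intervalIntegral.integral_neg]
    refine intervalIntegral.integral_congr fun φ _ => ?_
    simp only [Function.comp]
    ring
  rw [h3, h2, Real.cos_zero, hc] at h1
  rw [intervalIntegral.integral_symm, ← h1]
  have hF0 : F t 0 = 0 := by
    unfold F
    simp
  rw [hF0]
  unfold F Jf
  rw [hc, ← hθ]
  ring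

/-- the lens -/
def D (t : ℝ) : Set (ℝ × ℝ) := {p | p.1 ^ 2 + p.2 ^ 2 < 1 ∧ (p.1 - t) ^ 2 + p.2 ^ 2 < 1}

/-- the weight -/
noncomputable def fw (p : ℝ × ℝ) : ℝ := 19 / 25 + 6 / 25 * (p.1 ^ 2 + p.2 ^ 2)

/-- half of the height -/
noncomputable def g (t x : ℝ) : ℝ := √(1 - max (x ^ 2) ((x - t) ^ 2))

theorem D_open (t : ℝ) : IsOpen (D t) := by
  unfold D
  refine IsOpen.and ?_ ?_
  · exact isOpen_lt (by fun_prop) (by fun_prop)
  · exact isOpen_lt (by fun_prop) (by fun_prop)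

theorem D_sub (t : ℝ) : D t ⊆ Set.Icc ((-1 : ℝ), (-1 : ℝ)) ((1 : ℝ), (1 : ℝ)) := by
  intro p hp
  have h0 := hp.1
  refine ⟨⟨?_, ?_⟩, ⟨?_, ?_⟩⟩
  · change -1 ≤ p.1
    nlinarith [sq_nonneg p.2]
  · change -1 ≤ p.2
    nlinarith [sq_nonneg p.1]
  · change p.1 ≤ 1
    nlinarith [sq_nonneg p.2]
  · change p.2 ≤ 1
    nlinarith [sq_nonneg p.1]

theorem fw_cont : Continuous fw := by
  unfold fw
  fun_prop

theorem fw_int (t : ℝ) : Integrable ((D t).indicator fw) := by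
  rw [integrable_indicator_iff (D_open t).measurableSet]
  exact (fw_cont.continuousOn.integrableOn_compact isCompact_Icc).mono_set (D_sub t)

theorem fiber (t x : ℝ) (y : ℝ) : (x, y) ∈ D t ↔ y ∈ Ioo (-g t x) (g t x) := by
  have h0 : (x, y) ∈ D t ↔ (x ^ 2 + y ^ 2 < 1 ∧ (x - t) ^ 2 + y ^ 2 < 1) := Iff.rfl
  have h1 : (x ^ 2 + y ^ 2 < 1 ∧ (x - t) ^ 2 + y ^ 2 < 1) ↔
      y ^ 2 < 1 - max (x ^ 2) ((x - t) ^ 2) := by
    constructor
    · rintro ⟨a, b⟩
      rcases le_total (x ^ 2) ((x - t) ^ 2) with h | h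
      · rw [max_eq_right h]
        linarith
      · rw [max_eq_left h]
        linarith
    · intro h
      have ha := le_max_left (x ^ 2) ((x - t) ^ 2)
      have hb := le_max_right (x ^ 2) ((x - t) ^ 2)
      constructor <;> linarith
  rw [h0, h1, mem_Ioo, ← abs_lt, g, Real.lt_sqrt (abs_nonneg y), sq_abs]

theorem g_nonneg (t x : ℝ) : 0 ≤ g t x := Real.sqrt_nonneg _

theorem inner_int (t x : ℝ) : ∫ y, (D t).indicator fw (x, y) =
    2 * (19 / 25 + 6 / 25 * x ^ 2) * g t x + 2 / 3 * (6 / 25) * g t x ^ 3 := by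
  have h1 : (fun y => (D t).indicator fw (x, y)) =
      (Ioo (-g t x) (g t x)).indicator (fun y => fw (x, y)) := by
    funext y
    by_cases h : (x, y) ∈ D t
    · rw [indicator_of_mem h, indicator_of_mem ((fiber t x y).1 h)]
    · rw [indicator_of_notMem h, indicator_of_notMem (fun h' => h ((fiber t x y).2 h'))]
  rw [h1, integral_indicator measurableSet_Ioo, ← integral_Ioc_eq_integral_Ioo,
    ← intervalIntegral.integral_of_le (neg_le_self (g_nonneg t x))]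
  have hd : ∀ y : ℝ, HasDerivAt (fun y : ℝ => (19 / 25 + 6 / 25 * x ^ 2) * y + 6 / 25 * (y ^ 3 / 3))
      (fw (x, y)) y := by
    intro y
    have e1 := ((hasDerivAt_id' y).const_mul (19 / 25 + 6 / 25 * x ^ 2)).add
      ((((hasDerivAt_id' y).pow 3).div_const 3).const_mul (6 / 25 : ℝ))
    refine e1.congr_deriv ?_
    unfold fw
    simp only []
    push_cast
    ring
  rw [intervalIntegral.integral_eq_sub_of_hasDerivAt (fun y _ => hd y)]
  · ring
  · refine Continuous.intervalIntegrable ?_ _ _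
    unfold fw
    fun_prop

theorem g_left (t x : ℝ) (ht : 0 ≤ t) (hx : x ≤ t / 2) : g t x = √(1 - (t - x) ^ 2) := by
  unfold g
  rw [max_eq_right (by nlinarith), show (x - t) ^ 2 = (t - x) ^ 2 by ring]

theorem g_right (t x : ℝ) (ht : 0 ≤ t) (hx : t / 2 ≤ x) : g t x = √(1 - x ^ 2) := by
  unfold g
  rw [max_eq_left (by nlinarith)]

theorem outer_int (t : ℝ) (ht0 : 0 ≤ t) (ht1 : t ≤ 1) :
    ∫ x, (2 * (19 / 25 + 6 / 25 * x ^ 2) * g t x + 2 / 3 * (6 / 25) * g t x ^ 3) = Jf t := by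
  have h0 : ∀ x, x ∉ Ioc (t - 1) 1 →
      2 * (19 / 25 + 6 / 25 * x ^ 2) * g t x + 2 / 3 * (6 / 25) * g t x ^ 3 = 0 := by
    intro x hx
    have hg : g t x = 0 := by
      unfold g
      refine Real.sqrt_eq_zero_of_nonpos ?_
      rw [mem_Ioc, not_and_or, not_lt, not_le] at hx
      rcases hx with hx | hx
      · have h1 := le_max_right (x ^ 2) ((x - t) ^ 2)
        nlinarith
      · have h1 := le_max_left (x ^ 2) ((x - t) ^ 2)
        nlinarith
    rw [hg]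
    ring
  have hgc : Continuous (g t) := by
    unfold g
    fun_prop
  have hc : Continuous fun x => 2 * (19 / 25 + 6 / 25 * x ^ 2) * g t x + 2 / 3 * (6 / 25) * g t x ^ 3 := by
    fun_prop
  rw [← setIntegral_eq_integral_of_forall_compl_eq_zero h0,
    ← intervalIntegral.integral_of_le (by linarith),
    ← intervalIntegral.integral_add_adjacent_intervals (hc.intervalIntegrable (t - 1) (t / 2))
      (hc.intervalIntegrable (t / 2) 1)]
  have h1 : ∫ x in (t - 1)..(t / 2), (2 * (19 / 25 + 6 / 25 * x ^ 2) * g t x +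
      2 / 3 * (6 / 25) * g t x ^ 3) = ∫ x in (t - 1)..(t / 2), (fun x =>
      2 * (19 / 25 + 6 / 25 * (t - x) ^ 2) * √(1 - x ^ 2) + 2 / 3 * (6 / 25) * √(1 - x ^ 2) ^ 3)
        (t - x) := by
    refine intervalIntegral.integral_congr fun x hx => ?_
    rw [uIcc_of_le (by linarith)] at hx
    simp only []
    rw [g_left t x ht0 hx.2, show t - (t - x) = x by ring]
  rw [h1, intervalIntegral.integral_comp_sub_left (fun x =>
      2 * (19 / 25 + 6 / 25 * (t - x) ^ 2) * √(1 - x ^ 2) + 2 / 3 * (6 / 25) * √(1 - x ^ 2) ^ 3) t]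
  rw [show t - t / 2 = t / 2 by ring, show t - (t - 1) = 1 by ring]
  have h2 : ∫ x in (t / 2)..1, (2 * (19 / 25 + 6 / 25 * x ^ 2) * g t x +
      2 / 3 * (6 / 25) * g t x ^ 3) = ∫ x in (t / 2)..1,
      (2 * (19 / 25 + 6 / 25 * x ^ 2) * √(1 - x ^ 2) + 2 / 3 * (6 / 25) * √(1 - x ^ 2) ^ 3) := by
    refine intervalIntegral.integral_congr fun x hx => ?_
    rw [uIcc_of_le (by linarith)] at hx
    rw [g_right t x ht0 hx.1]
  rw [h2, ← intervalIntegral.integral_add, ← int_G t ht0 ht1]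
  · refine intervalIntegral.integral_congr fun x _ => ?_
    simp only [G]
    ring
  · refine Continuous.intervalIntegrable ?_ _ _
    fun_prop
  · refine Continuous.intervalIntegrable ?_ _ _
    fun_prop

theorem planar (t : ℝ) (ht0 : 0 ≤ t) (ht1 : t ≤ 1) : ∫ p in D t, fw p = Jf t := by
  rw [← integral_indicator (D_open t).measurableSet, ← outer_int t ht0 ht1]
  have h := integral_prod (μ := (volume : Measure ℝ)) (ν := (volume : Measure ℝ))
    ((D t).indicator fw) (fw_int t)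
  rw [← Measure.volume_eq_prod] at h
  rw [h]
  refine integral_congr_ae (Filter.Eventually.of_forall fun x => ?_)
  exact inner_int t x

/-- the lens in coordinates -/
def L (t : ℝ) : Set (Fin 2 → ℝ) := {y | y 0 ^ 2 + y 1 ^ 2 < 1 ∧ (y 0 - t) ^ 2 + y 1 ^ 2 < 1}

theorem L_int (t : ℝ) (ht0 : 0 ≤ t) (ht1 : t ≤ 1) :
    ∫ y in L t, (19 / 25 + 6 / 25 * (y 0 ^ 2 + y 1 ^ 2)) = Jf t := by
  have h := (volume_preserving_finTwoArrow ℝ).setIntegral_preimage_emb
    (MeasurableEquiv.measurableEmbedding _) fw (D t)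
  rw [planar t ht0 ht1] at h
  exact h

theorem L_open (t : ℝ) : IsOpen (L t) := by
  unfold L
  refine IsOpen.and ?_ ?_
  · exact isOpen_lt (by fun_prop) (by fun_prop)
  · exact isOpen_lt (by fun_prop) (by fun_prop)

end LENSJN

open LENSJN LENS2N in
theorem t_LENSJ : S_LENSJ := by
  intro R hR u hu
  obtain ⟨e₀, e₁, t, he, ht0, ht1, hu0, hu1⟩ := polar R hR u hu
  have hsq : √(∑ k, u k ^ 2) / R = t := by
    rw [Fin.sum_univ_two, hu0, hu1]
    have h1 : (t * R * e₀) ^ 2 + (t * R * e₁) ^ 2 = (t * R) ^ 2 * (e₀ ^ 2 + e₁ ^ 2) := by ring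
    rw [h1, he, mul_one, Real.sqrt_sq (by positivity)]
    field_simp
  rw [hsq]
  set M : Matrix (Fin 2) (Fin 2) ℝ := !![R * e₀, -(R * e₁); R * e₁, R * e₀] with hM
  set f : (Fin 2 → ℝ) →ₗ[ℝ] (Fin 2 → ℝ) := Matrix.toLin' M with hf
  have hdet : LinearMap.det f = R ^ 2 := by
    rw [hf, LinearMap.det_toLin', hM, Matrix.det_fin_two_of]
    calc R * e₀ * (R * e₀) - -(R * e₁) * (R * e₁) = R ^ 2 * (e₀ ^ 2 + e₁ ^ 2) := by ring
      _ = R ^ 2 := by rw [he, mul_one]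
  have hf0 : ∀ y : Fin 2 → ℝ, f y 0 = R * e₀ * y 0 + -(R * e₁) * y 1 := by
    intro y
    rw [hf, Matrix.toLin'_apply, hM, Matrix.mulVec, dotProduct, Fin.sum_univ_two]
    simp
  have hf1 : ∀ y : Fin 2 → ℝ, f y 1 = R * e₁ * y 0 + R * e₀ * y 1 := by
    intro y
    rw [hf, Matrix.toLin'_apply, hM, Matrix.mulVec, dotProduct, Fin.sum_univ_two]
    simp
  have hR2 : 0 < R ^ 2 := by positivity
  have hn : ∀ y : Fin 2 → ℝ, ∑ k, (f y) k ^ 2 = R ^ 2 * (y 0 ^ 2 + y 1 ^ 2) := by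
    intro y
    rw [Fin.sum_univ_two, hf0, hf1]
    have : (R * e₀ * y 0 + -(R * e₁) * y 1) ^ 2 + (R * e₁ * y 0 + R * e₀ * y 1) ^ 2 =
        R ^ 2 * ((e₀ ^ 2 + e₁ ^ 2) * (y 0 ^ 2 + y 1 ^ 2)) := by ring
    rw [this, he, one_mul]
  have hsub : f '' L t ⊆ Bs 2 R ∩ Bc 2 u R := by
    rintro x ⟨y, hy, rfl⟩
    obtain ⟨hy1, hy2⟩ := hy
    constructor
    · change ∑ k, (f y) k ^ 2 < R ^ 2
      rw [hn]
      nlinarith
    · change ∑ k, ((f y) k - u k) ^ 2 < R ^ 2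
      rw [Fin.sum_univ_two, hf0, hf1, hu0, hu1]
      have : (R * e₀ * y 0 + -(R * e₁) * y 1 - t * R * e₀) ^ 2 +
          (R * e₁ * y 0 + R * e₀ * y 1 - t * R * e₁) ^ 2 =
          R ^ 2 * ((e₀ ^ 2 + e₁ ^ 2) * ((y 0 - t) ^ 2 + y 1 ^ 2)) := by ring
      rw [this, he, one_mul]
      nlinarith
  have hinj : Function.Injective f := by
    have h1 : LinearMap.det f ≠ 0 := by
      rw [hdet]
      exact hR2.ne'
    exact (LinearMap.equivOfDetNeZero f h1).injective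
  set f' : (Fin 2 → ℝ) →L[ℝ] (Fin 2 → ℝ) := LinearMap.toContinuousLinearMap f with hf'
  have hfd : f'.det = R ^ 2 := by
    rw [hf', LinearMap.det_toContinuousLinearMap, hdet]
  have hch := integral_image_eq_integral_abs_det_fderiv_smul (volume : Measure (Fin 2 → ℝ))
    (L_open t).measurableSet (f := fun y => f' y) (f' := fun _ => f')
    (fun y _ => f'.hasFDerivAt.hasFDerivWithinAt) (fun y _ y' _ h => hinj h)
    (fun x => 19 / 25 + 6 / 25 * ((∑ k, x k ^ 2) / R ^ 2))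
  have himg : (fun y => f' y) '' L t = f '' L t := rfl
  rw [himg] at hch
  have hval : ∫ y in L t, |f'.det| • (19 / 25 + 6 / 25 * ((∑ k, (f' y) k ^ 2) / R ^ 2)) =
      R ^ 2 * Jf t := by
    rw [← L_int t ht0 ht1.le, ← integral_const_mul]
    refine integral_congr_ae (Filter.Eventually.of_forall fun y => ?_)
    change |f'.det| • (19 / 25 + 6 / 25 * ((∑ k, (f y) k ^ 2) / R ^ 2)) = _
    rw [hfd, abs_of_pos hR2, hn, smul_eq_mul, mul_div_cancel_left₀ _ hR2.ne']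
  rw [hval] at hch
  rw [← hch]
  have hsub' : Bs 2 R ∩ Bc 2 u R ⊆ Set.Icc (fun _ => -R) (fun _ => R) := by
    rintro x ⟨hx, -⟩
    have hx' : ∑ k, x k ^ 2 < R ^ 2 := hx
    rw [Fin.sum_univ_two] at hx'
    constructor
    · intro k
      fin_cases k
      · change -R ≤ x 0
        nlinarith [sq_nonneg (x 1)]
      · change -R ≤ x 1
        nlinarith [sq_nonneg (x 0)]
    · intro k
      fin_cases k
      · change x 0 ≤ R
        nlinarith [sq_nonneg (x 1)]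
      · change x 1 ≤ R
        nlinarith [sq_nonneg (x 0)]
  have hcont : Continuous fun x : Fin 2 → ℝ => 19 / 25 + 6 / 25 * ((∑ k, x k ^ 2) / R ^ 2) := by
    fun_prop
  refine setIntegral_mono_set ?_ ?_ (Filter.Eventually.of_forall hsub)
  · exact (hcont.continuousOn.integrableOn_compact isCompact_Icc).mono_set hsub'
  · refine Filter.Eventually.of_forall fun x => ?_
    have h1 : 0 ≤ ∑ k, x k ^ 2 := Finset.sum_nonneg fun k _ => sq_nonneg _
    change (0 : ℝ) ≤ 19 / 25 + 6 / 25 * ((∑ k, x k ^ 2) / R ^ 2)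
    positivity

end Pool.Agent.H288.HS
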