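import Pool.Agent.H288.HS.Stm4
import Pool.Agent.H288.HS.T.LENS3

/-! # LENSJ3: the integral of a quadratic weight over the lens in `ℝ³` -/

set_option autoImplicit false

open MeasureTheory Set Filter Topology

namespace Pool.Agent.H288.HS

namespace LENSJ3N

/-- a quadratic weight over the disc, in the Euclidean plane -/
theorem disc_int_E {s : ℝ} (hs : 0 ≤ s) (A B : ℝ) :
    ∫ y in Metric.ball (0 : EuclideanSpace ℝ (Fin 2)) (√s), (A + B * ‖y‖ ^ 2) =
      Real.pi * (A * s + B * s ^ 2 / 2) := by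
  rw [← integral_indicator Metric.isOpen_ball.measurableSet]
  have e1 : ((Metric.ball (0 : EuclideanSpace ℝ (Fin 2)) (√s)).indicator
      fun y => A + B * ‖y‖ ^ 2) = fun y => (Iio (√s)).indicator (fun r => A + B * r ^ 2) ‖y‖ := by
    funext y
    by_cases h : ‖y‖ < √s
    · rw [indicator_of_mem (by simpa using h), indicator_of_mem (mem_Iio.2 h)]
    · rw [indicator_of_notMem (by simpa using h), indicator_of_notMem (fun h' => h (mem_Iio.1 h'))]
  rw [e1, integral_fun_norm_addHaar volume (fun r => (Iio (√s)).indicator (fun r => A + B * r ^ 2) r)]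
  have hfr : Module.finrank ℝ (EuclideanSpace ℝ (Fin 2)) = 2 := by simp
  rw [hfr, measureReal_def, EuclideanSpace.volume_ball_fin_two]
  have e2 : ∫ y in Ioi (0 : ℝ), y ^ (2 - 1) • (Iio (√s)).indicator (fun r => A + B * r ^ 2) y =
      ∫ y in (0 : ℝ)..(√s), (A * y + B * y ^ 3) := by
    rw [intervalIntegral.integral_of_le (Real.sqrt_nonneg s), integral_Ioc_eq_integral_Ioo,
      ← integral_indicator measurableSet_Ioi, ← integral_indicator measurableSet_Ioo]
    refine integral_congr_ae (Filter.Eventually.of_forall fun y => ?_)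
    by_cases h0 : 0 < y
    · rw [indicator_of_mem (mem_Ioi.2 h0)]
      by_cases h1 : y < √s
      · rw [indicator_of_mem (mem_Iio.2 h1), indicator_of_mem (mem_Ioo.2 ⟨h0, h1⟩), smul_eq_mul]
        ring
      · rw [indicator_of_notMem (fun h' => h1 (mem_Iio.1 h')),
          indicator_of_notMem (fun h' => h1 (mem_Ioo.1 h').2), smul_zero]
    · rw [indicator_of_notMem (fun h' => h0 (mem_Ioi.1 h')),
        indicator_of_notMem (fun h' => h0 (mem_Ioo.1 h').1)]
  have e3 : ∫ y in (0 : ℝ)..(√s), (A * y + B * y ^ 3) = A * s / 2 + B * s ^ 2 / 4 := by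
    rw [intervalIntegral.integral_add (Continuous.intervalIntegrable (by fun_prop) _ _)
      (Continuous.intervalIntegrable (by fun_prop) _ _), intervalIntegral.integral_const_mul,
      intervalIntegral.integral_const_mul, integral_id, integral_pow]
    have hsq : √s ^ 2 = s := Real.sq_sqrt hs
    have hsq4 : √s ^ 4 = s ^ 2 := by rw [← hsq]; ring_nf; rw [Real.sqrt_sq (Real.sqrt_nonneg s)]
    norm_num
    rw [hsq, hsq4]
    ring
  rw [e2, e3]
  simp only [ENNReal.ofReal_one, one_pow, one_mul, ENNReal.toReal_ofReal Real.pi_pos.le]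
  simp only [nsmul_eq_mul, smul_eq_mul]
  push_cast
  ring

/-- a quadratic weight over the disc -/
theorem disc_int {s : ℝ} (hs : 0 ≤ s) (A B : ℝ) :
    ∫ y in {y : Fin 2 → ℝ | ∑ k, y k ^ 2 < s}, (A + B * ∑ k, y k ^ 2) =
      Real.pi * (A * s + B * s ^ 2 / 2) := by
  have e1 : {y : Fin 2 → ℝ | ∑ k, y k ^ 2 < s} =
      (WithLp.toLp 2 : (Fin 2 → ℝ) → EuclideanSpace ℝ (Fin 2)) ⁻¹' Metric.ball 0 (√s) := by
    ext y
    simp only [mem_ofPred_eq, mem_preimage, Metric.mem_ball, dist_zero_right,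
      EuclideanSpace.norm_eq, Real.norm_eq_abs, sq_abs]
    rw [Real.sqrt_lt_sqrt_iff (Finset.sum_nonneg fun k _ => sq_nonneg _)]
  have h := (PiLp.volume_preserving_toLp (Fin 2)).setIntegral_preimage_emb
    (MeasurableEquiv.toLp 2 (Fin 2 → ℝ)).measurableEmbedding
    (fun z : EuclideanSpace ℝ (Fin 2) => A + B * ‖z‖ ^ 2) (Metric.ball 0 (√s))
  rw [e1, ← disc_int_E hs A B, ← h]
  refine integral_congr_ae (Filter.Eventually.of_forall fun y => ?_)
  simp only []
  rw [EuclideanSpace.norm_sq_eq]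
  simp only [Real.norm_eq_abs, sq_abs]

/-- the lens -/
def D (R a : ℝ) : Set (ℝ × (Fin 2 → ℝ)) :=
  {z | z.1 ^ 2 + ∑ k, z.2 k ^ 2 < R ^ 2 ∧ (z.1 - a) ^ 2 + ∑ k, z.2 k ^ 2 < R ^ 2}

/-- the weight -/
noncomputable def fw (A B : ℝ) (z : ℝ × (Fin 2 → ℝ)) : ℝ := A + B * (z.1 ^ 2 + ∑ k, z.2 k ^ 2)

/-- the squared radius of the slice -/
noncomputable def S (R a x : ℝ) : ℝ := max 0 (R ^ 2 - max (x ^ 2) ((x - a) ^ 2))

theorem D_open (R a : ℝ) : IsOpen (D R a) := by
  unfold D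
  refine IsOpen.and ?_ ?_
  · exact isOpen_lt (by fun_prop) (by fun_prop)
  · exact isOpen_lt (by fun_prop) (by fun_prop)

theorem D_sub {R : ℝ} (hR : 0 < R) (a : ℝ) :
    D R a ⊆ Set.Icc ((-R : ℝ), fun _ => -R) ((R : ℝ), fun _ => R) := by
  intro z hz
  have h0 := hz.1
  rw [Fin.sum_univ_two] at h0
  refine ⟨⟨?_, fun k => ?_⟩, ⟨?_, fun k => ?_⟩⟩
  · change -R ≤ z.1
    nlinarith [sq_nonneg (z.2 0), sq_nonneg (z.2 1)]
  · change -R ≤ z.2 k
    fin_cases k
    · change -R ≤ z.2 0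
      nlinarith [sq_nonneg z.1, sq_nonneg (z.2 1)]
    · change -R ≤ z.2 1
      nlinarith [sq_nonneg z.1, sq_nonneg (z.2 0)]
  · change z.1 ≤ R
    nlinarith [sq_nonneg (z.2 0), sq_nonneg (z.2 1)]
  · change z.2 k ≤ R
    fin_cases k
    · change z.2 0 ≤ R
      nlinarith [sq_nonneg z.1, sq_nonneg (z.2 1)]
    · change z.2 1 ≤ R
      nlinarith [sq_nonneg z.1, sq_nonneg (z.2 0)]

theorem fw_cont (A B : ℝ) : Continuous (fw A B) := by
  unfold fw
  fun_prop

theorem fw_int {R : ℝ} (hR : 0 < R) (a A B : ℝ) : Integrable ((D R a).indicator (fw A B)) := by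
  rw [integrable_indicator_iff (D_open R a).measurableSet]
  exact ((fw_cont A B).continuousOn.integrableOn_compact isCompact_Icc).mono_set (D_sub hR a)

theorem S_nonneg (R a x : ℝ) : 0 ≤ S R a x := le_max_left _ _

theorem S_cont (R a : ℝ) : Continuous (S R a) := by
  unfold S
  fun_prop

theorem fiber (R a x : ℝ) (y : Fin 2 → ℝ) :
    (x, y) ∈ D R a ↔ y ∈ {y : Fin 2 → ℝ | ∑ k, y k ^ 2 < S R a x} := by
  have hn : 0 ≤ ∑ k, y k ^ 2 := Finset.sum_nonneg fun k _ => sq_nonneg _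
  have h0 : (x, y) ∈ D R a ↔
      (x ^ 2 + ∑ k, y k ^ 2 < R ^ 2 ∧ (x - a) ^ 2 + ∑ k, y k ^ 2 < R ^ 2) := Iff.rfl
  rw [h0, mem_ofPred_eq, S, lt_max_iff]
  have ha := le_max_left (x ^ 2) ((x - a) ^ 2)
  have hb := le_max_right (x ^ 2) ((x - a) ^ 2)
  constructor
  · rintro ⟨p, q⟩
    right
    rcases le_total (x ^ 2) ((x - a) ^ 2) with h | h
    · rw [max_eq_right h]
      linarith
    · rw [max_eq_left h]
      linarith
  · rintro (h | h)
    · linarith
    · constructor <;> linarith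

theorem inner_int (R a A B x : ℝ) : ∫ y, (D R a).indicator (fw A B) (x, y) =
    Real.pi * ((A + B * x ^ 2) * S R a x + B * S R a x ^ 2 / 2) := by
  have h1 : (fun y => (D R a).indicator (fw A B) (x, y)) =
      {y : Fin 2 → ℝ | ∑ k, y k ^ 2 < S R a x}.indicator
        (fun y => (A + B * x ^ 2) + B * ∑ k, y k ^ 2) := by
    funext y
    by_cases h : (x, y) ∈ D R a
    · rw [indicator_of_mem h, indicator_of_mem ((fiber R a x y).1 h)]
      unfold fw
      ring
    · rw [indicator_of_notMem h, indicator_of_notMem (fun h' => h ((fiber R a x y).2 h'))]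
  have hm : MeasurableSet {y : Fin 2 → ℝ | ∑ k, y k ^ 2 < S R a x} :=
    (isOpen_lt (by fun_prop) continuous_const).measurableSet
  rw [h1, integral_indicator hm, disc_int (S_nonneg R a x)]

theorem S_left {R a x : ℝ} (ha : 0 ≤ a) (haR : a ≤ R) (hx1 : a - R ≤ x) (hx : x ≤ a / 2) :
    S R a x = R ^ 2 - (a - x) ^ 2 := by
  unfold S
  rw [max_eq_right (a := x ^ 2) (b := (x - a) ^ 2) (by nlinarith), max_eq_right (by nlinarith)]
  ring

theorem S_right {R a x : ℝ} (ha : 0 ≤ a) (haR : a ≤ R) (hx : a / 2 ≤ x) (hx1 : x ≤ R) :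
    S R a x = R ^ 2 - x ^ 2 := by
  unfold S
  rw [max_eq_left (a := x ^ 2) (b := (x - a) ^ 2) (by nlinarith), max_eq_right (by nlinarith)]

/-- the primitive -/
noncomputable def P (R a A B x : ℝ) : ℝ :=
  2 * A * (R ^ 2 * x - x ^ 3 / 3) +
    B * ((R ^ 4 + a ^ 2 * R ^ 2) * x - a * R ^ 2 * x ^ 2 - a ^ 2 * (x ^ 3 / 3) + 2 * a * (x ^ 4 / 4) -
      x ^ 5 / 5)

theorem P_deriv (R a A B x : ℝ) : HasDerivAt (P R a A B)
    ((2 * A + B * (x ^ 2 + (a - x) ^ 2)) * (R ^ 2 - x ^ 2) + B * (R ^ 2 - x ^ 2) ^ 2) x := by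
  have d1 := hasDerivAt_id' x
  have d2 : HasDerivAt (fun x : ℝ => x ^ 2) (2 * x) x := by
    simpa using hasDerivAt_pow 2 x
  have d3 : HasDerivAt (fun x : ℝ => x ^ 3) (3 * x ^ 2) x := by
    simpa using hasDerivAt_pow 3 x
  have d4 : HasDerivAt (fun x : ℝ => x ^ 4) (4 * x ^ 3) x := by
    simpa using hasDerivAt_pow 4 x
  have d5 : HasDerivAt (fun x : ℝ => x ^ 5) (5 * x ^ 4) x := by
    simpa using hasDerivAt_pow 5 x
  have e := (((d1.const_mul (R ^ 2)).sub (d3.div_const 3)).const_mul (2 * A)).add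
    ((((((d1.const_mul (R ^ 4 + a ^ 2 * R ^ 2)).sub (d2.const_mul (a * R ^ 2))).sub
      ((d3.div_const 3).const_mul (a ^ 2))).add ((d4.div_const 4).const_mul (2 * a))).sub
      (d5.div_const 5)).const_mul B)
  refine e.congr_deriv ?_
  ring

theorem outer_int {R a : ℝ} (hR : 0 < R) (ha : 0 ≤ a) (haR : a ≤ R) (A B : ℝ) :
    ∫ x, (Real.pi * ((A + B * x ^ 2) * S R a x + B * S R a x ^ 2 / 2)) =
      Real.pi * (P R a A B R - P R a A B (a / 2)) := by
  rw [integral_const_mul]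
  congr 1
  have h0 : ∀ x, x ∉ Ioc (a - R) R → (A + B * x ^ 2) * S R a x + B * S R a x ^ 2 / 2 = 0 := by
    intro x hx
    have hg : S R a x = 0 := by
      unfold S
      refine max_eq_left ?_
      rw [mem_Ioc, not_and_or, not_lt, not_le] at hx
      rcases hx with hx | hx
      · have h1 := le_max_right (x ^ 2) ((x - a) ^ 2)
        nlinarith
      · have h1 := le_max_left (x ^ 2) ((x - a) ^ 2)
        nlinarith
    rw [hg]
    ring
  have hSc := S_cont R a
  have hc : Continuous fun x => (A + B * x ^ 2) * S R a x + B * S R a x ^ 2 / 2 := by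
    fun_prop
  rw [← setIntegral_eq_integral_of_forall_compl_eq_zero h0,
    ← intervalIntegral.integral_of_le (by linarith),
    ← intervalIntegral.integral_add_adjacent_intervals (hc.intervalIntegrable (a - R) (a / 2))
      (hc.intervalIntegrable (a / 2) R)]
  have h1 : ∫ x in (a - R)..(a / 2), ((A + B * x ^ 2) * S R a x + B * S R a x ^ 2 / 2) =
      ∫ x in (a - R)..(a / 2), (fun x =>
      (A + B * (a - x) ^ 2) * (R ^ 2 - x ^ 2) + B * (R ^ 2 - x ^ 2) ^ 2 / 2) (a - x) := by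
    refine intervalIntegral.integral_congr fun x hx => ?_
    rw [uIcc_of_le (by linarith)] at hx
    simp only []
    rw [S_left ha haR hx.1 hx.2, show a - (a - x) = x by ring]
  rw [h1, intervalIntegral.integral_comp_sub_left (fun x =>
      (A + B * (a - x) ^ 2) * (R ^ 2 - x ^ 2) + B * (R ^ 2 - x ^ 2) ^ 2 / 2) a]
  rw [show a - a / 2 = a / 2 by ring, show a - (a - R) = R by ring]
  have h2 : ∫ x in (a / 2)..R, ((A + B * x ^ 2) * S R a x + B * S R a x ^ 2 / 2) =
      ∫ x in (a / 2)..R, ((A + B * x ^ 2) * (R ^ 2 - x ^ 2) + B * (R ^ 2 - x ^ 2) ^ 2 / 2) := by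
    refine intervalIntegral.integral_congr fun x hx => ?_
    rw [uIcc_of_le (by linarith)] at hx
    rw [S_right ha haR hx.1 hx.2]
  rw [h2, ← intervalIntegral.integral_add]
  · have h3 : ∫ x in (a / 2)..R,
        ((2 * A + B * (x ^ 2 + (a - x) ^ 2)) * (R ^ 2 - x ^ 2) + B * (R ^ 2 - x ^ 2) ^ 2) =
        P R a A B R - P R a A B (a / 2) := by
      refine intervalIntegral.integral_eq_sub_of_hasDerivAt (fun x _ => P_deriv R a A B x) ?_
      refine Continuous.intervalIntegrable ?_ _ _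
      fun_prop
    rw [← h3]
    refine intervalIntegral.integral_congr fun x _ => ?_
    ring
  · refine Continuous.intervalIntegrable ?_ _ _
    fun_prop
  · refine Continuous.intervalIntegrable ?_ _ _
    fun_prop

theorem prod_int {R a : ℝ} (hR : 0 < R) (ha : 0 ≤ a) (haR : a ≤ R) (A B : ℝ) :
    ∫ z in D R a, fw A B z = Real.pi * (P R a A B R - P R a A B (a / 2)) := by
  rw [← integral_indicator (D_open R a).measurableSet, ← outer_int hR ha haR]
  have h := integral_prod (μ := (volume : Measure ℝ)) (ν := (volume : Measure (Fin 2 → ℝ)))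
    ((D R a).indicator (fw A B)) (fw_int hR a A B)
  rw [← Measure.volume_eq_prod] at h
  rw [h]
  refine integral_congr_ae (Filter.Eventually.of_forall fun x => ?_)
  exact inner_int R a A B x

/-- the lens in the first direction -/
theorem lens_e {R a : ℝ} (hR : 0 < R) (ha : 0 ≤ a) (haR : a ≤ R) (A B : ℝ) :
    ∫ x in Bs 3 R ∩ Bc 3 ![a, 0, 0] R, (A + B * ∑ k, x k ^ 2) =
      Real.pi * (P R a A B R - P R a A B (a / 2)) := by
  have h := (volume_preserving_piFinSuccAbove (fun _ : Fin 3 => ℝ) 0).setIntegral_preimage_emb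
    (MeasurableEquiv.measurableEmbedding _) (fw A B) (D R a)
  rw [prod_int hR ha haR] at h
  rw [← h]
  have hset : Bs 3 R ∩ Bc 3 ![a, 0, 0] R =
      (MeasurableEquiv.piFinSuccAbove (fun _ : Fin 3 => ℝ) 0) ⁻¹' D R a := by
    ext x
    have e1 : (MeasurableEquiv.piFinSuccAbove (fun _ : Fin 3 => ℝ) 0) x =
        (x 0, fun j : Fin 2 => x j.succ) := rfl
    rw [mem_preimage, e1]
    have e2 : x ∈ Bs 3 R ∩ Bc 3 ![a, 0, 0] R ↔ (∑ k, x k ^ 2 < R ^ 2 ∧
      ∑ k, (x k - (![a, 0, 0] : Fin 3 → ℝ) k) ^ 2 < R ^ 2) := Iff.rfl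
    have e3 : (x 0, fun j : Fin 2 => x j.succ) ∈ D R a ↔
      (x 0 ^ 2 + ∑ k : Fin 2, x k.succ ^ 2 < R ^ 2 ∧
        (x 0 - a) ^ 2 + ∑ k : Fin 2, x k.succ ^ 2 < R ^ 2) := Iff.rfl
    rw [e2, e3, Fin.sum_univ_succ, Fin.sum_univ_succ (n := 2)]
    have f0 : (![a, 0, 0] : Fin 3 → ℝ) 0 = a := rfl
    have f1 : ∀ k : Fin 2, (![a, 0, 0] : Fin 3 → ℝ) k.succ = 0 := by
      intro k
      fin_cases k <;> rfl
    simp only [f0, f1, sub_zero]
  rw [hset]
  refine integral_congr_ae (Filter.Eventually.of_forall fun x => ?_)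
  have e1 : (MeasurableEquiv.piFinSuccAbove (fun _ : Fin 3 => ℝ) 0) x =
        (x 0, fun j : Fin 2 => x j.succ) := rfl
  change A + B * ∑ k, x k ^ 2 = fw A B ((MeasurableEquiv.piFinSuccAbove (fun _ : Fin 3 => ℝ) 0) x)
  rw [e1, fw, Fin.sum_univ_succ]

/-- from coordinates to the Euclidean space -/
theorem int_lens {u : Fin 3 → ℝ} {R : ℝ} (hR : 0 < R) (A B : ℝ) :
    ∫ x in Bs 3 R ∩ Bc 3 u R, (A + B * ∑ k, x k ^ 2) =
      ∫ x in Metric.ball (0 : EuclideanSpace ℝ (Fin 3)) R ∩ Metric.ball (WithLp.toLp 2 u) R,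
        (A + B * ‖x‖ ^ 2) := by
  have h := (PiLp.volume_preserving_toLp (Fin 3)).setIntegral_preimage_emb
    (MeasurableEquiv.toLp 2 (Fin 3 → ℝ)).measurableEmbedding
    (fun z : EuclideanSpace ℝ (Fin 3) => A + B * ‖z‖ ^ 2)
    (Metric.ball (0 : EuclideanSpace ℝ (Fin 3)) R ∩ Metric.ball (WithLp.toLp 2 u) R)
  rw [← h, LENS3N.Bs_eq, LENS3N.Bc_eq 0 hR, LENS3N.Bc_eq u hR, ← preimage_inter]
  have e0 : (WithLp.toLp 2 (0 : Fin 3 → ℝ) : EuclideanSpace ℝ (Fin 3)) = 0 := rfl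
  rw [e0]
  refine integral_congr_ae (Filter.Eventually.of_forall fun y => ?_)
  simp only []
  rw [EuclideanSpace.norm_sq_eq]
  simp only [Real.norm_eq_abs, sq_abs]

theorem int_rot (v w : EuclideanSpace ℝ (Fin 3)) (h : ‖v‖ = ‖w‖) (R A B : ℝ) :
    ∫ x in Metric.ball (0 : EuclideanSpace ℝ (Fin 3)) R ∩ Metric.ball v R, (A + B * ‖x‖ ^ 2) =
      ∫ x in Metric.ball (0 : EuclideanSpace ℝ (Fin 3)) R ∩ Metric.ball w R,
        (A + B * ‖x‖ ^ 2) := by
  have h1 : (Submodule.reflection (Submodule.span ℝ {v - w})ᗮ) v = w := Submodule.reflection_sub h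
  set ρ := Submodule.reflection (Submodule.span ℝ {v - w})ᗮ with hρ
  have h2 := (LinearIsometryEquiv.measurePreserving ρ).setIntegral_preimage_emb
    ρ.toHomeomorph.measurableEmbedding
    (fun z : EuclideanSpace ℝ (Fin 3) => A + B * ‖z‖ ^ 2)
    (Metric.ball (0 : EuclideanSpace ℝ (Fin 3)) R ∩ Metric.ball w R)
  rw [← h2]
  have hset : ρ ⁻¹' (Metric.ball (0 : EuclideanSpace ℝ (Fin 3)) R ∩ Metric.ball w R) =
      Metric.ball (0 : EuclideanSpace ℝ (Fin 3)) R ∩ Metric.ball v R := by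
    ext x
    simp only [mem_inter_iff, Metric.mem_ball, mem_preimage]
    have e1 : dist (ρ x) 0 = dist x 0 := by
      rw [← map_zero ρ, ρ.dist_map, map_zero]
    have e2 : dist (ρ x) w = dist x v := by
      rw [← h1, ρ.dist_map]
    rw [e1, e2]
  rw [hset]
  refine integral_congr_ae (Filter.Eventually.of_forall fun y => ?_)
  simp only [LinearIsometryEquiv.norm_map]

end LENSJ3N

open LENSJ3N in
theorem t_LENSJ3 : S_LENSJ3 := by
  intro R hR u hu
  set a := √(∑ k, u k ^ 2) with ha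
  have ha0 : 0 ≤ a := Real.sqrt_nonneg _
  have haR : a ≤ R := by
    rw [ha]
    exact ((Real.sqrt_lt' hR).2 hu).le
  have hval : ∫ x in Bs 3 R ∩ Bc 3 u R, (31 / 40 + 9 / 40 * ((∑ k, x k ^ 2) / R ^ 2)) =
      ∫ x in Bs 3 R ∩ Bc 3 u R, (31 / 40 + 9 / 40 / R ^ 2 * ∑ k, x k ^ 2) := by
    refine integral_congr_ae (Filter.Eventually.of_forall fun y => ?_)
    simp only []
    ring
  have hnorm : ‖(WithLp.toLp 2 u : EuclideanSpace ℝ (Fin 3))‖ =
      ‖(WithLp.toLp 2 (![a, 0, 0] : Fin 3 → ℝ) : EuclideanSpace ℝ (Fin 3))‖ := by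
    rw [EuclideanSpace.norm_eq, EuclideanSpace.norm_eq, Fin.sum_univ_three (fun i =>
      ‖(WithLp.toLp 2 (![a, 0, 0] : Fin 3 → ℝ) : EuclideanSpace ℝ (Fin 3)) i‖ ^ 2)]
    simp only [Real.norm_eq_abs, sq_abs]
    rw [← ha]
    simp [Real.sqrt_sq_eq_abs, abs_of_nonneg ha0]
  rw [hval, int_lens hR, int_rot _ _ hnorm, ← int_lens hR, lens_e hR ha0 haR]
  refine le_of_eq ?_
  unfold P Jf3
  field_simp
  ring

end Pool.Agent.H288.HS
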