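import Pool.Agent.H288.HS.Stm3
import Pool.Agent.H288.HS.T.LENSG

/-!
# Weighted sums over the grid points in lenses, uniformly
-/

set_option autoImplicit false

open MeasureTheory Set Filter Topology

namespace Pool.Agent.H288.HS.LENSWGN

open LENSGN

/-- the unit cube of an integer point -/
def Q (z : Fin 2 → ℤ) : Set (Fin 2 → ℝ) :=
  Set.pi Set.univ (fun k => Set.Ico ((z k : ℤ) : ℝ) ((z k : ℝ) + 1))

lemma mem_Q {z : Fin 2 → ℤ} {p : Fin 2 → ℝ} : p ∈ Q z ↔ z = fun k => ⌊p k⌋ := by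
  constructor
  · intro h
    funext k
    exact (Int.floor_eq_iff.2 (h k (Set.mem_univ k))).symm
  · intro h k _
    rw [h]
    exact ⟨Int.floor_le _, Int.lt_floor_add_one _⟩

lemma meas_Q (z : Fin 2 → ℤ) : MeasurableSet (Q z) :=
  MeasurableSet.univ_pi fun _ => measurableSet_Ico

lemma vol_Q (z : Fin 2 → ℤ) : volume (Q z) = 1 := by
  unfold Q
  rw [Real.volume_pi_Ico]
  simp

/-- the sum over the grid as an integral -/
lemma grid (S : Finset (Fin 2 → ℤ)) (G : (Fin 2 → ℤ) → ℝ) (hG : ∀ z ∉ S, G z = 0) :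
    Integrable (fun p : Fin 2 → ℝ => G (fun k => ⌊p k⌋)) ∧
      ∫ p : Fin 2 → ℝ, G (fun k => ⌊p k⌋) = ∑' z, G z := by
  have h : (fun p : Fin 2 → ℝ => G (fun k => ⌊p k⌋)) =
      fun p => ∑ z ∈ S, (Q z).indicator (fun _ => G z) p := by
    funext p
    have h1 : ∀ z ∈ S, (Q z).indicator (fun _ => G z) p =
        if z = (fun k => ⌊p k⌋) then G z else 0 := by
      intro z _
      by_cases hz : z = fun k => ⌊p k⌋
      · rw [if_pos hz, Set.indicator_of_mem (mem_Q.2 hz)]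
      · rw [if_neg hz, Set.indicator_of_notMem (fun h => hz (mem_Q.1 h))]
    rw [Finset.sum_congr rfl h1, Finset.sum_ite_eq' S (fun k => ⌊p k⌋)]
    split_ifs with h2
    · rfl
    · exact hG _ h2
  have hint : ∀ z, Integrable ((Q z).indicator (fun _ => G z)) := by
    intro z
    rw [integrable_indicator_iff (meas_Q z)]
    refine integrableOn_const ?_
    rw [vol_Q]
    exact ENNReal.one_ne_top
  rw [h]
  refine ⟨integrable_finsetSum _ fun z _ => hint z, ?_⟩
  rw [integral_finsetSum _ fun z _ => hint z, tsum_eq_sum (fun z hz => hG z hz)]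
  refine Finset.sum_congr rfl fun z _ => ?_
  rw [integral_indicator (meas_Q z), setIntegral_const, Measure.real, vol_Q]
  simp

/-- the weight -/
noncomputable def ph (R : ℝ) (q : Fin 2 → ℝ) : ℝ := 19 / 25 + 6 / 25 * ((∑ k, q k ^ 2) / R ^ 2)

lemma ph_cont (R : ℝ) : Continuous (ph R) := by
  unfold ph
  fun_prop

lemma ph_nonneg (R : ℝ) (q : Fin 2 → ℝ) : 0 ≤ ph R q := by
  unfold ph
  have : 0 ≤ ∑ k, q k ^ 2 := Finset.sum_nonneg fun k _ => sq_nonneg _
  positivity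

lemma ph_le (R : ℝ) (hR : 0 < R) (q : Fin 2 → ℝ) (hq : q ∈ Bs 2 R) : ph R q ≤ 1 := by
  unfold ph
  have h1 : ∑ k, q k ^ 2 < R ^ 2 := hq
  have h2 : (∑ k, q k ^ 2) / R ^ 2 ≤ 1 := by
    rw [div_le_one (by positivity)]
    exact h1.le
  linarith

lemma Bs_sub (R : ℝ) : Bs 2 R ⊆ Metric.closedBall (0 : Fin 2 → ℝ) |R| := by
  intro q hq
  have h1 : ∑ k, q k ^ 2 < R ^ 2 := hq
  rw [mem_closedBall_zero_iff, pi_norm_le_iff_of_nonneg (abs_nonneg R)]
  intro k
  have h2 : q k ^ 2 ≤ ∑ k, q k ^ 2 :=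
    Finset.single_le_sum (f := fun k => q k ^ 2) (fun i _ => sq_nonneg _) (Finset.mem_univ k)
  rw [Real.norm_eq_abs]
  exact sq_le_sq.1 (h2.trans h1.le)

lemma meas_Bs (R : ℝ) : MeasurableSet (Bs 2 R) :=
  (isOpen_lt (by fun_prop : Continuous fun q : Fin 2 → ℝ => ∑ k, q k ^ 2)
    continuous_const).measurableSet

lemma meas_Bc (u : Fin 2 → ℝ) (R : ℝ) : MeasurableSet (Bc 2 u R) :=
  (isOpen_lt (by fun_prop : Continuous fun q : Fin 2 → ℝ => ∑ k, (q k - u k) ^ 2)
    continuous_const).measurableSet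

lemma vol_Bs (R : ℝ) : volume (Bs 2 R) ≠ ⊤ :=
  ne_top_of_le_ne_top (isCompact_closedBall (0 : Fin 2 → ℝ) |R|).measure_lt_top.ne
    (measure_mono (Bs_sub R))

/-- the pointwise bound of the weight -/
lemma wbound (R τ : ℝ) (n : ℕ) (hn : 0 < n) (hR : 0 < R) (hτ : 0 ≤ τ)
    (hτn : τ * (n * R) = 4) (u q e : Fin 2 → ℝ) (hu : nr u < R) (hq : nr q < R)
    (he : ∀ k, |e k| ≤ 1) :
    ph R q - 96 / (25 * R * n) ≤ 19 / 25 + 6 / 25 *
      ((∑ k, (n * ((1 - τ) * q k + τ * u k / 2) + e k) ^ 2) / (n * R) ^ 2) := by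
  have hn' : (0 : ℝ) < n := by exact_mod_cast hn
  have hnR : 0 < (n : ℝ) * R := mul_pos hn' hR
  obtain ⟨w, hw⟩ : ∃ w : Fin 2 → ℝ, w = fun k => n * ((1 - τ) * q k + τ * u k / 2) + e k :=
    ⟨_, rfl⟩
  have e1 : ∑ k, (n * ((1 - τ) * q k + τ * u k / 2) + e k) ^ 2 = nr w ^ 2 := by
    rw [nr_sq, hw]
  rw [e1]
  -- `n q = w + v`
  obtain ⟨v, hv⟩ : ∃ v : Fin 2 → ℝ, v = fun k => (n * τ) * q k + ((n * τ / 2) * (-u k) + (-e k)) :=
    ⟨_, rfl⟩
  have h1 : n * nr q ≤ nr w + nr v := by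
    have h2 : (fun k => (n : ℝ) * q k) = fun k => w k + v k := by
      funext k
      rw [hw, hv]
      simp only
      ring
    rw [← nr_smul (n : ℝ) hn'.le q, h2]
    exact nr_add_le w v
  have h3 : nr v ≤ 8 := by
    have hτn0 : 0 ≤ n * τ := by positivity
    have h4 : nr v ≤ nr (fun k => (n * τ) * q k) + nr (fun k => (n * τ / 2) * (-u k) + (-e k)) := by
      rw [hv]
      exact nr_add_le (fun k => (n * τ) * q k) (fun k => (n * τ / 2) * (-u k) + (-e k))
    have h5 : nr (fun k => (n * τ / 2) * (-u k) + (-e k)) ≤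
        nr (fun k => (n * τ / 2) * (-u k)) + nr (fun k => -e k) :=
      nr_add_le (fun k => (n * τ / 2) * (-u k)) (fun k => -e k)
    have h6 : nr (fun k => (n * τ) * q k) = n * τ * nr q := nr_smul _ hτn0 q
    have h7 : nr (fun k => (n * τ / 2) * (-u k)) = n * τ / 2 * nr u := by
      rw [nr_smul (n * τ / 2) (by positivity) (fun k => -u k), nr_neg]
    have h8 : nr (fun k => -e k) ≤ 2 := by
      rw [nr_neg]
      have := nr_fract (by norm_num) e he
      simpa using this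
    have h9 : n * τ * nr q ≤ 4 := by
      calc n * τ * nr q ≤ n * τ * R := mul_le_mul_of_nonneg_left hq.le hτn0
        _ = 4 := by rw [← hτn]; ring
    have h10 : n * τ / 2 * nr u ≤ 2 := by
      calc n * τ / 2 * nr u ≤ n * τ / 2 * R :=
            mul_le_mul_of_nonneg_left hu.le (by positivity)
        _ = 2 := by
            have : n * τ / 2 * R = τ * (n * R) / 2 := by ring
            rw [this, hτn]
            norm_num
    linarith
  have hq0 := nr_nonneg q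
  have hw0 := nr_nonneg w
  have h11 : (n * nr q) ^ 2 - 16 * (n * nr q) ≤ nr w ^ 2 := by
    by_cases h12 : n * nr q ≤ 8
    · have : 0 ≤ n * nr q := by positivity
      nlinarith
    · push Not at h12
      have h13 : n * nr q - 8 ≤ nr w := by linarith
      nlinarith
  have h14 : (n * nr q) ^ 2 - 16 * (n * R) ≤ nr w ^ 2 := by
    have : n * nr q ≤ n * R := mul_le_mul_of_nonneg_left hq.le hn'.le
    linarith
  have h15 : nr q ^ 2 / R ^ 2 - 16 / (n * R) ≤ nr w ^ 2 / (n * R) ^ 2 := by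
    rw [le_div_iff₀ (by positivity)]
    calc (nr q ^ 2 / R ^ 2 - 16 / (n * R)) * (n * R) ^ 2 = (n * nr q) ^ 2 - 16 * (n * R) := by
          field_simp
      _ ≤ _ := h14
  unfold ph
  rw [← nr_sq]
  have h16 : 96 / (25 * R * n) = 6 / 25 * (16 / (n * R)) := by
    field_simp
    norm_num
  rw [h16]
  linarith

/-- the sum for one lens -/
lemma wsum (R τ : ℝ) (n : ℕ) (hn : 0 < n) (hR : 0 < R) (hτ : 0 ≤ τ) (hτ1 : τ < 1)
    (hτn : τ * (n * R) = 4) (x y : Fin 2 → ℤ) (hxy : NB 2 R n x y) (G : (Fin 2 → ℤ) → ℝ)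
    (hG1 : ∀ z, NB 2 R n y z ∧ NB 2 R n x z → G z = gw R n y z)
    (hG0 : ∀ z, ¬ (NB 2 R n y z ∧ NB 2 R n x z) → G z = 0) :
    (n * (1 - τ)) ^ 2 *
      (∫ q in Bs 2 R ∩ Bc 2 (fun k => ((x k : ℝ) - (y k : ℝ)) / n) R,
        (ph R q - 96 / (25 * R * n))) ≤ ∑' z, G z := by
  have hn' : (0 : ℝ) < n := by exact_mod_cast hn
  have hnR : 0 < (n : ℝ) * R := mul_pos hn' hR
  set u : Fin 2 → ℝ := fun k => ((x k : ℝ) - (y k : ℝ)) / n with hu
  set c : ℝ := n * (1 - τ) with hc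
  have hc0 : 0 < c := mul_pos hn' (by linarith)
  set a : Fin 2 → ℝ := fun k => (y k : ℝ) + n * (τ * u k / 2) with ha
  have hSf : ({z : Fin 2 → ℤ | NB 2 R n y z ∧ NB 2 R n x z}).Finite := fin_ball R n y x
  obtain ⟨hHi, hHs⟩ := grid hSf.toFinset G (fun z hz => hG0 z (by
    rw [Set.Finite.mem_toFinset] at hz
    exact hz))
  obtain ⟨H, hH⟩ : ∃ H : (Fin 2 → ℝ) → ℝ, H = fun p => G (fun k => ⌊p k⌋) := ⟨_, rfl⟩
  rw [← hH] at hHi
  have hHs' : ∫ p, H p = ∑' z, G z := by rw [hH]; exact hHs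
  have hG : ∀ z, 0 ≤ G z := by
    intro z
    by_cases hz : NB 2 R n y z ∧ NB 2 R n x z
    · rw [hG1 z hz]
      unfold gw
      have : 0 ≤ ∑ k, ((z k : ℝ) - (y k : ℝ)) ^ 2 := Finset.sum_nonneg fun k _ => sq_nonneg _
      positivity
    · rw [hG0 z hz]
  have hH0 : ∀ p, 0 ≤ H p := fun p => by rw [hH]; exact hG _
  have hun : nr u < R := by
    have h1 : ∑ k, ((x k : ℝ) - (y k : ℝ)) ^ 2 < (n * R) ^ 2 := hxy
    have h2 : nr (fun k => (n : ℝ) * u k) < n * R := by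
      rw [← nr_lt _ _ hnR.le]
      refine lt_of_le_of_lt (le_of_eq ?_) h1
      apply Finset.sum_congr rfl
      intro k _
      simp only [hu]
      rw [mul_div_cancel₀ _ hn'.ne']
    rw [nr_smul (n : ℝ) hn'.le u] at h2
    exact lt_of_mul_lt_mul_left h2 hn'.le
  -- the pointwise bound
  have hpt : ∀ q ∈ Bs 2 R ∩ Bc 2 u R, ph R q - 96 / (25 * R * n) ≤ H (a + c • q) := by
    intro q hq
    have hp1 : nr q < R := (nr_lt q R hR.le).mp hq.1
    have hp2 : nr (fun k => q k - u k) < R := (nr_lt (fun k => q k - u k) R hR.le).mp hq.2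
    set e : Fin 2 → ℝ := fun k => (⌊(a + c • q) k⌋ : ℝ) - (a + c • q) k with he
    have he1 : ∀ k, |e k| ≤ 1 := by
      intro k
      rw [he, abs_le]
      have h1 := Int.floor_le ((a + c • q) k)
      have h2 := Int.lt_floor_add_one ((a + c • q) k)
      constructor
      · simp only
        linarith
      · simp only
        linarith
    have hfl : ∀ k, (⌊(a + c • q) k⌋ : ℝ) =
        (y k : ℝ) + n * (τ * u k / 2) + n * (1 - τ) * q k + e k := by
      intro k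
      have h1 : (a + c • q) k = (y k : ℝ) + n * (τ * u k / 2) + n * (1 - τ) * q k := by
        simp only [Pi.add_apply, Pi.smul_apply, smul_eq_mul, ha, hc]
      have h2 : e k = (⌊(a + c • q) k⌋ : ℝ) - (a + c • q) k := rfl
      rw [h2, h1]
      ring
    have hxk : ∀ k, (x k : ℝ) = y k + n * u k := by
      intro k
      simp only [hu]
      rw [mul_div_cancel₀ _ hn'.ne']
      ring
    have hτn2 : τ * (n * R) = 2 * ((2 : ℕ) : ℝ) := by rw [hτn]; norm_num
    have hmem : NB 2 R n y (fun k => ⌊(a + c • q) k⌋) ∧ NB 2 R n x (fun k => ⌊(a + c • q) k⌋) := by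
      constructor
      · show ∑ k, ((y k : ℝ) - ((⌊(a + c • q) k⌋ : ℤ) : ℝ)) ^ 2 < (n * R) ^ 2
        have h1 := in_ball (by norm_num) R τ n hn hR hτ hτ1 hτn2 u q e hun hp1 he1
        rw [← nr_lt _ _ hnR.le] at h1
        refine lt_of_le_of_lt (le_of_eq ?_) h1
        apply Finset.sum_congr rfl
        intro k _
        rw [hfl k]
        ring
      · show ∑ k, ((x k : ℝ) - ((⌊(a + c • q) k⌋ : ℤ) : ℝ)) ^ 2 < (n * R) ^ 2
        have h1 := in_ball (by norm_num) R τ n hn hR hτ hτ1 hτn2 (fun k => - u k)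
          (fun k => q k - u k) e (by rw [nr_neg]; exact hun) hp2 he1
        rw [← nr_lt _ _ hnR.le] at h1
        refine lt_of_le_of_lt (le_of_eq ?_) h1
        apply Finset.sum_congr rfl
        intro k _
        rw [hfl k, hxk k]
        ring
    have h1 : H (a + c • q) = gw R n y (fun k => ⌊(a + c • q) k⌋) := by
      rw [hH]
      exact hG1 _ hmem
    rw [h1]
    unfold gw
    have h2 : ∑ k, (((⌊(a + c • q) k⌋ : ℤ) : ℝ) - (y k : ℝ)) ^ 2 =
        ∑ k, (n * ((1 - τ) * q k + τ * u k / 2) + e k) ^ 2 := by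
      refine Finset.sum_congr rfl fun k _ => ?_
      rw [hfl k]
      ring
    rw [h2]
    exact wbound R τ n hn hR hτ hτn u q e hun hp1 he1
  -- the homothety
  have hHa : Integrable (fun q : Fin 2 → ℝ => H (a + c • q)) := by
    have h1 : Integrable (fun p => H (a + p)) := hHi.comp_add_left a
    exact h1.comp_smul hc0.ne'
  have hHc : c ^ 2 * ∫ q : Fin 2 → ℝ, H (a + c • q) = ∫ p, H p := by
    have h1 := Measure.integral_comp_smul (volume : Measure (Fin 2 → ℝ)) (fun p => H (a + p)) c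
    have h2 : ∫ p, H (a + p) = ∫ p, H p := integral_add_left_eq_self H a
    rw [h1, h2, Module.finrank_fin_fun, abs_of_pos (by positivity), smul_eq_mul, ← mul_assoc,
      mul_inv_cancel₀ (by positivity), one_mul]
  have hms : MeasurableSet (Bs 2 R ∩ Bc 2 u R) := (meas_Bs R).inter (meas_Bc u R)
  have hfin : volume (Bs 2 R ∩ Bc 2 u R) ≠ ⊤ :=
    ne_top_of_le_ne_top (vol_Bs R) (measure_mono Set.inter_subset_left)
  have hphi : IntegrableOn (fun q => ph R q - 96 / (25 * R * n)) (Bs 2 R ∩ Bc 2 u R) := by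
    have h1 : IntegrableOn (fun q => ph R q - 96 / (25 * R * n))
        (Metric.closedBall (0 : Fin 2 → ℝ) |R|) :=
      ((ph_cont R).sub continuous_const).continuousOn.integrableOn_compact
        (isCompact_closedBall _ _)
    exact h1.mono_set (Set.inter_subset_left.trans (Bs_sub R))
  rw [← hHs', ← hHc]
  refine mul_le_mul_of_nonneg_left ?_ (by positivity)
  calc ∫ q in Bs 2 R ∩ Bc 2 u R, (ph R q - 96 / (25 * R * n))
      ≤ ∫ q in Bs 2 R ∩ Bc 2 u R, H (a + c • q) :=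
        setIntegral_mono_on hphi hHa.integrableOn hms hpt
    _ ≤ ∫ q : Fin 2 → ℝ, H (a + c • q) :=
        setIntegral_le_integral hHa (Eventually.of_forall fun q => hH0 _)

end Pool.Agent.H288.HS.LENSWGN

namespace Pool.Agent.H288.HS

open Classical LENSGN LENSWGN in
theorem t_LENSWG : S_LENSWG := by
  intro R δ F hR hδ hF
  obtain ⟨B, hB⟩ : ∃ B, B = volume.real (Bs 2 R) := ⟨_, rfl⟩
  have hB0 : 0 ≤ B := by rw [hB]; exact measureReal_nonneg
  have hev1 : ∀ᶠ n : ℕ in atTop, ((8 / R + 96 / (25 * R)) * B) / (n : ℝ) < δ :=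
    (tendsto_const_div_atTop_nhds_zero_nat _).eventually (gt_mem_nhds hδ)
  have hev2 : ∀ᶠ n : ℕ in atTop, (4 / R) / (n : ℝ) < 1 :=
    (tendsto_const_div_atTop_nhds_zero_nat (4 / R)).eventually (gt_mem_nhds one_pos)
  filter_upwards [hev1, hev2, eventually_gt_atTop 0] with n h1 h2 hn x y hxy
  have hn' : (0 : ℝ) < n := by exact_mod_cast hn
  obtain ⟨τ, hτ⟩ : ∃ τ, τ = (4 / R) / (n : ℝ) := ⟨_, rfl⟩
  rw [← hτ] at h2
  have hτ0 : 0 ≤ τ := by rw [hτ]; positivity
  have hτn : τ * (n * R) = 4 := by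
    rw [hτ]
    field_simp
  have hs := wsum R τ n hn hR hτ0 h2 hτn x y hxy
    (fun z => if NB 2 R n y z ∧ NB 2 R n x z then gw R n y z else 0)
    (fun z hz => if_pos hz) (fun z hz => if_neg hz)
  set u : Fin 2 → ℝ := fun k => ((x k : ℝ) - (y k : ℝ)) / n with hu
  have hun : ∑ k, u k ^ 2 < R ^ 2 := by
    have h3 : ∑ k, ((x k : ℝ) - (y k : ℝ)) ^ 2 < (n * R) ^ 2 := hxy
    have h4 : ∑ k, u k ^ 2 = (∑ k, ((x k : ℝ) - (y k : ℝ)) ^ 2) / n ^ 2 := by
      rw [Finset.sum_div]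
      apply Finset.sum_congr rfl
      intro k _
      simp only [hu]
      rw [div_pow]
    rw [h4, div_lt_iff₀ (by positivity)]
    rw [mul_pow] at h3
    linarith
  have hun2 : ∑ k, u k ^ 2 = (∑ k, ((y k : ℝ) - (x k : ℝ)) ^ 2) / n ^ 2 := by
    rw [Finset.sum_div]
    apply Finset.sum_congr rfl
    intro k _
    simp only [hu]
    rw [div_pow]
    congr 1
    ring
  have hFu := hF u hun
  rw [hun2] at hFu
  have hms : MeasurableSet (Bs 2 R ∩ Bc 2 u R) := (meas_Bs R).inter (meas_Bc u R)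
  have hfin : volume (Bs 2 R ∩ Bc 2 u R) ≠ ⊤ :=
    ne_top_of_le_ne_top (vol_Bs R) (measure_mono Set.inter_subset_left)
  have hphi : IntegrableOn (ph R) (Bs 2 R ∩ Bc 2 u R) := by
    have h1 : IntegrableOn (ph R) (Metric.closedBall (0 : Fin 2 → ℝ) |R|) :=
      (ph_cont R).continuousOn.integrableOn_compact (isCompact_closedBall _ _)
    exact h1.mono_set (Set.inter_subset_left.trans (Bs_sub R))
  obtain ⟨I, hI⟩ : ∃ I, I = ∫ q in Bs 2 R ∩ Bc 2 u R, ph R q := ⟨_, rfl⟩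
  obtain ⟨V, hV⟩ : ∃ V, V = volume.real (Bs 2 R ∩ Bc 2 u R) := ⟨_, rfl⟩
  have hFI : F ((∑ k, ((y k : ℝ) - (x k : ℝ)) ^ 2) / n ^ 2) ≤ I := by
    rw [hI]
    exact hFu
  have hV0 : 0 ≤ V := by rw [hV]; exact measureReal_nonneg
  have hVB : V ≤ B := by
    rw [hV, hB]
    exact measureReal_mono Set.inter_subset_left (vol_Bs R)
  have hI0 : 0 ≤ I := by
    rw [hI]
    exact setIntegral_nonneg hms fun q _ => ph_nonneg R q
  have hIV : I ≤ V := by
    have h3 : ∫ _q in Bs 2 R ∩ Bc 2 u R, (1 : ℝ) = V := by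
      rw [setIntegral_const, smul_eq_mul, mul_one, hV]
    rw [hI, ← h3]
    exact setIntegral_mono_on hphi (integrableOn_const hfin) hms fun q hq => ph_le R hR q hq.1
  have hsplit : ∫ q in Bs 2 R ∩ Bc 2 u R, (ph R q - 96 / (25 * R * n)) =
      I - V * (96 / (25 * R * n)) := by
    rw [integral_sub hphi (integrableOn_const hfin), setIntegral_const, smul_eq_mul, hI, hV]
  rw [hsplit] at hs
  have hw : 0 ≤ wt 2 n := by
    unfold wt
    positivity
  have hs2 := mul_le_mul_of_nonneg_left hs hw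
  have h6 : wt 2 n * ((n * (1 - τ)) ^ 2 * (I - V * (96 / (25 * R * n)))) =
      (1 - τ) ^ 2 * (I - V * (96 / (25 * R * n))) := by
    unfold wt
    rw [mul_pow]
    field_simp
  rw [h6] at hs2
  refine le_trans ?_ hs2
  obtain ⟨κ, hκ⟩ : ∃ κ, κ = 96 / (25 * R * n) := ⟨_, rfl⟩
  have hκ0 : 0 ≤ κ := by rw [hκ]; positivity
  rw [← hκ]
  have h7 : ((8 / R + 96 / (25 * R)) * B) / (n : ℝ) = (2 * τ + κ) * B := by
    rw [hτ, hκ]
    field_simp
    ring
  rw [h7] at h1
  have h8 : (1 - τ) ^ 2 ≤ 1 := by nlinarith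
  have h9 : (1 - τ) ^ 2 * (V * κ) ≤ κ * B := by
    calc (1 - τ) ^ 2 * (V * κ) ≤ 1 * (V * κ) :=
          mul_le_mul_of_nonneg_right h8 (mul_nonneg hV0 hκ0)
      _ = κ * V := by ring
      _ ≤ κ * B := mul_le_mul_of_nonneg_left hVB hκ0
  have h10 : I - 2 * τ * B ≤ (1 - τ) ^ 2 * I := by
    have h11 : τ * I ≤ τ * B := mul_le_mul_of_nonneg_left (hIV.trans hVB) hτ0
    have h12 : 0 ≤ τ ^ 2 * I := by positivity
    nlinarith
  have h13 : (1 - τ) ^ 2 * (I - V * κ) = (1 - τ) ^ 2 * I - (1 - τ) ^ 2 * (V * κ) := by ring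
  rw [h13]
  nlinarith

end Pool.Agent.H288.HS
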