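import Pool.Agent.H288.HS.Stm6

/-! # LENSX: volume of the lens of two balls in every dimension -/

set_option autoImplicit false

open MeasureTheory Set Filter Topology

namespace Pool.Agent.H288.HS

namespace LENSXN

/-- the first unit vector -/
def e0 (d : ℕ) : Fin d → ℝ := fun k => if (k : ℕ) = 0 then 1 else 0

theorem e0_sq {d : ℕ} (hd : 1 ≤ d) : ∑ k, e0 d k ^ 2 = 1 := by
  obtain ⟨n, rfl⟩ : ∃ n, d = n + 1 := ⟨d - 1, by omega⟩
  rw [Fin.sum_univ_succ]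
  simp [e0]

/-- the reflection `y ↦ y - c (a·y) a` -/
def H {d : ℕ} (a : Fin d → ℝ) (c : ℝ) : (Fin d → ℝ) →ₗ[ℝ] (Fin d → ℝ) where
  toFun y := fun k => y k - c * (∑ i, a i * y i) * a k
  map_add' x y := by
    funext k
    simp only [Pi.add_apply, mul_add, Finset.sum_add_distrib]
    ring
  map_smul' r y := by
    funext k
    have h : ∑ i, a i * (r • y) i = r * ∑ i, a i * y i := by
      rw [Finset.mul_sum]
      refine Finset.sum_congr rfl fun i _ => ?_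
      simp only [Pi.smul_apply, smul_eq_mul]
      ring
    simp only [RingHom.id_apply, Pi.smul_apply, smul_eq_mul] at h ⊢
    rw [h]
    ring

theorem H_apply {d : ℕ} (a : Fin d → ℝ) (c : ℝ) (y : Fin d → ℝ) (k : Fin d) :
    H a c y k = y k - c * (∑ i, a i * y i) * a k := rfl

theorem H_sq {d : ℕ} (a : Fin d → ℝ) (c : ℝ) (hc : c ^ 2 * ∑ i, a i ^ 2 = 2 * c) (y : Fin d → ℝ) :
    ∑ k, H a c y k ^ 2 = ∑ k, y k ^ 2 := by
  obtain ⟨s, hs⟩ : ∃ s, s = ∑ i, a i * y i := ⟨_, rfl⟩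
  have h1 : ∀ k, H a c y k ^ 2 = y k ^ 2 - 2 * c * s * (a k * y k) + c ^ 2 * s ^ 2 * a k ^ 2 := by
    intro k
    rw [H_apply, ← hs]
    ring
  simp only [h1]
  rw [Finset.sum_add_distrib, Finset.sum_sub_distrib, ← Finset.mul_sum, ← Finset.mul_sum, ← hs]
  have h2 : c ^ 2 * s ^ 2 * ∑ i, a i ^ 2 = s ^ 2 * (2 * c) := by rw [← hc]; ring
  rw [h2]
  ring

theorem H_H {d : ℕ} (a : Fin d → ℝ) (c : ℝ) (hc : c ^ 2 * ∑ i, a i ^ 2 = 2 * c) :
    (H a c).comp (H a c) = LinearMap.id := by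
  refine LinearMap.ext fun y => ?_
  funext k
  rw [LinearMap.comp_apply, LinearMap.id_apply, H_apply]
  obtain ⟨s, hs⟩ : ∃ s, s = ∑ i, a i * y i := ⟨_, rfl⟩
  have h1 : ∑ i, a i * H a c y i = s - c * s * ∑ i, a i ^ 2 := by
    have h2 : ∀ i, a i * H a c y i = a i * y i - c * s * a i ^ 2 := by
      intro i
      rw [H_apply, ← hs]
      ring
    simp only [h2]
    rw [Finset.sum_sub_distrib, ← Finset.mul_sum, ← hs]
  rw [h1, H_apply, ← hs]
  have h3 : y k - c * s * a k - c * (s - c * s * ∑ i, a i ^ 2) * a k =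
      y k - 2 * c * s * a k + (c ^ 2 * ∑ i, a i ^ 2) * s * a k := by ring
  rw [h3, hc]
  ring

theorem det_H {d : ℕ} (a : Fin d → ℝ) (c : ℝ) (hc : c ^ 2 * ∑ i, a i ^ 2 = 2 * c) :
    |LinearMap.det (H a c)| = 1 := by
  have h1 : LinearMap.det (H a c) * LinearMap.det (H a c) = 1 := by
    rw [← LinearMap.det_comp, H_H a c hc, LinearMap.det_id]
  rw [← sq_eq_sq₀ (abs_nonneg _) zero_le_one, sq_abs, one_pow, sq]
  exact h1

/-- a reflection which maps `e0` to a given unit vector -/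
theorem exists_refl {d : ℕ} (hd : 1 ≤ d) (e : Fin d → ℝ) (he : ∑ k, e k ^ 2 = 1) :
    ∃ (a : Fin d → ℝ) (c : ℝ), c ^ 2 * ∑ i, a i ^ 2 = 2 * c ∧ H a c (e0 d) = e := by
  obtain ⟨s, hs⟩ : ∃ s, s = ∑ i, (e0 d i - e i) * e0 d i := ⟨_, rfl⟩
  have hA : ∑ i, (e0 d i - e i) ^ 2 = 2 * s := by
    have h1 : ∀ i, (e0 d i - e i) ^ 2 = 2 * ((e0 d i - e i) * e0 d i) - e0 d i ^ 2 + e i ^ 2 := by
      intro i
      ring
    simp only [h1]
    rw [Finset.sum_add_distrib, Finset.sum_sub_distrib, ← Finset.mul_sum, ← hs, e0_sq hd, he]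
    ring
  by_cases h0 : s = 0
  · refine ⟨fun i => e0 d i - e i, 0, ?_, ?_⟩
    · ring
    · funext k
      rw [H_apply, zero_mul, zero_mul, sub_zero]
      rw [h0, mul_zero] at hA
      have h2 := (Finset.sum_eq_zero_iff_of_nonneg (fun i _ => sq_nonneg (e0 d i - e i))).1 hA k
        (Finset.mem_univ k)
      have h3 : e0 d k - e k = 0 := pow_eq_zero_iff (two_ne_zero) |>.1 h2
      linarith
  · refine ⟨fun i => e0 d i - e i, 1 / s, ?_, ?_⟩
    · rw [hA]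
      field_simp
    · funext k
      rw [H_apply, ← hs]
      field_simp
      ring

/-- polar coordinates of `u` -/
theorem polar {d : ℕ} (hd : 1 ≤ d) (R : ℝ) (hR : 0 < R) (u : Fin d → ℝ) (hu : ∑ k, u k ^ 2 < R ^ 2) :
    ∃ (e : Fin d → ℝ) (t : ℝ), ∑ k, e k ^ 2 = 1 ∧ 0 ≤ t ∧ t < 1 ∧ ∀ k, u k = t * R * e k := by
  obtain ⟨s, hs⟩ : ∃ s, s = √(∑ k, u k ^ 2) := ⟨_, rfl⟩
  have hn : 0 ≤ ∑ k, u k ^ 2 := Finset.sum_nonneg fun k _ => sq_nonneg _
  have hs0 : 0 ≤ s := by rw [hs]; exact Real.sqrt_nonneg _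
  have hss : s ^ 2 = ∑ k, u k ^ 2 := by rw [hs]; exact Real.sq_sqrt hn
  by_cases h : s = 0
  · rw [h] at hss
    refine ⟨e0 d, 0, e0_sq hd, le_rfl, one_pos, fun k => ?_⟩
    have h1 : ∑ k, u k ^ 2 = 0 := by rw [← hss]; norm_num
    have h2 := (Finset.sum_eq_zero_iff_of_nonneg (fun i _ => sq_nonneg (u i))).1 h1 k
      (Finset.mem_univ k)
    have h3 : u k = 0 := pow_eq_zero_iff (two_ne_zero) |>.1 h2
    rw [h3]
    ring
  · have hsp : 0 < s := lt_of_le_of_ne hs0 (Ne.symm h)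
    refine ⟨fun k => u k / s, s / R, ?_, by positivity, ?_, fun k => ?_⟩
    · have h1 : ∀ k, (u k / s) ^ 2 = u k ^ 2 / s ^ 2 := fun k => div_pow _ _ _
      simp only [h1]
      rw [← Finset.sum_div, ← hss]
      field_simp
    · rw [div_lt_one hR]
      nlinarith
    · field_simp

theorem sub_Icc {d : ℕ} (R : ℝ) (hR : 0 < R) (S : Set (Fin d → ℝ)) :
    Bs d R ∩ S ⊆ Set.Icc (fun _ => -R) (fun _ => R) := by
  rintro x ⟨hx, -⟩
  have hx' : ∑ k, x k ^ 2 < R ^ 2 := hx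
  have h1 : ∀ k, |x k| < R := by
    intro k
    have h2 : x k ^ 2 ≤ ∑ k, x k ^ 2 :=
      Finset.single_le_sum (f := fun k => x k ^ 2) (fun i _ => sq_nonneg (x i)) (Finset.mem_univ k)
    exact abs_lt_of_sq_lt_sq (lt_of_le_of_lt h2 hx') hR.le
  exact ⟨fun k => (abs_lt.1 (h1 k)).1.le, fun k => (abs_lt.1 (h1 k)).2.le⟩

end LENSXN

open LENSXN

theorem t_LENSX : S_LENSX := by
  intro d R hd hR u hu
  obtain ⟨e, t, he, ht0, ht1, hut⟩ := polar hd R hR u hu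
  obtain ⟨a, c, hc, hHe⟩ := exists_refl hd e he
  have hR2 : 0 < R ^ 2 := by positivity
  obtain ⟨f, hf⟩ : ∃ f : (Fin d → ℝ) →ₗ[ℝ] (Fin d → ℝ), f = R • H a c := ⟨_, rfl⟩
  have hdet : |LinearMap.det f| = R ^ d := by
    rw [hf, LinearMap.det_smul, Module.finrank_fin_fun, abs_mul, det_H a c hc, mul_one,
      abs_of_pos (by positivity)]
  have hfa : ∀ (y : Fin d → ℝ) (k : Fin d), f y k = R * H a c y k := by
    intro y k
    rw [hf]
    rfl
  have hL : (Bs d 1 ∩ Bc d (fun k => if (k : ℕ) = 0 then 1 else 0) 1 : Set (Fin d → ℝ)) =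
      Bs d 1 ∩ Bc d (e0 d) 1 := rfl
  obtain ⟨L, hLd⟩ : ∃ L : Set (Fin d → ℝ), L = Bs d 1 ∩ Bc d (e0 d) 1 := ⟨_, rfl⟩
  have hsub : f '' L ⊆ Bs d R ∩ Bc d u R := by
    rintro x ⟨y, hy, rfl⟩
    rw [hLd] at hy
    obtain ⟨hy1, hy2⟩ := hy
    have hy1' : ∑ k, y k ^ 2 < 1 ^ 2 := hy1
    have hy2' : ∑ k, (y k - e0 d k) ^ 2 < 1 ^ 2 := hy2
    rw [one_pow] at hy1' hy2'
    constructor
    · change ∑ k, (f y) k ^ 2 < R ^ 2
      have h1 : ∀ k, (f y) k ^ 2 = R ^ 2 * H a c y k ^ 2 := by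
        intro k
        rw [hfa, mul_pow]
      simp only [h1]
      rw [← Finset.mul_sum, H_sq a c hc]
      nlinarith
    · change ∑ k, ((f y) k - u k) ^ 2 < R ^ 2
      have h1 : ∀ k, ((f y) k - u k) ^ 2 = R ^ 2 * H a c (y - t • e0 d) k ^ 2 := by
        intro k
        rw [hfa, hut, map_sub, map_smul, hHe]
        simp only [Pi.sub_apply, Pi.smul_apply, smul_eq_mul]
        ring
      simp only [h1]
      rw [← Finset.mul_sum, H_sq a c hc]
      have h2 : ∑ k, (y - t • e0 d) k ^ 2 = (1 - t) * ∑ k, y k ^ 2 +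
          t * ∑ k, (y k - e0 d k) ^ 2 - t * (1 - t) * ∑ k, e0 d k ^ 2 := by
        rw [Finset.mul_sum, Finset.mul_sum, Finset.mul_sum, ← Finset.sum_add_distrib,
          ← Finset.sum_sub_distrib]
        refine Finset.sum_congr rfl fun k _ => ?_
        simp only [Pi.sub_apply, Pi.smul_apply, smul_eq_mul]
        ring
      have h3 : (1 - t) * ∑ k, y k ^ 2 < (1 - t) * 1 :=
        mul_lt_mul_of_pos_left hy1' (by linarith)
      have h4 : t * ∑ k, (y k - e0 d k) ^ 2 ≤ t * 1 := mul_le_mul_of_nonneg_left hy2'.le ht0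
      have h5 : 0 ≤ t * (1 - t) := mul_nonneg ht0 (by linarith)
      rw [e0_sq hd] at h2
      have h6 : ∑ k, (y - t • e0 d) k ^ 2 < 1 := by
        rw [h2]
        linarith
      nlinarith
  have hfin : volume (Bs d R ∩ Bc d u R) ≠ ⊤ :=
    ((measure_mono (sub_Icc R hR _)).trans_lt isCompact_Icc.measure_lt_top).ne
  have himg : volume.real (f '' L) = R ^ d * volume.real L := by
    unfold Measure.real
    rw [Measure.addHaar_image_linearMap, hdet, ENNReal.toReal_mul,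
      ENNReal.toReal_ofReal (by positivity)]
  unfold lensv
  rw [hL, ← hLd, ← himg]
  exact measureReal_mono hsub hfin

end Pool.Agent.H288.HS
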