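import Pool.Agent.H288.HS.Stm2

/-! HS-LIM (helper665). -/

set_option autoImplicit false

open MeasureTheory Set Filter Topology
open scoped Pointwise

namespace Pool.Agent.H288.HS.LIMN

open Pool.Agent.H288.HS

/-- uncurrying preserves the volume -/
theorem vol_uncurry (k d : ℕ) :
    MeasurePreserving (fun (x : Fin k → Fin d → ℝ) (p : Fin k × Fin d) => x p.1 p.2)
      volume volume := by
  have hm : Measurable (fun (x : Fin k → Fin d → ℝ) (p : Fin k × Fin d) => x p.1 p.2) := by
    refine measurable_pi_lambda _ fun p => ?_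
    exact (measurable_pi_apply p.2).comp (measurable_pi_apply p.1)
  refine ⟨hm, ?_⟩
  have h : Measure.pi (fun _ : Fin k × Fin d => (volume : Measure ℝ)) =
      Measure.map (fun (x : Fin k → Fin d → ℝ) (p : Fin k × Fin d) => x p.1 p.2) volume := by
    refine Measure.pi_eq fun s hs => ?_
    rw [Measure.map_apply hm (MeasurableSet.univ_pi hs)]
    have e : ((fun (x : Fin k → Fin d → ℝ) (p : Fin k × Fin d) => x p.1 p.2) ⁻¹'
        (Set.univ.pi s)) = Set.univ.pi (fun i => Set.univ.pi (fun j => s (i, j))) := by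
      ext x
      simp only [mem_preimage, Set.mem_pi, mem_univ, forall_true_left]
      exact ⟨fun h i j => h (i, j), fun h p => h p.1 p.2⟩
    rw [e, volume_pi_pi]
    simp_rw [volume_pi_pi]
    rw [Fintype.prod_prod_type]
  rw [← h, volume_pi]

open Classical in
/-- tuples versus sets -/
theorem card_tuples {V : Type} (N : V → V → Prop) (hN : ∀ x, N x x) (A : Finset V) (k : ℕ) :
    ((Fintype.piFinset (fun _ : Fin k => A)).filter
      (fun y => ∀ i j, i ≠ j → ¬ N (y i) (y j))).card = k.factorial * cnt N A k := by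
  have hT : ∀ y : Fin k → V, y ∈ (Fintype.piFinset (fun _ : Fin k => A)).filter
      (fun y => ∀ i j, i ≠ j → ¬ N (y i) (y j)) ↔
      (∀ i, y i ∈ A) ∧ ∀ i j, i ≠ j → ¬ N (y i) (y j) := by
    intro y
    rw [Finset.mem_filter, Fintype.mem_piFinset]
  have hF : ∀ I : Finset V, I ∈ (ind N A).filter (fun I => I.card = k) ↔
      (I ⊆ A ∧ Indep N I) ∧ I.card = k := by
    intro I
    rw [Finset.mem_filter, ind, Finset.mem_filter, Finset.mem_powerset]
  have hinj : ∀ y : Fin k → V, (∀ i j, i ≠ j → ¬ N (y i) (y j)) → Function.Injective y := by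
    intro y hy i j hij
    by_contra hne
    have := hy i j hne
    rw [hij] at this
    exact this (hN _)
  have hmaps : ∀ y ∈ (Fintype.piFinset (fun _ : Fin k => A)).filter
      (fun y => ∀ i j, i ≠ j → ¬ N (y i) (y j)),
      Finset.univ.image y ∈ (ind N A).filter (fun I => I.card = k) := by
    intro y hy
    rw [hT] at hy
    rw [hF]
    refine ⟨⟨?_, ?_⟩, ?_⟩
    · intro v hv
      obtain ⟨i, -, rfl⟩ := Finset.mem_image.1 hv
      exact hy.1 i
    · intro u hu v hv huv
      obtain ⟨i, -, rfl⟩ := Finset.mem_image.1 hu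
      obtain ⟨j, -, rfl⟩ := Finset.mem_image.1 hv
      exact hy.2 i j (fun h => huv (by rw [h]))
    · rw [Finset.card_image_of_injective _ (hinj y hy.2), Finset.card_univ, Fintype.card_fin]
  rw [Finset.card_eq_sum_card_fiberwise hmaps]
  have hfib : ∀ I ∈ (ind N A).filter (fun I => I.card = k),
      (((Fintype.piFinset (fun _ : Fin k => A)).filter
      (fun y => ∀ i j, i ≠ j → ¬ N (y i) (y j))).filter
      (fun y => Finset.univ.image y = I)).card = k.factorial := by
    intro I hI
    rw [hF] at hI
    have h0 : Fintype.card (Fin k ≃ I) = k.factorial := by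
      have e : Fin k ≃ I := (I.equivFinOfCardEq hI.2).symm
      rw [Fintype.card_equiv e, Fintype.card_fin]
    rw [← h0, ← Finset.card_univ]
    refine (Finset.card_bij (fun (e : Fin k ≃ I) _ => fun i => ((e i : I) : V)) ?_ ?_ ?_).symm
    · intro e _
      rw [Finset.mem_filter, hT]
      refine ⟨⟨fun i => hI.1.1 (e i).2, fun i j hij => ?_⟩, ?_⟩
      · refine hI.1.2 _ (e i).2 _ (e j).2 (fun h => hij ?_)
        exact e.injective (Subtype.ext h)
      · ext v
        rw [Finset.mem_image]
        constructor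
        · rintro ⟨i, -, rfl⟩
          exact (e i).2
        · intro hv
          refine ⟨e.symm ⟨v, hv⟩, Finset.mem_univ _, ?_⟩
          rw [Equiv.apply_symm_apply]
    · intro e _ e' _ h
      ext i
      exact congrFun h i
    · intro y hy
      rw [Finset.mem_filter, hT] at hy
      have hmem : ∀ i, y i ∈ I := by
        intro i
        rw [← hy.2]
        exact Finset.mem_image_of_mem _ (Finset.mem_univ _)
      have hb : Function.Bijective (fun i : Fin k => (⟨y i, hmem i⟩ : I)) := by
        rw [Fintype.bijective_iff_injective_and_card]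
        refine ⟨fun i j hij => hinj y hy.1.2 (Subtype.ext_iff.1 hij), ?_⟩
        rw [Fintype.card_fin, Fintype.card_coe, hI.2]
      exact ⟨Equiv.ofBijective _ hb, Finset.mem_univ _, rfl⟩
  rw [Finset.sum_congr rfl hfib, Finset.sum_const, smul_eq_mul, mul_comm]
  rfl

/-- the configurations in the coordinates `Fin k × Fin d` -/
def CS (k d : ℕ) (R L : ℝ) : Set (Fin k × Fin d → ℝ) :=
  {x : Fin k × Fin d → ℝ | (∀ i c, x (i, c) ∈ Set.Icc (0 : ℝ) L) ∧
      ∀ i j, i ≠ j → R ^ 2 ≤ ∑ c, (x (i, c) - x (j, c)) ^ 2}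

theorem cs_closed (k d : ℕ) (R L : ℝ) : IsClosed (CS k d R L) := by
  have : CS k d R L = (⋂ i, ⋂ c, {x : Fin k × Fin d → ℝ | x (i, c) ∈ Set.Icc (0 : ℝ) L}) ∩
      ⋂ i, ⋂ j, ⋂ (_ : i ≠ j), {x : Fin k × Fin d → ℝ |
        R ^ 2 ≤ ∑ c, (x (i, c) - x (j, c)) ^ 2} := by
    ext x
    simp only [CS, mem_inter_iff, mem_iInter, mem_setOf_eq]
  rw [this]
  refine IsClosed.inter (isClosed_iInter fun i => isClosed_iInter fun c =>
    isClosed_Icc.preimage (continuous_apply _)) (isClosed_iInter fun i => isClosed_iInter fun j =>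
      isClosed_iInter fun _ => ?_)
  exact isClosed_le continuous_const (by fun_prop)

theorem cs_bounded (k d : ℕ) (R L : ℝ) : Bornology.IsBounded (CS k d R L) := by
  refine (Bornology.IsBounded.pi (fun _ : Fin k × Fin d => Metric.isBounded_Icc (0 : ℝ) L)).subset ?_
  intro x hx p _
  exact hx.1 p.1 p.2

theorem vol_cs (k d : ℕ) (R L : ℝ) : volume (Conf k d R L) = volume (CS k d R L) := by
  have h := (vol_uncurry k d).measure_preimage (cs_closed k d R L).measurableSet.nullMeasurableSet
  rw [← h]
  rfl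

/-- the integer tuples -/
noncomputable def emb (k d n : ℕ) (y : Fin k → Fin d → ℤ) (p : Fin k × Fin d) : ℝ :=
  (y p.1 p.2 : ℝ) / n

open Classical in
theorem card_lattice (k d n : ℕ) (R L : ℝ) (hn : 1 ≤ n) :
    Nat.card ↑(CS k d R L ∩ (n : ℝ)⁻¹ •
      (Submodule.span ℤ (Set.range (Pi.basisFun ℝ (Fin k × Fin d))) :
        Set (Fin k × Fin d → ℝ))) =
    ((Fintype.piFinset (fun _ : Fin k => GB d L n)).filter
      (fun y => ∀ i j, i ≠ j → ¬ NB d R n (y i) (y j))).card := by
  have hn0 : (0 : ℝ) < n := by exact_mod_cast hn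
  have : NeZero n := ⟨by omega⟩
  have hinj : Function.Injective (emb k d n) := by
    intro y y' h
    funext i c
    have := congrFun h (i, c)
    simp only [emb] at this
    rw [div_left_inj' hn0.ne'] at this
    exact_mod_cast this
  have himg : CS k d R L ∩ (n : ℝ)⁻¹ •
      (Submodule.span ℤ (Set.range (Pi.basisFun ℝ (Fin k × Fin d))) :
        Set (Fin k × Fin d → ℝ)) =
      emb k d n '' ↑((Fintype.piFinset (fun _ : Fin k => GB d L n)).filter
      (fun y => ∀ i j, i ≠ j → ¬ NB d R n (y i) (y j)) : Finset (Fin k → Fin d → ℤ)) := by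
    have key : ∀ y : Fin k → Fin d → ℤ, emb k d n y ∈ CS k d R L ↔
        y ∈ ((Fintype.piFinset (fun _ : Fin k => GB d L n)).filter
      (fun y => ∀ i j, i ≠ j → ¬ NB d R n (y i) (y j))) := by
      intro y
      rw [Finset.mem_filter, Fintype.mem_piFinset]
      simp only [CS, emb, mem_setOf_eq, mem_Icc, GB, Fintype.mem_piFinset, Finset.mem_Icc, NB,
        not_lt]
      refine and_congr ?_ ?_
      · refine forall_congr' fun i => forall_congr' fun c => and_congr ?_ ?_
        · rw [le_div_iff₀ hn0, zero_mul]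
          exact_mod_cast Iff.rfl
        · rw [div_le_iff₀ hn0, Int.le_floor, mul_comm L]
      · refine forall_congr' fun i => forall_congr' fun j => forall_congr' fun _ => ?_
        have e : ∑ c, ((y i c : ℝ) / n - (y j c : ℝ) / n) ^ 2 =
            (∑ c, ((y i c : ℝ) - (y j c : ℝ)) ^ 2) / (n : ℝ) ^ 2 := by
          rw [Finset.sum_div]
          refine Finset.sum_congr rfl fun c _ => ?_
          rw [← sub_div, div_pow]
        rw [e, le_div_iff₀ (by positivity), mul_pow, mul_comm]
    ext x
    constructor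
    · rintro ⟨hx1, hx2⟩
      rw [← Submodule.coe_pointwise_smul, SetLike.mem_coe,
        BoxIntegral.unitPartition.mem_smul_span_iff] at hx2
      choose z hz using hx2
      refine ⟨fun i c => z (i, c), ?_, ?_⟩
      · have he : emb k d n (fun i c => z (i, c)) = x := by
          funext p
          have := hz p
          simp only [emb]
          rw [div_eq_iff hn0.ne']
          have e2 : (algebraMap ℤ ℝ) (z p) = ((z p : ℤ) : ℝ) := rfl
          rw [e2] at this
          rw [this, mul_comm]
        rw [← he] at hx1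
        exact (key _).1 hx1
      · funext p
        have := hz p
        simp only [emb]
        rw [div_eq_iff hn0.ne']
        have e2 : (algebraMap ℤ ℝ) (z p) = ((z p : ℤ) : ℝ) := rfl
        rw [e2] at this
        rw [this, mul_comm]
    · rintro ⟨y, hy, rfl⟩
      refine ⟨(key y).2 hy, ?_⟩
      rw [← Submodule.coe_pointwise_smul, SetLike.mem_coe,
        BoxIntegral.unitPartition.mem_smul_span_iff]
      intro p
      refine ⟨y p.1 p.2, ?_⟩
      simp only [emb]
      rw [mul_div_cancel₀ _ hn0.ne']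
      rfl
  rw [himg, Nat.card_image_of_injective hinj, Nat.card_coe_set_eq, Set.ncard_coe_finset]

theorem nb_refl (d n : ℕ) (R : ℝ) (hR : 0 < R) (hn : 1 ≤ n) (x : Fin d → ℤ) :
    NB d R n x x := by
  have hn0 : (0 : ℝ) < n := by exact_mod_cast hn
  simp only [NB, sub_self]
  rw [Finset.sum_eq_zero (fun _ _ => by norm_num)]
  positivity

end Pool.Agent.H288.HS.LIMN

namespace Pool.Agent.H288.HS

open Pool.Agent.H288.HS.LIMN

theorem t_LIM (h : S_NULL) : S_LIM := by
  intro d k R L hd hR hL
  have h1 := tendsto_card_div_pow_atTop_volume (CS k d R L) (cs_bounded k d R L)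
    (cs_closed k d R L).measurableSet (h d k R L hd hR hL)
  have h2 := h1.const_mul (((k.factorial : ℝ))⁻¹)
  have e : ((k.factorial : ℝ))⁻¹ * volume.real (CS k d R L) = zz d R L k := by
    unfold zz
    rw [vol_cs]
    rfl
  rw [e] at h2
  refine h2.congr' ?_
  filter_upwards [eventually_ge_atTop 1] with n hn
  have hn0 : (0 : ℝ) < n := by exact_mod_cast hn
  have hk : (k.factorial : ℝ) ≠ 0 := by exact_mod_cast k.factorial_ne_zero
  rw [card_lattice k d n R L hn]
  rw [card_tuples (NB d R n) (nb_refl d n R hR hn) (GB d L n) k]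
  rw [Fintype.card_prod, Fintype.card_fin, Fintype.card_fin, wt, Nat.cast_mul, one_div, inv_pow,
    ← pow_mul, mul_comm d k]
  field_simp

end Pool.Agent.H288.HS
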