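import Pool.Agent.H288.HS.Stm5
import Pool.Agent.H288.HS.T.LIM

/-! HS5-LIMP (helper268). -/

set_option autoImplicit false

open MeasureTheory Set Filter Topology
open scoped Pointwise

namespace Pool.Agent.H288.HS.LIMPN

open Pool.Agent.H288.HS Pool.Agent.H288.HS.LIMN

/-- the paths in the coordinates `Fin K × Fin d` -/
def PS (d r m K : ℕ) (c : Fin m → (Fin d → ℝ) → Fin r) (R : ℝ) (o : Fin K → Fin m) :
    Set (Fin K × Fin d → ℝ) :=
  {x | (fun i k => x (i, k)) ∈ Paths d r m K c R o}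

theorem pt_zero {V : Type} {K : ℕ} (x : V) (q : Fin K → V) : pt x q 0 = x := rfl

theorem pt_succ {V : Type} {K : ℕ} (x : V) (q : Fin K → V) (i : Fin K) :
    pt x q i.succ = q i := rfl

/-- every point of a path is a measurable function of the path -/
theorem meas_pt (d K : ℕ) (i : Fin (K + 1)) (k : Fin d) :
    Measurable (fun x : Fin K × Fin d → ℝ =>
      pt (fun _ => (0 : ℝ)) (fun (i : Fin K) (k : Fin d) => x (i, k)) i k) := by
  refine Fin.cases ?_ (fun i => ?_) i
  · simp only [pt_zero]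
    exact measurable_const
  · simp only [pt_succ]
    exact measurable_pi_apply _

theorem meas_nr (d K : ℕ) (R : ℝ) (i j : Fin (K + 1)) :
    MeasurableSet {x : Fin K × Fin d → ℝ |
      NR d R (pt (fun _ => 0) (fun i k => x (i, k)) i) (pt (fun _ => 0) (fun i k => x (i, k)) j)} := by
  unfold NR
  refine measurableSet_lt ?_ measurable_const
  refine Finset.measurable_fun_sum _ fun k _ => ?_
  exact ((meas_pt d K i k).sub (meas_pt d K j k)).pow_const 2

theorem meas_col {d r K : ℕ} {c : (Fin d → ℝ) → Fin r} (hc : CC d r c) (i j : Fin (K + 1)) :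
    Measurable (fun x : Fin K × Fin d → ℝ =>
      c (fun k => pt (fun _ => (0 : ℝ)) (fun (i : Fin K) (k : Fin d) => x (i, k)) j k -
        pt (fun _ => (0 : ℝ)) (fun (i : Fin K) (k : Fin d) => x (i, k)) i k)) := by
  have h1 : Measurable c := measurable_to_countable' hc.meas
  refine h1.comp (measurable_pi_lambda _ fun k => ?_)
  exact (meas_pt d K j k).sub (meas_pt d K i k)

theorem ps_meas {d r m K : ℕ} {c : Fin m → (Fin d → ℝ) → Fin r} (R : ℝ) (o : Fin K → Fin m)
    (hc : ∀ b, CC d r (c b)) : MeasurableSet (PS d r m K c R o) := by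
  have e : PS d r m K c R o = (⋂ i : Fin K, {x : Fin K × Fin d → ℝ |
      NR d R (pt (fun _ => 0) (fun i k => x (i, k)) i.castSucc)
        (pt (fun _ => 0) (fun i k => x (i, k)) i.succ)}) ∩
      ⋂ i : Fin K, ⋂ j : Fin K, ⋂ (_ : j < i), ({x : Fin K × Fin d → ℝ |
        NR d R (pt (fun _ => 0) (fun i k => x (i, k)) j.castSucc)
          (pt (fun _ => 0) (fun i k => x (i, k)) i.succ)} ∩ {x : Fin K × Fin d → ℝ |
        c (o j) (fun k => pt (fun _ => 0) (fun i k => x (i, k)) i.succ k -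
          pt (fun _ => 0) (fun i k => x (i, k)) j.castSucc k) ≤
        c (o j) (fun k => pt (fun _ => 0) (fun i k => x (i, k)) j.succ k -
          pt (fun _ => 0) (fun i k => x (i, k)) j.castSucc k)})ᶜ := by
    ext x
    simp only [PS, Paths, PathOK, mem_inter_iff, mem_iInter, mem_ofPred_eq, mem_compl_iff]
  rw [e]
  refine MeasurableSet.inter (MeasurableSet.iInter fun i => meas_nr d K R _ _)
    (MeasurableSet.iInter fun i => MeasurableSet.iInter fun j => MeasurableSet.iInter fun _ =>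
      ((meas_nr d K R _ _).inter ?_).compl)
  have h1 := (meas_col (hc (o j)) (K := K) j.castSucc i.succ).prodMk
    (meas_col (hc (o j)) (K := K) j.castSucc j.succ)
  exact h1 (MeasurableSet.of_discrete (s := {p : Fin r × Fin r | p.1 ≤ p.2}))

theorem nr_coord {d : ℕ} {R : ℝ} (hR : 0 < R) {x y : Fin d → ℝ} (h : NR d R x y) (k : Fin d) :
    |y k| ≤ |x k| + R := by
  unfold NR at h
  have h1 : (x k - y k) ^ 2 ≤ R ^ 2 :=
    (Finset.single_le_sum (f := fun k => (x k - y k) ^ 2) (fun k _ => sq_nonneg _)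
      (Finset.mem_univ k)).trans h.le
  have h2 := abs_le_of_sq_le_sq' h1 hR.le
  have h3 : |y k| ≤ |x k| + |x k - y k| := by
    have h4 : y k = x k + -(x k - y k) := by ring
    calc |y k| = |x k + -(x k - y k)| := by rw [← h4]
      _ ≤ |x k| + |-(x k - y k)| := abs_add_le _ _
      _ = _ := by rw [abs_neg]
  have h5 : |x k - y k| ≤ R := abs_le.2 h2
  linarith

theorem path_bound {d r m K : ℕ} {c : Fin m → (Fin d → ℝ) → Fin r} {R : ℝ} {o : Fin K → Fin m}
    (hR : 0 < R) {q : Fin K → Fin d → ℝ} (hq : q ∈ Paths d r m K c R o) (k : Fin d) :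
    ∀ (t : ℕ) (ht : t < K + 1), |pt (fun _ => (0 : ℝ)) q ⟨t, ht⟩ k| ≤ t * R := by
  intro t
  induction t with
  | zero =>
    intro ht
    have h1 : pt (fun _ : Fin d => (0 : ℝ)) q ⟨0, ht⟩ = fun _ => 0 := rfl
    rw [h1]
    simp
  | succ t ih =>
    intro ht
    have h1 := ih (by omega)
    have h2 := nr_coord hR (hq.1 ⟨t, by omega⟩) k
    have e1 : (⟨t, by omega⟩ : Fin K).castSucc = (⟨t, by omega⟩ : Fin (K + 1)) := rfl
    have e2 : (⟨t, by omega⟩ : Fin K).succ = (⟨t + 1, ht⟩ : Fin (K + 1)) := rfl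
    rw [e1, e2] at h2
    push_cast
    linarith

theorem ps_bounded {d r m K : ℕ} {c : Fin m → (Fin d → ℝ) → Fin r} {R : ℝ} (o : Fin K → Fin m)
    (hR : 0 < R) : Bornology.IsBounded (PS d r m K c R o) := by
  refine (Bornology.IsBounded.pi (fun _ : Fin K × Fin d =>
    Metric.isBounded_Icc (-(K * R) : ℝ) (K * R))).subset ?_
  rintro x hx ⟨i, k⟩ -
  have h1 := path_bound hR hx k (i + 1) (by omega)
  have e1 : (⟨i + 1, by omega⟩ : Fin (K + 1)) = i.succ := rfl
  rw [e1, pt_succ] at h1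
  have h2 : ((i + 1 : ℕ) : ℝ) * R ≤ K * R := by
    refine mul_le_mul_of_nonneg_right ?_ hR.le
    exact_mod_cast i.2
  exact abs_le.1 (h1.trans h2)

theorem pt_emb {d K : ℕ} (n : ℕ) (y : Fin K → Fin d → ℤ) (i : Fin (K + 1)) (k : Fin d) :
    pt (fun _ => (0 : ℝ)) (fun (i : Fin K) (k : Fin d) => (y i k : ℝ) / n) i k =
      (pt (fun _ => (0 : ℤ)) y i k : ℝ) / n := by
  refine Fin.cases ?_ (fun i => ?_) i
  · simp only [pt_zero]
    simp
  · simp only [pt_succ]

theorem key_iff {d r m K : ℕ} {c : Fin m → (Fin d → ℝ) → Fin r} {R : ℝ} {o : Fin K → Fin m}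
    (hc : ∀ b, CC d r (c b)) {n : ℕ} (hn : 1 ≤ n) (y : Fin K → Fin d → ℤ) :
    emb K d n y ∈ PS d r m K c R o ↔ y ∈ PZ d r m K c R n o := by
  have hn0 : (0 : ℝ) < n := by exact_mod_cast hn
  have hN : ∀ i j : Fin (K + 1),
      NR d R (pt (fun _ => (0 : ℝ)) (fun (i : Fin K) (k : Fin d) => (y i k : ℝ) / n) i)
        (pt (fun _ => (0 : ℝ)) (fun (i : Fin K) (k : Fin d) => (y i k : ℝ) / n) j) ↔
      NB d R n (pt (fun _ => 0) y i) (pt (fun _ => 0) y j) := by
    intro i j
    unfold NR NB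
    simp only [pt_emb]
    have e : ∑ k, ((pt (fun _ => (0 : ℤ)) y i k : ℝ) / n - (pt (fun _ => (0 : ℤ)) y j k : ℝ) / n) ^ 2 =
        (∑ k, ((pt (fun _ => (0 : ℤ)) y i k : ℝ) - (pt (fun _ => (0 : ℤ)) y j k : ℝ)) ^ 2) /
          (n : ℝ) ^ 2 := by
      rw [Finset.sum_div]
      refine Finset.sum_congr rfl fun k _ => ?_
      rw [← sub_div, div_pow]
    rw [e, div_lt_iff₀ (by positivity), mul_pow, mul_comm (R ^ 2)]
  have hC : ∀ (b : Fin m) (i j : Fin (K + 1)),
      c b (fun k => pt (fun _ => (0 : ℝ)) (fun (i : Fin K) (k : Fin d) => (y i k : ℝ) / n) j k -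
        pt (fun _ => (0 : ℝ)) (fun (i : Fin K) (k : Fin d) => (y i k : ℝ) / n) i k) =
      cZ c b (pt (fun _ => 0) y i) (pt (fun _ => 0) y j) := by
    intro b i j
    unfold cZ
    simp only [pt_emb]
    have h := (hc b).hom (n : ℝ)⁻¹ (fun k => (pt (fun _ => (0 : ℤ)) y j k : ℝ) -
      (pt (fun _ => (0 : ℤ)) y i k : ℝ)) (inv_pos.2 hn0)
    rw [← h]
    refine congrArg (c b) ?_
    funext k
    rw [← sub_div, div_eq_inv_mul]
  have h1 : (fun i k => emb K d n y (i, k)) = fun (i : Fin K) (k : Fin d) => (y i k : ℝ) / n := rfl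
  unfold PS PZ Paths PathOK
  simp only [mem_ofPred_eq]
  rw [h1]
  simp only [hN, hC]

theorem card_grid {d r m K : ℕ} {c : Fin m → (Fin d → ℝ) → Fin r} {R : ℝ} {o : Fin K → Fin m}
    (hc : ∀ b, CC d r (c b)) {n : ℕ} (hn : 1 ≤ n) :
    Nat.card ↑(PS d r m K c R o ∩ (n : ℝ)⁻¹ •
      (Submodule.span ℤ (Set.range (Pi.basisFun ℝ (Fin K × Fin d))) :
        Set (Fin K × Fin d → ℝ))) = (PZ d r m K c R n o).ncard := by
  have hn0 : (0 : ℝ) < n := by exact_mod_cast hn
  have : NeZero n := ⟨by omega⟩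
  have hinj : Function.Injective (emb K d n) := by
    intro y y' h
    funext i k
    have := congrFun h (i, k)
    simp only [emb] at this
    rw [div_left_inj' hn0.ne'] at this
    exact_mod_cast this
  have himg : PS d r m K c R o ∩ (n : ℝ)⁻¹ •
      (Submodule.span ℤ (Set.range (Pi.basisFun ℝ (Fin K × Fin d))) :
        Set (Fin K × Fin d → ℝ)) = emb K d n '' PZ d r m K c R n o := by
    ext x
    constructor
    · rintro ⟨hx1, hx2⟩
      rw [← Submodule.coe_pointwise_smul, SetLike.mem_coe,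
        BoxIntegral.unitPartition.mem_smul_span_iff] at hx2
      choose z hz using hx2
      have he : emb K d n (fun i k => z (i, k)) = x := by
        funext p
        have := hz p
        simp only [emb]
        rw [div_eq_iff hn0.ne']
        have e2 : (algebraMap ℤ ℝ) (z p) = ((z p : ℤ) : ℝ) := rfl
        rw [e2] at this
        rw [this, mul_comm]
      refine ⟨fun i k => z (i, k), ?_, he⟩
      rw [← he] at hx1
      exact (key_iff hc hn _).1 hx1
    · rintro ⟨y, hy, rfl⟩
      refine ⟨(key_iff hc hn y).2 hy, ?_⟩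
      rw [← Submodule.coe_pointwise_smul, SetLike.mem_coe,
        BoxIntegral.unitPartition.mem_smul_span_iff]
      intro p
      refine ⟨y p.1 p.2, ?_⟩
      simp only [emb]
      rw [mul_div_cancel₀ _ hn0.ne']
      rfl
  rw [himg, Nat.card_image_of_injective hinj, Nat.card_coe_set_eq]

theorem vol_ps {d r m K : ℕ} {c : Fin m → (Fin d → ℝ) → Fin r} (R : ℝ) (o : Fin K → Fin m)
    (hc : ∀ b, CC d r (c b)) : volume (Paths d r m K c R o) = volume (PS d r m K c R o) := by
  have h := (vol_uncurry K d).measure_preimage (ps_meas R o hc).nullMeasurableSet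
  rw [← h]
  rfl

theorem frontier_ps {d r m K : ℕ} {c : Fin m → (Fin d → ℝ) → Fin r} {R : ℝ} {o : Fin K → Fin m}
    (h0 : volume (frontier (Paths d r m K c R o)) = 0) :
    volume (frontier (PS d r m K c R o)) = 0 := by
  have h1 : frontier (PS d r m K c R o) =
      (fun x : Fin K × Fin d → ℝ => fun i k => x (i, k)) ⁻¹' frontier (Paths d r m K c R o) :=
    ((Homeomorph.piCurry (X := Fin K) (Y := Fin d) (Z := ℝ)).preimage_frontier
      (Paths d r m K c R o)).symm
  have h2 := (vol_uncurry K d).measure_preimage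
    (isClosed_frontier (s := PS d r m K c R o)).measurableSet.nullMeasurableSet
  rw [← h2, h1]
  exact h0

end Pool.Agent.H288.HS.LIMPN

namespace Pool.Agent.H288.HS

open Pool.Agent.H288.HS.LIMPN

theorem t_LIMP : S_LIMP := by
  intro d r m K c R o hd hR hc hfr
  have h1 := tendsto_card_div_pow_atTop_volume (PS d r m K c R o) (ps_bounded o hR)
    (ps_meas R o hc) (frontier_ps hfr)
  have e : volume.real (PS d r m K c R o) = volume.real (Paths d r m K c R o) := by
    unfold Measure.real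
    rw [vol_ps R o hc]
  rw [e] at h1
  refine h1.congr' ?_
  filter_upwards [eventually_ge_atTop 1] with n hn
  have hn0 : (0 : ℝ) < n := by exact_mod_cast hn
  rw [card_grid hc hn]
  rw [Fintype.card_prod, Fintype.card_fin, Fintype.card_fin, wt, one_div, inv_pow,
    ← pow_mul, mul_comm d K]
  field_simp

end Pool.Agent.H288.HS
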