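import Pool.Agent.H288.HS.Stm5

set_option autoImplicit false

open MeasureTheory Set Filter Topology

namespace Pool.Agent.H288.HS

namespace LOGDFN

variable {V : Type}

theorem Z_empty (N : V → V → Prop) (w : ℝ) : Z N w ∅ = fun _ => 1 := by
  classical
  funext l
  have h : ind N (∅ : Finset V) = {∅} := by
    unfold ind
    ext I
    simp only [Finset.powerset_empty, Finset.mem_filter, Finset.mem_singleton]
    constructor
    · exact fun h => h.1
    · rintro rfl
      refine ⟨rfl, ?_⟩
      intro x hx
      simp at hx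
  unfold Z
  rw [h]
  simp

theorem Z_diff (N : V → V → Prop) (w : ℝ) (A : Finset V) : Differentiable ℂ (Z N w A) := by
  unfold Z
  fun_prop

theorem rem_insert [DecidableEq V] (N : V → V → Prop) (hr : ∀ x, N x x) (B : Finset V) (y : V) :
    rem N (insert y B) y = rem N B y := by
  ext z
  unfold rem
  simp only [Finset.mem_filter, Finset.mem_insert]
  constructor
  · rintro ⟨rfl | h, h2⟩
    · exact absurd (hr z) h2
    · exact ⟨h, h2⟩
  · rintro ⟨h, h2⟩
    exact ⟨Or.inr h, h2⟩

/-- the algebra of one step -/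
theorem alg (b c b' c' w l : ℂ) (hb : b ≠ 0) (hc : c ≠ 0) (hA : b + l * w * c ≠ 0) :
    (b' + (w * c + l * w * c')) / (b + l * w * c) =
      b' / b + w * (c / (b + l * w * c)) * (1 + l * (c' / c - b' / b)) := by
  obtain ⟨a, ha⟩ : ∃ a, a = b + l * w * c := ⟨_, rfl⟩
  rw [← ha] at hA ⊢
  field_simp
  linear_combination (-b') * ha

end LOGDFN

open LOGDFN in
theorem t_LOGDF : S_LOGDF := by
  classical
  intro hS hM r m C B₀ ρ l₁ hr hC hB1 ha hl hlt
  obtain ⟨ε, hε, M, hM0, ω₀, hω, hmain⟩ := hM r m C B₀ ρ l₁ hr hC hB1 ha hl hlt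
  refine ⟨ε, hε, 2 * (1 + (l₁ + ε) * (M * √(1 / ω₀))), by positivity, ?_⟩
  intro V N w col F hG A l hlO
  have hlog : ‖logDeriv (Z N w A) l‖ ≤ 2 * (1 + (l₁ + ε) * (M * √(1 / ω₀))) * (w * (A.card : ℝ)) := by
    induction A using Finset.induction_on with
    | empty =>
      rw [Z_empty]
      simp [logDeriv]
    | insert y B hy ih =>
      have hstep : ∀ l : ℂ, Z N w (insert y B) l = Z N w B l + l * w * Z N w (rem N B y) l := by
        intro l
        have := hS V N w (insert y B) B {y} l hG.base.refl hG.base.symm (by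
          intro z
          rw [Finset.mem_insert, Finset.mem_singleton]
          exact or_comm) (by
          intro z hz hz'
          rw [Finset.mem_singleton] at hz'
          exact hy (hz' ▸ hz)) (by
          intro u hu z hz
          rw [Finset.mem_singleton] at hu hz
          rw [hu, hz]
          exact hG.base.refl y)
        rw [this, Finset.sum_singleton]
      have hfun : Z N w (insert y B) = fun l => Z N w B l + l * w * Z N w (rem N B y) l := funext hstep
      obtain ⟨hA0, hA⟩ := hmain V N w col F hG (insert y B) l hlO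
      obtain ⟨hB0, hB⟩ := hmain V N w col F hG B l hlO
      obtain ⟨hc0, -⟩ := hmain V N w col F hG (rem N B y) l hlO
      obtain ⟨-, hA2, -⟩ := hA y
      obtain ⟨hB1, -, hB3⟩ := hB y
      have hder : deriv (Z N w (insert y B)) l =
          deriv (Z N w B) l + ((w : ℂ) * Z N w (rem N B y) l + l * w * deriv (Z N w (rem N B y)) l) := by
        rw [hfun]
        have d1 : HasDerivAt (Z N w B) (deriv (Z N w B) l) l := (Z_diff N w B l).hasDerivAt
        have d2 : HasDerivAt (Z N w (rem N B y)) (deriv (Z N w (rem N B y)) l) l :=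
          (Z_diff N w (rem N B y) l).hasDerivAt
        have d3 : HasDerivAt (fun l : ℂ => l * (w : ℂ)) ((1 : ℂ) * w) l := (hasDerivAt_id l).mul_const (w : ℂ)
        have d4 := d1.add (d3.mul d2)
        rw [one_mul] at d4
        exact d4.deriv
      have hAne : Z N w B l + l * w * Z N w (rem N B y) l ≠ 0 := by
        rw [← hstep]
        exact hA0
      have hid : logDeriv (Z N w (insert y B)) l = logDeriv (Z N w B) l +
          (w : ℂ) * W N w (insert y B) y l * (1 + l * DD N w B y l) := by
        unfold W DD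
        rw [rem_insert N hG.base.refl B y]
        unfold logDeriv
        simp only [Pi.div_apply]
        rw [hder, hstep]
        exact alg _ _ _ _ _ _ hB0 hc0 hAne
      rw [hid]
      have hDD : ‖DD N w B y l‖ ≤ M * √(1 / ω₀) := by
        have h1 : ω₀ * ‖DD N w B y l‖ ^ 2 ≤ M ^ 2 * 1 := by
          calc ω₀ * ‖DD N w B y l‖ ^ 2 ≤ ‖W N w B y l‖ * ‖DD N w B y l‖ ^ 2 :=
                mul_le_mul_of_nonneg_right hB3 (by positivity)
            _ ≤ M ^ 2 := hB1
            _ = M ^ 2 * 1 := (mul_one _).symm
        have h2 : ‖DD N w B y l‖ ^ 2 ≤ (M * √(1 / ω₀)) ^ 2 := by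
          rw [mul_pow, Real.sq_sqrt (by positivity), ← mul_div_assoc, le_div_iff₀ hω]
          linarith
        exact (sq_le_sq₀ (norm_nonneg _) (by positivity)).mp h2
      have hln : ‖l‖ ≤ l₁ + ε := by
        obtain ⟨s, hs0, hs1, hs2⟩ := hlO
        have h1 : ‖l‖ ≤ ‖l - (s : ℂ)‖ + ‖(s : ℂ)‖ := by
          have := norm_add_le (l - (s : ℂ)) (s : ℂ)
          simpa using this
        rw [Complex.norm_real, Real.norm_of_nonneg hs0] at h1
        linarith
      have hw := hG.base.w_pos
      have hterm : ‖(w : ℂ) * W N w (insert y B) y l * (1 + l * DD N w B y l)‖ ≤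
          w * 2 * (1 + (l₁ + ε) * (M * √(1 / ω₀))) := by
        rw [norm_mul, norm_mul, Complex.norm_real, Real.norm_of_nonneg hw.le]
        apply mul_le_mul
        · exact mul_le_mul_of_nonneg_left hA2 hw.le
        · refine (norm_add_le _ _).trans ?_
          rw [norm_one, norm_mul]
          have := mul_le_mul hln hDD (norm_nonneg _) (by positivity)
          linarith
        · exact norm_nonneg _
        · positivity
      refine (norm_add_le _ _).trans ?_
      rw [Finset.card_insert_of_notMem hy]
      push_cast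
      have e : 2 * (1 + (l₁ + ε) * (M * √(1 / ω₀))) * (w * ((B.card : ℝ) + 1)) =
          2 * (1 + (l₁ + ε) * (M * √(1 / ω₀))) * (w * (B.card : ℝ)) +
            w * 2 * (1 + (l₁ + ε) * (M * √(1 / ω₀))) := by ring
      rw [e]
      exact add_le_add ih hterm
  have hA0 := (hmain V N w col F hG A l hlO).1
  refine ⟨hA0, ?_⟩
  have h1 : deriv (Z N w A) l = logDeriv (Z N w A) l * Z N w A l := by
    unfold logDeriv
    simp only [Pi.div_apply]
    rw [div_mul_cancel₀ _ hA0]
  rw [h1, norm_mul]
  exact mul_le_mul_of_nonneg_right hlog (norm_nonneg _)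

end Pool.Agent.H288.HS
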