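import Pool.Agent.H288.HS.Stm2

set_option autoImplicit false

open MeasureTheory Set Filter Topology

namespace Pool.Agent.H288.HS

namespace MONON

theorem coeff_le {d : ℕ} {C : ℝ} {z : ℝ → ℕ → ℝ} (hz : Fam d C z) {L : ℝ} (hL : 0 < L) (k : ℕ) :
    z L k ≤ (L ^ d) ^ k / (k.factorial : ℝ) := by
  induction k with
  | zero => simp [hz.zero L hL]
  | succ k ih =>
    have h1 := hz.del L hL k
    have hLd : 0 ≤ L ^ d := by positivity
    have h2 : (0:ℝ) < (k:ℝ) + 1 := by positivity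
    have h3 : (0:ℝ) < (k.factorial : ℝ) := by exact_mod_cast k.factorial_pos
    rw [Nat.factorial_succ]
    push_cast
    rw [le_div_iff₀ (by positivity)]
    rw [le_div_iff₀ h3] at ih
    calc z L (k + 1) * (((k:ℝ) + 1) * (k.factorial : ℝ))
        = (((k:ℝ) + 1) * z L (k + 1)) * (k.factorial : ℝ) := by ring
      _ ≤ (L ^ d * z L k) * (k.factorial : ℝ) := mul_le_mul_of_nonneg_right h1 h3.le
      _ = L ^ d * (z L k * (k.factorial : ℝ)) := by ring
      _ ≤ L ^ d * (L ^ d) ^ k := mul_le_mul_of_nonneg_left ih hLd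
      _ = (L ^ d) ^ (k + 1) := by rw [pow_succ]; ring

theorem summable_coeff {d : ℕ} {C : ℝ} {z : ℝ → ℕ → ℝ} (hz : Fam d C z) {L : ℝ} (hL : 0 < L)
    {ρ : ℝ} (hρ : 0 ≤ ρ) : Summable (fun k => z L k * ρ ^ k) := by
  refine Summable.of_nonneg_of_le (fun k => mul_nonneg (hz.nonneg L hL k) (by positivity)) ?_
    (Real.summable_pow_div_factorial (L ^ d * ρ))
  intro k
  have h1 := mul_le_mul_of_nonneg_right (coeff_le hz hL k) (show 0 ≤ ρ ^ k by positivity)
  calc z L k * ρ ^ k ≤ (L ^ d) ^ k / (k.factorial : ℝ) * ρ ^ k := h1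
    _ = (L ^ d * ρ) ^ k / (k.factorial : ℝ) := by rw [mul_pow]; ring

theorem summable_moment {d : ℕ} {C : ℝ} {z : ℝ → ℕ → ℝ} (hz : Fam d C z) {L : ℝ} (hL : 0 < L)
    (j : ℕ) {ρ : ℝ} (hρ : 0 ≤ ρ) : Summable (fun k : ℕ => |(k : ℝ) ^ j * z L k| * ρ ^ k) := by
  refine Summable.of_nonneg_of_le (fun k => by positivity) ?_
    (summable_coeff hz hL (show 0 ≤ 2 ^ j * ρ by positivity))
  intro k
  have h1 : (k:ℝ) ≤ 2 ^ k := by exact_mod_cast (Nat.lt_two_pow_self (n := k)).le
  have h2 : (k:ℝ) ^ j ≤ (2 ^ k) ^ j := pow_le_pow_left₀ (by positivity) h1 j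
  have h0 := hz.nonneg L hL k
  rw [abs_of_nonneg (by positivity)]
  calc (k : ℝ) ^ j * z L k * ρ ^ k ≤ (2 ^ k) ^ j * z L k * ρ ^ k := by gcongr
    _ = z L k * (2 ^ j * ρ) ^ k := by rw [mul_pow, ← pow_mul, ← pow_mul, mul_comm k j]; ring

theorem hasDerivAt_series {c : ℕ → ℝ}
    (hc : ∀ ρ : ℝ, 0 ≤ ρ → Summable (fun k => |c k| * ρ ^ k)) (l : ℝ) :
    HasDerivAt (fun x : ℝ => ∑' k, c k * x ^ k) (∑' k : ℕ, c k * ((k:ℝ) * l ^ (k - 1))) l := by
  obtain ⟨ρ, hρ⟩ : ∃ ρ : ℝ, ρ = |l| + 1 := ⟨_, rfl⟩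
  have hρ1 : 1 ≤ ρ := by rw [hρ]; linarith [abs_nonneg l]
  have hu : Summable (fun k => |c k| * (2 * ρ) ^ k) := hc _ (by positivity)
  have hl : l ∈ Metric.ball (0:ℝ) ρ := by
    rw [Metric.mem_ball, dist_zero_right, Real.norm_eq_abs, hρ]; linarith
  refine hasDerivAt_tsum_of_isPreconnected (t := Metric.ball (0:ℝ) ρ)
    (g := fun k x => c k * x ^ k) (g' := fun k x => c k * ((k:ℝ) * x ^ (k - 1)))
    hu Metric.isOpen_ball (convex_ball _ _).isPreconnected ?_ ?_ hl ?_ hl
  · intro k y _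
    exact (hasDerivAt_pow k y).const_mul (c k)
  · intro k y hy
    have hy' : |y| ≤ ρ := by
      rw [Metric.mem_ball, dist_zero_right, Real.norm_eq_abs] at hy; exact hy.le
    rw [Real.norm_eq_abs, abs_mul, abs_mul, abs_pow, Nat.abs_cast]
    have h1 : (k:ℝ) ≤ 2 ^ k := by exact_mod_cast (Nat.lt_two_pow_self (n := k)).le
    have h2 : |y| ^ (k - 1) ≤ ρ ^ k :=
      (pow_le_pow_left₀ (abs_nonneg y) hy' _).trans (pow_le_pow_right₀ hρ1 (Nat.sub_le k 1))
    rw [mul_pow]
    gcongr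
  · refine Summable.of_norm_bounded (hc |l| (abs_nonneg l)) ?_
    intro k
    rw [Real.norm_eq_abs, abs_mul, abs_pow]

theorem hasDerivAt_ZM {d : ℕ} {C : ℝ} {z : ℝ → ℕ → ℝ} (hz : Fam d C z) {L : ℝ} (hL : 0 < L)
    (j : ℕ) {l : ℝ} (hl : 0 < l) :
    HasDerivAt (ZM z L j) (ZM z L (j + 1) l / l) l := by
  have h1 := hasDerivAt_series (c := fun k : ℕ => (k : ℝ) ^ j * z L k)
    (fun ρ hρ => summable_moment hz hL j hρ) l
  have h2 : ∑' k : ℕ, ((k : ℝ) ^ j * z L k) * ((k:ℝ) * l ^ (k - 1)) = ZM z L (j + 1) l / l := by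
    rw [eq_div_iff hl.ne', ← tsum_mul_right]
    unfold ZM
    apply tsum_congr
    intro k
    rcases Nat.eq_zero_or_pos k with rfl | hk
    · simp
    · have e : l ^ k = l ^ (k - 1) * l := by
        rw [← pow_succ]; congr 1; omega
      rw [e, pow_succ]
      ring
  rw [h2] at h1
  exact h1

theorem ZM_summable {d : ℕ} {C : ℝ} {z : ℝ → ℕ → ℝ} (hz : Fam d C z) {L : ℝ} (hL : 0 < L)
    (j : ℕ) {l : ℝ} (hl : 0 ≤ l) : Summable (fun k : ℕ => (k : ℝ) ^ j * z L k * l ^ k) := by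
  refine (summable_moment hz hL j hl).congr ?_
  intro k
  have h0 := hz.nonneg L hL k
  rw [abs_of_nonneg (by positivity)]

theorem one_le_ZM {d : ℕ} {C : ℝ} {z : ℝ → ℕ → ℝ} (hz : Fam d C z) {L : ℝ} (hL : 0 < L)
    {l : ℝ} (hl : 0 ≤ l) : 1 ≤ ZM z L 0 l := by
  have h2 := (ZM_summable hz hL 0 hl).le_tsum 0
    (fun k _ => by have h0 := hz.nonneg L hL k; positivity)
  simpa [hz.zero L hL, ZM] using h2

theorem le_ZM1 {d : ℕ} {C : ℝ} {z : ℝ → ℕ → ℝ} (hz : Fam d C z) {L : ℝ} (hL : 0 < L)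
    {l : ℝ} (hl : 0 ≤ l) : L ^ d * l ≤ ZM z L 1 l := by
  have h2 := (ZM_summable hz hL 1 hl).le_tsum 1
    (fun k _ => by have h0 := hz.nonneg L hL k; positivity)
  simpa [hz.one L hL, ZM] using h2

theorem ZM1_le {d : ℕ} {C : ℝ} {z : ℝ → ℕ → ℝ} (hz : Fam d C z) {L : ℝ} (hL : 0 < L)
    {l : ℝ} (hl : 0 ≤ l) : ZM z L 1 l ≤ l * ZM z L 0 l * L ^ d := by
  have s1 := ZM_summable hz hL 1 hl
  have s0 := ZM_summable hz hL 0 hl
  have e1 : ZM z L 1 l = ∑' k : ℕ, ((k + 1 : ℕ) : ℝ) ^ 1 * z L (k + 1) * l ^ (k + 1) := by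
    unfold ZM
    rw [s1.tsum_eq_zero_add]
    simp
  have e2 : l * ZM z L 0 l * L ^ d = ∑' k : ℕ, l * L ^ d * ((k : ℝ) ^ 0 * z L k * l ^ k) := by
    rw [tsum_mul_left]
    unfold ZM
    ring
  rw [e1, e2]
  refine Summable.tsum_le_tsum ?_ ((summable_nat_add_iff 1).mpr s1) (s0.mul_left _)
  intro k
  have h1 := hz.del L hL k
  have h2 : 0 ≤ l ^ (k + 1) := by positivity
  calc ((k + 1 : ℕ) : ℝ) ^ 1 * z L (k + 1) * l ^ (k + 1)
      = (((k:ℝ) + 1) * z L (k + 1)) * l ^ (k + 1) := by push_cast; ring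
    _ ≤ (L ^ d * z L k) * l ^ (k + 1) := mul_le_mul_of_nonneg_right h1 h2
    _ = l * L ^ d * ((k : ℝ) ^ 0 * z L k * l ^ k) := by rw [pow_succ]; ring

/-- The function `m`. -/
noncomputable def mm (d : ℕ) (C : ℝ) (z : ℝ → ℕ → ℝ) (L l : ℝ) : ℝ :=
  ZM z L 1 l * (1 + C * l) / (l * ZM z L 0 l * L ^ d)

theorem mm_mono {d : ℕ} {C : ℝ} (_ : 0 ≤ C) {z : ℝ → ℕ → ℝ} (hz : Fam d C z) {L : ℝ}
    (hL : 0 < L) : MonotoneOn (mm d C z L) (Ioi 0) := by
  have hLd : 0 < L ^ d := by positivity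
  have hder : ∀ l : ℝ, 0 < l → ∃ v : ℝ, 0 ≤ v ∧ HasDerivAt (mm d C z L) v l := by
    intro l hl
    have p0 : 0 < ZM z L 0 l := by have := one_le_ZM hz hL hl.le; linarith
    have d0 := hasDerivAt_ZM hz hL 0 hl
    have d1 := hasDerivAt_ZM hz hL 1 hl
    have dC : HasDerivAt (fun x : ℝ => 1 + C * x) C l := by
      have := ((hasDerivAt_id l).const_mul C).const_add 1
      simpa using this
    have dN := d1.mul dC
    have dD := ((hasDerivAt_id l).mul d0).mul_const (L ^ d)
    have hD0 : (id l * ZM z L 0 l) * L ^ d ≠ 0 := by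
      simp only [id]; positivity
    have h := dN.div dD hD0
    refine ⟨_, ?_, h⟩
    apply div_nonneg _ (sq_nonneg _)
    have hg := hz.gin L hL l hl.le
    have e : (ZM z L (1 + 1) l / l * (1 + C * l) + ZM z L 1 l * C) *
        (id l * ZM z L 0 l * L ^ d) - ZM z L 1 l * (1 + C * l) *
        ((1 * ZM z L 0 l + id l * (ZM z L (0 + 1) l / l)) * L ^ d) =
        L ^ d * ((ZM z L 2 l * ZM z L 0 l - ZM z L 1 l ^ 2) * (1 + C * l) -
          ZM z L 1 l * ZM z L 0 l) := by
      simp only [id]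
      norm_num
      field_simp
      ring
    simp only [Pi.mul_apply] at *
    rw [e]
    exact mul_nonneg hLd.le (by linarith)
  choose! v hv0 hv using hder
  refine monotoneOn_of_deriv_nonneg (convex_Ioi 0)
    (fun x hx => (hv x hx).continuousAt.continuousWithinAt) ?_ ?_
  · rw [interior_Ioi]
    exact fun x hx => (hv x hx).differentiableAt.differentiableWithinAt
  · rw [interior_Ioi]
    intro x hx
    rw [(hv x hx).deriv]
    exact hv0 x hx

theorem le_mm {d : ℕ} {C : ℝ} (hC : 0 ≤ C) {z : ℝ → ℕ → ℝ} (hz : Fam d C z) {L : ℝ}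
    (hL : 0 < L) {l : ℝ} (hl : 0 < l) : 1 ≤ mm d C z L l := by
  have hLd : 0 < L ^ d := by positivity
  -- the lower bound `1 / ZM 0` near `0`
  have h1 : ∀ x : ℝ, 0 < x → x ≤ l → (ZM z L 0 x)⁻¹ ≤ mm d C z L l := by
    intro x hx hxl
    refine le_trans ?_ (mm_mono hC hz hL (show x ∈ Ioi (0:ℝ) from hx)
      (show l ∈ Ioi (0:ℝ) from hl) hxl)
    have p0 : 0 < ZM z L 0 x := by have := one_le_ZM hz hL hx.le; linarith
    have p1 := le_ZM1 hz hL hx.le
    unfold mm
    rw [inv_eq_one_div, div_le_div_iff₀ p0 (by positivity)]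
    have h2 : L ^ d * x ≤ ZM z L 1 x * (1 + C * x) := by
      have : 0 ≤ C * x := by positivity
      have h3 : 0 ≤ ZM z L 1 x := le_trans (by positivity) p1
      nlinarith
    calc 1 * (x * ZM z L 0 x * L ^ d) = (L ^ d * x) * ZM z L 0 x := by ring
      _ ≤ ZM z L 1 x * (1 + C * x) * ZM z L 0 x := mul_le_mul_of_nonneg_right h2 p0.le
  have hcont : ContinuousAt (ZM z L 0) 0 := by
    have h2 := (hasDerivAt_series (c := fun k : ℕ => (k : ℝ) ^ 0 * z L k)
      (fun ρ hρ => summable_moment hz hL 0 hρ) 0).continuousAt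
    exact h2
  have hz0 : ZM z L 0 0 = 1 := by
    unfold ZM
    rw [tsum_eq_single 0]
    · simp [hz.zero L hL]
    · intro k hk
      simp [hk]
  have h3 : Tendsto (fun x => (ZM z L 0 x)⁻¹) (𝓝[>] 0) (𝓝 1) := by
    have h4 : Tendsto (fun x => (ZM z L 0 x)⁻¹) (𝓝 0) (𝓝 (ZM z L 0 0)⁻¹) :=
      hcont.inv₀ (by rw [hz0]; norm_num)
    rw [hz0, inv_one] at h4
    exact h4.mono_left nhdsWithin_le_nhds
  refine le_of_tendsto h3 ?_
  filter_upwards [Ioo_mem_nhdsGT hl] with x hx
  exact h1 x hx.1 hx.2.le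

/-- A primitive of `1 / (1 + C l)`. -/
noncomputable def lam (C l : ℝ) : ℝ := if C = 0 then l else Real.log (1 + C * l) / C

theorem hasDerivAt_lam {C : ℝ} (hC : 0 ≤ C) {l : ℝ} (hl : 0 < l) :
    HasDerivAt (lam C) (1 / (1 + C * l)) l := by
  by_cases h : C = 0
  · have e : lam C = fun l => l := by funext x; simp [lam, h]
    rw [e, h]
    have h0 : HasDerivAt (fun x : ℝ => x) 1 l := hasDerivAt_id' l
    simpa using h0
  · have e : lam C = fun l => Real.log (1 + C * l) / C := by funext x; simp [lam, h]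
    rw [e]
    have hp : 0 < 1 + C * l := by positivity
    have dC : HasDerivAt (fun x : ℝ => 1 + C * x) C l := by
      have := ((hasDerivAt_id l).const_mul C).const_add 1
      simpa using this
    have h1 := (dC.log hp.ne').div_const C
    refine h1.congr_deriv ?_
    field_simp

theorem lam_mono {C : ℝ} (hC : 0 ≤ C) {a b : ℝ} (ha : 0 < a) (hab : a ≤ b) :
    lam C a ≤ lam C b := by
  have h : MonotoneOn (lam C) (Ioi 0) := by
    refine monotoneOn_of_deriv_nonneg (convex_Ioi 0)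
      (fun x hx => (hasDerivAt_lam hC hx).continuousAt.continuousWithinAt) ?_ ?_
    · rw [interior_Ioi]
      exact fun x hx => (hasDerivAt_lam hC hx).differentiableAt.differentiableWithinAt
    · rw [interior_Ioi]
      intro x hx
      rw [(hasDerivAt_lam hC hx).deriv]
      have : (0:ℝ) < x := hx
      positivity
  exact h (show a ∈ Ioi (0:ℝ) from ha) (show b ∈ Ioi (0:ℝ) from ha.trans_le hab) hab

theorem mono_aux {f f' : ℝ → ℝ} {a b : ℝ} (hab : a ≤ b)
    (hf : ∀ x ∈ Icc a b, HasDerivAt f (f' x) x) (h0 : ∀ x ∈ Icc a b, 0 ≤ f' x) : f a ≤ f b := by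
  have h : MonotoneOn f (Icc a b) := by
    refine monotoneOn_of_deriv_nonneg (convex_Icc a b)
      (fun x hx => (hf x hx).continuousAt.continuousWithinAt) ?_ ?_
    · exact fun x hx => (hf x (interior_subset hx)).differentiableAt.differentiableWithinAt
    · intro x hx
      rw [(hf x (interior_subset hx)).deriv]
      exact h0 x (interior_subset hx)
  exact h (left_mem_Icc.mpr hab) (right_mem_Icc.mpr hab) hab

/-- The finite volume pressure. -/
noncomputable def qq (d : ℕ) (z : ℝ → ℕ → ℝ) (L l : ℝ) : ℝ := Real.log (ZM z L 0 l) / L ^ d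

theorem hasDerivAt_qq {d : ℕ} {C : ℝ} (hC : 0 ≤ C) {z : ℝ → ℕ → ℝ} (hz : Fam d C z) {L : ℝ}
    (hL : 0 < L) {l : ℝ} (hl : 0 < l) :
    HasDerivAt (qq d z L) (mm d C z L l * (1 / (1 + C * l))) l := by
  have p0 : 0 < ZM z L 0 l := by have := one_le_ZM hz hL hl.le; linarith
  have hLd : 0 < L ^ d := by positivity
  have hp : 0 < 1 + C * l := by positivity
  have h1 := ((hasDerivAt_ZM hz hL 0 hl).log p0.ne').div_const (L ^ d)
  refine h1.congr_deriv ?_
  unfold mm
  simp only [zero_add]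
  field_simp

theorem qq_ineq {d : ℕ} {C : ℝ} (hC : 0 ≤ C) {z : ℝ → ℕ → ℝ} (hz : Fam d C z) {L : ℝ}
    (hL : 0 < L) {a b : ℝ} (ha : 0 < a) (hab : a ≤ b) :
    mm d C z L a * (lam C b - lam C a) ≤ qq d z L b - qq d z L a ∧
    qq d z L b - qq d z L a ≤ mm d C z L b * (lam C b - lam C a) ∧
    qq d z L b - qq d z L a ≤ b - a := by
  have hpos : ∀ x ∈ Icc a b, 0 < x := fun x hx => ha.trans_le hx.1
  have hm := mm_mono hC hz hL
  refine ⟨?_, ?_, ?_⟩
  · have h := mono_aux (f := fun x => qq d z L x - mm d C z L a * lam C x)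
      (f' := fun x => mm d C z L x * (1 / (1 + C * x)) - mm d C z L a * (1 / (1 + C * x))) hab
      (fun x hx => (hasDerivAt_qq hC hz hL (hpos x hx)).sub
        ((hasDerivAt_lam hC (hpos x hx)).const_mul _))
      (fun x hx => by
        have h1 : mm d C z L a ≤ mm d C z L x :=
          hm (show a ∈ Ioi (0:ℝ) from ha) (show x ∈ Ioi (0:ℝ) from hpos x hx) hx.1
        have hx0 := hpos x hx
        have h2 : 0 ≤ 1 / (1 + C * x) := by positivity
        rw [← sub_mul]
        exact mul_nonneg (by linarith) h2)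
    linarith
  · have h := mono_aux (f := fun x => mm d C z L b * lam C x - qq d z L x)
      (f' := fun x => mm d C z L b * (1 / (1 + C * x)) - mm d C z L x * (1 / (1 + C * x))) hab
      (fun x hx => ((hasDerivAt_lam hC (hpos x hx)).const_mul _).sub
        (hasDerivAt_qq hC hz hL (hpos x hx)))
      (fun x hx => by
        have h1 : mm d C z L x ≤ mm d C z L b :=
          hm (show x ∈ Ioi (0:ℝ) from hpos x hx) (show b ∈ Ioi (0:ℝ) from ha.trans_le hab) hx.2
        have hx0 := hpos x hx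
        have h2 : 0 ≤ 1 / (1 + C * x) := by positivity
        rw [← sub_mul]
        exact mul_nonneg (by linarith) h2)
    linarith
  · have h := mono_aux (f := fun x => x - qq d z L x)
      (f' := fun x => 1 - mm d C z L x * (1 / (1 + C * x))) hab
      (fun x hx => (hasDerivAt_id x).sub (hasDerivAt_qq hC hz hL (hpos x hx)))
      (fun x hx => by
        have hx0 := hpos x hx
        have p0 : 0 < ZM z L 0 x := by have := one_le_ZM hz hL hx0.le; linarith
        have hLd : 0 < L ^ d := by positivity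
        have hp : 0 < 1 + C * x := by positivity
        have e : mm d C z L x * (1 / (1 + C * x)) = ZM z L 1 x / (x * ZM z L 0 x * L ^ d) := by
          unfold mm
          field_simp
        rw [e, sub_nonneg, div_le_one (by positivity)]
        exact ZM1_le hz hL hx0.le)
    linarith

theorem tendsto_slope {f : ℝ → ℝ} {f' x : ℝ} (h : HasDerivAt f f' x) :
    Tendsto (fun t : ℝ => t⁻¹ * (f (x + t) - f x)) (𝓝[>] 0) (𝓝 f') := by
  have := h.tendsto_slope_zero_right
  simpa [smul_eq_mul] using this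

end MONON

open MONON

theorem t_MONO : S_MONO := by
  intro d C z l₁ _ hC _ hz p hp han
  have hpos : ∀ᶠ L : ℝ in atTop, 0 < L := eventually_gt_atTop 0
  have hq : ∀ l : ℝ, 0 ≤ l → Tendsto (fun L : ℝ => qq d z L l) atTop (𝓝 (p l)) := hp
  -- the inequalities in the limit
  have I1 : ∀ a b c e : ℝ, 0 < a → a ≤ b → b ≤ c → c ≤ e →
      (p b - p a) * (lam C e - lam C c) ≤ (p e - p c) * (lam C b - lam C a) := by
    intro a b c e ha hab hbc hce
    have hb := ha.trans_le hab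
    have hc := hb.trans_le hbc
    have he := hc.trans_le hce
    refine le_of_tendsto_of_tendsto
      (((hq b hb.le).sub (hq a ha.le)).mul_const (lam C e - lam C c))
      (((hq e he.le).sub (hq c hc.le)).mul_const (lam C b - lam C a)) ?_
    filter_upwards [hpos] with L hL
    have q1 := (qq_ineq hC hz hL ha hab).2.1
    have q2 := (qq_ineq hC hz hL hc hce).1
    have m1 : mm d C z L b ≤ mm d C z L c :=
      mm_mono hC hz hL (show b ∈ Ioi (0:ℝ) from hb) (show c ∈ Ioi (0:ℝ) from hc) hbc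
    have s1 : 0 ≤ lam C e - lam C c := sub_nonneg.mpr (lam_mono hC hc hce)
    have s2 : 0 ≤ lam C b - lam C a := sub_nonneg.mpr (lam_mono hC ha hab)
    calc (qq d z L b - qq d z L a) * (lam C e - lam C c)
        ≤ (mm d C z L b * (lam C b - lam C a)) * (lam C e - lam C c) :=
          mul_le_mul_of_nonneg_right q1 s1
      _ ≤ (mm d C z L c * (lam C b - lam C a)) * (lam C e - lam C c) :=
          mul_le_mul_of_nonneg_right (mul_le_mul_of_nonneg_right m1 s2) s1
      _ = (mm d C z L c * (lam C e - lam C c)) * (lam C b - lam C a) := by ring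
      _ ≤ (qq d z L e - qq d z L c) * (lam C b - lam C a) :=
          mul_le_mul_of_nonneg_right q2 s2
  have I2 : ∀ a b : ℝ, 0 < a → a ≤ b → lam C b - lam C a ≤ p b - p a ∧ p b - p a ≤ b - a := by
    intro a b ha hab
    have hb := ha.trans_le hab
    constructor
    · refine ge_of_tendsto ((hq b hb.le).sub (hq a ha.le)) ?_
      filter_upwards [hpos] with L hL
      have q1 := (qq_ineq hC hz hL ha hab).1
      have m1 := le_mm hC hz hL ha
      have s2 : 0 ≤ lam C b - lam C a := sub_nonneg.mpr (lam_mono hC ha hab)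
      calc lam C b - lam C a = 1 * (lam C b - lam C a) := by ring
        _ ≤ mm d C z L a * (lam C b - lam C a) := mul_le_mul_of_nonneg_right m1 s2
        _ ≤ _ := q1
    · refine le_of_tendsto ((hq b hb.le).sub (hq a ha.le)) ?_
      filter_upwards [hpos] with L hL
      exact (qq_ineq hC hz hL ha hab).2.2
  have hd : ∀ s ∈ Ioo 0 l₁, HasDerivAt p (deriv p s) s :=
    fun s hs => (han s hs).differentiableAt.hasDerivAt
  have ht0 : ∀ᶠ t : ℝ in 𝓝[>] 0, 0 < t := eventually_mem_nhdsWithin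
  refine ⟨?_, ?_⟩
  · intro s hs
    have hs0 : 0 < s := hs.1
    have t1 := tendsto_slope (hd s hs)
    have t2 := tendsto_slope (hasDerivAt_lam hC hs0)
    have hp0 : 0 < 1 + C * s := by positivity
    constructor
    · have h1 : 1 / (1 + C * s) ≤ deriv p s := by
        refine le_of_tendsto_of_tendsto t2 t1 ?_
        filter_upwards [ht0] with t ht
        have := (I2 s (s + t) hs0 (by linarith)).1
        exact mul_le_mul_of_nonneg_left this (by positivity)
      rwa [div_le_iff₀ hp0] at h1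
    · refine le_of_tendsto t1 ?_
      filter_upwards [ht0] with t ht
      have := (I2 s (s + t) hs0 (by linarith)).2
      rw [inv_mul_le_iff₀ ht]
      linarith
  · intro s hs t ht hst
    rcases eq_or_lt_of_le hst with rfl | hlt
    · exact le_rfl
    have hs0 : 0 < s := hs.1
    have ht0' : 0 < t := ht.1
    have a1 := tendsto_slope (hd s hs)
    have a2 := tendsto_slope (hd t ht)
    have b1 := tendsto_slope (hasDerivAt_lam hC hs0)
    have b2 := tendsto_slope (hasDerivAt_lam hC ht0')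
    have h1 : deriv p s * (1 / (1 + C * t)) ≤ deriv p t * (1 / (1 + C * s)) := by
      refine le_of_tendsto_of_tendsto (a1.mul b2) (a2.mul b1) ?_
      have hsm : ∀ᶠ h : ℝ in 𝓝[>] 0, h ≤ t - s := by
        filter_upwards [Ioo_mem_nhdsGT (sub_pos.mpr hlt)] with x hx
        exact hx.2.le
      filter_upwards [ht0, hsm] with h hh hh2
      have := I1 s (s + h) t (t + h) hs0 (by linarith) (by linarith) (by linarith)
      have hi : 0 ≤ h⁻¹ * h⁻¹ := by positivity
      calc h⁻¹ * (p (s + h) - p s) * (h⁻¹ * (lam C (t + h) - lam C t))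
          = h⁻¹ * h⁻¹ * ((p (s + h) - p s) * (lam C (t + h) - lam C t)) := by ring
        _ ≤ h⁻¹ * h⁻¹ * ((p (t + h) - p t) * (lam C (s + h) - lam C s)) :=
            mul_le_mul_of_nonneg_left this hi
        _ = h⁻¹ * (p (t + h) - p t) * (h⁻¹ * (lam C (s + h) - lam C s)) := by ring
    have p1 : 0 < 1 + C * s := by positivity
    have p2 : 0 < 1 + C * t := by positivity
    rw [mul_one_div, mul_one_div, div_le_div_iff₀ p2 p1] at h1
    exact h1

end Pool.Agent.H288.HS
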