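import Pool.Agent.H288.HS.Stm2

set_option autoImplicit false

open MeasureTheory Set Filter Topology

namespace Pool.Agent.H288.HS.NEARN

variable {V : Type}

theorem differentiable_Z (N : V → V → Prop) (w : ℝ) (A : Finset V) :
    Differentiable ℂ (Z N w A) := by
  unfold Z
  fun_prop

theorem ball_sub {l₁ ε s : ℝ} (h0 : 0 ≤ s) (h1 : s ≤ l₁) :
    Metric.ball (s : ℂ) ε ⊆ Om l₁ ε := by
  intro z hz
  rw [Metric.mem_ball, dist_eq_norm] at hz
  exact ⟨s, h0, h1, hz⟩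

theorem deriv_W (N : V → V → Prop) (w : ℝ) (A : Finset V) (x : V) (z : ℂ)
    (h1 : Z N w A z ≠ 0) (h2 : Z N w (rem N A x) z ≠ 0) :
    DifferentiableAt ℂ (W N w A x) z ∧ deriv (W N w A x) z = W N w A x z * DD N w A x z := by
  have d1 : DifferentiableAt ℂ (Z N w A) z := differentiable_Z N w A z
  have d2 : DifferentiableAt ℂ (Z N w (rem N A x)) z := differentiable_Z N w (rem N A x) z
  have hd : HasDerivAt (W N w A x) ((deriv (Z N w (rem N A x)) z * Z N w A z -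
      Z N w (rem N A x) z * deriv (Z N w A) z) / Z N w A z ^ 2) z :=
    d2.hasDerivAt.div d1.hasDerivAt h1
  refine ⟨hd.differentiableAt, ?_⟩
  rw [hd.deriv]
  unfold W DD
  rw [logDeriv_apply, logDeriv_apply]
  field_simp

end Pool.Agent.H288.HS.NEARN

namespace Pool.Agent.H288.HS

open NEARN

theorem t_NEAR (h1 : S_REAL) (h2 : S_CLOSE) : S_NEAR := by
  intro V N w r col C a hG l₁ ε M hl₁ hε hM hC hsmall A x hA l hl
  obtain ⟨s, hs0, hs1, hls⟩ := hl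
  obtain ⟨K, hK⟩ : ∃ K : ℝ, K = M * √C := ⟨_, rfl⟩
  have hK0 : 0 ≤ K := by rw [hK]; positivity
  have hK2 : K ^ 2 = M ^ 2 * C := by
    rw [hK, mul_pow, Real.sq_sqrt hC.le]
  rw [← hK] at hsmall ⊢
  obtain ⟨ω, hω1, hω2, hω3⟩ := (h1 V N w C hG.w_pos hG.refl hG.symm hG.vol s hs0 A).2 x
  have he1 : Real.exp (-(l₁ * C)) ≤ Real.exp (-(s * C)) := by
    apply Real.exp_le_exp.mpr
    have := mul_le_mul_of_nonneg_right hs1 hC.le
    linarith
  have he2 : Real.exp (-(l₁ * C)) ≤ 1 := by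
    apply Real.exp_le_one_iff.mpr
    have := mul_nonneg hl₁ hC.le
    linarith
  have he0 : 0 < Real.exp (-(l₁ * C)) := Real.exp_pos _
  have hω0 : 0 ≤ ω := by linarith
  have hnormω : ‖W N w A x (s : ℂ)‖ = ω := by
    rw [hω3, Complex.norm_real, Real.norm_eq_abs, abs_of_nonneg hω0]
  have hclose := h2 (W N w A x) (s : ℂ) ε K hε hK0 (by linarith) (by
    intro z hz
    obtain ⟨z1, z2, z3⟩ := hA z (ball_sub hs0 hs1 hz)
    obtain ⟨d1, d2⟩ := deriv_W N w A x z z1 z2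
    refine ⟨d1, ?_⟩
    rw [d2, norm_mul, hK2]
    have hv := hG.vol A x
    have hM2 : 0 ≤ M ^ 2 := by positivity
    have e1 : M ^ 2 * (w * ((nb N A x).card : ℝ)) ≤ M ^ 2 * C :=
      mul_le_mul_of_nonneg_left hv hM2
    have e2 : (‖W N w A x z‖ * ‖DD N w A x z‖) ^ 2 =
        (‖W N w A x z‖ * ‖DD N w A x z‖ ^ 2) * ‖W N w A x z‖ := by ring
    rw [e2]
    exact mul_le_mul_of_nonneg_right (z3.trans e1) (norm_nonneg _))
    (by rw [hnormω]; exact hω2) l (by rw [Metric.mem_ball, dist_eq_norm]; exact hls)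
  have n1 : ‖W N w A x l‖ ≤ ‖W N w A x l - W N w A x (s : ℂ)‖ + ‖W N w A x (s : ℂ)‖ := by
    have := norm_add_le (W N w A x l - W N w A x (s : ℂ)) (W N w A x (s : ℂ))
    rwa [sub_add_cancel] at this
  have n2 : ‖W N w A x (s : ℂ)‖ - ‖W N w A x l‖ ≤ ‖W N w A x l - W N w A x (s : ℂ)‖ := by
    rw [norm_sub_rev]
    exact norm_sub_norm_le _ _
  rw [hnormω] at n1 n2
  have hW2 : ‖W N w A x l‖ ≤ 2 := by linarith
  refine ⟨hW2, by linarith, s * ω, mul_nonneg hs0 hω0, ?_⟩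
  have e3 : l * W N w A x l - ((s * ω : ℝ) : ℂ) =
      (l - (s : ℂ)) * W N w A x l + (s : ℂ) * (W N w A x l - W N w A x (s : ℂ)) := by
    rw [hω3]
    push_cast
    ring
  rw [e3]
  have n3 := norm_add_le ((l - (s : ℂ)) * W N w A x l)
    ((s : ℂ) * (W N w A x l - W N w A x (s : ℂ)))
  rw [norm_mul, norm_mul, Complex.norm_real, Real.norm_eq_abs, abs_of_nonneg hs0] at n3
  have n4 : ‖l - (s : ℂ)‖ * ‖W N w A x l‖ ≤ ε * 2 :=
    mul_le_mul hls.le hW2 (norm_nonneg _) hε.le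
  have n5 : s * ‖W N w A x l - W N w A x (s : ℂ)‖ ≤ l₁ * (2 * K * ε) :=
    mul_le_mul hs1 hclose (norm_nonneg _) hl₁
  linarith

end Pool.Agent.H288.HS
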