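import Pool.Agent.H288.HS.Stm2

/-!
# The frontier of the hard-sphere configurations is a null set (helper249 for helper288)
-/

set_option autoImplicit false

open MeasureTheory Set Filter Topology

namespace Pool.Agent.H288.HS

namespace NULLN

variable {d k : ℕ}

/-- The configurations in which two given particles touch. -/
def touch (R : ℝ) (i j : Fin k) : Set (Fin k × Fin d → ℝ) :=
  {x | ∑ c, (x (i, c) - x (j, c)) ^ 2 = R ^ 2}

theorem cont_dist (i j : Fin k) :
    Continuous fun x : Fin k × Fin d → ℝ => ∑ c, (x (i, c) - x (j, c)) ^ 2 :=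
  continuous_finsetSum _ fun c _ =>
    ((continuous_apply (i, c)).sub (continuous_apply (j, c))).pow 2

theorem touch_null (hd : 1 ≤ d) (R : ℝ) {i j : Fin k} (hij : i ≠ j) :
    volume (touch (d := d) R i j) = 0 := by
  obtain ⟨c0⟩ : Nonempty (Fin d) := ⟨⟨0, hd⟩⟩
  have hclosed : IsClosed (touch (d := d) R i j) := isClosed_eq (cont_dist i j) continuous_const
  have hmeas : MeasurableSet (touch (d := d) R i j)ᶜ := hclosed.measurableSet.compl
  have key : ∀ᵐ y : (Fin k × Fin d → ℝ) ∂volume, y ∈ (touch (d := d) R i j)ᶜ := by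
    refine ae_mem_of_ae_add_linearMap_mem
      (LinearMap.toSpanSingleton ℝ (Fin k × Fin d → ℝ) (Pi.single (i, c0) (1 : ℝ)))
      (volume : Measure ℝ) volume hmeas ?_
    intro y
    rw [ae_iff]
    obtain ⟨u, hu⟩ : ∃ u : ℝ, u = y (i, c0) - y (j, c0) := ⟨_, rfl⟩
    obtain ⟨K, hK⟩ : ∃ K : ℝ, K = ∑ c ∈ Finset.univ.erase c0, (y (i, c) - y (j, c)) ^ 2 :=
      ⟨_, rfl⟩
    refine Set.Finite.measure_zero (Set.Finite.subset
      (Set.toFinite {√(R ^ 2 - K) - u, -√(R ^ 2 - K) - u}) ?_) _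
    intro t ht
    have ht : y + (LinearMap.toSpanSingleton ℝ (Fin k × Fin d → ℝ)
        (Pi.single (i, c0) (1 : ℝ))) t ∈ touch (d := d) R i j := not_not.1 ht
    have ht1 : ∑ c, ((y + t • (Pi.single (i, c0) (1 : ℝ) : Fin k × Fin d → ℝ)) (i, c) -
        (y + t • (Pi.single (i, c0) (1 : ℝ) : Fin k × Fin d → ℝ)) (j, c)) ^ 2 = R ^ 2 := ht
    have e1 : ∀ c, (y + t • (Pi.single (i, c0) (1 : ℝ) : Fin k × Fin d → ℝ)) (j, c) = y (j, c) := by
      intro c
      have h1 : (j, c) ≠ (i, c0) := fun h => hij (congrArg Prod.fst h).symm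
      rw [Pi.add_apply, Pi.smul_apply, Pi.single_eq_of_ne h1, smul_zero, add_zero]
    have e2 : ∀ c, c ≠ c0 →
        (y + t • (Pi.single (i, c0) (1 : ℝ) : Fin k × Fin d → ℝ)) (i, c) = y (i, c) := by
      intro c hc
      have h1 : (i, c) ≠ (i, c0) := fun h => hc (congrArg Prod.snd h)
      rw [Pi.add_apply, Pi.smul_apply, Pi.single_eq_of_ne h1, smul_zero, add_zero]
    have e3 : (y + t • (Pi.single (i, c0) (1 : ℝ) : Fin k × Fin d → ℝ)) (i, c0) =
        y (i, c0) + t := by
      rw [Pi.add_apply, Pi.smul_apply, Pi.single_eq_same, smul_eq_mul, mul_one]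
    rw [← Finset.add_sum_erase _ _ (Finset.mem_univ c0), e1, e3,
      Finset.sum_congr rfl fun c hc => by rw [e1 c, e2 c (Finset.ne_of_mem_erase hc)], ← hK] at ht1
    have h2 : (t + u) ^ 2 = R ^ 2 - K := by
      rw [hu]
      linear_combination ht1
    have h3 : √(R ^ 2 - K) = |t + u| := by rw [← h2, Real.sqrt_sq_eq_abs]
    rw [h3, Set.mem_insert_iff, Set.mem_singleton_iff]
    rcases abs_cases (t + u) with ⟨h4, -⟩ | ⟨h4, -⟩
    · left
      rw [h4]
      ring
    · right
      rw [h4]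
      ring
  rw [ae_iff] at key
  have e : {y : Fin k × Fin d → ℝ | ¬ y ∈ (touch (d := d) R i j)ᶜ} = touch R i j := by
    ext y
    exact not_not
  rwa [e] at key

end NULLN

open NULLN in
theorem t_NULL : S_NULL := by
  intro d k R L hd hR hL
  obtain ⟨S, hS⟩ : ∃ S : Set (Fin k × Fin d → ℝ), S = {x : Fin k × Fin d → ℝ |
    (∀ i c, x (i, c) ∈ Set.Icc (0 : ℝ) L) ∧
      ∀ i j, i ≠ j → R ^ 2 ≤ ∑ c, (x (i, c) - x (j, c)) ^ 2} := ⟨_, rfl⟩
  rw [← hS]
  have hclosed : IsClosed S := by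
    rw [hS, Set.ofPred_and]
    apply IsClosed.inter
    · rw [Set.ofPred_forall]
      refine isClosed_iInter fun i => ?_
      rw [Set.ofPred_forall]
      exact isClosed_iInter fun c => isClosed_Icc.preimage (continuous_apply (i, c))
    · rw [Set.ofPred_forall]
      refine isClosed_iInter fun i => ?_
      rw [Set.ofPred_forall]
      refine isClosed_iInter fun j => ?_
      rw [Set.ofPred_forall]
      exact isClosed_iInter fun _ => isClosed_le continuous_const (cont_dist i j)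
  obtain ⟨U, hU⟩ : ∃ U : Set (Fin k × Fin d → ℝ), U = {x : Fin k × Fin d → ℝ |
    (∀ i c, x (i, c) ∈ Set.Ioo (0 : ℝ) L) ∧
      ∀ i j, i ≠ j → R ^ 2 < ∑ c, (x (i, c) - x (j, c)) ^ 2} := ⟨_, rfl⟩
  have hopen : IsOpen U := by
    rw [hU, Set.ofPred_and]
    apply IsOpen.inter
    · rw [Set.ofPred_forall]
      refine isOpen_iInter_of_finite fun i => ?_
      rw [Set.ofPred_forall]
      exact isOpen_iInter_of_finite fun c => isOpen_Ioo.preimage (continuous_apply (i, c))
    · rw [Set.ofPred_forall]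
      refine isOpen_iInter_of_finite fun i => ?_
      rw [Set.ofPred_forall]
      refine isOpen_iInter_of_finite fun j => ?_
      rw [Set.ofPred_forall]
      exact isOpen_iInter_of_finite fun _ => isOpen_lt continuous_const (cont_dist i j)
  have hUS : U ⊆ interior S := by
    refine interior_maximal ?_ hopen
    rw [hU, hS]
    rintro x ⟨h1, h2⟩
    exact ⟨fun i c => ⟨(h1 i c).1.le, (h1 i c).2.le⟩, fun i j hij => (h2 i j hij).le⟩
  have hsub : frontier S ⊆ ((⋃ p : Fin k × Fin d, {x : Fin k × Fin d → ℝ | x p = 0}) ∪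
      ⋃ p : Fin k × Fin d, {x : Fin k × Fin d → ℝ | x p = L}) ∪
      ⋃ q : {q : Fin k × Fin k // q.1 ≠ q.2}, touch R q.1.1 q.1.2 := by
    rw [hclosed.frontier_eq]
    rintro x ⟨hx, hx'⟩
    by_contra hcon
    rw [Set.mem_union, Set.mem_union, not_or, not_or, Set.mem_iUnion, Set.mem_iUnion,
      Set.mem_iUnion] at hcon
    obtain ⟨⟨h1, h2⟩, h3⟩ := hcon
    push Not at h1 h2 h3
    apply hx'
    apply hUS
    rw [hS] at hx
    rw [hU]
    refine ⟨fun i c => ⟨?_, ?_⟩, fun i j hij => ?_⟩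
    · exact lt_of_le_of_ne (hx.1 i c).1 (fun h => h1 (i, c) h.symm)
    · exact lt_of_le_of_ne (hx.1 i c).2 (h2 (i, c))
    · exact lt_of_le_of_ne (hx.2 i j hij) (fun h => h3 ⟨(i, j), hij⟩ h.symm)
  have hplane : ∀ (p : Fin k × Fin d) (b : ℝ),
      volume {x : Fin k × Fin d → ℝ | x p = b} = 0 := fun p b =>
    Measure.pi_hyperplane (fun _ : Fin k × Fin d => (volume : Measure ℝ)) p b
  refine measure_mono_null hsub ?_
  rw [measure_union_null_iff, measure_union_null_iff, measure_iUnion_null_iff,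
    measure_iUnion_null_iff, measure_iUnion_null_iff]
  exact ⟨⟨fun p => hplane p 0, fun p => hplane p L⟩, fun q => touch_null hd R q.2⟩

end Pool.Agent.H288.HS
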