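import Pool.Agent.H288.HS.Stm5

/-!
# The frontier of a set of paths is a null set (helper585 for helper288)
-/

set_option autoImplicit false

open MeasureTheory Set Filter Topology

namespace Pool.Agent.H288.HS

namespace NULLPN

variable {d K : ℕ}

/-- The difference of two points of the path from the origin. -/
def df (q : Fin K → Fin d → ℝ) (a b : Fin (K + 1)) : Fin d → ℝ :=
  fun k => pt (fun _ => (0 : ℝ)) q b k - pt (fun _ => (0 : ℝ)) q a k

theorem pt_zero (q : Fin K → Fin d → ℝ) : pt (fun _ => (0 : ℝ)) q 0 = fun _ => 0 := rfl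

theorem pt_succ (q : Fin K → Fin d → ℝ) (i : Fin K) : pt (fun _ => (0 : ℝ)) q i.succ = q i := rfl

theorem cont_pt (a : Fin (K + 1)) :
    Continuous fun q : Fin K → Fin d → ℝ => pt (fun _ => (0 : ℝ)) q a := by
  refine Fin.cases ?_ (fun i => ?_) a
  · simp only [pt_zero]
    exact continuous_const
  · simp only [pt_succ]
    exact continuous_apply i

theorem cont_df (a b : Fin (K + 1)) : Continuous fun q : Fin K → Fin d → ℝ => df q a b := by
  unfold df
  refine continuous_pi fun k => ?_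
  exact ((continuous_apply k).comp (cont_pt b)).sub ((continuous_apply k).comp (cont_pt a))

theorem df_add (y : Fin K → Fin d → ℝ) (v : Fin d → ℝ) (i : Fin K) {a : Fin (K + 1)}
    (ha : a ≠ i.succ) :
    df (y + Pi.single i v) a i.succ = v + df y a i.succ := by
  funext k
  have e1 : pt (fun _ => (0 : ℝ)) (y + Pi.single i v) a = pt (fun _ => (0 : ℝ)) y a := by
    revert ha
    refine Fin.cases ?_ (fun j => ?_) a
    · intro _
      rfl
    · intro hj
      have hji : j ≠ i := fun h => hj (by rw [h])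
      rw [pt_succ, pt_succ, Pi.add_apply, Pi.single_eq_of_ne hji, add_zero]
  have e2 : pt (fun _ => (0 : ℝ)) (y + Pi.single i v) i.succ = y i + v := by
    rw [pt_succ, Pi.add_apply, Pi.single_eq_same]
  show pt (fun _ => (0 : ℝ)) (y + Pi.single i v) i.succ k -
    pt (fun _ => (0 : ℝ)) (y + Pi.single i v) a k =
    v k + (pt (fun _ => (0 : ℝ)) y i.succ k - pt (fun _ => (0 : ℝ)) y a k)
  rw [e1, e2, pt_succ, Pi.add_apply]
  ring

theorem null_pre {D : Set (Fin d → ℝ)} (hD : IsClosed D) (h0 : volume D = 0) {i : Fin K}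
    {a : Fin (K + 1)} (ha : a ≠ i.succ) :
    volume {q : Fin K → Fin d → ℝ | df q a i.succ ∈ D} = 0 := by
  obtain ⟨S, hS⟩ : ∃ S : Set (Fin K → Fin d → ℝ), S = {q | df q a i.succ ∈ D} := ⟨_, rfl⟩
  have hcl : IsClosed S := by
    rw [hS]
    exact hD.preimage (cont_df a i.succ)
  have key : ∀ᵐ q : (Fin K → Fin d → ℝ) ∂volume, q ∈ Sᶜ := by
    refine ae_mem_of_ae_add_linearMap_mem
      (LinearMap.single ℝ (fun _ : Fin K => Fin d → ℝ) i)
      (volume : Measure (Fin d → ℝ)) volume hcl.measurableSet.compl ?_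
    intro y
    rw [ae_iff]
    have e : {v : Fin d → ℝ | ¬ (y + (LinearMap.single ℝ (fun _ : Fin K => Fin d → ℝ) i) v ∈ Sᶜ)} =
        (fun v => v + df y a i.succ) ⁻¹' D := by
      ext v
      rw [Set.mem_ofPred_eq, Set.mem_compl_iff, not_not, hS, Set.mem_ofPred_eq, Set.mem_preimage,
        ← df_add y v i ha]
      rfl
    rw [e, measure_preimage_add_right]
    exact h0
  rw [ae_iff] at key
  have e : {q : Fin K → Fin d → ℝ | ¬ q ∈ Sᶜ} = S := by
    ext y
    exact not_not
  rw [e, hS] at key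
  exact key

/-- The sphere. -/
def sph (d : ℕ) (R : ℝ) : Set (Fin d → ℝ) := {z | ∑ k, z k ^ 2 = R ^ 2}

theorem sph_closed (R : ℝ) : IsClosed (sph d R) :=
  isClosed_eq (continuous_finsetSum _ fun c _ => (continuous_apply c).pow 2) continuous_const

theorem sph_null (hd : 1 ≤ d) (R : ℝ) : volume (sph d R) = 0 := by
  obtain ⟨c0⟩ : Nonempty (Fin d) := ⟨⟨0, hd⟩⟩
  have key : ∀ᵐ y : (Fin d → ℝ) ∂volume, y ∈ (sph d R)ᶜ := by
    refine ae_mem_of_ae_add_linearMap_mem
      (LinearMap.toSpanSingleton ℝ (Fin d → ℝ) (Pi.single c0 (1 : ℝ)))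
      (volume : Measure ℝ) volume (sph_closed R).measurableSet.compl ?_
    intro y
    rw [ae_iff]
    obtain ⟨M, hM⟩ : ∃ M : ℝ, M = ∑ c ∈ Finset.univ.erase c0, (y c) ^ 2 := ⟨_, rfl⟩
    refine Set.Finite.measure_zero (Set.Finite.subset
      (Set.toFinite {√(R ^ 2 - M) - y c0, -√(R ^ 2 - M) - y c0}) ?_) _
    intro t ht
    have ht : y + (LinearMap.toSpanSingleton ℝ (Fin d → ℝ)
        (Pi.single c0 (1 : ℝ))) t ∈ sph d R := not_not.1 ht
    have ht1 : ∑ c, ((y + t • (Pi.single c0 (1 : ℝ) : Fin d → ℝ)) c) ^ 2 = R ^ 2 := ht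
    have e2 : ∀ c, c ≠ c0 → (y + t • (Pi.single c0 (1 : ℝ) : Fin d → ℝ)) c = y c := by
      intro c hc
      rw [Pi.add_apply, Pi.smul_apply, Pi.single_eq_of_ne hc, smul_zero, add_zero]
    have e3 : (y + t • (Pi.single c0 (1 : ℝ) : Fin d → ℝ)) c0 = y c0 + t := by
      rw [Pi.add_apply, Pi.smul_apply, Pi.single_eq_same, smul_eq_mul, mul_one]
    rw [← Finset.add_sum_erase _ _ (Finset.mem_univ c0), e3,
      Finset.sum_congr rfl fun c hc => by rw [e2 c (Finset.ne_of_mem_erase hc)], ← hM] at ht1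
    have h2 : (t + y c0) ^ 2 = R ^ 2 - M := by
      linear_combination ht1
    have h3 : √(R ^ 2 - M) = |t + y c0| := by rw [← h2, Real.sqrt_sq_eq_abs]
    rw [h3, Set.mem_insert_iff, Set.mem_singleton_iff]
    rcases abs_cases (t + y c0) with ⟨h4, -⟩ | ⟨h4, -⟩
    · left
      rw [h4]
      ring
    · right
      rw [h4]
      ring
  rw [ae_iff] at key
  have e : {y : Fin d → ℝ | ¬ y ∈ (sph d R)ᶜ} = sph d R := by
    ext y
    exact not_not
  rwa [e] at key

theorem not_frontier {X : Type} [TopologicalSpace X] {S : Set X} {q : X}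
    (h : ∀ᶠ q' in 𝓝 q, (q' ∈ S ↔ q ∈ S)) : q ∉ frontier S := by
  rintro ⟨h1, h2⟩
  by_cases hq : q ∈ S
  · apply h2
    rw [mem_interior_iff_mem_nhds]
    filter_upwards [h] with q' hq'
    exact hq'.2 hq
  · rw [mem_closure_iff_frequently] at h1
    apply h1
    filter_upwards [h] with q' hq'
    exact fun h3 => hq (hq'.1 h3)

theorem NR_iff (R : ℝ) (q : Fin K → Fin d → ℝ) (a b : Fin (K + 1)) :
    NR d R (pt (fun _ => (0 : ℝ)) q a) (pt (fun _ => (0 : ℝ)) q b) ↔
      ∑ k, (df q a b k) ^ 2 < R ^ 2 := by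
  unfold NR df
  have e : ∑ k, (pt (fun _ => (0 : ℝ)) q a k - pt (fun _ => (0 : ℝ)) q b k) ^ 2 =
      ∑ k, (pt (fun _ => (0 : ℝ)) q b k - pt (fun _ => (0 : ℝ)) q a k) ^ 2 :=
    Finset.sum_congr rfl fun k _ => by ring
  rw [e]

theorem NR_ev (R : ℝ) (q : Fin K → Fin d → ℝ) (a b : Fin (K + 1)) (h : df q a b ∉ sph d R) :
    ∀ᶠ q' in 𝓝 q, (NR d R (pt (fun _ => (0 : ℝ)) q' a) (pt (fun _ => (0 : ℝ)) q' b) ↔
      NR d R (pt (fun _ => (0 : ℝ)) q a) (pt (fun _ => (0 : ℝ)) q b)) := by
  have hc : Continuous fun q : Fin K → Fin d → ℝ => ∑ k, (df q a b k) ^ 2 :=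
    continuous_finsetSum _ fun k _ => ((continuous_apply k).comp (cont_df a b)).pow 2
  have hne : ∑ k, (df q a b k) ^ 2 ≠ R ^ 2 := h
  rcases lt_or_gt_of_ne hne with h1 | h1
  · have h2 := hc.continuousAt.eventually (eventually_lt_nhds h1)
    filter_upwards [h2] with q' hq'
    rw [NR_iff, NR_iff]
    exact ⟨fun _ => h1, fun _ => hq'⟩
  · have h2 := hc.continuousAt.eventually (eventually_gt_nhds h1)
    filter_upwards [h2] with q' hq'
    rw [NR_iff, NR_iff]
    exact ⟨fun h3 => absurd h3 (not_lt.2 hq'.le), fun h3 => absurd h3 (not_lt.2 h1.le)⟩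

end NULLPN

open NULLPN in
/-- **NULLP** -/
theorem t_NULLP : S_NULLP := by
  intro d r m K c R o hd hR hc
  have hD := fun b => (hc b).null
  choose D hDc hD0 hDe using hD
  have hsub : frontier (Paths d r m K c R o) ⊆
      (⋃ p : {p : Fin K × Fin K // p.1.castSucc ≠ p.2.succ},
        {q : Fin K → Fin d → ℝ | df q p.1.1.castSucc p.1.2.succ ∈ sph d R}) ∪
      ⋃ b : Fin m, ⋃ p : {p : Fin K × Fin K // p.1.castSucc ≠ p.2.succ},
        {q : Fin K → Fin d → ℝ | df q p.1.1.castSucc p.1.2.succ ∈ D b} := by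
    intro q hq
    by_contra hcon
    rw [Set.mem_union, not_or, Set.mem_iUnion, Set.mem_iUnion] at hcon
    obtain ⟨h1, h2⟩ := hcon
    refine not_frontier ?_ hq
    have a1 : ∀ᶠ q' in 𝓝 q, ∀ i j : Fin K, j ≤ i →
        (NR d R (pt (fun _ => (0 : ℝ)) q' j.castSucc) (pt (fun _ => (0 : ℝ)) q' i.succ) ↔
        NR d R (pt (fun _ => (0 : ℝ)) q j.castSucc) (pt (fun _ => (0 : ℝ)) q i.succ)) := by
      rw [eventually_all]
      intro i
      rw [eventually_all]
      intro j
      by_cases hij : j ≤ i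
      · have hne : j.castSucc ≠ i.succ := by
          intro h
          have := congrArg Fin.val h
          simp only [Fin.val_castSucc, Fin.val_succ] at this
          have := Fin.le_def.1 hij
          omega
        have h3 : df q j.castSucc i.succ ∉ sph d R := fun h => h1 ⟨⟨(j, i), hne⟩, h⟩
        filter_upwards [NR_ev R q _ _ h3] with q' hq' _
        exact hq'
      · exact Eventually.of_forall fun q' h => absurd h hij
    have a2 : ∀ᶠ q' in 𝓝 q, ∀ (b : Fin m) (i j : Fin K), j ≤ i →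
        c b (df q' j.castSucc i.succ) = c b (df q j.castSucc i.succ) := by
      rw [eventually_all]
      intro b
      rw [eventually_all]
      intro i
      rw [eventually_all]
      intro j
      by_cases hij : j ≤ i
      · have hne : j.castSucc ≠ i.succ := by
          intro h
          have := congrArg Fin.val h
          simp only [Fin.val_castSucc, Fin.val_succ] at this
          have := Fin.le_def.1 hij
          omega
        have h3 : df q j.castSucc i.succ ∉ D b := fun h =>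
          h2 ⟨b, Set.mem_iUnion.2 ⟨⟨(j, i), hne⟩, h⟩⟩
        have h4 := (cont_df (d := d) j.castSucc i.succ).continuousAt.eventually (hDe b _ h3)
        filter_upwards [h4] with q' hq' _
        exact hq'
      · exact Eventually.of_forall fun q' h => absurd h hij
    filter_upwards [a1, a2] with q' h3 h4
    unfold Paths
    rw [Set.mem_ofPred_eq, Set.mem_ofPred_eq]
    unfold PathOK
    apply and_congr
    · exact forall_congr' fun i => h3 i i le_rfl
    · refine forall_congr' fun i => forall_congr' fun j => ?_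
      refine imp_congr_right fun hij => ?_
      have k1 := h3 i j hij.le
      have k2 := h4 (o j) i j hij.le
      have k3 := h4 (o j) j j le_rfl
      show ¬ (NR d R (pt (fun _ => (0 : ℝ)) q' j.castSucc) (pt (fun _ => (0 : ℝ)) q' i.succ) ∧
          c (o j) (df q' j.castSucc i.succ) ≤ c (o j) (df q' j.castSucc j.succ)) ↔
        ¬ (NR d R (pt (fun _ => (0 : ℝ)) q j.castSucc) (pt (fun _ => (0 : ℝ)) q i.succ) ∧
          c (o j) (df q j.castSucc i.succ) ≤ c (o j) (df q j.castSucc j.succ))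
      rw [k1, k2, k3]
  refine measure_mono_null hsub ?_
  rw [measure_union_null_iff, measure_iUnion_null_iff, measure_iUnion_null_iff]
  refine ⟨fun p => null_pre (sph_closed R) (sph_null hd R) p.2, fun b => ?_⟩
  rw [measure_iUnion_null_iff]
  exact fun p => null_pre (hDc b) (hD0 b) p.2

end Pool.Agent.H288.HS
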