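import Pool.Agent.H288.HS.Stm5

/-!
# ONEF: the one-step estimate for a functional `F` (task HS5-ONEF, helper364; adapted from ONEW by
helper213)
-/

set_option autoImplicit false

open MeasureTheory Set Filter Topology

namespace Pool.Agent.H288.HS

namespace ONEFN

variable {V : Type} {N : V → V → Prop} {w : ℝ} {r : ℕ} {col : V → V → Fin r} {C : ℝ}

open Classical in
theorem lev_zero (A : Finset V) (x : V) : lev N col A x 0 = A := by
  unfold lev
  apply Finset.filter_true_of_mem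
  intro z _ h
  exact absurd h.2 (Nat.not_lt_zero _)

open Classical in
theorem lev_last (A : Finset V) (x : V) : lev N col A x r = rem N A x := by
  unfold lev rem
  apply Finset.filter_congr
  intro z _
  constructor
  · intro h h'
    exact h ⟨h', (col x z).2⟩
  · intro h h'
    exact h h'.1

open Classical in
theorem mem_lev (A : Finset V) (x : V) (k : ℕ) (z : V) :
    z ∈ lev N col A x k ↔ z ∈ A ∧ ¬ (N x z ∧ (col x z : ℕ) < k) := by
  unfold lev
  exact Finset.mem_filter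

open Classical in
theorem mem_cl (A : Finset V) (x : V) (k : ℕ) (z : V) :
    z ∈ cl N col A x k ↔ z ∈ A ∧ (N x z ∧ (col x z : ℕ) = k) := by
  unfold cl
  exact Finset.mem_filter

theorem step (h : S_STEP) (hG : GeoB N w C)
    (hcl : ∀ x y z, N x y → N x z → col x y = col x z → N y z) (A : Finset V) (x : V) (k : ℕ) (l : ℂ) :
    Z N w (lev N col A x k) l = Z N w (lev N col A x (k + 1)) l +
      l * w * ∑ y ∈ cl N col A x k, Z N w (rem N (lev N col A x (k + 1)) y) l := by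
  apply h V N w _ _ _ l hG.refl hG.symm
  · intro z
    rw [mem_lev, mem_lev, mem_cl]
    constructor
    · rintro ⟨h1, h2⟩
      by_cases h3 : N x z ∧ (col x z : ℕ) = k
      · exact Or.inr ⟨h1, h3⟩
      · refine Or.inl ⟨h1, fun h4 => ?_⟩
        have h5 : (col x z : ℕ) ≠ k := fun h6 => h3 ⟨h4.1, h6⟩
        exact h2 ⟨h4.1, by omega⟩
    · rintro (⟨h1, h2⟩ | ⟨h1, h2⟩)
      · exact ⟨h1, fun h4 => h2 ⟨h4.1, by omega⟩⟩
      · refine ⟨h1, fun h4 => ?_⟩
        have := h4.2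
        have := h2.2
        omega
  · intro z h1 h2
    rw [mem_lev] at h1
    rw [mem_cl] at h2
    exact h1.2 ⟨h2.2.1, by omega⟩
  · intro y hy z hz
    rw [mem_cl] at hy hz
    refine hcl x y z hy.2.1 hz.2.1 ?_
    apply Fin.ext
    rw [hy.2.2, hz.2.2]

theorem diff (A : Finset V) (l : ℂ) : DifferentiableAt ℂ (Z N w A) l := by
  have h : Z N w A = fun l : ℂ => ∑ I ∈ ind N A, (l * (w : ℂ)) ^ I.card := rfl
  rw [h]
  fun_prop

theorem one_add (h : S_STEP) (hG : GeoB N w C)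
    (hcl : ∀ x y z, N x y → N x z → col x y = col x z → N y z) (A : Finset V) (x : V) (k : ℕ) (l : ℂ)
    (h0 : Z N w (lev N col A x (k + 1)) l ≠ 0) :
    Z N w (lev N col A x k) l = Z N w (lev N col A x (k + 1)) l * (1 + SS N w col A x k l) := by
  rw [step h hG hcl]
  unfold SS W
  rw [← Finset.sum_div]
  field_simp

theorem logd (h : S_STEP) (hG : GeoB N w C)
    (hcl : ∀ x y z, N x y → N x z → col x y = col x z → N y z) (A : Finset V) (x : V) (k : ℕ) (l : ℂ)
    (h0 : Z N w (lev N col A x (k + 1)) l ≠ 0) (h1 : Z N w (lev N col A x k) l ≠ 0)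
    (h2 : ∀ y ∈ cl N col A x k, Z N w (rem N (lev N col A x (k + 1)) y) l ≠ 0) :
    logDeriv (Z N w (lev N col A x (k + 1))) l - logDeriv (Z N w (lev N col A x k)) l =
      -(SD N w col A x k l / (1 + SS N w col A x k l)) := by
  have e1 : Z N w (lev N col A x k) = fun l : ℂ => Z N w (lev N col A x (k + 1)) l +
      l * w * ∑ y ∈ cl N col A x k, Z N w (rem N (lev N col A x (k + 1)) y) l :=
    funext fun l => step h hG hcl A x k l
  have e2 : HasDerivAt (fun l : ℂ => Z N w (lev N col A x (k + 1)) l +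
      l * w * ∑ y ∈ cl N col A x k, Z N w (rem N (lev N col A x (k + 1)) y) l)
      (deriv (Z N w (lev N col A x (k + 1))) l +
        (1 * (w : ℂ) * ∑ y ∈ cl N col A x k, Z N w (rem N (lev N col A x (k + 1)) y) l +
        l * w * ∑ y ∈ cl N col A x k, deriv (Z N w (rem N (lev N col A x (k + 1)) y)) l)) l := by
    refine (diff _ l).hasDerivAt.add ?_
    refine ((hasDerivAt_id l).mul_const (w : ℂ)).mul ?_
    exact HasDerivAt.fun_sum fun y _ => (diff _ l).hasDerivAt
  have e3 : deriv (Z N w (lev N col A x k)) l = deriv (Z N w (lev N col A x (k + 1))) l +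
        (1 * (w : ℂ) * ∑ y ∈ cl N col A x k, Z N w (rem N (lev N col A x (k + 1)) y) l +
        l * w * ∑ y ∈ cl N col A x k, deriv (Z N w (rem N (lev N col A x (k + 1)) y)) l) := by
    rw [e1]
    exact e2.deriv
  have e4 := one_add h hG hcl A x k l h0
  have e5 : 1 + SS N w col A x k l ≠ 0 := by
    intro h5
    rw [h5, mul_zero] at e4
    exact h1 e4
  have e6 : SD N w col A x k l = w * ((∑ y ∈ cl N col A x k,
      Z N w (rem N (lev N col A x (k + 1)) y) l) / Z N w (lev N col A x (k + 1)) l *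
      (1 - l * (deriv (Z N w (lev N col A x (k + 1))) l / Z N w (lev N col A x (k + 1)) l)) +
      l * (∑ y ∈ cl N col A x k, deriv (Z N w (rem N (lev N col A x (k + 1)) y)) l) /
        Z N w (lev N col A x (k + 1)) l) := by
    unfold SD
    congr 1
    rw [Finset.sum_div, Finset.sum_mul, Finset.mul_sum, Finset.sum_div, ← Finset.sum_add_distrib]
    refine Finset.sum_congr rfl fun y hy => ?_
    unfold W DD
    rw [logDeriv_apply, logDeriv_apply]
    have := h2 y hy
    field_simp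
    ring
  have e7 : 1 + SS N w col A x k l = 1 + l * w * ((∑ y ∈ cl N col A x k,
      Z N w (rem N (lev N col A x (k + 1)) y) l) / Z N w (lev N col A x (k + 1)) l) := by
    unfold SS W
    rw [Finset.sum_div]
  rw [logDeriv_apply, logDeriv_apply, e3, e4, e6]
  rw [e7] at e5 ⊢
  generalize (∑ y ∈ cl N col A x k, Z N w (rem N (lev N col A x (k + 1)) y) l) = s at e5 ⊢
  generalize (∑ y ∈ cl N col A x k, deriv (Z N w (rem N (lev N col A x (k + 1)) y)) l) = s'
  generalize deriv (Z N w (lev N col A x (k + 1))) l = z'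
  generalize Z N w (lev N col A x (k + 1)) l = z at h0 e5 ⊢
  have e8 : z + l * w * s ≠ 0 := by
    intro h8
    apply e5
    have : z * (1 + l * w * (s / z)) = z + l * w * s := by field_simp
    rw [h8] at this
    rcases mul_eq_zero.1 this with h9 | h9
    · exact absurd h9 h0
    · exact h9
  have e9 : 1 + l * w * (s / z) = (z + l * w * s) / z := by field_simp
  rw [e9]
  obtain ⟨u, hu⟩ : ∃ u, u = z + l * w * s := ⟨_, rfl⟩
  rw [← hu] at e8 ⊢
  field_simp
  rw [hu]
  ring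

theorem tele (f : ℕ → ℂ) (n : ℕ) (h : ∀ k ≤ n, f k ≠ 0) :
    ∏ k ∈ Finset.range n, (f (k + 1) / f k) = f n / f 0 := by
  induction n with
  | zero => rw [Finset.prod_range_zero, div_self (h 0 le_rfl)]
  | succ n ih =>
    rw [Finset.prod_range_succ, ih fun k hk => h k (by omega)]
    have h1 := h n (by omega)
    have h0 := h 0 (by omega)
    field_simp



theorem chainF (h : S_STEP) (hG : GeoB N w C)
    (hcl : ∀ x y z, N x y → N x z → col x y = col x z → N y z) (A : Finset V) (x : V) (l : ℂ)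
    (h1 : ∀ k ≤ r, Z N w (lev N col A x k) l ≠ 0)
    (h2 : ∀ k < r, ∀ y ∈ cl N col A x k, Z N w (rem N (lev N col A x (k + 1)) y) l ≠ 0) :
    (∀ k < r, 1 + SS N w col A x k l ≠ 0) ∧
    W N w A x l = ∏ k ∈ Finset.range r, (1 + SS N w col A x k l)⁻¹ ∧
    DD N w A x l = - ∑ k ∈ Finset.range r, SD N w col A x k l / (1 + SS N w col A x k l) := by
  have h3 : ∀ k < r, Z N w (lev N col A x k) l = Z N w (lev N col A x (k + 1)) l *
      (1 + SS N w col A x k l) := fun k hk => one_add h hG hcl A x k l (h1 (k + 1) hk)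
  have h4 : ∀ k < r, 1 + SS N w col A x k l ≠ 0 := by
    intro k hk h5
    have h6 := h3 k hk
    rw [h5, mul_zero] at h6
    exact h1 k hk.le h6
  refine ⟨h4, ?_, ?_⟩
  · have e1 : W N w A x l = ∏ k ∈ Finset.range r,
        (Z N w (lev N col A x (k + 1)) l / Z N w (lev N col A x k) l) := by
      rw [tele (fun k => Z N w (lev N col A x k) l) r h1, lev_zero,
        lev_last]
      rfl
    rw [e1]
    refine Finset.prod_congr rfl fun k hk => ?_
    rw [Finset.mem_range] at hk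
    have h5 := h4 k hk
    have h6 := h1 (k + 1) hk
    rw [h3 k hk, div_eq_iff (mul_ne_zero h6 h5)]
    field_simp
  · have e1 : DD N w A x l = ∑ k ∈ Finset.range r,
        (logDeriv (Z N w (lev N col A x (k + 1))) l - logDeriv (Z N w (lev N col A x k)) l) := by
      rw [Finset.sum_range_sub (fun k => logDeriv (Z N w (lev N col A x k)) l), lev_zero,
        lev_last]
      rfl
    rw [e1, ← Finset.sum_neg_distrib]
    refine Finset.sum_congr rfl fun k hk => ?_
    rw [Finset.mem_range] at hk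
    exact logd h hG hcl A x k l (h1 (k + 1) hk) (h1 k hk.le) (h2 k hk)


theorem sum_cl (A : Finset V) (x : V) :
    ∑ k ∈ Finset.range r, (cl N col A x k).card = (nb N A x).card := by
  classical
  rw [Finset.card_eq_sum_card_fiberwise (f := fun z => (col x z : ℕ)) (t := Finset.range r)
    (fun z _ => by simp)]
  refine Finset.sum_congr rfl fun k _ => ?_
  congr 1
  ext z
  simp only [cl, nb, Finset.mem_filter, and_assoc]

theorem cl_le (A : Finset V) (x : V) (k : ℕ) : (cl N col A x k).card ≤ (nb N A x).card := by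
  classical
  refine Finset.card_le_card fun z hz => ?_
  simp only [cl, nb, Finset.mem_filter] at hz ⊢
  exact ⟨hz.1, hz.2.1⟩

theorem C_nonneg (hG : GeoB N w C) (x : V) : 0 ≤ C := by
  have h1 := hG.vol ∅ x
  refine le_trans ?_ h1
  have := hG.w_pos
  positivity

/-- the distance of a number near the positive half line to its modulus -/
theorem near_pos {z : ℂ} {t η : ℝ} (ht : 0 ≤ t) (h : ‖z - (t : ℂ)‖ ≤ η) : ‖z - ((‖z‖ : ℝ) : ℂ)‖ ≤ 2 * η := by
  have h1 : |‖z‖ - t| ≤ η := by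
    have h2 := abs_norm_sub_norm_le z (t : ℂ)
    rw [Complex.norm_real, Real.norm_of_nonneg ht] at h2
    exact h2.trans h
  have h3 : z - ((‖z‖ : ℝ) : ℂ) = (z - (t : ℂ)) - (((‖z‖ - t : ℝ)) : ℂ) := by
    push_cast
    ring
  rw [h3]
  refine (norm_sub_le _ _).trans ?_
  rw [Complex.norm_real, Real.norm_eq_abs]
  linarith

/-- Cauchy-Schwarz -/
theorem cs {ι : Type} (s : Finset ι) (p q : ι → ℝ) (hp : ∀ i ∈ s, 0 ≤ p i) (lam : ℝ) :
    lam * w * ∑ i ∈ s, p i * q i ≤ √(lam * (lam * w * ∑ i ∈ s, p i) * (w * ∑ i ∈ s, p i * q i ^ 2)) := by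
  refine Real.le_sqrt_of_sq_le ?_
  have h1 : (∑ i ∈ s, p i * q i) ^ 2 ≤ (∑ i ∈ s, p i) * ∑ i ∈ s, p i * q i ^ 2 :=
    Finset.sum_sq_le_sum_mul_sum_of_sq_le_mul s hp (fun i hi => mul_nonneg (hp i hi) (sq_nonneg _))
      fun i _ => le_of_eq (by ring)
  calc (lam * w * ∑ i ∈ s, p i * q i) ^ 2 = (lam * w) ^ 2 * (∑ i ∈ s, p i * q i) ^ 2 := by ring
    _ ≤ (lam * w) ^ 2 * ((∑ i ∈ s, p i) * ∑ i ∈ s, p i * q i ^ 2) := mul_le_mul_of_nonneg_left h1 (sq_nonneg _)
    _ = _ := by ring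

theorem GG_nonneg (r : ℕ) : 0 ≤ GG r := by
  unfold GG
  positivity

end ONEFN

open ONEFN in
theorem t_ONEF (h1 : S_STEP) (h2 : S_INEQ) : S_ONEF := by
  intro V N w r col F C hr hG hcl A x l M η hM hη hC hZ hy
  have hw : 0 < w := hG.w_pos
  have hC0 : 0 ≤ C := C_nonneg hG x
  obtain ⟨-, hWp, hDp⟩ := chainF h1 hG hcl A x l hZ fun k hk y hyk => (hy k hk y hyk).1
  -- the quantities
  set Wy : ℕ → V → ℂ := fun k y => W N w (lev N col A x (k + 1)) y l with hWy
  set Dy : ℕ → V → ℂ := fun k y => DD N w (lev N col A x (k + 1)) y l with hDy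
  set σ : ℕ → ℝ := fun k => ‖l‖ * w * ∑ y ∈ cl N col A x k, ‖Wy k y‖ with hσ
  set J : ℕ → ℝ := fun k => w * ∑ y ∈ cl N col A x k, ‖Wy k y‖ * ‖Dy k y‖ ^ 2 with hJ
  set B : ℕ → ℝ := fun k => 2 * (w * ((cl N col A x k).card : ℝ)) with hB
  have hσ0 : ∀ k, 0 ≤ σ k := fun k => by
    have : 0 ≤ ∑ y ∈ cl N col A x k, ‖Wy k y‖ := Finset.sum_nonneg fun _ _ => norm_nonneg _
    show 0 ≤ ‖l‖ * w * ∑ y ∈ cl N col A x k, ‖Wy k y‖
    positivity
  have hJ0 : ∀ k, 0 ≤ J k := fun k => by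
    have : 0 ≤ ∑ y ∈ cl N col A x k, ‖Wy k y‖ * ‖Dy k y‖ ^ 2 := Finset.sum_nonneg fun _ _ => by positivity
    show 0 ≤ w * ∑ y ∈ cl N col A x k, ‖Wy k y‖ * ‖Dy k y‖ ^ 2
    positivity
  have hB0 : ∀ k, 0 ≤ B k := fun k => by
    show 0 ≤ 2 * (w * ((cl N col A x k).card : ℝ))
    positivity
  -- the bound for `SD`
  have hT : ∀ k < r, ‖SD N w col A x k l‖ ≤ B k + √(‖l‖ * σ k * J k) := by
    intro k hk
    have h3 : ‖SD N w col A x k l‖ ≤ w * ∑ y ∈ cl N col A x k, (‖Wy k y‖ + ‖l‖ * (‖Wy k y‖ * ‖Dy k y‖)) := by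
      unfold SD
      rw [norm_mul, Complex.norm_real, Real.norm_of_nonneg hw.le]
      refine mul_le_mul_of_nonneg_left ((norm_sum_le _ _).trans (Finset.sum_le_sum fun y _ => ?_)) hw.le
      rw [norm_mul]
      calc ‖Wy k y‖ * ‖1 + l * Dy k y‖ ≤ ‖Wy k y‖ * (1 + ‖l‖ * ‖Dy k y‖) := by
            refine mul_le_mul_of_nonneg_left ?_ (norm_nonneg _)
            refine (norm_add_le _ _).trans ?_
            rw [norm_one, norm_mul]
        _ = ‖Wy k y‖ + ‖l‖ * (‖Wy k y‖ * ‖Dy k y‖) := by ring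
    have h4 : w * ∑ y ∈ cl N col A x k, (‖Wy k y‖ + ‖l‖ * (‖Wy k y‖ * ‖Dy k y‖)) =
        w * ∑ y ∈ cl N col A x k, ‖Wy k y‖ + ‖l‖ * w * ∑ y ∈ cl N col A x k, ‖Wy k y‖ * ‖Dy k y‖ := by
      rw [Finset.sum_add_distrib, ← Finset.mul_sum]
      ring
    have h5 : w * ∑ y ∈ cl N col A x k, ‖Wy k y‖ ≤ B k := by
      have h6 : ∑ y ∈ cl N col A x k, ‖Wy k y‖ ≤ ∑ _y ∈ cl N col A x k, (2 : ℝ) :=
        Finset.sum_le_sum fun y hyk => (hy k hk y hyk).2.1
      rw [Finset.sum_const, nsmul_eq_mul] at h6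
      show _ ≤ 2 * (w * ((cl N col A x k).card : ℝ))
      nlinarith
    have h7 := cs (w := w) (cl N col A x k) (fun y => ‖Wy k y‖) (fun y => ‖Dy k y‖) (fun _ _ => norm_nonneg _)
      ‖l‖
    rw [h4] at h3
    exact h3.trans (add_le_add h5 h7)
  -- the bound for `1 + SS`
  have hu : ∀ k < r, (1 - 2 * η * C) * (1 + σ k) ≤ ‖1 + SS N w col A x k l‖ := by
    intro k hk
    have h3 : SS N w col A x k l - ((σ k : ℝ) : ℂ) =
        (w : ℂ) * ∑ y ∈ cl N col A x k, (l * Wy k y - ((‖l * Wy k y‖ : ℝ) : ℂ)) := by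
      rw [Finset.sum_sub_distrib, ← Finset.mul_sum]
      have h4 : ((σ k : ℝ) : ℂ) = (w : ℂ) * ∑ y ∈ cl N col A x k, ((‖l * Wy k y‖ : ℝ) : ℂ) := by
        have h5 : σ k = w * ∑ y ∈ cl N col A x k, ‖l * Wy k y‖ := by
          show ‖l‖ * w * ∑ y ∈ cl N col A x k, ‖Wy k y‖ = _
          simp only [norm_mul]
          rw [← Finset.mul_sum]
          ring
        rw [h5]
        push_cast
        rfl
      rw [h4]
      unfold SS
      ring
    have h6 : ‖SS N w col A x k l - ((σ k : ℝ) : ℂ)‖ ≤ 2 * η * C := by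
      rw [h3, norm_mul, Complex.norm_real, Real.norm_of_nonneg hw.le]
      have h7 : ‖∑ y ∈ cl N col A x k, (l * Wy k y - ((‖l * Wy k y‖ : ℝ) : ℂ))‖ ≤
          ∑ _y ∈ cl N col A x k, (2 * η) := by
        refine (norm_sum_le _ _).trans (Finset.sum_le_sum fun y hyk => ?_)
        obtain ⟨t, ht, hte⟩ := (hy k hk y hyk).2.2.2
        exact near_pos ht hte
      rw [Finset.sum_const, nsmul_eq_mul] at h7
      calc w * _ ≤ w * (((cl N col A x k).card : ℝ) * (2 * η)) := mul_le_mul_of_nonneg_left h7 hw.le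
        _ = 2 * η * (w * ((cl N col A x k).card : ℝ)) := by ring
        _ ≤ 2 * η * C := by
          refine mul_le_mul_of_nonneg_left ?_ (by positivity)
          refine le_trans ?_ (hG.vol A x)
          refine mul_le_mul_of_nonneg_left ?_ hw.le
          exact_mod_cast cl_le A x k
    have h8 : 1 + σ k ≤ ‖1 + SS N w col A x k l‖ + 2 * η * C := by
      have h9 : (((1 + σ k : ℝ)) : ℂ) = (1 + SS N w col A x k l) - (SS N w col A x k l - ((σ k : ℝ) : ℂ)) := by
        push_cast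
        ring
      have h10 : ‖(((1 + σ k : ℝ)) : ℂ)‖ = 1 + σ k := by
        rw [Complex.norm_real, Real.norm_of_nonneg (by linarith [hσ0 k])]
      rw [← h10, h9]
      exact (norm_sub_le _ _).trans (by linarith)
    have h11 : 0 ≤ 2 * η * C * σ k := mul_nonneg (by positivity) (hσ0 k)
    linarith
  -- the contraction
  have hI := h2 r (2 * η * C) ‖l‖ σ J B (fun k => ‖SD N w col A x k l‖) (fun k => ‖1 + SS N w col A x k l‖) hr
    (by positivity) hC (norm_nonneg _)
    fun k hk => ⟨hσ0 k, hJ0 k, hB0 k, norm_nonneg _, hT k hk, hu k hk⟩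
  have hW : ‖W N w A x l‖ = ∏ k ∈ Finset.range r, (‖1 + SS N w col A x k l‖)⁻¹ := by
    rw [hWp, norm_prod]
    exact Finset.prod_congr rfl fun k _ => norm_inv _
  have hD : ‖DD N w A x l‖ ≤ ∑ k ∈ Finset.range r, ‖SD N w col A x k l‖ / ‖1 + SS N w col A x k l‖ := by
    rw [hDp, norm_neg]
    refine (norm_sum_le _ _).trans (Finset.sum_le_sum fun k _ => ?_)
    rw [norm_div]
  have hBs : ∑ k ∈ Finset.range r, B k = 2 * (w * ((nb N A x).card : ℝ)) := by
    show ∑ k ∈ Finset.range r, 2 * (w * ((cl N col A x k).card : ℝ)) = _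
    rw [← Finset.mul_sum, ← Finset.mul_sum, ← Nat.cast_sum, sum_cl]
  have hJs : ∑ k ∈ Finset.range r, J k ≤ M ^ 2 * TE N w col F A x := by
    unfold TE
    rw [Finset.mul_sum]
    refine Finset.sum_le_sum fun k hk => ?_
    have hk' : k < r := Finset.mem_range.mp hk
    show w * ∑ y ∈ cl N col A x k, ‖Wy k y‖ * ‖Dy k y‖ ^ 2 ≤ _
    have h3 : ∑ y ∈ cl N col A x k, ‖Wy k y‖ * ‖Dy k y‖ ^ 2 ≤
        ∑ y ∈ cl N col A x k, M ^ 2 * F (lev N col A x (k + 1)) y :=
      Finset.sum_le_sum fun y hyk => (hy k hk' y hyk).2.2.1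
    rw [← Finset.mul_sum] at h3
    calc w * ∑ y ∈ cl N col A x k, ‖Wy k y‖ * ‖Dy k y‖ ^ 2
        ≤ w * (M ^ 2 * ∑ y ∈ cl N col A x k, F (lev N col A x (k + 1)) y) :=
          mul_le_mul_of_nonneg_left h3 hw.le
      _ = _ := by ring
  calc √‖W N w A x l‖ * ‖DD N w A x l‖
      ≤ √(∏ k ∈ Finset.range r, (‖1 + SS N w col A x k l‖)⁻¹) *
        ∑ k ∈ Finset.range r, ‖SD N w col A x k l‖ / ‖1 + SS N w col A x k l‖ := by
        rw [hW]
        exact mul_le_mul_of_nonneg_left hD (Real.sqrt_nonneg _)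
    _ ≤ ((1 - 2 * η * C)⁻¹) ^ (r + 1) * (∑ k ∈ Finset.range r, B k +
        √(‖l‖ * GG r * ∑ k ∈ Finset.range r, J k)) := hI
    _ ≤ _ := by
        rw [hBs]
        have h5 : 0 ≤ ((1 - 2 * η * C)⁻¹) ^ (r + 1) := by
          have : 0 ≤ (1 - 2 * η * C)⁻¹ := inv_nonneg.mpr (by linarith)
          positivity
        refine mul_le_mul_of_nonneg_left ?_ h5
        refine add_le_add le_rfl (Real.sqrt_le_sqrt ?_)
        exact mul_le_mul_of_nonneg_left hJs (mul_nonneg (norm_nonneg _) (GG_nonneg r))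

end Pool.Agent.H288.HS
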