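import Pool.Agent.H288.HS.Stm2

/-!
# Reversing the order of the cliques
-/

set_option autoImplicit false

open MeasureTheory Set Filter Topology

namespace Pool.Agent.H288.HS

namespace PAIRN

variable {V : Type} {r : ℕ}

theorem EE_eq (N : V → V → Prop) (w : ℝ) (col : V → V → Fin r) (A : Finset V) (x : V) :
    EE N w col A x = w * ∑ y ∈ nb N A x,
      w * ((nb N (lev N col A x ((col x y : ℕ) + 1)) y).card : ℝ) := by
  classical
  unfold EE
  rw [← Finset.mul_sum]
  congr 1
  rw [← Finset.sum_fiberwise_of_maps_to (s := nb N A x) (t := Finset.range r)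
    (g := fun y => (col x y : ℕ)) (fun y _ => Finset.mem_range.mpr (col x y).isLt)]
  apply Finset.sum_congr rfl
  intro k _
  have hcl : cl N col A x k = (nb N A x).filter (fun y => (col x y : ℕ) = k) := by
    ext y
    simp only [cl, nb, Finset.mem_filter, and_assoc]
  rw [hcl]
  apply Finset.sum_congr rfl
  intro y hy
  rw [(Finset.mem_filter.mp hy).2]

theorem count (N : V → V → Prop) (w : ℝ) (col : V → V → Fin r) (C a : ℝ)
    (hG : Geo N w r col C a) (A : Finset V) (x y : V) (hxy : N x y) :
    w * ((nb N (lev N col A x ((col x y : ℕ) + 1)) y).card : ℝ) +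
      w * ((nb N (lev N (fun x y => (col x y).rev) A x (((col x y).rev : ℕ) + 1)) y).card : ℝ)
      ≤ 2 * a := by
  classical
  obtain ⟨b, c, hstep, h3, h4⟩ : ∃ b c : ℕ,
      w * (((nb N A y).card : ℝ) - (b : ℝ) / 2 - (c : ℝ) / 2) ≤ a ∧
      b = (∑ z ∈ A, if (N x z ∧ N y z) then 1 else 0) ∧
      c = (∑ z ∈ A, if (N x z ∧ col x z = col x y) then 1 else 0) := by
    refine ⟨_, _, hG.step A x y hxy, ?_, ?_⟩
    · rw [Finset.card_filter]
    · rw [Finset.card_filter]
  have hw := hG.w_pos
  have h1 : (nb N (lev N col A x ((col x y : ℕ) + 1)) y).card =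
      ∑ z ∈ A, if (¬ (N x z ∧ (col x z : ℕ) < (col x y : ℕ) + 1) ∧ N y z) then 1 else 0 := by
    rw [← Finset.card_filter]
    congr 1
    ext z
    simp only [nb, lev, Finset.mem_filter, and_assoc]
  have h2 : (nb N (lev N (fun x y => (col x y).rev) A x (((col x y).rev : ℕ) + 1)) y).card =
      ∑ z ∈ A, if (¬ (N x z ∧ ((col x z).rev : ℕ) < ((col x y).rev : ℕ) + 1) ∧ N y z)
        then 1 else 0 := by
    rw [← Finset.card_filter]
    congr 1
    ext z
    simp only [nb, lev, Finset.mem_filter, and_assoc]
  have h5 : (nb N A y).card = ∑ z ∈ A, if N y z then 1 else 0 := by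
    rw [← Finset.card_filter]
    rfl
  have hkey : (nb N (lev N col A x ((col x y : ℕ) + 1)) y).card +
      (nb N (lev N (fun x y => (col x y).rev) A x (((col x y).rev : ℕ) + 1)) y).card +
      b + c ≤ 2 * (nb N A y).card := by
    rw [h1, h2, h3, h4, h5, Finset.mul_sum, ← Finset.sum_add_distrib, ← Finset.sum_add_distrib,
      ← Finset.sum_add_distrib]
    apply Finset.sum_le_sum
    intro z _
    by_cases hyz : N y z
    · by_cases hxz : N x z
      · have hlt : ((col x z).rev : ℕ) < ((col x y).rev : ℕ) + 1 ↔ (col x y : ℕ) ≤ col x z := by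
          rw [Fin.val_rev, Fin.val_rev]
          have := (col x z).isLt
          have := (col x y).isLt
          omega
        have hlt2 : (col x z : ℕ) < (col x y : ℕ) + 1 ↔ (col x z : ℕ) ≤ col x y := by omega
        have heq : col x z = col x y ↔ (col x z : ℕ) = col x y := Fin.ext_iff
        simp only [hyz, hxz, hlt, hlt2, heq, true_and, and_true]
        rcases lt_trichotomy (col x z : ℕ) (col x y : ℕ) with h | h | h
        · have a1 : (col x z : ℕ) ≤ col x y := h.le
          have a2 : ¬ ((col x y : ℕ) ≤ col x z) := by omega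
          have a3 : ¬ ((col x z : ℕ) = col x y) := by omega
          simp [a1, a2, a3]
        · simp [h]
        · have a1 : ¬ ((col x z : ℕ) ≤ col x y) := by omega
          have a2 : ((col x y : ℕ) ≤ col x z) := h.le
          have a3 : ¬ ((col x z : ℕ) = col x y) := by omega
          simp [a1, a2, a3]
      · simp [hyz, hxz]
    · have h6 : ¬ (N x z ∧ col x z = col x y) := by
        rintro ⟨hxz, hc⟩
        exact hyz (hG.clique x y z hxy hxz hc.symm)
      simp [hyz, h6]
  have hkey' : ((nb N (lev N col A x ((col x y : ℕ) + 1)) y).card : ℝ) +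
      ((nb N (lev N (fun x y => (col x y).rev) A x (((col x y).rev : ℕ) + 1)) y).card : ℝ) +
      (b : ℝ) + (c : ℝ) ≤ 2 * ((nb N A y).card : ℝ) := by
    exact_mod_cast hkey
  have h7 := mul_le_mul_of_nonneg_left hkey' hw.le
  linarith

end PAIRN

open PAIRN in
theorem t_PAIR : S_PAIR := by
  classical
  intro V N w r col C a hG
  refine ⟨⟨hG.w_pos, hG.refl, hG.symm, ?_, hG.vol, ?_⟩, ?_⟩
  · intro x y z hxy hxz h
    exact hG.clique x y z hxy hxz (Fin.rev_injective h)
  · intro A x y hxy
    simpa only [Fin.rev_inj] using hG.step A x y hxy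
  · intro A x
    rw [EE_eq, EE_eq, ← mul_add, ← Finset.sum_add_distrib]
    have h1 : ∑ y ∈ nb N A x, (w * ((nb N (lev N col A x ((col x y : ℕ) + 1)) y).card : ℝ) +
        w * ((nb N (lev N (fun x y => (col x y).rev) A x (((col x y).rev : ℕ) + 1)) y).card : ℝ))
        ≤ ∑ _y ∈ nb N A x, 2 * a := by
      apply Finset.sum_le_sum
      intro y hy
      have hxy : N x y := by
        simp only [nb, Finset.mem_filter] at hy
        exact hy.2
      exact count N w col C a hG A x y hxy
    rw [Finset.sum_const, nsmul_eq_mul] at h1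
    calc _ ≤ w * (((nb N A x).card : ℝ) * (2 * a)) :=
          mul_le_mul_of_nonneg_left h1 hG.w_pos.le
      _ = _ := by ring

end Pool.Agent.H288.HS
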