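import Pool.Agent.H288.HS.Stm3

/-!
# Reversing the order of the cliques, weighted version
-/

set_option autoImplicit false

open MeasureTheory Set Filter Topology

namespace Pool.Agent.H288.HS

namespace PAIRWN

variable {V : Type} {r : ℕ}

theorem EEW_eq (N : V → V → Prop) (w : ℝ) (col : V → V → Fin r) (phi : V → V → ℝ)
    (A : Finset V) (x : V) :
    EEW N w col phi A x = w * ∑ y ∈ nb N A x,
      OM N w phi (lev N col A x ((col x y : ℕ) + 1)) y := by
  classical
  unfold EEW
  rw [← Finset.mul_sum]
  congr 1
  rw [← Finset.sum_fiberwise_of_maps_to (s := nb N A x) (t := Finset.range r)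
    (g := fun y => (col x y : ℕ)) (fun y _ => Finset.mem_range.mpr (col x y).isLt)]
  apply Finset.sum_congr rfl
  intro k _
  have hcl : cl N col A x k = (nb N A x).filter (fun y => (col x y : ℕ) = k) := by
    ext y
    simp only [cl, nb, Finset.mem_filter, and_assoc]
  rw [hcl]
  apply Finset.sum_congr rfl
  intro y hy
  rw [(Finset.mem_filter.mp hy).2]

theorem count (N : V → V → Prop) (w : ℝ) (col : V → V → Fin r) (phi : V → V → ℝ) (C φ₀ ρ : ℝ)
    (hG : GeoW N w r col phi C φ₀ ρ) (A : Finset V) (x y : V) (hxy : N x y) :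
    OM N w phi (lev N col A x ((col x y : ℕ) + 1)) y +
      OM N w phi (lev N (fun x y => (col x y).rev) A x (((col x y).rev : ℕ) + 1)) y
      ≤ 2 * (ρ * phi x y) := by
  classical
  obtain ⟨b, hstep, h3⟩ : ∃ b : ℝ, w * b ≤ ρ * phi x y ∧
      b = (∑ z ∈ A, if N y z then phi y z * (1 - (if N x z then 1 / 2 else 0) -
        (if N x z ∧ col x z = col x y then 1 / 2 else 0)) else 0) := by
    refine ⟨_, hG.step A x y hxy, ?_⟩
    rw [← Finset.sum_filter]
    rfl
  have hw := hG.w_pos
  have h1 : ∑ z ∈ nb N (lev N col A x ((col x y : ℕ) + 1)) y, phi y z =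
      ∑ z ∈ A, if (¬ (N x z ∧ (col x z : ℕ) < (col x y : ℕ) + 1) ∧ N y z) then phi y z else 0 := by
    rw [← Finset.sum_filter]
    congr 1
    ext z
    simp only [nb, lev, Finset.mem_filter, and_assoc]
  have h2 : ∑ z ∈ nb N (lev N (fun x y => (col x y).rev) A x (((col x y).rev : ℕ) + 1)) y,
      phi y z =
      ∑ z ∈ A, if (¬ (N x z ∧ ((col x z).rev : ℕ) < ((col x y).rev : ℕ) + 1) ∧ N y z)
        then phi y z else 0 := by
    rw [← Finset.sum_filter]
    congr 1
    ext z
    simp only [nb, lev, Finset.mem_filter, and_assoc]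
  have hkey : (∑ z ∈ nb N (lev N col A x ((col x y : ℕ) + 1)) y, phi y z) +
      (∑ z ∈ nb N (lev N (fun x y => (col x y).rev) A x (((col x y).rev : ℕ) + 1)) y, phi y z) ≤
      2 * b := by
    rw [h1, h2, h3, Finset.mul_sum, ← Finset.sum_add_distrib]
    apply Finset.sum_le_sum
    intro z _
    by_cases hyz : N y z
    · by_cases hxz : N x z
      · have hlt : ((col x z).rev : ℕ) < ((col x y).rev : ℕ) + 1 ↔ (col x y : ℕ) ≤ col x z := by
          rw [Fin.val_rev, Fin.val_rev]
          have := (col x z).isLt
          have := (col x y).isLt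
          omega
        have hlt2 : (col x z : ℕ) < (col x y : ℕ) + 1 ↔ (col x z : ℕ) ≤ col x y := by omega
        have heq : col x z = col x y ↔ (col x z : ℕ) = col x y := Fin.ext_iff
        simp only [hyz, hxz, hlt, hlt2, heq, true_and, and_true]
        rcases lt_trichotomy (col x z : ℕ) (col x y : ℕ) with h | h | h
        · have a1 : (col x z : ℕ) ≤ col x y := h.le
          have a2 : ¬ ((col x y : ℕ) ≤ col x z) := by omega
          have a3 : ¬ ((col x z : ℕ) = col x y) := by omega
          simp only [a1, a2, a3, not_true_eq_false, not_false_eq_true, if_true, if_false]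
          linarith
        · simp only [h, le_refl, not_true_eq_false, if_true, if_false]
          linarith
        · have a1 : ¬ ((col x z : ℕ) ≤ col x y) := by omega
          have a2 : ((col x y : ℕ) ≤ col x z) := h.le
          have a3 : ¬ ((col x z : ℕ) = col x y) := by omega
          simp only [a1, a2, a3, not_true_eq_false, not_false_eq_true, if_true, if_false]
          linarith
      · simp only [hyz, hxz, false_and, not_false_eq_true, and_self, if_true, if_false]
        linarith
    · simp only [hyz, and_false, if_false]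
      linarith
  have h7 := mul_le_mul_of_nonneg_left hkey hw.le
  unfold OM
  linarith

end PAIRWN

open PAIRWN in
theorem t_PAIRW : S_PAIRW := by
  classical
  intro V N w r col phi C φ₀ ρ hG
  refine ⟨⟨hG.w_pos, hG.refl, hG.symm, ?_, hG.phi0, hG.phi_ge, hG.phi_le, hG.vol, ?_⟩, ?_⟩
  · intro x y z hxy hxz h
    exact hG.clique x y z hxy hxz (Fin.rev_injective h)
  · intro A x y hxy
    simpa only [Fin.rev_inj] using hG.step A x y hxy
  · intro A x
    rw [EEW_eq, EEW_eq, ← mul_add, ← Finset.sum_add_distrib]
    have h1 : ∑ y ∈ nb N A x, (OM N w phi (lev N col A x ((col x y : ℕ) + 1)) y +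
        OM N w phi (lev N (fun x y => (col x y).rev) A x (((col x y).rev : ℕ) + 1)) y)
        ≤ ∑ y ∈ nb N A x, 2 * (ρ * phi x y) := by
      apply Finset.sum_le_sum
      intro y hy
      have hxy : N x y := by
        simp only [nb, Finset.mem_filter] at hy
        exact hy.2
      exact count N w col phi C φ₀ ρ hG A x y hxy
    rw [← Finset.mul_sum, ← Finset.mul_sum] at h1
    unfold OM at h1 ⊢
    calc _ ≤ w * (2 * (ρ * ∑ y ∈ nb N A x, phi x y)) :=
          mul_le_mul_of_nonneg_left h1 hG.w_pos.le
      _ = _ := by ring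

end Pool.Agent.H288.HS
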