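import Pool.Agent.H288.HS.Stm5

/-!
PATHD: the recursion `VV` counts paths (helper176).
-/

set_option autoImplicit false

open Classical

namespace Pool.Agent.H288.HS

namespace PATHDN

variable {V : Type} {r m : ℕ}

theorem card_cons {K : ℕ} (A : Finset V) (P : (Fin (K + 1) → V) → Prop) :
    ((Fintype.piFinset (fun _ : Fin (K + 1) => A)).filter P).card =
      ∑ y ∈ A, ((Fintype.piFinset (fun _ : Fin K => A)).filter
        (fun q => P (Fin.cons y q : Fin (K + 1) → V))).card := by
  have h : ∀ q ∈ (Fintype.piFinset (fun _ : Fin (K + 1) => A)).filter P, q 0 ∈ A := by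
    intro q hq
    exact Fintype.mem_piFinset.1 (Finset.mem_filter.1 hq).1 0
  rw [Finset.card_eq_sum_card_fiberwise h]
  refine Finset.sum_congr rfl fun y hy => ?_
  refine Finset.card_nbij' (fun q => Fin.tail q) (fun q => (Fin.cons y q : Fin (K + 1) → V))
    ?_ ?_ ?_ ?_
  · intro q hq
    have h1 := Finset.mem_filter.1 (Finset.mem_coe.1 hq)
    have h2 := Finset.mem_filter.1 h1.1
    refine Finset.mem_coe.2 (Finset.mem_filter.2 ⟨Fintype.mem_piFinset.2 fun i => ?_, ?_⟩)
    · exact Fintype.mem_piFinset.1 h2.1 i.succ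
    · have e : (Fin.cons y (Fin.tail q) : Fin (K + 1) → V) = q := by
        rw [← h1.2]
        exact Fin.cons_self_tail q
      show P (Fin.cons y (Fin.tail q) : Fin (K + 1) → V)
      rw [e]
      exact h2.2
  · intro q hq
    have h1 := Finset.mem_filter.1 (Finset.mem_coe.1 hq)
    refine Finset.mem_coe.2 (Finset.mem_filter.2 ⟨Finset.mem_filter.2
      ⟨Fintype.mem_piFinset.2 fun i => ?_, h1.2⟩, rfl⟩)
    refine Fin.cases ?_ (fun j => ?_) i
    · exact hy
    · exact Fintype.mem_piFinset.1 h1.1 j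
  · intro q hq
    have h1 := Finset.mem_filter.1 (Finset.mem_coe.1 hq)
    show (Fin.cons y (Fin.tail q) : Fin (K + 1) → V) = q
    rw [← h1.2]
    exact Fin.cons_self_tail q
  · intro q _
    exact Fin.tail_cons (α := fun _ => V) y q

theorem pathOK_cons {K : ℕ} (N : V → V → Prop) (col : Fin m → V → V → Fin r) (x y : V)
    (b : Fin m) (o : Fin K → Fin m) (q : Fin K → V) :
    PathOK N col x (Fin.cons b o : Fin (K + 1) → Fin m) (Fin.cons y q : Fin (K + 1) → V) ↔
      N x y ∧ (∀ i, ¬ (N x (q i) ∧ col b x (q i) ≤ col b x y)) ∧ PathOK N col y o q := by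
  constructor
  · rintro ⟨h1, h2⟩
    refine ⟨h1 0, fun i => ?_, fun i => ?_, fun i j hij => ?_⟩
    · exact h2 i.succ 0 (Fin.succ_pos i)
    · exact h1 i.succ
    · exact h2 i.succ j.succ (Fin.succ_lt_succ_iff.2 hij)
  · rintro ⟨h0, h1, h2, h3⟩
    refine ⟨fun i => ?_, fun i j hij => ?_⟩
    · refine Fin.cases ?_ (fun i => ?_) i
      · exact h0
      · exact h2 i
    · revert hij
      refine Fin.cases (fun hij => absurd hij (Fin.not_lt_zero j)) (fun i => ?_) i
      refine Fin.cases (fun _ => ?_) (fun j hij => ?_) j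
      · exact h1 i
      · exact h3 i j (Fin.succ_lt_succ_iff.1 hij)

theorem filter_lev {K : ℕ} (N : V → V → Prop) (c : V → V → Fin r) (A : Finset V) (x y : V)
    (P : (Fin K → V) → Prop) :
    (Fintype.piFinset (fun _ : Fin K => A)).filter
      (fun q => (∀ i, ¬ (N x (q i) ∧ c x (q i) ≤ c x y)) ∧ P q) =
    (Fintype.piFinset (fun _ : Fin K => lev N c A x ((c x y : ℕ) + 1))).filter P := by
  ext q
  rw [Finset.mem_filter, Finset.mem_filter, Fintype.mem_piFinset, Fintype.mem_piFinset]
  unfold lev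
  constructor
  · rintro ⟨h1, h2, h3⟩
    refine ⟨fun i => Finset.mem_filter.2 ⟨h1 i, ?_⟩, h3⟩
    rintro ⟨h4, h5⟩
    exact h2 i ⟨h4, Fin.le_def.2 (Nat.lt_succ_iff.1 h5)⟩
  · rintro ⟨h1, h3⟩
    refine ⟨fun i => (Finset.mem_filter.1 (h1 i)).1, fun i => ?_, h3⟩
    rintro ⟨h4, h5⟩
    exact (Finset.mem_filter.1 (h1 i)).2 ⟨h4, Nat.lt_succ_iff.2 (Fin.le_def.1 h5)⟩

theorem TE_eq (N : V → V → Prop) (w : ℝ) (c : V → V → Fin r) (F : Finset V → V → ℝ)
    (A : Finset V) (x : V) :
    TE N w c F A x = w * ∑ y ∈ A, if N x y then F (lev N c A x ((c x y : ℕ) + 1)) y else 0 := by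
  unfold TE
  rw [← Finset.mul_sum]
  congr 1
  have h : ∀ k ∈ Finset.range r, ∑ y ∈ cl N c A x k, F (lev N c A x (k + 1)) y =
      ∑ y ∈ A, if N x y ∧ (c x y : ℕ) = k then F (lev N c A x ((c x y : ℕ) + 1)) y else 0 := by
    intro k _
    unfold cl
    rw [Finset.sum_filter]
    refine Finset.sum_congr rfl fun y _ => ?_
    by_cases hy : N x y ∧ (c x y : ℕ) = k
    · rw [if_pos hy, if_pos hy, hy.2]
    · rw [if_neg hy, if_neg hy]
  rw [Finset.sum_congr rfl h, Finset.sum_comm]
  refine Finset.sum_congr rfl fun y _ => ?_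
  by_cases hy : N x y
  · rw [if_pos hy, Finset.sum_eq_single_of_mem (c x y : ℕ) (Finset.mem_range.2 (c x y).2)]
    · rw [if_pos ⟨hy, rfl⟩]
    · intro k _ hk
      rw [if_neg]
      rintro ⟨-, h2⟩
      exact hk h2.symm
  · rw [if_neg hy]
    refine Finset.sum_eq_zero fun k _ => ?_
    rw [if_neg]
    rintro ⟨h1, -⟩
    exact hy h1

end PATHDN

open PATHDN in
theorem t_PATHD : S_PATHD := by
  intro V N w r m col K
  induction K with
  | zero =>
    intro A x
    have h : ∀ q : Fin 0 → V, ∀ o : Fin 0 → Fin m, PathOK N col x o q :=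
      fun q o => ⟨fun i => i.elim0, fun i => i.elim0⟩
    simp only [VV, pow_zero, one_mul]
    rw [Fintype.sum_unique, Finset.filter_true_of_mem fun q _ => h q _, Fintype.card_piFinset]
    simp
  | succ K ih =>
    intro A x
    have e1 : ∑ o : Fin (K + 1) → Fin m,
        (((Fintype.piFinset (fun _ : Fin (K + 1) => A)).filter
          (fun q => PathOK N col x o q)).card : ℝ) =
        ∑ b : Fin m, ∑ o : Fin K → Fin m, ∑ y ∈ A, if N x y then
          (((Fintype.piFinset (fun _ : Fin K => lev N (col b) A x ((col b x y : ℕ) + 1))).filter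
            (fun q => PathOK N col y o q)).card : ℝ) else 0 := by
      rw [← (Fin.consEquiv (fun _ : Fin (K + 1) => Fin m)).sum_comp, Fintype.sum_prod_type]
      refine Finset.sum_congr rfl fun b _ => Finset.sum_congr rfl fun o _ => ?_
      rw [card_cons, Nat.cast_sum]
      refine Finset.sum_congr rfl fun y _ => ?_
      by_cases hy : N x y
      · rw [if_pos hy, ← filter_lev]
        congr 2
        refine Finset.filter_congr fun q _ => ?_
        refine (pathOK_cons N col x y b o q).trans ?_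
        exact ⟨fun h => h.2, fun h => ⟨hy, h⟩⟩
      · rw [if_neg hy]
        rw [Finset.filter_false_of_mem]
        · simp
        · intro q _ h
          exact hy ((pathOK_cons N col x y b o q).1 h).1
    rw [e1]
    simp only [VV]
    have e2 : ∀ b : Fin m, TE N w (col b) (VV N w col K) A x =
        w * ((w / m) ^ K * ∑ o : Fin K → Fin m, ∑ y ∈ A, if N x y then
          (((Fintype.piFinset (fun _ : Fin K => lev N (col b) A x ((col b x y : ℕ) + 1))).filter
            (fun q => PathOK N col y o q)).card : ℝ) else 0) := by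
      intro b
      rw [TE_eq]
      congr 1
      rw [Finset.sum_comm, Finset.mul_sum]
      refine Finset.sum_congr rfl fun y _ => ?_
      by_cases hy : N x y
      · simp only [if_pos hy]
        exact ih _ y
      · simp only [if_neg hy, Finset.sum_const_zero, mul_zero]
    simp only [e2]
    rw [← Finset.mul_sum, ← Finset.mul_sum, pow_succ]
    ring

end Pool.Agent.H288.HS
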