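import Pool.Agent.H288.HS.Stm2

/-!
# Hard spheres: existence of the pressure (PRESS)
-/

set_option autoImplicit false

open MeasureTheory Set Filter Topology

namespace Pool.Agent.H288.HS

namespace PRESSN

variable {d : ℕ} {C : ℝ} {z : ℝ → ℕ → ℝ}

theorem z_le (hF : Fam d C z) {L : ℝ} (hL : 0 < L) (k : ℕ) :
    z L k ≤ (L ^ d) ^ k / (k.factorial : ℝ) := by
  induction k with
  | zero => simp [hF.zero L hL]
  | succ k ih =>
    have h1 := hF.del L hL k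
    have hk : (0 : ℝ) < (k : ℝ) + 1 := by positivity
    have hf : (0 : ℝ) < (k.factorial : ℝ) := by exact_mod_cast k.factorial_pos
    have hLd : 0 < L ^ d := by positivity
    rw [Nat.factorial_succ]
    push_cast
    rw [le_div_iff₀ (by positivity)]
    have h2 : z L k * (k.factorial : ℝ) ≤ (L ^ d) ^ k := by
      rw [le_div_iff₀ hf] at ih
      exact ih
    calc z L (k + 1) * (((k : ℝ) + 1) * (k.factorial : ℝ))
        = (((k : ℝ) + 1) * z L (k + 1)) * (k.factorial : ℝ) := by ring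
      _ ≤ (L ^ d * z L k) * (k.factorial : ℝ) := by
          exact mul_le_mul_of_nonneg_right h1 hf.le
      _ = L ^ d * (z L k * (k.factorial : ℝ)) := by ring
      _ ≤ L ^ d * (L ^ d) ^ k := mul_le_mul_of_nonneg_left h2 hLd.le
      _ = (L ^ d) ^ (k + 1) := by ring

theorem summable_ZM0 (hF : Fam d C z) {L l : ℝ} (hL : 0 < L) (hl : 0 ≤ l) :
    Summable (fun k : ℕ => (k : ℝ) ^ 0 * z L k * l ^ k) := by
  refine Summable.of_nonneg_of_le (fun k => ?_) (fun k => ?_)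
    (Real.summable_pow_div_factorial (L ^ d * l))
  · have := hF.nonneg L hL k
    positivity
  · have h1 := z_le hF hL k
    have h2 : 0 ≤ l ^ k := by positivity
    calc (k : ℝ) ^ 0 * z L k * l ^ k = z L k * l ^ k := by ring
      _ ≤ ((L ^ d) ^ k / (k.factorial : ℝ)) * l ^ k := mul_le_mul_of_nonneg_right h1 h2
      _ = (L ^ d * l) ^ k / (k.factorial : ℝ) := by rw [mul_pow]; ring

theorem one_le_ZM0 (hF : Fam d C z) {L l : ℝ} (hL : 0 < L) (hl : 0 ≤ l) :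
    1 ≤ ZM z L 0 l := by
  have h1 : (fun k : ℕ => (k : ℝ) ^ 0 * z L k * l ^ k) 0 ≤
      ∑' k : ℕ, (k : ℝ) ^ 0 * z L k * l ^ k :=
    (summable_ZM0 hF hL hl).le_tsum 0 (fun k _ => by
      have := hF.nonneg L hL k
      positivity)
  simpa [hF.zero L hL, ZM] using h1

theorem ZM0_mono (hF : Fam d C z) {L L' l : ℝ} (hL : 0 < L) (hLL : L ≤ L') (hl : 0 ≤ l) :
    ZM z L 0 l ≤ ZM z L' 0 l := by
  unfold ZM
  refine (summable_ZM0 hF hL hl).tsum_le_tsum (fun k => ?_)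
    (summable_ZM0 hF (lt_of_lt_of_le hL hLL) hl)
  have h1 := hF.mono L L' hL hLL k
  have h2 : 0 ≤ l ^ k := by positivity
  have h3 : (k : ℝ) ^ 0 * z L k ≤ (k : ℝ) ^ 0 * z L' k := by simpa using h1
  exact mul_le_mul_of_nonneg_right h3 h2

theorem log_le (hF : Fam d C z) {m L l : ℝ} (hm : 0 < m) (hL : 0 < L) (hl : 0 ≤ l) :
    Real.log (ZM z L 0 l) ≤ (⌈m⁻¹ * L⌉₊ : ℝ) ^ d * Real.log (ZM z m 0 l) := by
  have hM : 1 ≤ ⌈m⁻¹ * L⌉₊ := Nat.one_le_iff_ne_zero.mpr (by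
    have : 0 < ⌈m⁻¹ * L⌉₊ := Nat.ceil_pos.mpr (by positivity)
    omega)
  have h1 : L ≤ (⌈m⁻¹ * L⌉₊ : ℝ) * m := by
    have := Nat.le_ceil (m⁻¹ * L)
    calc L = (m⁻¹ * L) * m := by field_simp
      _ ≤ (⌈m⁻¹ * L⌉₊ : ℝ) * m := mul_le_mul_of_nonneg_right this hm.le
  have h2 := ZM0_mono hF hL h1 hl
  have h3 := hF.sub m hm _ hM l hl
  have h4 := one_le_ZM0 hF hL hl
  calc Real.log (ZM z L 0 l) ≤ Real.log ((ZM z m 0 l) ^ (⌈m⁻¹ * L⌉₊ ^ d)) :=
        Real.log_le_log (by linarith) (h2.trans h3)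
    _ = (⌈m⁻¹ * L⌉₊ : ℝ) ^ d * Real.log (ZM z m 0 l) := by
        rw [Real.log_pow]; push_cast; ring

theorem tend_up (d : ℕ) {m : ℝ} (hm : 0 < m) (c : ℝ) :
    Tendsto (fun L : ℝ => (⌈m⁻¹ * L⌉₊ : ℝ) ^ d * c / L ^ d) atTop (𝓝 (c / m ^ d)) := by
  have h1 : Tendsto (fun x : ℝ => (⌈m⁻¹ * x⌉₊ : ℝ) / x) atTop (𝓝 m⁻¹) :=
    tendsto_nat_ceil_mul_div_atTop (by positivity)
  have h2 := (h1.pow d).mul_const c
  have h3 : (m⁻¹) ^ d * c = c / m ^ d := by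
    rw [inv_pow]; ring
  rw [h3] at h2
  refine h2.congr (fun x => ?_)
  rw [div_pow]
  ring

end PRESSN

open PRESSN in
theorem t_PRESS : S_PRESS := by
  intro d C z _ _ hF l hl
  set f : ℝ → ℝ := fun L => Real.log (ZM z L 0 l) / L ^ d with hf
  have hf0 : ∀ L : ℝ, 0 < L → 0 ≤ f L := by
    intro L hL
    exact div_nonneg (Real.log_nonneg (one_le_ZM0 hF hL hl)) (by positivity)
  have hbdd : BddBelow (f '' Ioi 0) := ⟨0, by
    rintro _ ⟨L, hL, rfl⟩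
    exact hf0 L hL⟩
  have hne : (f '' Ioi (0 : ℝ)).Nonempty := ⟨f 1, 1, by simp, rfl⟩
  refine ⟨sInf (f '' Ioi 0), ?_⟩
  rw [tendsto_order]
  constructor
  · intro a ha
    filter_upwards [eventually_gt_atTop (0 : ℝ)] with L hL
    exact lt_of_lt_of_le ha (csInf_le hbdd ⟨L, hL, rfl⟩)
  · intro a ha
    obtain ⟨_, ⟨m, hm, rfl⟩, hma⟩ := exists_lt_of_csInf_lt hne ha
    have hm' : 0 < m := hm
    have h1 := (tend_up d hm' (Real.log (ZM z m 0 l))).eventually_lt_const hma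
    filter_upwards [h1, eventually_gt_atTop (0 : ℝ)] with L hL1 hL
    have h2 := log_le hF hm' hL hl
    have h3 : f L ≤ (⌈m⁻¹ * L⌉₊ : ℝ) ^ d * Real.log (ZM z m 0 l) / L ^ d :=
      div_le_div_of_nonneg_right h2 (by positivity)
    exact lt_of_le_of_lt h3 hL1

end Pool.Agent.H288.HS
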