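import Pool.Agent.H288.HS.Stm4
import Pool.Agent.H288.HS.T.BV

set_option autoImplicit false

open MeasureTheory Set Filter Topology

namespace Pool.Agent.H288.HS.RAD3N

open Pool.Agent.H288.HS

theorem norm_sq3 (y : EuclideanSpace ℝ (Fin 3)) : ∑ k, (WithLp.ofLp y) k ^ 2 = ‖y‖ ^ 2 := by
  rw [EuclideanSpace.norm_eq, Real.sq_sqrt (Finset.sum_nonneg fun i _ => by positivity)]
  simp only [Real.norm_eq_abs, sq_abs]

/-- from coordinates to the Euclidean space -/
theorem to_euc (R : ℝ) (hR : 0 < R) (g : ℝ → ℝ) :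
    ∫ x in Bs 3 R, g (∑ k, x k ^ 2) =
      ∫ y : EuclideanSpace ℝ (Fin 3), (Iio R).indicator (fun r => g (r ^ 2)) ‖y‖ := by
  rw [← integral_indicator (BVN.meas_Bs 3 R)]
  have h := (EuclideanSpace.volume_preserving_symm_measurableEquiv_toLp (Fin 3)).integral_comp
    (MeasurableEquiv.measurableEmbedding _)
    ((Bs 3 R).indicator fun x => g (∑ k, x k ^ 2))
  rw [← h]
  refine integral_congr_ae (Filter.Eventually.of_forall fun y => ?_)
  have e1 : ((MeasurableEquiv.toLp 2 (Fin 3 → ℝ)).symm y) = WithLp.ofLp y := rfl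
  simp only [e1]
  have e2 : (WithLp.ofLp y ∈ Bs 3 R) ↔ ‖y‖ ∈ Iio R := by
    rw [mem_Iio]
    change ∑ k, (WithLp.ofLp y) k ^ 2 < R ^ 2 ↔ _
    rw [norm_sq3]
    exact sq_lt_sq₀ (norm_nonneg y) hR.le
  by_cases hy : WithLp.ofLp y ∈ Bs 3 R
  · rw [indicator_of_mem hy, indicator_of_mem (e2.1 hy), norm_sq3]
  · rw [indicator_of_notMem hy, indicator_of_notMem (fun h => hy (e2.2 h))]

theorem ball3 : volume.real (Metric.ball (0 : EuclideanSpace ℝ (Fin 3)) 1) = 4 / 3 * Real.pi := by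
  rw [Measure.real, EuclideanSpace.volume_ball_fin_three]
  rw [ENNReal.ofReal_one, one_pow, one_mul, ENNReal.toReal_ofReal (by positivity)]
  ring

end Pool.Agent.H288.HS.RAD3N

namespace Pool.Agent.H288.HS

theorem t_RAD3 : S_RAD3 := by
  intro R g hR _
  rw [RAD3N.to_euc R hR g, integral_fun_norm_addHaar volume ((Iio R).indicator fun r => g (r ^ 2)),
    RAD3N.ball3, finrank_euclideanSpace_fin]
  have h1 : ∀ y : ℝ, y ^ (3 - 1) • (Iio R).indicator (fun r => g (r ^ 2)) y =
      (Iio R).indicator (fun r => g (r ^ 2) * r ^ 2) y := by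
    intro y
    by_cases hy : y ∈ Iio R
    · rw [indicator_of_mem hy, indicator_of_mem hy, smul_eq_mul]
      ring
    · rw [indicator_of_notMem hy, indicator_of_notMem hy, smul_zero]
  simp only [h1]
  rw [setIntegral_indicator measurableSet_Iio, Ioi_inter_Iio, intervalIntegral.integral_of_le hR.le,
    integral_Ioc_eq_integral_Ioo, nsmul_eq_mul, smul_eq_mul]
  push_cast
  ring

end Pool.Agent.H288.HS
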