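import Pool.Agent.H288.HS.Stm2

/-!
Finite hard-core gases at real nonnegative activities.
-/

set_option autoImplicit false

open MeasureTheory Set Filter Topology

namespace Pool.Agent.H288.HS

namespace REALN

variable {V : Type}

/-- the partition function at a real activity -/
noncomputable def Zr (N : V → V → Prop) (w : ℝ) (A : Finset V) (s : ℝ) : ℝ :=
  ∑ I ∈ ind N A, (s * w) ^ I.card

theorem Z_eq (N : V → V → Prop) (w : ℝ) (A : Finset V) (s : ℝ) :
    Z N w A (s : ℂ) = (Zr N w A s : ℂ) := by
  unfold Z Zr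
  push_cast
  rfl

theorem ind_mono (N : V → V → Prop) {A B : Finset V} (h : A ⊆ B) : ind N A ⊆ ind N B := by
  classical
  intro I hI
  unfold ind at hI ⊢
  rw [Finset.mem_filter, Finset.mem_powerset] at hI ⊢
  exact ⟨hI.1.trans h, hI.2⟩

theorem empty_mem (N : V → V → Prop) (A : Finset V) : ∅ ∈ ind N A := by
  classical
  unfold ind
  rw [Finset.mem_filter, Finset.mem_powerset]
  exact ⟨Finset.empty_subset A, fun x hx => absurd hx (Finset.notMem_empty x)⟩

theorem Zr_mono (N : V → V → Prop) {w s : ℝ} (hw : 0 < w) (hs : 0 ≤ s) {A B : Finset V}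
    (h : A ⊆ B) : Zr N w A s ≤ Zr N w B s :=
  Finset.sum_le_sum_of_subset_of_nonneg (ind_mono N h) fun I _ _ => by positivity

theorem one_le_Zr (N : V → V → Prop) {w s : ℝ} (hw : 0 < w) (hs : 0 ≤ s) (A : Finset V) :
    1 ≤ Zr N w A s := by
  have h1 := Finset.single_le_sum (f := fun I : Finset V => (s * w) ^ I.card)
    (fun I _ => by positivity) (empty_mem N A)
  rw [Finset.card_empty, pow_zero] at h1
  exact h1

open Classical in
theorem Zr_insert (h : S_STEP) (N : V → V → Prop) {w s : ℝ} (hw : 0 < w) (hs : 0 ≤ s)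
    (hr : ∀ x, N x x) (hsy : ∀ x y, N x y → N y x) (B : Finset V) (y : V) :
    Zr N w (insert y B) s ≤ (1 + s * w) * Zr N w B s := by
  have h0 : 0 ≤ Zr N w B s := zero_le_one.trans (one_le_Zr N hw hs B)
  have hsw : 0 ≤ s * w := mul_nonneg hs hw.le
  by_cases hy : y ∈ B
  · rw [Finset.insert_eq_of_mem hy]
    nlinarith
  · have h1 := h V N w (insert y B) B {y} (s : ℂ) hr hsy
      (fun z => by rw [Finset.mem_insert, Finset.mem_singleton]; tauto)
      (fun z hz hzy => hy (by rw [Finset.mem_singleton] at hzy; rwa [← hzy]))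
      (fun a ha b hb => by
        rw [Finset.mem_singleton] at ha hb
        rw [ha, hb]
        exact hr y)
    rw [Finset.sum_singleton, Z_eq, Z_eq, Z_eq] at h1
    have h2 : Zr N w (insert y B) s = Zr N w B s + s * w * Zr N w (rem N B y) s := by
      exact_mod_cast h1
    have h3 : Zr N w (rem N B y) s ≤ Zr N w B s :=
      Zr_mono N hw hs (Finset.filter_subset _ _)
    rw [h2]
    nlinarith

open Classical in
theorem Zr_union (h : S_STEP) (N : V → V → Prop) {w s : ℝ} (hw : 0 < w) (hs : 0 ≤ s)
    (hr : ∀ x, N x x) (hsy : ∀ x y, N x y → N y x) (B Q : Finset V) :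
    Zr N w (B ∪ Q) s ≤ (1 + s * w) ^ Q.card * Zr N w B s := by
  have hsw : 0 ≤ s * w := mul_nonneg hs hw.le
  induction Q using Finset.induction_on with
  | empty => simp
  | insert y Q hy ih =>
    rw [Finset.union_insert, Finset.card_insert_of_notMem hy]
    refine (Zr_insert h N hw hs hr hsy (B ∪ Q) y).trans ?_
    rw [pow_succ', mul_assoc]
    exact mul_le_mul_of_nonneg_left ih (by positivity)

end REALN

open REALN in
theorem t_REAL (h : S_STEP) : S_REAL := by
  classical
  intro V N w C hw hr hsy hC s hs A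
  refine ⟨⟨Zr N w A s, one_le_Zr N hw hs A, Z_eq N w A s⟩, fun x => ?_⟩
  have hsw : 0 ≤ s * w := mul_nonneg hs hw.le
  have hA : 0 < Zr N w A s := zero_lt_one.trans_le (one_le_Zr N hw hs A)
  refine ⟨Zr N w (rem N A x) s / Zr N w A s, ?_, ?_, ?_⟩
  · rw [le_div_iff₀ hA]
    have h1 : A = rem N A x ∪ nb N A x := by
      ext z
      unfold rem nb
      rw [Finset.mem_union, Finset.mem_filter, Finset.mem_filter]
      tauto
    have h2 : Zr N w A s ≤ (1 + s * w) ^ (nb N A x).card * Zr N w (rem N A x) s := by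
      have h3 := Zr_union h N hw hs hr hsy (rem N A x) (nb N A x)
      rwa [← h1] at h3
    have h4 : (1 + s * w) ^ (nb N A x).card ≤ Real.exp (s * C) := by
      calc (1 + s * w) ^ (nb N A x).card ≤ Real.exp (s * w) ^ (nb N A x).card :=
            pow_le_pow_left₀ (by positivity) (by linarith [Real.add_one_le_exp (s * w)]) _
        _ = Real.exp ((nb N A x).card * (s * w)) := (Real.exp_nat_mul _ _).symm
        _ ≤ Real.exp (s * C) := by
            refine Real.exp_le_exp.2 ?_
            have h5 := mul_le_mul_of_nonneg_left (hC A x) hs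
            linarith
    have h5 : 0 ≤ Zr N w (rem N A x) s := zero_le_one.trans (one_le_Zr N hw hs _)
    calc Real.exp (-(s * C)) * Zr N w A s
        ≤ Real.exp (-(s * C)) * (Real.exp (s * C) * Zr N w (rem N A x) s) :=
          mul_le_mul_of_nonneg_left (h2.trans (mul_le_mul_of_nonneg_right h4 h5))
            (Real.exp_pos _).le
      _ = Zr N w (rem N A x) s := by
          rw [← mul_assoc, ← Real.exp_add, neg_add_cancel, Real.exp_zero, one_mul]
  · rw [div_le_one hA]
    exact Zr_mono N hw hs (Finset.filter_subset _ _)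
  · unfold W
    rw [Z_eq, Z_eq]
    push_cast
    rfl

end Pool.Agent.H288.HS
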