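import Pool.Agent.H288.HS.Stm5

/-!
# Hard spheres: scaling of the volume of the paths (task SCALEP, helper682)
-/

set_option autoImplicit false

open MeasureTheory Set Filter Topology

namespace Pool.Agent.H288.HS

namespace SCALEPN

open scoped Pointwise

theorem pt_smul {d K : ℕ} (R : ℝ) (q : Fin K → Fin d → ℝ) (i : Fin (K + 1)) :
    pt (fun _ => (0 : ℝ)) (R • q) i = R • pt (fun _ => (0 : ℝ)) q i := by
  refine Fin.cases ?_ (fun j => ?_) i
  · show (fun _ => (0 : ℝ)) = R • (fun _ => (0 : ℝ))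
    funext k
    simp
  · rfl

theorem nr_smul {d : ℕ} {R : ℝ} (hR : 0 < R) (x y : Fin d → ℝ) :
    NR d R (R • x) (R • y) ↔ NR d 1 x y := by
  unfold NR
  have h1 : ∑ k, ((R • x) k - (R • y) k) ^ 2 = R ^ 2 * ∑ k, (x k - y k) ^ 2 := by
    rw [Finset.mul_sum]
    refine Finset.sum_congr rfl fun k _ => ?_
    simp only [Pi.smul_apply, smul_eq_mul]
    ring
  rw [h1, one_pow]
  have h2 : 0 < R ^ 2 := by positivity
  constructor
  · intro h
    by_contra h3
    rw [not_lt] at h3
    have := mul_le_mul_of_nonneg_left h3 h2.le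
    linarith
  · intro h
    have := mul_lt_mul_of_pos_left h h2
    linarith

theorem col_smul {d r m : ℕ} {c : Fin m → (Fin d → ℝ) → Fin r} {R : ℝ} (hR : 0 < R)
    (hc : ∀ b, CC d r (c b)) (b : Fin m) (x y : Fin d → ℝ) :
    c b (fun k => (R • y) k - (R • x) k) = c b (fun k => y k - x k) := by
  rw [← (hc b).hom R (fun k => y k - x k) hR]
  refine congrArg (c b) ?_
  funext k
  simp only [Pi.smul_apply, smul_eq_mul]
  ring

theorem pathOK_smul {d r m K : ℕ} {c : Fin m → (Fin d → ℝ) → Fin r} {R : ℝ} (hR : 0 < R)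
    (hc : ∀ b, CC d r (c b)) (o : Fin K → Fin m) (q : Fin K → Fin d → ℝ) :
    PathOK (NR d R) (fun b x y => c b (fun k => y k - x k)) (fun _ => 0) o (R • q) ↔
      PathOK (NR d 1) (fun b x y => c b (fun k => y k - x k)) (fun _ => 0) o q := by
  unfold PathOK
  simp only [pt_smul, nr_smul hR, col_smul hR hc]

theorem paths_smul {d r m K : ℕ} {c : Fin m → (Fin d → ℝ) → Fin r} {R : ℝ} (hR : 0 < R)
    (hc : ∀ b, CC d r (c b)) (o : Fin K → Fin m) :
    Paths d r m K c R o = R • Paths d r m K c 1 o := by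
  ext q
  rw [Set.mem_smul_set_iff_inv_smul_mem₀ hR.ne']
  have h := pathOK_smul hR hc o (R⁻¹ • q)
  rw [smul_inv_smul₀ hR.ne'] at h
  exact h

theorem vol_smul {d K : ℕ} {R : ℝ} (hR : 0 < R) (S : Set (Fin K → Fin d → ℝ)) :
    volume.real (R • S) = (R ^ d) ^ K * volume.real S := by
  have h1 : Module.finrank ℝ (Fin K → Fin d → ℝ) = d * K := by
    rw [Module.finrank_pi_fintype]
    simp [mul_comm]
  rw [measureReal_def, measureReal_def, Measure.addHaar_smul, h1, ENNReal.toReal_mul,
    ENNReal.toReal_ofReal (abs_nonneg _), abs_of_pos (by positivity), pow_mul]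

end SCALEPN

open SCALEPN in
theorem t_SCALEP : S_SCALEP := by
  intro d r m K c R hR hc
  unfold pathVol
  have h1 : ∀ o : Fin K → Fin m, volume.real (Paths d r m K c R o) =
      (R ^ d) ^ K * volume.real (Paths d r m K c 1 o) := by
    intro o
    rw [paths_smul hR hc o, vol_smul hR]
  simp_rw [h1]
  rw [← Finset.mul_sum]
  ring

end Pool.Agent.H288.HS
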