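import Pool.Agent.H288.HS.Stm5
import Pool.Agent.H288.HS.T.COL2

/-!
# The six sectors of the plane: `S_SEC2`
-/

set_option autoImplicit false

open MeasureTheory Set Filter Topology

namespace Pool.Agent.H288.HS.SEC2N

open COL2N

lemma sector_eq (p : Fin 2 → ℝ) : sector p = csec (p 0) (p 1) := rfl

lemma csec_hom (s : ℝ) (hs : 0 < s) (x y : ℝ) : csec (s * x) (s * y) = csec x y := by
  have h1 : (0 ≤ s * y) ↔ (0 ≤ y) := mul_nonneg_iff_of_pos_left hs
  have h2 : (s * y ≤ √3 * (s * x)) ↔ (y ≤ √3 * x) := by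
    have e : √3 * (s * x) = s * (√3 * x) := by ring
    rw [e]
    exact mul_le_mul_iff_right₀ hs
  have h3 : (-(s * y) ≤ √3 * (s * x)) ↔ (-y ≤ √3 * x) := by
    have e : √3 * (s * x) = s * (√3 * x) := by ring
    have e2 : -(s * y) = s * (-y) := by ring
    rw [e, e2]
    exact mul_le_mul_iff_right₀ hs
  unfold csec
  simp only [h1, h2, h3]

lemma sector_meas : Measurable sector := by
  have m0 : Measurable fun p : Fin 2 → ℝ => p 0 := measurable_pi_apply 0
  have m1 : Measurable fun p : Fin 2 → ℝ => p 1 := measurable_pi_apply 1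
  have mx : Measurable fun p : Fin 2 → ℝ => √3 * p 0 := m0.const_mul _
  unfold sector
  refine Measurable.ite (measurableSet_le measurable_const m1) ?_ ?_
  · refine Measurable.ite (measurableSet_le m1 mx) measurable_const ?_
    exact Measurable.ite (measurableSet_le m1.neg mx) measurable_const measurable_const
  · refine Measurable.ite (measurableSet_le m1.neg mx) measurable_const ?_
    exact Measurable.ite (measurableSet_le m1 mx) measurable_const measurable_const

lemma OS_color (j : Fin 6) (q : Fin 2 → ℝ) (h : q ∈ OS j) : sector q = j := by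
  rw [sector_eq]
  apply csec_OS j 1 one_pos
  have e : (fun k : Fin 2 => (![q 0, q 1] k) / (1 : ℝ)) = q := by
    funext k
    fin_cases k <;> simp
  rw [e]
  exact h

lemma LI_closed (a b : ℝ) : IsClosed (LI a b) := by
  unfold LI
  exact isClosed_eq (by fun_prop) continuous_const

lemma exists_OS (p : Fin 2 → ℝ) (hp : p ∉ LI 0 1 ∪ (LI (√3) (-1) ∪ LI (√3) 1)) :
    ∃ j, p ∈ OS j := by
  have hR : p ∈ Bs 2 (p 0 ^ 2 + p 1 ^ 2 + 1) := by
    simp only [Bs, mem_ofPred_eq, Fin.sum_univ_two]
    nlinarith [sq_nonneg (p 0), sq_nonneg (p 1)]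
  rcases cover _ hR with h | h
  · rw [mem_iUnion] at h
    obtain ⟨j, hj⟩ := h
    exact ⟨j, hj.1⟩
  · exact absurd h hp

lemma cc (f : Fin 6 → Fin 6) (hf : Function.Injective f) : CC 2 6 (fun p => f (sector p)) := by
  refine ⟨fun s p hs => ?_, fun u v hu hv huv => ?_, fun j => ?_, ?_⟩
  · show f (sector (fun k => s * p k)) = f (sector p)
    rw [sector_eq, sector_eq, csec_hom s hs]
  · have h1 := hf huv
    rw [sector_eq, sector_eq] at h1
    rw [Fin.sum_univ_two] at hu hv ⊢
    have h2 := diam 1 (u 0) (u 1) (v 0) (v 1) (by linarith) (by linarith) h1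
    linarith
  · have hm : Measurable fun p => f (sector p) := (measurable_of_finite f).comp sector_meas
    exact hm (measurableSet_singleton j)
  · refine ⟨LI 0 1 ∪ (LI (√3) (-1) ∪ LI (√3) 1),
      (LI_closed _ _).union ((LI_closed _ _).union (LI_closed _ _)), ?_, fun p hp => ?_⟩
    · exact measure_union_null (LI_null _ _ (by norm_num)) (measure_union_null
        (LI_null _ _ (by norm_num)) (LI_null _ _ (by norm_num)))
    · obtain ⟨j, hj⟩ := exists_OS p hp
      filter_upwards [(OS_open j).mem_nhds hj] with q hq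
      rw [OS_color j q hq, OS_color j p hj]

end Pool.Agent.H288.HS.SEC2N

namespace Pool.Agent.H288.HS

theorem t_SEC2 : S_SEC2 :=
  ⟨SEC2N.cc id Function.injective_id, SEC2N.cc Fin.rev Fin.rev_injective⟩

end Pool.Agent.H288.HS
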