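import Pool.Agent.H288.HS.Stm5
import Pool.Agent.H288.HS.T.COL3

/-!
# The 24 cones of the space: the colouring satisfies `CC`
-/

set_option autoImplicit false

open MeasureTheory Set Filter Topology

namespace Pool.Agent.H288.HS

namespace SEC3N

theorem code_inj {a b0 b1 b2 a' b0' b1' b2' : ℕ} (ha : a ≤ 2) (ha' : a' ≤ 2)
    (h0 : b0 = 0 ∨ b0 = 1) (h0' : b0' = 0 ∨ b0' = 1) (h1 : b1 = 0 ∨ b1 = 2)
    (h1' : b1' = 0 ∨ b1' = 2) (h2 : b2 = 0 ∨ b2 = 4) (h2' : b2' = 0 ∨ b2' = 4)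
    (h : Fin.ofNat 24 (8 * a + b0 + b1 + b2) = Fin.ofNat 24 (8 * a' + b0' + b1' + b2')) :
    a = a' ∧ b0 = b0' ∧ b1 = b1' ∧ b2 = b2' := by
  have h3 : (8 * a + b0 + b1 + b2) % 24 = (8 * a' + b0' + b1' + b2') % 24 := congrArg Fin.val h
  omega

theorem ite_dich (P : Prop) [Decidable P] (n : ℕ) :
    (if P then 0 else n) = 0 ∨ (if P then 0 else n) = n := by
  split_ifs
  · exact Or.inl rfl
  · exact Or.inr rfl

theorem ite_iff {P Q : Prop} [Decidable P] [Decidable Q] {n : ℕ} (hn : n ≠ 0)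
    (h : (if P then 0 else n) = (if Q then 0 else n)) : P ↔ Q := by
  by_cases hP : P <;> by_cases hQ : Q
  · exact ⟨fun _ => hQ, fun _ => hP⟩
  · rw [if_pos hP, if_neg hQ] at h
    exact absurd h.symm hn
  · rw [if_neg hP, if_pos hQ] at h
    exact absurd h hn
  · exact ⟨fun h' => absurd h' hP, fun h' => absurd h' hQ⟩

theorem ite3_le (P Q : Prop) [Decidable P] [Decidable Q] :
    (if P then 0 else if Q then 1 else 2 : ℕ) ≤ 2 := by
  split_ifs <;> omega

/-- the index of the maximal coordinate -/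
theorem ite3_mx {P Q P' Q' : Prop} [Decidable P] [Decidable Q] [Decidable P'] [Decidable Q']
    (h : (if P then 0 else if Q then 1 else 2 : ℕ) = if P' then 0 else if Q' then 1 else 2) :
    (P ∧ P') ∨ (¬ P ∧ Q ∧ ¬ P' ∧ Q') ∨ (¬ P ∧ ¬ Q ∧ ¬ P' ∧ ¬ Q') := by
  by_cases hP : P <;> by_cases hQ : Q <;> by_cases hP' : P' <;> by_cases hQ' : Q' <;>
    simp_all

theorem mx0 {p : Fin 3 → ℝ} (h : |p 1| ≤ |p 0| ∧ |p 2| ≤ |p 0|) (k : Fin 3) :
    |p k| ≤ |p 0| := by
  rcases COL3N.fin3 k with rfl | rfl | rfl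
  · exact le_rfl
  · exact h.1
  · exact h.2

theorem mx1 {p : Fin 3 → ℝ} (h : ¬ (|p 1| ≤ |p 0| ∧ |p 2| ≤ |p 0|)) (h' : |p 2| ≤ |p 1|)
    (k : Fin 3) : |p k| ≤ |p 1| := by
  rcases COL3N.fin3 k with rfl | rfl | rfl
  · by_contra hcon
    push Not at hcon
    exact h ⟨hcon.le, h'.trans hcon.le⟩
  · exact le_rfl
  · exact h'

theorem mx2 {p : Fin 3 → ℝ} (h : ¬ (|p 1| ≤ |p 0| ∧ |p 2| ≤ |p 0|)) (h' : ¬ |p 2| ≤ |p 1|)
    (k : Fin 3) : |p k| ≤ |p 2| := by
  push Not at h'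
  rcases COL3N.fin3 k with rfl | rfl | rfl
  · by_contra hcon
    push Not at hcon
    exact h ⟨(h'.trans hcon).le, hcon.le⟩
  · exact h'.le
  · exact le_rfl

theorem clique (u v : Fin 3 → ℝ) (hu : ∑ k, u k ^ 2 < 1) (hv : ∑ k, v k ^ 2 < 1)
    (h : cone24 u = cone24 v) : ∑ k, (u k - v k) ^ 2 < 1 := by
  unfold cone24 at h
  obtain ⟨ha, h0, h1, h2⟩ := code_inj (ite3_le _ _) (ite3_le _ _) (ite_dich _ _) (ite_dich _ _)
    (ite_dich _ _) (ite_dich _ _) (ite_dich _ _) (ite_dich _ _) h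
  have g0 := ite_iff (by norm_num) h0
  have g1 := ite_iff (by norm_num) h1
  have g2 := ite_iff (by norm_num) h2
  have hsg : ∀ k, (0 ≤ u k ↔ 0 ≤ v k) := by
    intro k
    rcases COL3N.fin3 k with rfl | rfl | rfl
    · exact g0
    · exact g1
    · exact g2
  have hs : ∀ k, u k * v k = |u k| * |v k| := by
    intro k
    by_cases hk : 0 ≤ u k
    · rw [abs_of_nonneg hk, abs_of_nonneg ((hsg k).1 hk)]
    · have hk' : ¬ 0 ≤ v k := fun h' => hk ((hsg k).2 h')
      push Not at hk hk'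
      rw [abs_of_neg hk, abs_of_neg hk']
      ring
  have hi : ∃ i : Fin 3, (∀ k, |u k| ≤ |u i|) ∧ ∀ k, |v k| ≤ |v i| := by
    rcases ite3_mx ha with ⟨q1, q2⟩ | ⟨q1, q2, q3, q4⟩ | ⟨q1, q2, q3, q4⟩
    · exact ⟨0, mx0 q1, mx0 q2⟩
    · exact ⟨1, mx1 q1 q2, mx1 q3 q4⟩
    · exact ⟨2, mx2 q1 q2, mx2 q3 q4⟩
  obtain ⟨i, hmu, hmv⟩ := hi
  have key := COL3N.cone3 u v i hmu hmv hs
  have hP : 0 ≤ ∑ k, u k * v k := Finset.sum_nonneg fun k _ => by rw [hs k]; positivity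
  have := COL3N.close (∑ k, u k ^ 2) (∑ k, v k ^ 2) (∑ k, u k * v k) 1 hu hv
    (Finset.sum_nonneg fun k _ => sq_nonneg _) (Finset.sum_nonneg fun k _ => sq_nonneg _) hP key
  have e : ∑ k, (u k - v k) ^ 2 = ∑ k, u k ^ 2 + ∑ k, v k ^ 2 - 2 * ∑ k, u k * v k := by
    rw [Finset.mul_sum, ← Finset.sum_add_distrib, ← Finset.sum_sub_distrib]
    exact Finset.sum_congr rfl fun k _ => by ring
  rw [e]
  exact this

/-- equality of the colours from the equality of the conditions -/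
theorem cone24_congr {p q : Fin 3 → ℝ} (h1 : |q 1| ≤ |q 0| ↔ |p 1| ≤ |p 0|)
    (h2 : |q 2| ≤ |q 0| ↔ |p 2| ≤ |p 0|) (h3 : |q 2| ≤ |q 1| ↔ |p 2| ≤ |p 1|)
    (k0 : 0 ≤ q 0 ↔ 0 ≤ p 0) (k1 : 0 ≤ q 1 ↔ 0 ≤ p 1) (k2 : 0 ≤ q 2 ↔ 0 ≤ p 2) :
    cone24 q = cone24 p := by
  unfold cone24
  simp only [h1, h2, h3, k0, k1, k2]

theorem hom (s : ℝ) (p : Fin 3 → ℝ) (hs : 0 < s) : cone24 (fun k => s * p k) = cone24 p := by
  have h1 : ∀ i k : Fin 3, |s * p i| ≤ |s * p k| ↔ |p i| ≤ |p k| := by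
    intro i k
    rw [abs_mul, abs_mul, abs_of_pos hs]
    exact ⟨fun h => le_of_mul_le_mul_left h hs, fun h => mul_le_mul_of_nonneg_left h hs.le⟩
  have h2 : ∀ k : Fin 3, 0 ≤ s * p k ↔ 0 ≤ p k := fun k => mul_nonneg_iff_of_pos_left hs
  exact cone24_congr (h1 _ _) (h1 _ _) (h1 _ _) (h2 _) (h2 _) (h2 _)

open Classical in
/-- the number of the colour -/
noncomputable def code (p : Fin 3 → ℝ) : ℕ :=
  8 * (if |p 1| ≤ |p 0| ∧ |p 2| ≤ |p 0| then 0 else if |p 2| ≤ |p 1| then 1 else 2) +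
    (if 0 ≤ p 0 then 0 else 1) + (if 0 ≤ p 1 then 0 else 2) + (if 0 ≤ p 2 then 0 else 4)

theorem cone24_eq (p : Fin 3 → ℝ) : cone24 p = Fin.ofNat 24 (code p) := rfl

theorem code_meas : Measurable code := by
  have m0 : ∀ k : Fin 3, MeasurableSet {p : Fin 3 → ℝ | 0 ≤ p k} := fun k =>
    measurableSet_le measurable_const (measurable_pi_apply k)
  have m1 : ∀ i k : Fin 3, MeasurableSet {p : Fin 3 → ℝ | |p i| ≤ |p k|} := fun i k =>
    (isClosed_le (by fun_prop) (by fun_prop)).measurableSet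
  unfold code
  refine Measurable.add (Measurable.add (Measurable.add (Measurable.const_mul ?_ 8) ?_) ?_) ?_
  · exact Measurable.ite ((m1 1 0).inter (m1 2 0)) measurable_const
      (Measurable.ite (m1 2 1) measurable_const measurable_const)
  · exact Measurable.ite (m0 0) measurable_const measurable_const
  · exact Measurable.ite (m0 1) measurable_const measurable_const
  · exact Measurable.ite (m0 2) measurable_const measurable_const

theorem meas (j : Fin 24) : MeasurableSet (cone24 ⁻¹' {j}) :=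
  code_meas (MeasurableSet.of_discrete (s := {n : ℕ | Fin.ofNat 24 n = j}))

theorem Nl_closed : IsClosed COL3N.Nl := by
  unfold COL3N.Nl
  refine IsClosed.union (isClosed_iUnion_of_finite fun k => isClosed_eq (by fun_prop)
    continuous_const) (isClosed_iUnion_of_finite fun i => isClosed_iUnion_of_finite fun k => ?_)
  by_cases hik : i = k
  · have : {x : Fin 3 → ℝ | i ≠ k ∧ |x i| = |x k|} = ∅ := by
      ext x
      simp [hik]
    rw [this]
    exact isClosed_empty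
  · have : {x : Fin 3 → ℝ | i ≠ k ∧ |x i| = |x k|} = {x | |x i| = |x k|} := by
      ext x
      simp [hik]
    rw [this]
    exact isClosed_eq (by fun_prop) (by fun_prop)

theorem loc (p : Fin 3 → ℝ) (hp : p ∉ COL3N.Nl) : ∀ᶠ q in 𝓝 p, cone24 q = cone24 p := by
  have h0 : ∀ k, p k ≠ 0 := by
    intro k hk
    exact hp (Or.inl (Set.mem_iUnion.2 ⟨k, hk⟩))
  have h1 : ∀ i k, i ≠ k → |p i| ≠ |p k| := by
    intro i k hik h
    exact hp (Or.inr (Set.mem_iUnion.2 ⟨i, Set.mem_iUnion.2 ⟨k, hik, h⟩⟩))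
  have c0 : ∀ k : Fin 3, Continuous fun q : Fin 3 → ℝ => q k := fun k => continuous_apply k
  have s0 : ∀ k, ∀ᶠ q in 𝓝 p, (0 ≤ q k ↔ 0 ≤ p k) := by
    intro k
    rcases lt_or_gt_of_ne (h0 k) with h | h
    · filter_upwards [(c0 k).continuousAt.eventually_lt_const h] with q hq
      exact ⟨fun h' => absurd h' (not_le.2 hq), fun h' => absurd h' (not_le.2 h)⟩
    · filter_upwards [(c0 k).continuousAt.eventually_const_lt h] with q hq
      exact ⟨fun _ => h.le, fun _ => hq.le⟩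
  have s1 : ∀ i k, i ≠ k → ∀ᶠ q in 𝓝 p, (|q i| ≤ |q k| ↔ |p i| ≤ |p k|) := by
    intro i k hik
    rcases lt_or_gt_of_ne (h1 i k hik) with h | h
    · filter_upwards [(c0 i).abs.continuousAt.eventually_lt (c0 k).abs.continuousAt h] with q hq
      exact ⟨fun _ => h.le, fun _ => hq.le⟩
    · filter_upwards [(c0 k).abs.continuousAt.eventually_lt (c0 i).abs.continuousAt h] with q hq
      exact ⟨fun h' => absurd h' (not_le.2 hq), fun h' => absurd h' (not_le.2 h)⟩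
  filter_upwards [s1 1 0 (by decide), s1 2 0 (by decide), s1 2 1 (by decide), s0 0, s0 1, s0 2]
    with q a b c d e f
  exact cone24_congr a b c d e f

theorem main : CC 3 24 cone24 where
  hom := hom
  clique := clique
  meas := meas
  null := ⟨COL3N.Nl, Nl_closed, COL3N.Nl_null, loc⟩

theorem rev {d r : ℕ} {c : (Fin d → ℝ) → Fin r} (h : CC d r c) : CC d r (fun p => (c p).rev) where
  hom := fun s p hs => congrArg Fin.rev (h.hom s p hs)
  clique := fun u v hu hv huv => h.clique u v hu hv (Fin.rev_injective huv)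
  meas := fun j => by
    have : (fun p => (c p).rev) ⁻¹' {j} = c ⁻¹' {j.rev} := by
      ext p
      simp only [Set.mem_preimage, Set.mem_singleton_iff]
      constructor
      · intro h'
        rw [← h', Fin.rev_rev]
      · intro h'
        rw [h', Fin.rev_rev]
    rw [this]
    exact h.meas _
  null := by
    obtain ⟨D, h1, h2, h3⟩ := h.null
    refine ⟨D, h1, h2, fun p hp => ?_⟩
    filter_upwards [h3 p hp] with q hq
    rw [hq]

end SEC3N

theorem t_SEC3 : S_SEC3 := ⟨SEC3N.main, SEC3N.rev SEC3N.main⟩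

end Pool.Agent.H288.HS
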