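import Pool.Agent.H288.HS.Stm5

/-!
# A colouring by cones in every dimension

The colour of `p` is the set of the `(j, k, a, b)` with `a * p j - b * p k > 0`, where `a` and `b`
run over the integers of absolute value at most `d`.
-/

set_option autoImplicit false

open MeasureTheory Set Filter Topology

namespace Pool.Agent.H288.HS

namespace SECDN

/-- The indices of the linear forms. -/
abbrev I (d : ℕ) : Type := Fin d × Fin d × Fin (2 * d + 1) × Fin (2 * d + 1)

/-- The coefficient. -/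
def cf {d : ℕ} (a : Fin (2 * d + 1)) : ℝ := ((a : ℕ) : ℝ) - d

/-- The linear forms. -/
noncomputable def L {d : ℕ} (i : I d) : (Fin d → ℝ) →ₗ[ℝ] ℝ :=
  cf i.2.2.1 • LinearMap.proj i.1 - cf i.2.2.2 • LinearMap.proj i.2.1

theorem L_apply {d : ℕ} (i : I d) (p : Fin d → ℝ) :
    L i p = cf i.2.2.1 * p i.1 - cf i.2.2.2 * p i.2.1 := rfl

open Classical in
/-- The signs. -/
noncomputable def sg {d : ℕ} (p : Fin d → ℝ) (i : I d) : Bool := decide (0 < L i p)

theorem sg_iff {d : ℕ} {p q : Fin d → ℝ} {i : I d} :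
    sg p i = sg q i ↔ (0 < L i p ↔ 0 < L i q) := by
  unfold sg
  exact decide_eq_decide

theorem exists_cf {d : ℕ} {m : ℤ} (h1 : -(d : ℤ) ≤ m) (h2 : m ≤ d) :
    ∃ a : Fin (2 * d + 1), cf a = (m : ℝ) := by
  refine ⟨⟨(m + d).toNat, by omega⟩, ?_⟩
  unfold cf
  have h3 : (((m + d).toNat : ℤ) : ℝ) = ((m + d : ℤ) : ℝ) := by
    rw [Int.toNat_of_nonneg (by omega)]
  have h4 : (((m + d).toNat : ℕ) : ℝ) = (m : ℝ) + d := by
    rw [Int.cast_natCast] at h3
    rw [h3]
    push_cast
    ring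
  simp only [h4]
  ring

theorem sg_form {d : ℕ} {u v : Fin d → ℝ} (h : sg u = sg v) (j k : Fin d) {a b : ℤ}
    (ha1 : -(d : ℤ) ≤ a) (ha2 : a ≤ d) (hb1 : -(d : ℤ) ≤ b) (hb2 : b ≤ d) :
    0 < (a : ℝ) * u j - b * u k ↔ 0 < (a : ℝ) * v j - b * v k := by
  obtain ⟨a', ha'⟩ := exists_cf ha1 ha2
  obtain ⟨b', hb'⟩ := exists_cf hb1 hb2
  have h1 := sg_iff.1 (congrFun h (j, k, a', b'))
  rw [L_apply, L_apply] at h1
  simp only [ha', hb'] at h1
  exact h1

theorem alg {a b T S X : ℝ} (ha : 0 < a) (hb : 0 < b) (hT : 1 ≤ T) (hS : 1 ≤ S)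
    (hX : T + S - 1 ≤ 2 * X) (h1 : a ^ 2 * T < 1) (h2 : b ^ 2 * S < 1) :
    a ^ 2 * T + b ^ 2 * S - 2 * (a * b * X) < 1 := by
  have hab : 0 < a * b := mul_pos ha hb
  have h3 : a * b * (T + S - 1) ≤ 2 * (a * b * X) := by
    have := mul_le_mul_of_nonneg_left hX hab.le
    linarith
  rcases le_total b a with h | h
  · have h4 : 0 ≤ b * (a * (T - 1) + (a - b) * S) := by
      apply mul_nonneg hb.le
      apply add_nonneg
      · exact mul_nonneg ha.le (by linarith)
      · exact mul_nonneg (by linarith) (by linarith)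
    have h5 : a ^ 2 * T - (a ^ 2 * T + b ^ 2 * S - a * b * (T + S - 1)) =
      b * (a * (T - 1) + (a - b) * S) := by ring
    linarith
  · have h4 : 0 ≤ a * (b * (S - 1) + (b - a) * T) := by
      apply mul_nonneg ha.le
      apply add_nonneg
      · exact mul_nonneg hb.le (by linarith)
      · exact mul_nonneg (by linarith) (by linarith)
    have h5 : b ^ 2 * S - (a ^ 2 * T + b ^ 2 * S - a * b * (T + S - 1)) =
      a * (b * (S - 1) + (b - a) * T) := by ring
    linarith

/-- The clique condition when the greatest coordinate is `k`. -/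
theorem cliq {d : ℕ} {u v : Fin d → ℝ} (k : Fin d) {α β : ℝ} (hα : 0 < α) (hβ : 0 < β)
    {t s : Fin d → ℝ} {e : ℝ} (he : e ^ 2 = 1) (hu : ∀ j, u j = e * α * t j)
    (hv : ∀ j, v j = e * β * s j)
    (htk : t k = 1) (hsk : s k = 1) (hts : ∑ j, (t j - s j) ^ 2 ≤ 1)
    (h1 : ∑ j, u j ^ 2 < 1) (h2 : ∑ j, v j ^ 2 < 1) : ∑ j, (u j - v j) ^ 2 < 1 := by
  have hT : 1 ≤ ∑ j, t j ^ 2 := by
    have := Finset.single_le_sum (f := fun j => t j ^ 2) (fun i _ => sq_nonneg _)
      (Finset.mem_univ k)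
    simp only [htk] at this
    linarith
  have hS : 1 ≤ ∑ j, s j ^ 2 := by
    have := Finset.single_le_sum (f := fun j => s j ^ 2) (fun i _ => sq_nonneg _)
      (Finset.mem_univ k)
    simp only [hsk] at this
    linarith
  have hX : ∑ j, t j ^ 2 + ∑ j, s j ^ 2 - 1 ≤ 2 * ∑ j, t j * s j := by
    have h3 : ∑ j, (t j - s j) ^ 2 = ∑ j, t j ^ 2 + ∑ j, s j ^ 2 - 2 * ∑ j, t j * s j := by
      rw [Finset.mul_sum, ← Finset.sum_add_distrib, ← Finset.sum_sub_distrib]
      exact Finset.sum_congr rfl fun j _ => by ring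
    linarith
  have h3 : ∑ j, u j ^ 2 = α ^ 2 * ∑ j, t j ^ 2 := by
    rw [Finset.mul_sum]
    refine Finset.sum_congr rfl fun j _ => ?_
    rw [hu j]
    have : (e * α * t j) ^ 2 = e ^ 2 * (α ^ 2 * t j ^ 2) := by ring
    rw [this, he, one_mul]
  have h4 : ∑ j, v j ^ 2 = β ^ 2 * ∑ j, s j ^ 2 := by
    rw [Finset.mul_sum]
    refine Finset.sum_congr rfl fun j _ => ?_
    rw [hv j]
    have : (e * β * s j) ^ 2 = e ^ 2 * (β ^ 2 * s j ^ 2) := by ring
    rw [this, he, one_mul]
  have h5 : ∑ j, (u j - v j) ^ 2 = α ^ 2 * ∑ j, t j ^ 2 + β ^ 2 * ∑ j, s j ^ 2 -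
      2 * (α * β * ∑ j, t j * s j) := by
    rw [← h3, ← h4, Finset.mul_sum, Finset.mul_sum, ← Finset.sum_add_distrib,
      ← Finset.sum_sub_distrib]
    refine Finset.sum_congr rfl fun j _ => ?_
    rw [hu j, hv j]
    have : (e * α * t j - e * β * s j) ^ 2 = (e * α * t j) ^ 2 + (e * β * s j) ^ 2 -
      e ^ 2 * (2 * (α * β * (t j * s j))) := by ring
    rw [this, he, one_mul]
  rw [h5]
  rw [h3] at h1
  rw [h4] at h2
  exact alg hα hβ hT hS hX h1 h2

theorem near {N : ℕ} (hN : 1 ≤ N) {x y : ℝ} (hx : |x| ≤ 1)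
    (h1 : ∀ m : ℤ, -(N : ℤ) ≤ m → m ≤ N → (0 < N * x - m ↔ 0 < N * y - m))
    (h2 : ∀ m : ℤ, -(N : ℤ) ≤ m → m ≤ N → (0 < m - N * x ↔ 0 < m - N * y)) :
    |N * x - N * y| ≤ 1 := by
  have hN' : (0 : ℝ) < N := by exact_mod_cast hN
  obtain ⟨hx1, hx2⟩ := abs_le.1 hx
  have hf1 : -(N : ℤ) ≤ ⌊(N : ℝ) * x⌋ := by
    rw [Int.le_floor]
    push_cast
    nlinarith
  have hf2 : ⌊(N : ℝ) * x⌋ ≤ N := by
    have h3 : ((⌊(N : ℝ) * x⌋ : ℤ) : ℝ) ≤ N := le_trans (Int.floor_le _) (by nlinarith)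
    exact_mod_cast h3
  have hf3 := Int.floor_le ((N : ℝ) * x)
  have hf4 := Int.lt_floor_add_one ((N : ℝ) * x)
  have hy1 : (⌊(N : ℝ) * x⌋ : ℝ) ≤ N * y := by
    by_contra h
    have h3 := (h2 _ hf1 hf2).2 (by linarith)
    linarith
  have hy2 : (N : ℝ) * y ≤ N := by
    by_contra h
    have h3 := (h1 N (by omega) le_rfl).2 (by push_cast; linarith)
    push_cast at h3
    nlinarith
  rcases hf2.lt_or_eq with h | h
  · have hy3 : (N : ℝ) * y < ⌊(N : ℝ) * x⌋ + 1 := by
      have h3 := (h2 (⌊(N : ℝ) * x⌋ + 1) (by omega) (by omega)).1 (by push_cast; linarith)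
      push_cast at h3
      linarith
    rw [abs_le]
    constructor <;> linarith
  · have h' : (⌊(N : ℝ) * x⌋ : ℝ) = N := by
      rw [h]
      push_cast
      rfl
    rw [h'] at hy1 hf3
    have h3 : (N : ℝ) * x ≤ N := by nlinarith
    rw [abs_le]
    constructor <;> linarith

theorem sg_hom {d : ℕ} (s : ℝ) (p : Fin d → ℝ) (hs : 0 < s) : sg (fun k => s * p k) = sg p := by
  funext i
  rw [sg_iff, L_apply, L_apply]
  have : cf i.2.2.1 * (s * p i.1) - cf i.2.2.2 * (s * p i.2.1) =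
    s * (cf i.2.2.1 * p i.1 - cf i.2.2.2 * p i.2.1) := by ring
  simp only [this]
  exact mul_pos_iff_of_pos_left hs

/-- If the coordinate `k` of `u` is positive and is the greatest. -/
theorem sg_pos {d : ℕ} (hd : 1 ≤ d) {u v : Fin d → ℝ} (h : sg u = sg v) (k : Fin d)
    (hk : ∀ j, |u j| ≤ |u k|) (hk0 : 0 < u k)
    (h1 : ∑ j, u j ^ 2 < 1) (h2 : ∑ j, v j ^ 2 < 1) : ∑ j, (u j - v j) ^ 2 < 1 := by
  have hd' : (0 : ℝ) < d := by exact_mod_cast hd
  have hvk : 0 < v k := by
    have h3 := (sg_form h k k (a := 1) (b := 0) (by omega) (by omega) (by omega) (by omega)).1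
      (by push_cast; linarith)
    push_cast at h3
    linarith
  have ht : ∀ j, |u j / u k| ≤ 1 := by
    intro j
    rw [abs_div, div_le_one (abs_pos.2 hk0.ne')]
    exact hk j
  have hnear : ∀ j, |(d : ℝ) * (u j / u k) - d * (v j / v k)| ≤ 1 := by
    intro j
    refine near hd (ht j) ?_ ?_
    · intro m hm1 hm2
      have h3 := sg_form h j k (a := d) (b := m) (by omega) (by omega) hm1 hm2
      have h4 : (((d : ℕ) : ℤ) : ℝ) * u j - m * u k = u k * (d * (u j / u k) - m) := by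
        push_cast
        field_simp
      have h5 : (((d : ℕ) : ℤ) : ℝ) * v j - m * v k = v k * (d * (v j / v k) - m) := by
        push_cast
        field_simp
      rw [h4, h5, mul_pos_iff_of_pos_left hk0, mul_pos_iff_of_pos_left hvk] at h3
      exact h3
    · intro m hm1 hm2
      have h3 := sg_form h j k (a := -d) (b := -m) (by omega) (by omega) (by omega) (by omega)
      have h4 : ((-((d : ℕ) : ℤ) : ℤ) : ℝ) * u j - ((-m : ℤ) : ℝ) * u k =
          u k * (m - d * (u j / u k)) := by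
        push_cast
        field_simp
        ring
      have h5 : ((-((d : ℕ) : ℤ) : ℤ) : ℝ) * v j - ((-m : ℤ) : ℝ) * v k =
          v k * (m - d * (v j / v k)) := by
        push_cast
        field_simp
        ring
      rw [h4, h5, mul_pos_iff_of_pos_left hk0, mul_pos_iff_of_pos_left hvk] at h3
      exact h3
  refine cliq k hk0 hvk (e := 1) (t := fun j => u j / u k) (s := fun j => v j / v k)
    (by norm_num) ?_ ?_ ?_ ?_ ?_ h1 h2
  · intro j
    field_simp
  · intro j
    field_simp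
  · exact div_self hk0.ne'
  · exact div_self hvk.ne'
  · have h3 : ∀ j, (u j / u k - v j / v k) ^ 2 ≤ 1 / (d : ℝ) ^ 2 := by
      intro j
      have h4 := hnear j
      rw [← mul_sub, abs_mul, abs_of_pos hd'] at h4
      have h5 : |u j / u k - v j / v k| ≤ 1 / d := by
        rw [le_div_iff₀ hd']
        linarith
      rw [← sq_abs]
      calc |u j / u k - v j / v k| ^ 2 ≤ (1 / (d : ℝ)) ^ 2 :=
            pow_le_pow_left₀ (abs_nonneg _) h5 2
        _ = 1 / (d : ℝ) ^ 2 := by rw [div_pow, one_pow]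
    calc ∑ j, (u j / u k - v j / v k) ^ 2 ≤ ∑ _j : Fin d, 1 / (d : ℝ) ^ 2 :=
          Finset.sum_le_sum fun j _ => h3 j
      _ = d * (1 / (d : ℝ) ^ 2) := by simp
      _ = 1 / d := by field_simp
      _ ≤ 1 := by
        rw [div_le_one hd']
        exact_mod_cast hd

theorem sg_neg {d : ℕ} {u v : Fin d → ℝ} (h : sg u = sg v) :
    sg (fun k => - u k) = sg (fun k => - v k) := by
  funext i
  rw [sg_iff, L_apply, L_apply]
  obtain ⟨j, k, a, b⟩ := i
  have h1 : cf a = ((((a : ℕ) : ℤ) - (d : ℤ) : ℤ) : ℝ) := by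
    unfold cf
    push_cast
    rfl
  have h2 : cf b = ((((b : ℕ) : ℤ) - (d : ℤ) : ℤ) : ℝ) := by
    unfold cf
    push_cast
    rfl
  have h3 := sg_form h j k (a := -(((a : ℕ) : ℤ) - (d : ℤ))) (b := -(((b : ℕ) : ℤ) - (d : ℤ)))
    (by omega) (by omega) (by omega) (by omega)
  simp only [h1, h2]
  rw [Int.cast_neg, Int.cast_neg] at h3
  have h4 : ∀ A B x y : ℝ, A * -x - B * -y = -A * x - -B * y := fun A B x y => by ring
  rw [h4, h4]
  exact h3

theorem sg_cliq {d : ℕ} (hd : 1 ≤ d) {u v : Fin d → ℝ} (h : sg u = sg v)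
    (h1 : ∑ j, u j ^ 2 < 1) (h2 : ∑ j, v j ^ 2 < 1) : ∑ j, (u j - v j) ^ 2 < 1 := by
  haveI : Nonempty (Fin d) := ⟨⟨0, hd⟩⟩
  obtain ⟨k, hk⟩ := Finite.exists_max fun j : Fin d => |u j|
  rcases lt_trichotomy (u k) 0 with h3 | h3 | h3
  · have h4 := sg_pos hd (sg_neg h) k (fun j => by rw [abs_neg, abs_neg]; exact hk j)
      (by linarith) (by simpa using h1) (by simpa using h2)
    calc ∑ j, (u j - v j) ^ 2 = ∑ j, (-u j - -v j) ^ 2 :=
          Finset.sum_congr rfl fun j _ => by ring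
      _ < 1 := h4
  · have h4 : ∀ j, u j = 0 := by
      intro j
      have h5 := hk j
      rw [h3, abs_zero] at h5
      exact abs_eq_zero.1 (le_antisymm h5 (abs_nonneg _))
    simp only [h4, zero_sub, neg_sq]
    exact h2
  · exact sg_pos hd h k hk h3 h1 h2

theorem sg_meas {d : ℕ} : Measurable (sg : (Fin d → ℝ) → I d → Bool) := by
  refine measurable_pi_iff.2 fun i => measurable_to_bool ?_
  have h1 : (fun p : Fin d → ℝ => sg p i) ⁻¹' {true} = {p | 0 < L i p} := by
    ext p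
    simp [sg]
  rw [h1]
  have h2 : Continuous (L i) := (L i).continuous_of_finiteDimensional
  exact (isOpen_lt continuous_const h2).measurableSet

theorem sg_null {d : ℕ} : ∃ D : Set (Fin d → ℝ), IsClosed D ∧ volume D = 0 ∧
    ∀ p, p ∉ D → ∀ᶠ q in 𝓝 p, sg q = sg p := by
  refine ⟨⋃ i : I d, ⋃ _ : L i ≠ 0, ((LinearMap.ker (L i) : Submodule ℝ (Fin d → ℝ)) :
    Set (Fin d → ℝ)), ?_, ?_, ?_⟩
  · refine isClosed_iUnion_of_finite fun i => isClosed_iUnion_of_finite fun _ => ?_
    exact Submodule.closed_of_finiteDimensional _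
  · refine measure_iUnion_null fun i => measure_iUnion_null fun hi => ?_
    refine Measure.addHaar_submodule _ _ ?_
    intro h
    exact hi (LinearMap.ker_eq_top.1 h)
  · intro p hp
    have h1 : ∀ i : I d, ∀ᶠ q in 𝓝 p, sg q i = sg p i := by
      intro i
      by_cases hi : L i = 0
      · refine Eventually.of_forall fun q => ?_
        rw [sg_iff, hi]
        simp
      · have h2 : L i p ≠ 0 := by
          intro h3
          apply hp
          simp only [mem_iUnion]
          exact ⟨i, hi, h3⟩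
        have hc : Continuous (L i) := (L i).continuous_of_finiteDimensional
        rcases lt_or_gt_of_ne h2 with h3 | h3
        · filter_upwards [hc.continuousAt.eventually_lt continuousAt_const h3] with q hq
          rw [sg_iff]
          constructor
          · intro h
            exact absurd h (not_lt.2 hq.le)
          · intro h
            exact absurd h (not_lt.2 h3.le)
        · filter_upwards [continuousAt_const.eventually_lt hc.continuousAt h3] with q hq
          rw [sg_iff]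
          exact ⟨fun _ => h3, fun _ => hq⟩
    filter_upwards [eventually_all.2 h1] with q hq
    exact funext hq

end SECDN

open SECDN in
theorem t_SECD : S_SECD := by
  intro d hd
  let e : (I d → Bool) ≃ Fin (Fintype.card (I d → Bool)) := Fintype.equivFin _
  refine ⟨Fintype.card (I d → Bool), fun p => e (sg p), ?_, ?_, ?_, ?_⟩
  · intro s p hs
    exact congrArg e (sg_hom s p hs)
  · intro u v hu hv huv
    exact sg_cliq hd (e.injective huv) hu hv
  · intro j
    have h1 : (fun p : Fin d → ℝ => e (sg p)) ⁻¹' {j} = sg ⁻¹' {e.symm j} := by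
      ext p
      simp only [mem_preimage, mem_singleton_iff]
      exact (Equiv.eq_symm_apply e).symm
    rw [h1]
    exact sg_meas (measurableSet_singleton _)
  · obtain ⟨D, hD1, hD2, hD3⟩ := sg_null (d := d)
    refine ⟨D, hD1, hD2, fun p hp => ?_⟩
    filter_upwards [hD3 p hp] with q hq
    exact congrArg e hq

end Pool.Agent.H288.HS
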