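import Pool.Agent.H288.HS.Stm2

/-! SER: dominated convergence for power series and derivatives (written by helper94). -/

set_option autoImplicit false

open MeasureTheory Set Filter Topology

namespace Pool.Agent.H288.HS

namespace SERN

theorem pow_le (j k : ℕ) : (k : ℝ) ^ j ≤ (j.factorial : ℝ) * Real.exp 1 ^ k := by
  have h1 := Real.pow_div_factorial_le_exp (k : ℝ) (Nat.cast_nonneg k) j
  have h2 : (0 : ℝ) < j.factorial := by exact_mod_cast j.factorial_pos
  rw [div_le_iff₀ h2] at h1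
  have h3 : Real.exp 1 ^ k = Real.exp k := by
    rw [← Real.exp_nat_mul, mul_one]
  rw [h3]
  linarith

theorem summ (j : ℕ) {B R : ℝ} (hB : 0 ≤ B) (hR : 0 ≤ R) :
    Summable fun k : ℕ => (k : ℝ) ^ j * (B ^ k / (k.factorial : ℝ)) * R ^ k := by
  have h1 : Summable fun k : ℕ => (j.factorial : ℝ) * ((Real.exp 1 * B * R) ^ k / (k.factorial : ℝ)) :=
    (Real.summable_pow_div_factorial _).mul_left _
  refine Summable.of_nonneg_of_le (fun k => by positivity) (fun k => ?_) h1
  calc (k : ℝ) ^ j * (B ^ k / (k.factorial : ℝ)) * R ^ k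
      ≤ ((j.factorial : ℝ) * Real.exp 1 ^ k) * (B ^ k / (k.factorial : ℝ)) * R ^ k := by
        have := pow_le j k
        gcongr
    _ = (j.factorial : ℝ) * ((Real.exp 1 * B * R) ^ k / (k.factorial : ℝ)) := by
        rw [mul_pow, mul_pow]
        ring

/-- the derivative of the power series -/
theorem deriv_ser {B : ℝ} (hB : 0 ≤ B) {c : ℕ → ℝ} (hc : ∀ k, 0 ≤ c k ∧ c k ≤ B ^ k / (k.factorial : ℝ))
    (l : ℂ) : deriv (fun t : ℂ => ∑' k : ℕ, (c k : ℂ) * t ^ k) l =
      ∑' k : ℕ, (c k : ℂ) * ((k : ℂ) * l ^ (k - 1)) := by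
  have hR : 0 ≤ ‖l‖ + 1 := by positivity
  have h := hasDerivAt_tsum_of_isPreconnected (𝕜 := ℂ) (F := ℂ)
    (u := fun k : ℕ => (k : ℝ) ^ 1 * (B ^ k / (k.factorial : ℝ)) * (‖l‖ + 1) ^ k)
    (g := fun (k : ℕ) (t : ℂ) => (c k : ℂ) * t ^ k)
    (g' := fun (k : ℕ) (t : ℂ) => (c k : ℂ) * ((k : ℂ) * t ^ (k - 1)))
    (t := Metric.ball (0 : ℂ) (‖l‖ + 1)) (y₀ := 0) (y := l) (summ 1 hB hR) Metric.isOpen_ball
    (convex_ball _ _).isPreconnected
    (fun k t _ => (hasDerivAt_pow k t).const_mul _)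
    (fun k t ht => by
      rw [mem_ball_zero_iff] at ht
      rw [norm_mul, norm_mul, norm_pow, Complex.norm_real, Complex.norm_natCast, Real.norm_eq_abs,
        abs_of_nonneg (hc k).1, pow_one]
      have e1 : ‖t‖ ^ (k - 1) ≤ (‖l‖ + 1) ^ k := by
        calc ‖t‖ ^ (k - 1) ≤ (‖l‖ + 1) ^ (k - 1) := pow_le_pow_left₀ (norm_nonneg _) ht.le _
          _ ≤ (‖l‖ + 1) ^ k := pow_le_pow_right₀ (by linarith [norm_nonneg l]) (Nat.sub_le _ _)
      calc c k * ((k : ℝ) * ‖t‖ ^ (k - 1)) ≤ (B ^ k / (k.factorial : ℝ)) * ((k : ℝ) * (‖l‖ + 1) ^ k) := by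
            have := (hc k).2
            have h0 := (hc k).1
            have h1 : 0 ≤ B ^ k / (k.factorial : ℝ) := by positivity
            gcongr
        _ = (k : ℝ) * (B ^ k / (k.factorial : ℝ)) * (‖l‖ + 1) ^ k := by ring)
    (by simp [hR.lt_of_ne' (by positivity)])
    (by
      refine summable_of_ne_finset_zero (s := {0}) (fun k hk => ?_)
      rw [Finset.mem_singleton] at hk
      rw [zero_pow hk, mul_zero])
    (by rw [mem_ball_zero_iff]; linarith)
  exact h.deriv

end SERN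

open SERN in
theorem t_SER : S_SER := by
  intro c z B hB hlim hbd
  have hz : ∀ k, 0 ≤ z k ∧ z k ≤ B ^ k / (k.factorial : ℝ) := fun k =>
    ⟨ge_of_tendsto (hlim k) (hbd.mono fun n h => (h k).1), le_of_tendsto (hlim k) (hbd.mono fun n h => (h k).2)⟩
  refine ⟨fun j l => ?_, fun j l => ?_, fun l => ?_⟩
  · refine tendsto_tsum_of_dominated_convergence (summ j hB (norm_nonneg l)) (fun k => ?_) ?_
    · refine Tendsto.mul_const _ (Tendsto.const_mul _ ?_)
      exact (Complex.continuous_ofReal.tendsto _).comp (hlim k)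
    · filter_upwards [hbd] with n hn k
      rw [norm_mul, norm_mul, norm_pow, norm_pow, Complex.norm_real, Complex.norm_natCast,
        Real.norm_eq_abs, abs_of_nonneg (hn k).1]
      have := (hn k).2
      gcongr
  · refine tendsto_tsum_of_dominated_convergence (summ j hB (abs_nonneg l)) (fun k => ?_) ?_
    · exact Tendsto.mul_const _ (Tendsto.const_mul _ (hlim k))
    · filter_upwards [hbd] with n hn k
      rw [norm_mul, norm_mul, norm_pow, norm_pow, Real.norm_eq_abs, Real.norm_eq_abs, Real.norm_eq_abs,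
        abs_of_nonneg (hn k).1, Nat.abs_cast]
      have := (hn k).2
      gcongr
  · rw [deriv_ser hB hz l]
    have h1 : ∀ᶠ n in atTop, ∑' k : ℕ, (c n k : ℂ) * ((k : ℂ) * l ^ (k - 1)) =
        deriv (fun t : ℂ => ∑' k : ℕ, (c n k : ℂ) * t ^ k) l := by
      filter_upwards [hbd] with n hn
      exact (deriv_ser hB hn l).symm
    refine Tendsto.congr' h1 ?_
    have hR : 0 ≤ ‖l‖ + 1 := by positivity
    refine tendsto_tsum_of_dominated_convergence (summ 1 hB hR) (fun k => ?_) ?_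
    · refine Tendsto.mul_const _ ?_
      exact (Complex.continuous_ofReal.tendsto _).comp (hlim k)
    · filter_upwards [hbd] with n hn k
      rw [norm_mul, norm_mul, norm_pow, Complex.norm_real, Complex.norm_natCast,
        Real.norm_eq_abs, abs_of_nonneg (hn k).1, pow_one]
      have e1 : ‖l‖ ^ (k - 1) ≤ (‖l‖ + 1) ^ k := by
        calc ‖l‖ ^ (k - 1) ≤ (‖l‖ + 1) ^ (k - 1) := pow_le_pow_left₀ (norm_nonneg _) (by linarith) _
          _ ≤ (‖l‖ + 1) ^ k := pow_le_pow_right₀ (by linarith [norm_nonneg l]) (Nat.sub_le _ _)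
      calc c n k * ((k : ℝ) * ‖l‖ ^ (k - 1)) ≤ (B ^ k / (k.factorial : ℝ)) * ((k : ℝ) * (‖l‖ + 1) ^ k) := by
            have := (hn k).2
            have h0 := (hn k).1
            have h1 : 0 ≤ B ^ k / (k.factorial : ℝ) := by positivity
            gcongr
        _ = (k : ℝ) * (B ^ k / (k.factorial : ℝ)) * (‖l‖ + 1) ^ k := by ring

end Pool.Agent.H288.HS
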