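import Pool.Agent.H288.HS.Stm2

/-! # Removing a clique -/

set_option autoImplicit false
set_option linter.all false

open MeasureTheory Set Filter Topology

namespace Pool.Agent.H288.HS

namespace STEPN

open Classical in
theorem mem_ind {V : Type} {N : V → V → Prop} {A I : Finset V} :
    I ∈ ind N A ↔ I ⊆ A ∧ Indep N I := by
  unfold ind
  rw [Finset.mem_filter, Finset.mem_powerset]

open Classical in
theorem mem_rem {V : Type} {N : V → V → Prop} {A : Finset V} {x y : V} :
    y ∈ rem N A x ↔ y ∈ A ∧ ¬ N x y := by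
  unfold rem
  rw [Finset.mem_filter]

open Classical in
theorem ind_eq {V : Type} (N : V → V → Prop) (A B Q : Finset V)
    (hs : ∀ x y, N x y → N y x)
    (hA : ∀ z, z ∈ A ↔ z ∈ B ∨ z ∈ Q) (hBQ : ∀ z, z ∈ B → z ∉ Q)
    (hQ : ∀ y ∈ Q, ∀ z ∈ Q, N y z) :
    ind N A = ind N B ∪ Q.biUnion (fun y => (ind N (rem N B y)).image (fun J => insert y J)) := by
  ext I
  rw [Finset.mem_union, Finset.mem_biUnion, mem_ind, mem_ind]
  constructor
  · rintro ⟨hI, hind⟩
    by_cases h : ∃ y ∈ I, y ∈ Q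
    · obtain ⟨y, hyI, hyQ⟩ := h
      right
      refine ⟨y, hyQ, Finset.mem_image.2 ⟨I.erase y, ?_, Finset.insert_erase hyI⟩⟩
      rw [mem_ind]
      refine ⟨fun z hz => ?_, fun a ha b hb hab => hind a (Finset.mem_of_mem_erase ha) b
        (Finset.mem_of_mem_erase hb) hab⟩
      obtain ⟨hzy, hzI⟩ := Finset.mem_erase.1 hz
      have h1 := hind y hyI z hzI (Ne.symm hzy)
      rw [mem_rem]
      rcases (hA z).1 (hI hzI) with h2 | h2
      · exact ⟨h2, h1⟩
      · exact absurd (hQ y hyQ z h2) h1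
    · left
      refine ⟨fun z hz => ?_, hind⟩
      rcases (hA z).1 (hI hz) with h2 | h2
      · exact h2
      · exact absurd ⟨z, hz, h2⟩ h
  · rintro (⟨h1, h2⟩ | ⟨y, hyQ, hy⟩)
    · exact ⟨fun z hz => (hA z).2 (Or.inl (h1 hz)), h2⟩
    · obtain ⟨J, hJ, rfl⟩ := Finset.mem_image.1 hy
      rw [mem_ind] at hJ
      obtain ⟨hJ1, hJ2⟩ := hJ
      refine ⟨fun z hz => ?_, fun a ha b hb hab => ?_⟩
      · rcases Finset.mem_insert.1 hz with h1 | h1
        · rw [h1]
          exact (hA y).2 (Or.inr hyQ)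
        · exact (hA z).2 (Or.inl (mem_rem.1 (hJ1 h1)).1)
      · rcases Finset.mem_insert.1 ha with h1 | h1 <;> rcases Finset.mem_insert.1 hb with h2 | h2
        · exact absurd (h1.trans h2.symm) hab
        · rw [h1]
          exact (mem_rem.1 (hJ1 h2)).2
        · rw [h2]
          exact fun h3 => (mem_rem.1 (hJ1 h1)).2 (hs _ _ h3)
        · exact hJ2 a h1 b h2 hab

end STEPN

open STEPN in
open Classical in
theorem t_STEP : S_STEP := by
  intro V N w A B Q l hr hs hA hBQ hQ
  have hnot : ∀ y ∈ Q, ∀ J ∈ ind N (rem N B y), y ∉ J := by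
    intro y hy J hJ hyJ
    exact hBQ y (mem_rem.1 ((mem_ind.1 hJ).1 hyJ)).1 hy
  unfold Z
  rw [ind_eq N A B Q hs hA hBQ hQ, Finset.sum_union, Finset.sum_biUnion]
  · congr 1
    rw [Finset.mul_sum]
    refine Finset.sum_congr rfl fun y hy => ?_
    rw [Finset.sum_image, Finset.mul_sum]
    · refine Finset.sum_congr rfl fun J hJ => ?_
      rw [Finset.card_insert_of_notMem (hnot y hy J hJ), pow_succ]
      ring
    · intro J hJ J' hJ' h
      have h1 := congrArg (fun K : Finset V => K.erase y) h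
      dsimp only at h1
      rwa [Finset.erase_insert (hnot y hy J hJ), Finset.erase_insert (hnot y hy J' hJ')] at h1
  · intro y hy y' hy' hne
    rw [Function.onFun, Finset.disjoint_left]
    intro I hI hI'
    obtain ⟨J, hJ, rfl⟩ := Finset.mem_image.1 hI
    obtain ⟨J', hJ', h⟩ := Finset.mem_image.1 hI'
    have h1 : y ∈ insert y' J' := by
      rw [h]
      exact Finset.mem_insert_self y J
    rcases Finset.mem_insert.1 h1 with h2 | h2
    · exact hne h2
    · exact hBQ y (mem_rem.1 ((mem_ind.1 hJ').1 h2)).1 hy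
  · rw [Finset.disjoint_left]
    intro I hI hI'
    obtain ⟨y, hy, hI2⟩ := Finset.mem_biUnion.1 hI'
    obtain ⟨J, hJ, rfl⟩ := Finset.mem_image.1 hI2
    exact hBQ y ((mem_ind.1 hI).1 (Finset.mem_insert_self y J)) hy

end Pool.Agent.H288.HS
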