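import Pool.Agent.H288.HS.Stm2

/-!
# SUBD : submultiplicativity of the grid partition function
-/

set_option autoImplicit false

namespace Pool.Agent.H288.HS.SUBDN

open Pool.Agent.H288.HS

/-- the partition function -/
noncomputable def P {V : Type} (N : V → V → Prop) (t : ℝ) (A : Finset V) : ℝ :=
  ∑ I ∈ ind N A, t ^ I.card

theorem mem_ind {V : Type} (N : V → V → Prop) (A I : Finset V) :
    I ∈ ind N A ↔ I ⊆ A ∧ Indep N I := by
  classical
  unfold ind
  rw [Finset.mem_filter, Finset.mem_powerset]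

theorem P_nonneg {V : Type} (N : V → V → Prop) (t : ℝ) (ht : 0 ≤ t) (A : Finset V) :
    0 ≤ P N t A := Finset.sum_nonneg fun _ _ => pow_nonneg ht _

theorem P_mono {V : Type} (N : V → V → Prop) (t : ℝ) (ht : 0 ≤ t) (A B : Finset V)
    (h : A ⊆ B) : P N t A ≤ P N t B := by
  unfold P
  refine Finset.sum_le_sum_of_subset_of_nonneg ?_ fun _ _ _ => pow_nonneg ht _
  intro I hI
  rw [mem_ind] at hI ⊢
  exact ⟨hI.1.trans h, hI.2⟩

theorem P_empty {V : Type} (N : V → V → Prop) (t : ℝ) : P N t (∅ : Finset V) = 1 := by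
  classical
  have : ind N (∅ : Finset V) = {∅} := by
    ext I
    rw [mem_ind, Finset.mem_singleton, Finset.subset_empty]
    constructor
    · exact fun h => h.1
    · rintro rfl
      exact ⟨rfl, fun x hx => absurd hx (Finset.notMem_empty x)⟩
  unfold P
  rw [this, Finset.sum_singleton, Finset.card_empty, pow_zero]

theorem P_union {V : Type} [DecidableEq V] (N : V → V → Prop) (t : ℝ) (ht : 0 ≤ t)
    (A B : Finset V) : P N t (A ∪ B) ≤ P N t A * P N t B := by
  classical
  unfold P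
  rw [Finset.sum_mul_sum, ← Finset.sum_product']
  have h1 : ∑ I ∈ ind N (A ∪ B), t ^ I.card =
      ∑ p ∈ (ind N (A ∪ B)).image (fun I => (I ∩ A, I \ A)), t ^ p.1.card * t ^ p.2.card := by
    rw [Finset.sum_image]
    · refine Finset.sum_congr rfl fun I _ => ?_
      rw [← pow_add, Finset.card_inter_add_card_sdiff]
    · intro I _ J _ h
      have e1 : I ∩ A = J ∩ A := (Prod.mk.inj h).1
      have e2 : I \ A = J \ A := (Prod.mk.inj h).2
      rw [← Finset.sdiff_union_inter I A, ← Finset.sdiff_union_inter J A, e1, e2]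
  rw [h1]
  refine Finset.sum_le_sum_of_subset_of_nonneg ?_ fun _ _ _ =>
    mul_nonneg (pow_nonneg ht _) (pow_nonneg ht _)
  intro p hp
  rw [Finset.mem_image] at hp
  obtain ⟨I, hI, rfl⟩ := hp
  rw [mem_ind] at hI
  rw [Finset.mem_product, mem_ind, mem_ind]
  refine ⟨⟨Finset.inter_subset_right, fun x hx y hy => ?_⟩, ⟨fun x hx => ?_, fun x hx y hy => ?_⟩⟩
  · exact hI.2 x (Finset.mem_inter.1 hx).1 y (Finset.mem_inter.1 hy).1
  · have hx' := Finset.mem_sdiff.1 hx
    exact (Finset.mem_union.1 (hI.1 hx'.1)).resolve_left hx'.2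
  · exact hI.2 x (Finset.mem_sdiff.1 hx).1 y (Finset.mem_sdiff.1 hy).1

theorem P_biUnion {V ι : Type} [DecidableEq V] (N : V → V → Prop) (t : ℝ) (ht : 0 ≤ t)
    (s : Finset ι) (A : ι → Finset V) : P N t (s.biUnion A) ≤ ∏ i ∈ s, P N t (A i) := by
  classical
  induction s using Finset.induction_on with
  | empty =>
    rw [Finset.biUnion_empty, P_empty, Finset.prod_empty]
  | insert i s hi ih =>
    rw [Finset.biUnion_insert, Finset.prod_insert hi]
    exact (P_union N t ht _ _).trans (mul_le_mul_of_nonneg_left ih (P_nonneg N t ht _))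

theorem P_image {V : Type} [DecidableEq V] (N : V → V → Prop) (t : ℝ) (ht : 0 ≤ t)
    (A : Finset V) (e : V → V) (he : Function.Injective e) (hN : ∀ x y, N (e x) (e y) ↔ N x y) :
    P N t (A.image e) ≤ P N t A := by
  classical
  unfold P
  have h1 : ∑ J ∈ ind N A, t ^ J.card = ∑ I ∈ (ind N A).image (fun J => J.image e), t ^ I.card := by
    rw [Finset.sum_image]
    · refine Finset.sum_congr rfl fun J _ => ?_
      rw [Finset.card_image_of_injective _ he]
    · intro I _ J _ h
      exact Finset.image_injective he h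
  rw [h1]
  refine Finset.sum_le_sum_of_subset_of_nonneg ?_ fun _ _ _ => pow_nonneg ht _
  intro I hI
  rw [mem_ind] at hI
  obtain ⟨hIA, hI2⟩ := hI
  obtain ⟨J, hJ, rfl⟩ := Finset.subset_image_iff.1 hIA
  rw [Finset.mem_image]
  refine ⟨J, ?_, rfl⟩
  rw [mem_ind]
  refine ⟨by exact_mod_cast hJ, fun x hx y hy hxy => ?_⟩
  have := hI2 (e x) (Finset.mem_image_of_mem e hx) (e y) (Finset.mem_image_of_mem e hy)
    (fun h => hxy (he h))
  rwa [hN] at this

theorem Mo_eq {V : Type} (N : V → V → Prop) (w : ℝ) (A : Finset V) (l : ℝ) :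
    Mo N w A 0 l = P N (l * w) A := by
  unfold Mo P
  refine Finset.sum_congr rfl fun I _ => ?_
  rw [pow_zero, one_mul]

theorem NB_trans (d : ℕ) (R : ℝ) (n : ℕ) (v x y : Fin d → ℤ) :
    NB d R n (x + v) (y + v) ↔ NB d R n x y := by
  unfold NB
  have : ∀ k, (((x + v) k : ℤ) : ℝ) - (((y + v) k : ℤ) : ℝ) = (x k : ℝ) - (y k : ℝ) := by
    intro k
    simp only [Pi.add_apply, Int.cast_add]
    ring
  simp only [this]

theorem cover (d : ℕ) (L : ℝ) (n M : ℕ) (hL : 0 < L) (hM : 1 ≤ M) :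
    GB d (M * L) n ⊆ (Fintype.piFinset (fun _ : Fin d => Finset.range M)).biUnion
      (fun v => (GB d L n).image
        (fun x => x + fun k => (⌊(n : ℝ) * L⌋ + 1) * (v k : ℤ))) := by
  intro x hx
  unfold GB at hx
  rw [Fintype.mem_piFinset] at hx
  have hnL : (0 : ℝ) ≤ (n : ℝ) * L := by positivity
  have hK0 : 0 ≤ ⌊(n : ℝ) * L⌋ := Int.floor_nonneg.2 hnL
  set K : ℤ := ⌊(n : ℝ) * L⌋ with hK
  have hfl : ⌊(n : ℝ) * (M * L)⌋ < M * (K + 1) := by
    rw [Int.floor_lt]
    push_cast
    have h1 : (n : ℝ) * L < K + 1 := Int.lt_floor_add_one _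
    have hM' : (0 : ℝ) < M := by exact_mod_cast hM
    nlinarith
  rw [Finset.mem_biUnion]
  have hpos : 0 < K + 1 := by omega
  refine ⟨fun k => (x k / (K + 1)).toNat, ?_, ?_⟩
  · rw [Fintype.mem_piFinset]
    intro k
    rw [Finset.mem_range]
    have hk := Finset.mem_Icc.1 (hx k)
    have h1 : 0 ≤ x k / (K + 1) := Int.ediv_nonneg hk.1 hpos.le
    have h2 : x k / (K + 1) < M := Int.ediv_lt_of_lt_mul hpos (by linarith [hk.2])
    omega
  · rw [Finset.mem_image]
    refine ⟨fun k => x k % (K + 1), ?_, ?_⟩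
    · unfold GB
      rw [Fintype.mem_piFinset]
      intro k
      rw [Finset.mem_Icc]
      exact ⟨Int.emod_nonneg _ hpos.ne', by have := Int.emod_lt_of_pos (x k) hpos; omega⟩
    · funext k
      have hk := Finset.mem_Icc.1 (hx k)
      have h1 : 0 ≤ x k / (K + 1) := Int.ediv_nonneg hk.1 hpos.le
      show x k % (K + 1) + (K + 1) * (((x k / (K + 1)).toNat : ℕ) : ℤ) = x k
      rw [Int.toNat_of_nonneg h1]
      exact Int.emod_add_mul_ediv (x k) (K + 1)

end Pool.Agent.H288.HS.SUBDN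

namespace Pool.Agent.H288.HS

open SUBDN

/-- **SUBD** -/
theorem t_SUBD : S_SUBD := by
  intro d R L w n M hL hw hM l hl
  have ht : 0 ≤ l * w := mul_nonneg hl hw
  rw [Mo_eq, Mo_eq]
  refine (P_mono _ _ ht _ _ (cover d L n M hL hM)).trans ?_
  refine (P_biUnion _ _ ht _ _).trans ?_
  have hcard : (Fintype.piFinset (fun _ : Fin d => Finset.range M)).card = M ^ d := by
    rw [Fintype.card_piFinset]
    simp
  rw [← hcard, ← Finset.prod_const]
  refine Finset.prod_le_prod (fun v _ => P_nonneg _ _ ht _) fun v _ => ?_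
  refine P_image _ _ ht _ _ ?_ ?_
  · intro x y h
    exact add_right_cancel h
  · intro x y
    exact NB_trans d R n _ x y

end Pool.Agent.H288.HS
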