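import Pool.Agent.H288.HS.Stm2

/-! Task UP of project HS: measure of the grid neighbourhoods. -/

set_option autoImplicit false

open MeasureTheory Set Filter Topology

namespace Pool.Agent.H288.HS

namespace UPN

theorem sq_le (d : ℕ) (x : Fin d → ℝ) (k : Fin d) : x k ^ 2 ≤ ∑ i, x i ^ 2 :=
  Finset.single_le_sum (f := fun i => x i ^ 2) (fun _ _ => sq_nonneg _) (Finset.mem_univ k)

theorem convex_Bs (d : ℕ) (R : ℝ) : Convex ℝ (Bs d R) := by
  intro x hx y hy a b ha hb hab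
  have hx' : ∑ k, x k ^ 2 < R ^ 2 := hx
  have hy' : ∑ k, y k ^ 2 < R ^ 2 := hy
  show ∑ k, (a • x + b • y) k ^ 2 < R ^ 2
  have h1 : ∑ k, (a • x + b • y) k ^ 2 ≤ ∑ k, (a * x k ^ 2 + b * y k ^ 2) := by
    apply Finset.sum_le_sum
    intro k _
    have h2 : (a • x + b • y) k = a * x k + b * y k := rfl
    rw [h2]
    have hb' : b = 1 - a := by linarith
    subst hb'
    nlinarith [mul_nonneg (mul_nonneg ha hb) (sq_nonneg (x k - y k))]
  rw [Finset.sum_add_distrib, ← Finset.mul_sum, ← Finset.mul_sum] at h1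
  rcases ha.eq_or_lt with h0 | h0
  · have hb1 : b = 1 := by linarith
    refine lt_of_le_of_lt h1 ?_
    rw [← h0, hb1]
    linarith
  · have h3 : a * ∑ k, x k ^ 2 < a * R ^ 2 := mul_lt_mul_of_pos_left hx' h0
    have h4 : b * ∑ k, y k ^ 2 ≤ b * R ^ 2 := mul_le_mul_of_nonneg_left hy'.le hb
    have h5 : a * R ^ 2 + b * R ^ 2 = R ^ 2 := by rw [← add_mul, hab, one_mul]
    linarith

theorem meas_Bs (d : ℕ) (R : ℝ) : MeasurableSet (Bs d R) := by
  have h : IsOpen (Bs d R) := isOpen_lt (by fun_prop) continuous_const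
  exact h.measurableSet

theorem abs_le_Bs (d : ℕ) (R : ℝ) (hR : 0 < R) (x : Fin d → ℝ) (hx : ∑ k, x k ^ 2 < R ^ 2)
    (k : Fin d) : |x k| ≤ R := by
  have h1 := sq_le d x k
  apply le_of_lt
  apply abs_lt_of_sq_lt_sq _ hR.le
  linarith

theorem bdd_Bs (d : ℕ) (R : ℝ) (hR : 0 < R) : Bornology.IsBounded (Bs d R) := by
  apply Metric.isBounded_closedBall (x := (0 : Fin d → ℝ)) (r := R) |>.subset
  intro x hx
  rw [mem_closedBall_zero_iff, pi_norm_le_iff_of_nonneg hR.le]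
  intro k
  rw [Real.norm_eq_abs]
  exact abs_le_Bs d R hR x hx k

theorem fin_grid (d : ℕ) (R : ℝ) (hR : 0 < R) (n : ℕ) (hn : 0 < n) :
    {z : Fin d → ℤ | (fun k => (z k : ℝ) / n) ∈ Bs d R}.Finite := by
  apply (Set.finite_Icc (fun _ : Fin d => -⌈(n : ℝ) * R⌉) (fun _ : Fin d => ⌈(n : ℝ) * R⌉)).subset
  intro z hz
  have hn' : (0 : ℝ) < n := by exact_mod_cast hn
  have h1 : ∀ k, |(z k : ℝ)| ≤ n * R := by
    intro k
    have h2 := abs_le_Bs d R hR (fun k => (z k : ℝ) / n) hz k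
    rw [abs_div, Nat.abs_cast, div_le_iff₀ hn'] at h2
    linarith
  constructor
  · intro k
    have h3 := (abs_le.1 (h1 k)).1
    have h4 := Int.le_ceil ((n : ℝ) * R)
    have h5 : ((-⌈(n : ℝ) * R⌉ : ℤ) : ℝ) ≤ (z k : ℝ) := by
      push_cast
      linarith
    exact_mod_cast h5
  · intro k
    have h3 := (abs_le.1 (h1 k)).2
    have h4 := Int.le_ceil ((n : ℝ) * R)
    have h5 : (z k : ℝ) ≤ ((⌈(n : ℝ) * R⌉ : ℤ) : ℝ) := by linarith
    exact_mod_cast h5

theorem nb_le (d : ℕ) (R : ℝ) (hR : 0 < R) (n : ℕ) (hn : 0 < n) (A : Finset (Fin d → ℤ))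
    (x : Fin d → ℤ) : (nb (NB d R n) A x).card ≤
      {z : Fin d → ℤ | (fun k => (z k : ℝ) / n) ∈ Bs d R}.ncard := by
  classical
  have hn' : (0 : ℝ) < n := by exact_mod_cast hn
  rw [← Set.ncard_coe_finset]
  refine Set.ncard_le_ncard_of_injOn (fun y => x - y) ?_ ?_ (fin_grid d R hR n hn)
  · intro y hy
    rw [Finset.mem_coe, nb, Finset.mem_filter] at hy
    have h1 : ∑ k, ((x k : ℝ) - (y k : ℝ)) ^ 2 < (n * R) ^ 2 := hy.2
    show ∑ k, (((x - y) k : ℤ) / (n : ℝ)) ^ 2 < R ^ 2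
    have h2 : ∀ k, (((x - y) k : ℤ) / (n : ℝ)) ^ 2 = ((x k : ℝ) - (y k : ℝ)) ^ 2 / (n : ℝ) ^ 2 := by
      intro k
      rw [Pi.sub_apply, Int.cast_sub, div_pow]
    rw [Finset.sum_congr rfl (fun k _ => h2 k), ← Finset.sum_div, div_lt_iff₀ (by positivity)]
    rw [mul_pow] at h1
    linarith
  · intro y _ y' _ h
    exact sub_right_injective h

end UPN

theorem t_UP (h : S_CONV) : S_UP := by
  intro d R δ hd hR hδ
  have h1 := h d (Bs d R) hd (UPN.convex_Bs d R) (UPN.meas_Bs d R) (UPN.bdd_Bs d R hR)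
  have h2 : ∀ᶠ n : ℕ in atTop, wt d n *
      ({z : Fin d → ℤ | (fun k => (z k : ℝ) / n) ∈ Bs d R}.ncard : ℝ) < bv d R + δ :=
    h1.eventually_lt_const (by unfold bv; linarith)
  filter_upwards [h2, eventually_gt_atTop 0] with n hn hn0
  have hn' : (0 : ℝ) < n := by exact_mod_cast hn0
  have hw : 0 < wt d n := by
    unfold wt
    positivity
  refine ⟨hw, fun A x => ?_⟩
  refine le_trans (mul_le_mul_of_nonneg_left ?_ hw.le) hn.le
  exact_mod_cast UPN.nb_le d R hR n hn0 A x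

end Pool.Agent.H288.HS
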