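import Pool.Agent.H288.HS.Stm3
import Pool.Agent.H288.HS.T.CONV
import Pool.Agent.H288.HS.T.BV
import Pool.Agent.H288.HS.T.UP

/-! HSW-TOTW (helper665). -/

set_option autoImplicit false

open MeasureTheory Set Filter Topology

namespace Pool.Agent.H288.HS.TOTWN

open Pool.Agent.H288.HS Pool.Agent.H288.HS.CONVN Pool.Agent.H288.HS.BVN

/-- Riemann sums over the grid points of a convex set -/
theorem riemann (d : ℕ) {s : Set (Fin d → ℝ)} (hconv : Convex ℝ s) (hms : MeasurableSet s)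
    (hb : Bornology.IsBounded s) {F : (Fin d → ℝ) → ℝ} (hF : Continuous F) :
    Tendsto (fun n : ℕ => wt d n * ∑' z : Fin d → ℤ,
      s.indicator F (fun k => (z k : ℝ) / n)) atTop (𝓝 (∫ x in s, F x)) := by
  have h1 := tendsto_tsum_div_pow_atTop_integral s F hF hb hms (hconv.addHaar_frontier volume)
  refine h1.congr' ?_
  filter_upwards [eventually_ge_atTop 1] with n hn
  have hn' : (n : ℝ) ≠ 0 := by
    have : n ≠ 0 := by omega
    exact_mod_cast this
  have h2 : Function.Injective (fun (z : Fin d → ℤ) (k : Fin d) => (z k : ℝ) / n) := by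
    intro z z' h
    funext k
    have := congrFun h k
    simp only [div_left_inj' hn', Int.cast_inj] at this
    exact this
  rw [← image_eq d s (by omega), Fintype.card_fin]
  rw [tsum_image F h2.injOn]
  rw [tsum_subtype {z : Fin d → ℤ | (fun k => (z k : ℝ) / n) ∈ s}
    (fun z => F (fun k => (z k : ℝ) / n))]
  unfold wt
  rw [div_eq_mul_one_div, mul_comm]
  rfl

theorem int_Ioi (R : ℝ) (hR : 0 < R) :
    ∫ y in Ioi (0 : ℝ), y ^ (2 - 1) • (if y < R then 19 / 25 + 6 / 25 * (y ^ 2 / R ^ 2) else 0) =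
      R ^ 2 * (22 / 50) := by
  have e1 : ∀ y : ℝ, y ^ (2 - 1) • (if y < R then 19 / 25 + 6 / 25 * (y ^ 2 / R ^ 2) else 0) =
      (Iio R).indicator (fun y => 19 / 25 * y + 6 / 25 * (y ^ 3 / R ^ 2)) y := by
    intro y
    rw [indicator_apply]
    simp only [mem_Iio, smul_eq_mul]
    split_ifs
    · ring
    · ring
  simp_rw [e1]
  rw [setIntegral_indicator measurableSet_Iio, Ioi_inter_Iio, ← integral_Ioc_eq_integral_Ioo,
    ← intervalIntegral.integral_of_le hR.le]
  have e2 : ∫ y in (0 : ℝ)..R, (19 / 25 * y + 6 / 25 * (y ^ 3 / R ^ 2)) =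
      19 / 25 * (R ^ 2 / 2) + 6 / 25 * ((R ^ 4 / 4) / R ^ 2) := by
    rw [intervalIntegral.integral_add (Continuous.intervalIntegrable (by fun_prop) _ _)
      (Continuous.intervalIntegrable (by fun_prop) _ _),
      intervalIntegral.integral_const_mul, intervalIntegral.integral_const_mul,
      intervalIntegral.integral_div, integral_id, integral_pow]
    norm_num
  rw [e2]
  have : R ≠ 0 := hR.ne'
  field_simp
  ring

theorem disc_integral (R : ℝ) (hR : 0 < R) :
    ∫ x in Bs 2 R, (19 / 25 + 6 / 25 * ((∑ k, x k ^ 2) / R ^ 2)) =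
      Real.pi * R ^ 2 * (22 / 25) := by
  classical
  have h1 : ∫ x in Bs 2 R, (19 / 25 + 6 / 25 * ((∑ k, x k ^ 2) / R ^ 2)) =
      ∫ x : EuclideanSpace ℝ (Fin 2), (if ‖x‖ < R then 19 / 25 + 6 / 25 * (‖x‖ ^ 2 / R ^ 2)
        else 0) := by
    rw [← integral_indicator (meas_Bs 2 R)]
    rw [← (PiLp.volume_preserving_ofLp (Fin 2)).integral_comp
      (MeasurableEquiv.toLp 2 (Fin 2 → ℝ)).symm.measurableEmbedding]
    refine integral_congr_ae (Eventually.of_forall fun x => ?_)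
    have e2 : ‖x‖ ^ 2 = ∑ k, (x.ofLp k) ^ 2 := by
      rw [EuclideanSpace.norm_sq_eq]
      simp only [Real.norm_eq_abs, sq_abs]
    have e3 : x.ofLp ∈ Bs 2 R ↔ ‖x‖ < R := by
      rw [← mem_ball_zero_iff, ← pre_Bs 2 R hR]
      rfl
    beta_reduce
    rw [indicator_apply, e2]
    by_cases h : ‖x‖ < R
    · rw [if_pos h, if_pos (e3.2 h)]
    · rw [if_neg h, if_neg (fun h' => h (e3.1 h'))]
  rw [h1]
  have h2 := integral_fun_norm_addHaar (volume : Measure (EuclideanSpace ℝ (Fin 2)))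
    (fun y => if y < R then 19 / 25 + 6 / 25 * (y ^ 2 / R ^ 2) else 0)
  rw [h2, finrank_euclideanSpace_fin, int_Ioi R hR, Measure.real,
    EuclideanSpace.volume_ball_fin_two]
  have h3 : (ENNReal.ofReal 1 ^ 2 * ENNReal.ofReal Real.pi).toReal = Real.pi := by
    rw [ENNReal.ofReal_one, one_pow, one_mul, ENNReal.toReal_ofReal Real.pi_pos.le]
  simp only [nsmul_eq_mul, smul_eq_mul, Nat.cast_ofNat]
  rw [h3]
  ring

end Pool.Agent.H288.HS.TOTWN

namespace Pool.Agent.H288.HS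

open TOTWN

theorem t_TOTW : S_TOTW := by
  classical
  intro R δ hR hδ
  have hF : Continuous (fun x : Fin 2 → ℝ => 19 / 25 + 6 / 25 * ((∑ k, x k ^ 2) / R ^ 2)) := by
    fun_prop
  have h1 := riemann 2 (UPN.convex_Bs 2 R) (BVN.meas_Bs 2 R) (UPN.bdd_Bs 2 R hR) hF
  rw [disc_integral R hR] at h1
  have h2 := h1.eventually (gt_mem_nhds (show Real.pi * R ^ 2 * (22 / 25) <
    Real.pi * R ^ 2 * (22 / 25) + δ by linarith))
  filter_upwards [h2, eventually_ge_atTop 1] with n hn hn1 y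
  have hn0 : (0 : ℝ) < n := by exact_mod_cast hn1
  refine le_trans (le_of_eq ?_) hn.le
  refine congrArg (fun t => wt 2 n * t) ?_
  rw [← (Equiv.addLeft y).tsum_eq]
  refine tsum_congr fun u => ?_
  have e1 : NB 2 R n y (Equiv.addLeft y u) ↔ (fun k => (u k : ℝ) / n) ∈ Bs 2 R := by
    unfold NB Bs
    simp only [Equiv.coe_addLeft, Pi.add_apply, Int.cast_add, mem_setOf_eq]
    have e2 : ∑ k, ((u k : ℝ) / n) ^ 2 = (∑ k, (u k : ℝ) ^ 2) / (n : ℝ) ^ 2 := by
      rw [Finset.sum_div]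
      exact Finset.sum_congr rfl fun k _ => div_pow _ _ _
    rw [e2, div_lt_iff₀ (by positivity), mul_pow, mul_comm (R ^ 2)]
    have e3 : ∑ k, ((y k : ℝ) - ((y k : ℝ) + (u k : ℝ))) ^ 2 = ∑ k, (u k : ℝ) ^ 2 :=
      Finset.sum_congr rfl fun k _ => by ring
    rw [e3]
  rw [indicator_apply]
  by_cases h : (fun k => (u k : ℝ) / n) ∈ Bs 2 R
  · rw [if_pos (e1.2 h), if_pos h]
    unfold gw
    simp only [Equiv.coe_addLeft, Pi.add_apply, Int.cast_add, add_sub_cancel_left]
    have e2 : ∑ k, ((u k : ℝ) / n) ^ 2 = (∑ k, (u k : ℝ) ^ 2) / (n : ℝ) ^ 2 := by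
      rw [Finset.sum_div]
      exact Finset.sum_congr rfl fun k _ => div_pow _ _ _
    rw [e2, mul_pow, div_div]
  · rw [if_neg (fun h' => h (e1.1 h')), if_neg h]

end Pool.Agent.H288.HS
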