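import Pool.Agent.H288.HS.Stm4
import Pool.Agent.H288.HS.T.TOTW

/-! HS3-TOTW3 (helper367): the total weight in dimension three. -/

set_option autoImplicit false

open MeasureTheory Set Filter Topology

namespace Pool.Agent.H288.HS.TOTW3N

open Pool.Agent.H288.HS

theorem ball_integral (h2 : S_RAD3) (R : ℝ) (hR : 0 < R) :
    ∫ x in Bs 3 R, (31 / 40 + 9 / 40 * ((∑ k, x k ^ 2) / R ^ 2)) =
      91 / 75 * Real.pi * R ^ 3 := by
  have h := h2 R (fun t => 31 / 40 + 9 / 40 * (t / R ^ 2)) hR (by fun_prop)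
  rw [h]
  have e1 : ∀ r : ℝ, (31 / 40 + 9 / 40 * (r ^ 2 / R ^ 2)) * r ^ 2 =
      31 / 40 * r ^ 2 + 9 / 40 / R ^ 2 * r ^ 4 := by
    intro r
    ring
  simp_rw [e1]
  rw [intervalIntegral.integral_add (Continuous.intervalIntegrable (by fun_prop) _ _)
    (Continuous.intervalIntegrable (by fun_prop) _ _),
    intervalIntegral.integral_const_mul, intervalIntegral.integral_const_mul,
    integral_pow, integral_pow]
  have : R ≠ 0 := hR.ne'
  norm_num
  field_simp
  ring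

end Pool.Agent.H288.HS.TOTW3N

namespace Pool.Agent.H288.HS

open TOTWN TOTW3N

theorem t_TOTW3 (h2 : S_RAD3) : S_TOTW3 := by
  classical
  intro R δ hR hδ
  have hF : Continuous (fun x : Fin 3 → ℝ => 31 / 40 + 9 / 40 * ((∑ k, x k ^ 2) / R ^ 2)) := by
    fun_prop
  have h1 := riemann 3 (UPN.convex_Bs 3 R) (BVN.meas_Bs 3 R) (UPN.bdd_Bs 3 R hR) hF
  rw [ball_integral h2 R hR] at h1
  have h2 := h1.eventually (gt_mem_nhds (show 91 / 75 * Real.pi * R ^ 3 <
    91 / 75 * Real.pi * R ^ 3 + δ by linarith))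
  filter_upwards [h2, eventually_ge_atTop 1] with n hn hn1 y
  have hn0 : (0 : ℝ) < n := by exact_mod_cast hn1
  refine le_trans (le_of_eq ?_) hn.le
  refine congrArg (fun t => wt 3 n * t) ?_
  rw [← (Equiv.addLeft y).tsum_eq]
  refine tsum_congr fun u => ?_
  have e1 : NB 3 R n y (Equiv.addLeft y u) ↔ (fun k => (u k : ℝ) / n) ∈ Bs 3 R := by
    unfold NB Bs
    simp only [Equiv.coe_addLeft, Pi.add_apply, Int.cast_add, mem_ofPred_eq]
    have e2 : ∑ k, ((u k : ℝ) / n) ^ 2 = (∑ k, (u k : ℝ) ^ 2) / (n : ℝ) ^ 2 := by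
      rw [Finset.sum_div]
      exact Finset.sum_congr rfl fun k _ => div_pow _ _ _
    rw [e2, div_lt_iff₀ (by positivity), mul_pow, mul_comm (R ^ 2)]
    have e3 : ∑ k, ((y k : ℝ) - ((y k : ℝ) + (u k : ℝ))) ^ 2 = ∑ k, (u k : ℝ) ^ 2 :=
      Finset.sum_congr rfl fun k _ => by ring
    rw [e3]
  rw [indicator_apply]
  by_cases h : (fun k => (u k : ℝ) / n) ∈ Bs 3 R
  · rw [if_pos (e1.2 h), if_pos h]
    unfold gw3
    simp only [Equiv.coe_addLeft, Pi.add_apply, Int.cast_add, add_sub_cancel_left]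
    have e2 : ∑ k, ((u k : ℝ) / n) ^ 2 = (∑ k, (u k : ℝ) ^ 2) / (n : ℝ) ^ 2 := by
      rw [Finset.sum_div]
      exact Finset.sum_congr rfl fun k _ => div_pow _ _ _
    rw [e2, mul_pow, div_div]
  · rw [if_neg (fun h' => h (e1.1 h')), if_neg h]

end Pool.Agent.H288.HS
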